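import Mathlib

/-!
# The length-area inequality in an annulus
-/

set_option autoImplicit false

open Set Filter Topology Metric MeasureTheory
open scoped ENNReal Real

namespace Pool.Agent.Hhelper90.BiUniv

/-- Polar coordinates for the Lebesgue integral on the plane. -/
lemma lintegral_polar {f : ℂ → ℝ≥0∞} (hf : Measurable f) :
    ∫⁻ z, f z = ∫⁻ φ in Ioo (-π) π, ∫⁻ ρ in Ioi (0 : ℝ),
      ENNReal.ofReal ρ * f (ρ * Complex.exp (φ * Complex.I)) := by
  have hexp : ∀ p : ℝ × ℝ, Complex.polarCoord.symm p =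
      (p.1 : ℂ) * Complex.exp ((p.2 : ℂ) * Complex.I) := by
    intro p
    rw [Complex.polarCoord_symm_apply, Complex.exp_mul_I]
    push_cast
    ring
  have hmeas : Measurable fun p : ℝ × ℝ =>
      ENNReal.ofReal p.1 * f ((p.1 : ℂ) * Complex.exp ((p.2 : ℂ) * Complex.I)) := by
    apply Measurable.mul (by fun_prop)
    apply hf.comp
    fun_prop
  rw [← Complex.lintegral_comp_polarCoord_symm f, polarCoord_target,
    Measure.volume_eq_prod, ← Measure.prod_restrict]
  simp_rw [hexp, smul_eq_mul]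
  exact lintegral_prod_symm' _ hmeas

lemma norm_mul_exp {ρ φ : ℝ} (hρ : 0 ≤ ρ) : ‖(ρ : ℂ) * Complex.exp (φ * Complex.I)‖ = ρ := by
  rw [norm_mul, Complex.norm_exp_ofReal_mul_I, mul_one, Complex.norm_real, Real.norm_eq_abs,
    abs_of_nonneg hρ]

lemma lintegral_annulus {f : ℂ → ℝ≥0∞} (hf : Measurable f) {r R : ℝ} (hr : 0 < r) :
    ∫⁻ z in {z | r < ‖z‖ ∧ ‖z‖ < R}, f z = ∫⁻ φ in Ioo (-π) π, ∫⁻ ρ in Ioo r R,
      ENNReal.ofReal ρ * f (ρ * Complex.exp (φ * Complex.I)) := by
  have hms : MeasurableSet {z : ℂ | r < ‖z‖ ∧ ‖z‖ < R} :=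
    (measurableSet_lt measurable_const measurable_norm).inter
      (measurableSet_lt measurable_norm measurable_const)
  rw [← lintegral_indicator hms, lintegral_polar (hf.indicator hms)]
  congr 1
  ext φ
  rw [← lintegral_indicator measurableSet_Ioo, ← lintegral_indicator measurableSet_Ioi]
  congr 1
  ext ρ
  by_cases hρ : 0 < ρ
  · rw [indicator_of_mem (show ρ ∈ Ioi (0 : ℝ) from hρ)]
    by_cases h1 : ρ ∈ Ioo r R
    · rw [indicator_of_mem h1, indicator_of_mem]
      simp only [mem_ofPred_eq, norm_mul_exp hρ.le]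
      exact h1
    · rw [indicator_of_notMem h1, indicator_of_notMem, mul_zero]
      simp only [mem_ofPred_eq, norm_mul_exp hρ.le]
      exact h1
  · rw [indicator_of_notMem (show ρ ∉ Ioi (0 : ℝ) from hρ), indicator_of_notMem]
    intro h1
    exact hρ (hr.trans h1.1)

/-- The length-area inequality. -/
theorem length_area {V : ℂ → ℝ} {M : ℂ → ℝ≥0∞} {r R B : ℝ} (hr : 0 < r) (hrR : r < R)
    (hV : ContinuousOn V {z | r ≤ ‖z‖ ∧ ‖z‖ ≤ R}) (hM : Measurable M) (hB0 : 0 ≤ B)
    (hB : ∫⁻ z in {z | r < ‖z‖ ∧ ‖z‖ < R}, M z ≤ ENNReal.ofReal B)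
    (hD : ∀ᵐ (φ : ℝ) ∂(volume.restrict (Ioo (-π) π)), ∃ s : Set ℝ, s.Countable ∧ ∀ ρ ∈ Ioo r R \ s,
      ∃ d : ℝ, HasDerivAt (fun t : ℝ => V (t * Complex.exp (φ * Complex.I))) d ρ ∧
        ENNReal.ofReal (d ^ 2) ≤ M (ρ * Complex.exp (φ * Complex.I))) :
    ∫ φ in Ioo (-π) π, (V (R * Complex.exp (φ * Complex.I)) - V (r * Complex.exp (φ * Complex.I))) ≤
      B / 2 + π * Real.log (R / r) := by
  set m : ℝ → ℝ≥0∞ := fun φ => ∫⁻ ρ in Ioo r R,
    ENNReal.ofReal ρ * M (ρ * Complex.exp (φ * Complex.I)) with hm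
  have hR : 0 < R := hr.trans hrR
  have hmeas2 : Measurable fun p : ℝ × ℝ =>
      ENNReal.ofReal p.2 * M ((p.2 : ℂ) * Complex.exp ((p.1 : ℂ) * Complex.I)) := by
    apply Measurable.mul (by fun_prop)
    apply hM.comp
    fun_prop
  have hmm : Measurable m := by
    exact hmeas2.lintegral_prod_right'
  have hmint : ∫⁻ φ in Ioo (-π) π, m φ ≤ ENNReal.ofReal B := by
    rw [← lintegral_annulus hM hr]
    exact hB
  have hmfin : ∀ᵐ (φ : ℝ) ∂(volume.restrict (Ioo (-π) π)), m φ < ∞ :=
    ae_lt_top hmm (ne_top_of_le_ne_top ENNReal.ofReal_ne_top hmint)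
  have hlog : ∫⁻ ρ in Ioo r R, ENNReal.ofReal (ρ⁻¹) = ENNReal.ofReal (Real.log (R / r)) := by
    have h1 : ∫ ρ in Ioo r R, ρ⁻¹ = Real.log (R / r) := by
      rw [← integral_Ioc_eq_integral_Ioo, ← intervalIntegral.integral_of_le hrR.le,
        integral_inv_of_pos hr hR]
    rw [← h1, ofReal_integral_eq_lintegral_ofReal]
    · have : IntervalIntegrable (fun ρ : ℝ => ρ⁻¹) volume r R := by
        apply intervalIntegral.intervalIntegrable_inv
        · intro x hx
          rw [uIcc_of_le hrR.le] at hx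
          exact (hr.trans_le hx.1).ne'
        · exact continuousOn_id
      rw [intervalIntegrable_iff_integrableOn_Ioo_of_le hrR.le] at this
      exact this
    · filter_upwards [ae_restrict_mem measurableSet_Ioo] with ρ hρ
      exact (inv_pos.mpr (hr.trans hρ.1)).le
  -- the inequality on almost every ray
  have hray : ∀ᵐ (φ : ℝ) ∂(volume.restrict (Ioo (-π) π)),
      V (R * Complex.exp (φ * Complex.I)) - V (r * Complex.exp (φ * Complex.I)) ≤
        ((m φ).toReal + Real.log (R / r)) / 2 := by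
    filter_upwards [hD, hmfin] with φ hφ hmφ
    obtain ⟨s, hs, hds⟩ := hφ
    set f : ℝ → ℝ := fun t => V (t * Complex.exp (φ * Complex.I)) with hf
    have hfc : ContinuousOn f (Icc r R) := by
      apply hV.comp (by fun_prop)
      intro t ht
      simp only [mem_ofPred_eq]
      rw [norm_mul_exp (hr.le.trans ht.1)]
      exact ht
    have hae : ∀ᵐ ρ ∂(volume.restrict (Ioo r R)), ρ ∈ Ioo r R ∧ ρ ∉ s := by
      filter_upwards [ae_restrict_mem measurableSet_Ioo,
        ae_restrict_of_ae (hs.ae_notMem volume)] with ρ h1 h2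
      exact ⟨h1, h2⟩
    -- bound for the derivative
    have hbd : ∀ᵐ ρ ∂(volume.restrict (Ioo r R)), ENNReal.ofReal |deriv f ρ| ≤
        (ENNReal.ofReal ρ * M (ρ * Complex.exp (φ * Complex.I)) + ENNReal.ofReal ρ⁻¹) / 2 := by
      filter_upwards [hae] with ρ hρ
      obtain ⟨d, hd1, hd2⟩ := hds ρ hρ
      have hρ0 : 0 < ρ := hr.trans hρ.1.1
      rw [hd1.deriv]
      have h1 : |d| ≤ (ρ * d ^ 2 + ρ⁻¹) / 2 := by
        have h2 : 0 ≤ (ρ * |d| - 1) ^ 2 := sq_nonneg _
        have h3 : |d| ^ 2 = d ^ 2 := sq_abs d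
        have h4 : 2 * |d| * ρ ≤ (ρ * d ^ 2 + ρ⁻¹) * ρ := by
          rw [add_mul, inv_mul_cancel₀ hρ0.ne']
          have h6 : (ρ * |d| - 1) ^ 2 = ρ * |d| ^ 2 * ρ - 2 * |d| * ρ + 1 := by ring
          rw [h3] at h6
          linarith
        have h5 : 2 * |d| ≤ ρ * d ^ 2 + ρ⁻¹ := le_of_mul_le_mul_right h4 hρ0
        linarith
      calc ENNReal.ofReal |d| ≤ ENNReal.ofReal ((ρ * d ^ 2 + ρ⁻¹) / 2) :=
            ENNReal.ofReal_le_ofReal h1
        _ = (ENNReal.ofReal ρ * ENNReal.ofReal (d ^ 2) + ENNReal.ofReal ρ⁻¹) / 2 := by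
            rw [ENNReal.ofReal_div_of_pos two_pos, ENNReal.ofReal_add (by positivity)
              (by positivity), ENNReal.ofReal_mul hρ0.le]
            norm_num
        _ ≤ _ := by gcongr
    have hsum : ∫⁻ ρ in Ioo r R, (ENNReal.ofReal ρ * M (ρ * Complex.exp (φ * Complex.I)) +
        ENNReal.ofReal ρ⁻¹) / 2 = (m φ + ENNReal.ofReal (Real.log (R / r))) / 2 := by
      have hm1 : Measurable fun ρ : ℝ => ENNReal.ofReal ρ * M (ρ * Complex.exp (φ * Complex.I)) := by
        apply Measurable.mul (by fun_prop)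
        apply hM.comp
        fun_prop
      have hm2 : Measurable fun ρ : ℝ => ENNReal.ofReal ρ⁻¹ := by fun_prop
      simp_rw [ENNReal.div_eq_inv_mul]
      rw [lintegral_const_mul' _ _ (by norm_num), lintegral_add_left hm1, hlog]
    have habs : ∫⁻ ρ in Ioo r R, ENNReal.ofReal |deriv f ρ| ≤
        (m φ + ENNReal.ofReal (Real.log (R / r))) / 2 :=
      (lintegral_mono_ae hbd).trans hsum.le
    have hfin : (m φ + ENNReal.ofReal (Real.log (R / r))) / 2 ≠ ∞ := by
      apply ENNReal.div_ne_top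
      · exact ENNReal.add_ne_top.mpr ⟨hmφ.ne, ENNReal.ofReal_ne_top⟩
      · norm_num
    have hint : IntervalIntegrable (deriv f) volume r R := by
      rw [intervalIntegrable_iff_integrableOn_Ioo_of_le hrR.le]
      refine ⟨(measurable_deriv f).aestronglyMeasurable, ?_⟩
      rw [hasFiniteIntegral_iff_norm]
      simp_rw [Real.norm_eq_abs]
      exact lt_of_le_of_lt habs (lt_top_iff_ne_top.mpr hfin)
    have hftc : ∫ ρ in r..R, deriv f ρ = f R - f r := by
      refine MeasureTheory.integral_eq_of_hasDerivAt_off_countable_of_le f (deriv f) hrR.le hs hfc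
        (fun x hx => ?_) hint
      obtain ⟨d, hd1, -⟩ := hds x hx
      rw [hd1.deriv]
      exact hd1
    have hint' : Integrable (deriv f) (volume.restrict (Ioo r R)) := by
      rw [intervalIntegrable_iff_integrableOn_Ioo_of_le hrR.le] at hint
      exact hint
    have h1 : f R - f r ≤ ∫ ρ in Ioo r R, |deriv f ρ| := by
      rw [← hftc, intervalIntegral.integral_of_le hrR.le, integral_Ioc_eq_integral_Ioo]
      exact integral_mono hint' hint'.abs fun ρ => le_abs_self _
    have h2 : ∫ ρ in Ioo r R, |deriv f ρ| = (∫⁻ ρ in Ioo r R, ENNReal.ofReal |deriv f ρ|).toReal :=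
      integral_eq_lintegral_of_nonneg_ae (Eventually.of_forall fun ρ => abs_nonneg _)
        hint'.abs.aestronglyMeasurable
    have h3 : (∫⁻ ρ in Ioo r R, ENNReal.ofReal |deriv f ρ|).toReal ≤
        ((m φ + ENNReal.ofReal (Real.log (R / r))) / 2).toReal := ENNReal.toReal_mono hfin habs
    have h4 : ((m φ + ENNReal.ofReal (Real.log (R / r))) / 2).toReal =
        ((m φ).toReal + Real.log (R / r)) / 2 := by
      rw [ENNReal.toReal_div, ENNReal.toReal_add hmφ.ne ENNReal.ofReal_ne_top,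
        ENNReal.toReal_ofReal (Real.log_nonneg (by rw [le_div_iff₀ hr]; linarith))]
      norm_num
    rw [h4, ← h2] at h3
    exact h1.trans h3
  -- integrate
  have hcont : ∀ ρ : ℝ, r ≤ ρ → ρ ≤ R →
      Integrable (fun φ : ℝ => V (ρ * Complex.exp (φ * Complex.I)))
        (volume.restrict (Ioo (-π) π)) := by
    intro ρ h1 h2
    have hc : Continuous fun φ : ℝ => V (ρ * Complex.exp (φ * Complex.I)) := by
      rw [← continuousOn_univ]
      apply hV.comp (by fun_prop)
      intro φ _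
      simp only [mem_ofPred_eq]
      rw [norm_mul_exp (hr.le.trans h1)]
      exact ⟨h1, h2⟩
    exact (hc.integrableOn_Icc (a := -π) (b := π)).mono_set Ioo_subset_Icc_self
  have hmi : Integrable (fun φ => (m φ).toReal) (volume.restrict (Ioo (-π) π)) :=
    integrable_toReal_of_lintegral_ne_top hmm.aemeasurable
      (ne_top_of_le_ne_top ENNReal.ofReal_ne_top hmint)
  have hconst : Integrable (fun _ : ℝ => Real.log (R / r)) (volume.restrict (Ioo (-π) π)) :=
    integrable_const _
  have hmono := integral_mono_ae ((hcont R hrR.le le_rfl).sub (hcont r le_rfl hrR.le))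
    ((hmi.add hconst).div_const 2) hray
  refine hmono.trans ?_
  rw [integral_div]
  simp only [Pi.add_apply]
  rw [integral_add hmi hconst, integral_const]
  have h1 : ∫ φ in Ioo (-π) π, (m φ).toReal ≤ B := by
    rw [integral_toReal hmm.aemeasurable hmfin]
    exact ENNReal.toReal_le_of_le_ofReal hB0 hmint
  have h2 : (volume.restrict (Ioo (-π) π)).real univ = 2 * π := by
    rw [measureReal_restrict_apply_univ, Real.volume_real_Ioo_of_le (by linarith [Real.pi_pos])]
    ring
  rw [h2, smul_eq_mul]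
  linarith

end Pool.Agent.Hhelper90.BiUniv
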