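import Mathlib

/-!
# Lifting through a polynomial

Local inverses, uniqueness of lifts, existence of boundary values of inverse branches, and inverse
branches over star shaped domains without critical values.
-/

set_option autoImplicit false

open Polynomial Set Filter Topology Metric

namespace Pool.Agent.Hhelper90.BiUniv

/-- A polynomial is injective near a point which is not critical. -/
lemma exists_injOn {P : ℂ[X]} {z : ℂ} (hz : P.derivative.eval z ≠ 0) :
    ∃ U ∈ 𝓝 z, InjOn (fun x => P.eval x) U := by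
  have h := (P.hasStrictDerivAt z).hasStrictFDerivAt_equiv hz
  exact ⟨_, (h.toOpenPartialHomeomorph _).open_source.mem_nhds
    h.mem_toOpenPartialHomeomorph_source, (h.toOpenPartialHomeomorph _).injOn⟩

/-- Local inverse of a polynomial near a point which is not critical. -/
lemma exists_localInverse {P : ℂ[X]} {z : ℂ} (hz : P.derivative.eval z ≠ 0) :
    ∃ r > 0, ∃ Y : ℂ → ℂ, ContinuousOn Y (ball (P.eval z) r) ∧ Y (P.eval z) = z ∧
      ∀ w ∈ ball (P.eval z) r, P.eval (Y w) = w ∧ P.derivative.eval (Y w) ≠ 0 := by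
  have h := (P.hasStrictDerivAt z).hasStrictFDerivAt_equiv hz
  set e := h.toOpenPartialHomeomorph _ with he
  have hsource : z ∈ e.source := h.mem_toOpenPartialHomeomorph_source
  have hcoe : ∀ x, e x = P.eval x := fun x => rfl
  have htarget : P.eval z ∈ e.target := h.image_mem_toOpenPartialHomeomorph_target
  have hsymm : e.symm (P.eval z) = z := by
    rw [← hcoe]; exact e.left_inv hsource
  have hcont : ContinuousAt e.symm (P.eval z) := e.continuousAt_symm htarget
  have hne : ∀ᶠ w in 𝓝 (P.eval z), P.derivative.eval (e.symm w) ≠ 0 := by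
    have h1 : ContinuousAt (fun w => P.derivative.eval (e.symm w)) (P.eval z) :=
      P.derivative.continuous.continuousAt.comp hcont
    apply h1.eventually_ne
    rw [hsymm]; exact hz
  obtain ⟨r, hr, hball⟩ := Metric.mem_nhds_iff.mp (inter_mem (e.open_target.mem_nhds htarget) hne)
  refine ⟨r, hr, e.symm, e.continuousOn_symm.mono fun w hw => (hball hw).1, hsymm,
    fun w hw => ⟨?_, (hball hw).2⟩⟩
  rw [← hcoe]; exact e.right_inv (hball hw).1

/-- Two continuous lifts through a polynomial which agree at one point of a preconnected set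
agree on it. -/
lemma lift_unique {Y : Type*} [TopologicalSpace Y] {P : ℂ[X]} {A : Set Y}
    (hA : IsPreconnected A) {f g : Y → ℂ} (hf : ContinuousOn f A) (hg : ContinuousOn g A)
    (h : ∀ y ∈ A, P.eval (f y) = P.eval (g y))
    (hcrit : ∀ y ∈ A, P.derivative.eval (f y) ≠ 0)
    {y₀ : Y} (hy₀ : y₀ ∈ A) (he : f y₀ = g y₀) : EqOn f g A := by
  have := isPreconnected_iff_preconnectedSpace.mp hA
  have hF : Continuous (fun y : A => f y) := continuousOn_iff_continuous_domRestrict.mp hf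
  have hG : Continuous (fun y : A => g y) := continuousOn_iff_continuous_domRestrict.mp hg
  have hcl : IsClopen {y : A | f y = g y} := by
    refine ⟨isClosed_eq hF hG, isOpen_iff_mem_nhds.mpr fun y hy => ?_⟩
    obtain ⟨U, hU, hinj⟩ := exists_injOn (hcrit y y.2)
    have h1 : ∀ᶠ x : A in 𝓝 y, f x ∈ U := hF.continuousAt.eventually hU
    have h2 : ∀ᶠ x : A in 𝓝 y, g x ∈ U := by
      have h3 : f y = g y := hy
      rw [h3] at hU
      exact hG.continuousAt.eventually hU
    filter_upwards [h1, h2] with x hx1 hx2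
    exact hinj hx1 hx2 (h x x.2)
  have := hcl.eq_univ ⟨⟨y₀, hy₀⟩, he⟩
  intro y hy
  have hmem : (⟨y, hy⟩ : A) ∈ {y : A | f y = g y} := by rw [this]; trivial
  exact hmem

/-- Polynomials are proper: points mapped near `w₀` are near the fibre of `w₀`. -/
lemma preimage_nhds_subset {P : ℂ[X]} {w₀ : ℂ} {U : Set ℂ} (hU : IsOpen U)
    (h : ∀ z, P.eval z = w₀ → z ∈ U) :
    ∃ V ∈ 𝓝 w₀, ∀ z, P.eval z ∈ V → z ∈ U := by
  have hcl : IsClosed ((fun z => P.eval z) '' Uᶜ) := P.isClosedMap_eval _ hU.isClosed_compl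
  refine ⟨((fun z => P.eval z) '' Uᶜ)ᶜ, hcl.isOpen_compl.mem_nhds ?_, fun z hz => ?_⟩
  · rintro ⟨z, hz, hz'⟩
    exact hz (h z hz')
  · by_contra hcon
    exact hz ⟨z, hcon, rfl⟩

/-- The preimage of a ball under a nonconstant polynomial is relatively compact. -/
lemma isCompact_preimage {P : ℂ[X]} (hP : 0 < P.natDegree) (w₀ : ℂ) (r : ℝ) :
    IsCompact ((fun z => P.eval z) ⁻¹' closedBall w₀ r) := by
  have h1 : Tendsto (fun z : ℂ => ‖P.eval z‖) (cocompact ℂ) atTop :=
    P.tendsto_norm_atTop (natDegree_pos_iff_degree_pos.mp hP) tendsto_norm_cocompact_atTop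
  have h2 : ∀ᶠ z in cocompact ℂ, ‖w₀‖ + r < ‖P.eval z‖ := h1.eventually_gt_atTop _
  have h3 : IsClosed ((fun z => P.eval z) ⁻¹' closedBall w₀ r) :=
    isClosed_closedBall.preimage P.continuous
  rw [Filter.Eventually, mem_cocompact] at h2
  obtain ⟨K, hK, hKs⟩ := h2
  refine hK.of_isClosed_subset h3 fun z hz => ?_
  by_contra hcon
  have h4 := hKs hcon
  have h5 : dist (P.eval z) w₀ ≤ r := hz
  rw [dist_eq_norm] at h5
  have h6 : ‖P.eval z‖ ≤ ‖P.eval z - w₀‖ + ‖w₀‖ := by
    simpa using norm_add_le (P.eval z - w₀) w₀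
  simp only [mem_ofPred_eq] at h4
  linarith

/-- A continuous inverse branch of a nonconstant polynomial has boundary values at points where the
domain is locally connected. -/
lemma exists_tendsto_lift {P : ℂ[X]} (hP : 0 < P.natDegree) {A : Set ℂ} {w₀ : ℂ}
    (hw : w₀ ∈ closure A)
    (hconn : ∀ r > 0, ∃ s ∈ 𝓝 w₀, s ⊆ ball w₀ r ∧ IsPreconnected (A ∩ s)) {F : ℂ → ℂ}
    (hF : ContinuousOn F A) (h : ∀ w ∈ A, P.eval (F w) = w) :
    ∃ y, P.eval y = w₀ ∧ Tendsto F (𝓝[A] w₀) (𝓝 y) := by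
  have hne : (𝓝[A] w₀).NeBot := mem_closure_iff_nhdsWithin_neBot.mp hw
  set 𝒰 : Ultrafilter ℂ := Ultrafilter.of (𝓝[A] w₀) with h𝒰
  have h𝒰le : (𝒰 : Filter ℂ) ≤ 𝓝[A] w₀ := Ultrafilter.of_le _
  have hAmem : A ∈ (𝒰 : Filter ℂ) := h𝒰le self_mem_nhdsWithin
  have hid : Tendsto (fun w => w) (𝒰 : Filter ℂ) (𝓝 w₀) :=
    (h𝒰le.trans nhdsWithin_le_nhds)
  have hPF : Tendsto (fun w => P.eval (F w)) (𝒰 : Filter ℂ) (𝓝 w₀) := by
    refine hid.congr' ?_
    filter_upwards [hAmem] with w hw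
    exact (h w hw).symm
  have hK := isCompact_preimage hP w₀ 1
  have hmem : (𝒰.map F : Filter ℂ) ≤ 𝓟 ((fun z => P.eval z) ⁻¹' closedBall w₀ 1) := by
    rw [le_principal_iff]
    have : ∀ᶠ w in (𝒰 : Filter ℂ), P.eval (F w) ∈ closedBall w₀ 1 :=
      hPF.eventually (closedBall_mem_nhds _ one_pos)
    exact this
  obtain ⟨y, -, hy⟩ := hK.ultrafilter_le_nhds (𝒰.map F) hmem
  have hFy : Tendsto F (𝒰 : Filter ℂ) (𝓝 y) := hy
  have hPy : P.eval y = w₀ :=
    tendsto_nhds_unique (P.continuous.continuousAt.tendsto.comp hFy) hPF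
  refine ⟨y, hPy, ?_⟩
  rw [Metric.tendsto_nhds]
  intro ε hε
  -- isolate the root `y`
  have hfin : {z | P.eval z = w₀}.Finite := by
    have hne0 : P - C w₀ ≠ 0 := by
      intro h0
      have : P = C w₀ := sub_eq_zero.mp h0
      rw [this, natDegree_C] at hP
      exact lt_irrefl _ hP
    refine ((P - C w₀).roots.toFinset.finite_toSet).subset fun z hz => ?_
    simp only [mem_ofPred_eq] at hz
    simp [mem_roots hne0, IsRoot, hz]
  obtain ⟨ε', hε', hiso⟩ : ∃ ε' > 0, ∀ z, P.eval z = w₀ → z ≠ y → ε' < dist z y := by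
    have hfin' : ({z | P.eval z = w₀} \ {y}).Finite := hfin.subset sdiff_subset
    have : y ∉ {z | P.eval z = w₀} \ {y} := by simp
    have hopen : ({z | P.eval z = w₀} \ {y})ᶜ ∈ 𝓝 y := hfin'.isClosed.isOpen_compl.mem_nhds this
    obtain ⟨ρ, hρ, hball⟩ := Metric.mem_nhds_iff.mp hopen
    refine ⟨ρ / 2, by positivity, fun z hz hzy => ?_⟩
    by_contra hcon
    push Not at hcon
    have : z ∈ ball y ρ := by rw [mem_ball]; linarith
    exact hball this ⟨hz, hzy⟩
  set η := min (ε / 2) ε' with hη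
  have hη0 : 0 < η := lt_min (by positivity) hε'
  have hU : IsOpen (ball y η ∪ (closedBall y η)ᶜ) :=
    isOpen_ball.union isClosed_closedBall.isOpen_compl
  obtain ⟨V, hV, hVU⟩ := preimage_nhds_subset (P := P) (w₀ := w₀) hU (by
    intro z hz
    by_cases hzy : z = y
    · left; rw [hzy]; exact mem_ball_self hη0
    · right
      have := hiso z hz hzy
      simp only [mem_compl_iff, mem_closedBall, not_le]
      exact lt_of_le_of_lt (min_le_right _ _) this)
  obtain ⟨δ, hδ, hδV⟩ := Metric.mem_nhds_iff.mp hV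
  obtain ⟨s, hs, hsδ, hsconn⟩ := hconn δ hδ
  have himg : IsPreconnected (F '' (A ∩ s)) := hsconn.image _ (hF.mono inter_subset_left)
  have hsub : F '' (A ∩ s) ⊆ ball y η := by
    refine himg.subset_left_of_subset_union (v := (closedBall y η)ᶜ) isOpen_ball
      isClosed_closedBall.isOpen_compl ?_ ?_ ?_
    · rw [Set.disjoint_left]
      intro z hz hz'
      exact hz' (ball_subset_closedBall hz)
    · rintro _ ⟨w, hw, rfl⟩
      apply hVU
      rw [h w hw.1]
      exact hδV (hsδ hw.2)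
    · have h1 : ∀ᶠ w in (𝒰 : Filter ℂ), F w ∈ ball y η := hFy.eventually (ball_mem_nhds y hη0)
      have h2 : ∀ᶠ w in (𝒰 : Filter ℂ), w ∈ s := hid.eventually hs
      obtain ⟨w, hw1, hw2, hw3⟩ := (h1.and (h2.and hAmem)).exists
      exact ⟨F w, ⟨w, ⟨hw3, hw2⟩, rfl⟩, hw1⟩
  have : A ∩ s ∈ 𝓝[A] w₀ := inter_mem self_mem_nhdsWithin (mem_nhdsWithin_of_mem_nhds hs)
  filter_upwards [this] with w hw
  have := hsub ⟨w, hw, rfl⟩
  rw [mem_ball] at this
  have h3 : η ≤ ε / 2 := min_le_left _ _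
  linarith

/-- Version for convex domains. -/
lemma exists_tendsto_lift_convex {P : ℂ[X]} (hP : 0 < P.natDegree) {A : Set ℂ} (hA : Convex ℝ A)
    {w₀ : ℂ} (hw : w₀ ∈ closure A) {F : ℂ → ℂ}
    (hF : ContinuousOn F A) (h : ∀ w ∈ A, P.eval (F w) = w) :
    ∃ y, P.eval y = w₀ ∧ Tendsto F (𝓝[A] w₀) (𝓝 y) :=
  exists_tendsto_lift hP hw (fun r hr => ⟨ball w₀ r, ball_mem_nhds _ hr, subset_rfl,
    (hA.inter (convex_ball _ _)).isPreconnected⟩) hF h

end Pool.Agent.Hhelper90.BiUniv
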