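import Mathlib
import Pool.Agent.Hhelper90.BiUniv.Lift

/-!
# Inverse branches over the slit plane
-/

set_option autoImplicit false

open Polynomial Set Filter Topology Metric

namespace Pool.Agent.Hhelper90.BiUniv

/-- The ray starting at `v` and going away from the origin. -/
def slit (v : ℂ) : Set ℂ := {w | 1 ≤ (w / v).re ∧ (w / v).im = 0}

lemma mem_slit_iff {v w : ℂ} (hv : v ≠ 0) : w ∈ slit v ↔ ∃ ρ : ℝ, 1 ≤ ρ ∧ w = ρ * v := by
  constructor
  · rintro ⟨h1, h2⟩
    refine ⟨(w / v).re, h1, ?_⟩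
    have : w / v = ((w / v).re : ℂ) := by
      apply Complex.ext <;> simp [h2]
    rw [← this, div_mul_cancel₀ _ hv]
  · rintro ⟨ρ, hρ, rfl⟩
    simp only [slit, mem_ofPred_eq]
    rw [mul_div_cancel_right₀ _ hv]
    simpa using hρ

lemma isClosed_slit (v : ℂ) : IsClosed (slit v) := by
  have h1 : Continuous fun w : ℂ => (w / v).re := by fun_prop
  have h2 : Continuous fun w : ℂ => (w / v).im := by fun_prop
  exact (isClosed_le continuous_const h1).inter (isClosed_eq h2 continuous_const)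

/-- The plane cut along the rays starting at the critical values. -/
def dom (P : ℂ[X]) : Set ℂ := {w | ∀ c, P.derivative.eval c = 0 → w ∉ slit (P.eval c)}

/-- Polynomials with an inverse branch `g` on the unit disc such that all critical points are
boundary values of this branch. -/
structure Good (P : ℂ[X]) (g : ℂ → ℂ) : Prop where
  eval_zero : P.eval 0 = 0
  deriv_zero : P.derivative.eval 0 = 1
  cont : ContinuousOn g (ball 0 1)
  g_zero : g 0 = 0
  lift : ∀ w ∈ ball (0 : ℂ) 1, P.eval (g w) = w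
  crit_norm : ∀ c, P.derivative.eval c = 0 → ‖P.eval c‖ = 1
  crit_lim : ∀ c, P.derivative.eval c = 0 → Tendsto g (𝓝[ball 0 1] (P.eval c)) (𝓝 c)

variable {P : ℂ[X]} {g : ℂ → ℂ}

lemma Good.deriv_ne (h : Good P g) : P.derivative ≠ 0 := by
  intro h0
  have := h.deriv_zero
  rw [h0] at this
  simp at this

lemma Good.natDegree_pos (h : Good P g) : 0 < P.natDegree := by
  rcases Nat.eq_zero_or_pos P.natDegree with h0 | h0
  · exfalso
    apply h.deriv_ne
    rw [eq_C_of_natDegree_eq_zero h0, derivative_C]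
  · exact h0

lemma Good.crit_ne (h : Good P g) {c : ℂ} (hc : P.derivative.eval c = 0) : P.eval c ≠ 0 := by
  intro h0
  have := h.crit_norm c hc
  rw [h0, norm_zero] at this
  exact zero_ne_one this

lemma Good.finite_crit (h : Good P g) : {c | P.derivative.eval c = 0}.Finite := by
  refine (P.derivative.roots.toFinset.finite_toSet).subset fun c hc => ?_
  simp only [mem_ofPred_eq] at hc
  simp [mem_roots h.deriv_ne, IsRoot, hc]

lemma Good.isOpen_dom (h : Good P g) : IsOpen (dom P) := by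
  have : dom P = (⋃ c ∈ {c | P.derivative.eval c = 0}, slit (P.eval c))ᶜ := by
    ext w
    simp [dom]
  rw [this]
  exact (h.finite_crit.isClosed_biUnion fun c _ => isClosed_slit _).isOpen_compl

lemma Good.ball_subset_dom (h : Good P g) : ball 0 1 ⊆ dom P := by
  intro w hw c hc hmem
  rw [mem_slit_iff (h.crit_ne hc)] at hmem
  obtain ⟨ρ, hρ, rfl⟩ := hmem
  rw [mem_ball_zero_iff, norm_mul, h.crit_norm c hc, Complex.norm_real, Real.norm_eq_abs,
    abs_of_pos (by linarith)] at hw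
  linarith

lemma Good.zero_mem_dom (h : Good P g) : (0 : ℂ) ∈ dom P :=
  h.ball_subset_dom (mem_ball_self one_pos)

lemma Good.starConvex (h : Good P g) : StarConvex ℝ 0 (dom P) := by
  rw [starConvex_zero_iff]
  intro w hw t ht0 ht1 c hc hmem
  have hv := h.crit_ne hc
  rw [mem_slit_iff hv] at hmem
  obtain ⟨ρ, hρ, hρw⟩ := hmem
  apply hw c hc
  rw [mem_slit_iff hv]
  have ht : t ≠ 0 := by
    rintro rfl
    rw [zero_smul] at hρw
    have : (ρ : ℂ) ≠ 0 := by
      rw [Ne, Complex.ofReal_eq_zero]; linarith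
    exact (mul_ne_zero this hv) hρw.symm
  have htpos : 0 < t := lt_of_le_of_ne ht0 (Ne.symm ht)
  refine ⟨ρ / t, ?_, ?_⟩
  · rw [le_div_iff₀ htpos]; linarith
  · have htc : (t : ℂ) ≠ 0 := by exact_mod_cast ht
    rw [Complex.real_smul] at hρw
    rw [Complex.ofReal_div, div_mul_eq_mul_div, ← hρw]
    field_simp

lemma Good.isPreconnected_dom (h : Good P g) : IsPreconnected (dom P) :=
  (h.starConvex.isPathConnected h.zero_mem_dom).isConnected.isPreconnected

lemma crit_value_notMem_dom (h : Good P g) {c : ℂ} (hc : P.derivative.eval c = 0) :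
    P.eval c ∉ dom P := by
  intro hmem
  apply hmem c hc
  rw [mem_slit_iff (h.crit_ne hc)]
  exact ⟨1, le_rfl, by simp⟩

lemma Good.not_crit (h : Good P g) {z : ℂ} (hz : P.eval z ∈ dom P) :
    P.derivative.eval z ≠ 0 := fun hc => crit_value_notMem_dom h hc hz

lemma Good.exists_branch (h : Good P g) {ζ : ℂ} (hζ : P.eval ζ = 0) :
    ∃ F : ℂ → ℂ, ContinuousOn F (dom P) ∧ F 0 = ζ ∧ ∀ w ∈ dom P, P.eval (F w) = w := by
  have h1 : ContractibleSpace (dom P) :=
    h.starConvex.contractibleSpace ⟨0, h.zero_mem_dom⟩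
  have h2 : LocallyPathConnectedSpace (dom P) := h.isOpen_dom.locallyPathConnectedSpace
  obtain ⟨F, ⟨hF0, hF⟩, -⟩ := (P.isCoveringMapOn_eval).existsUnique_continuousMap_lifts
    (A := dom P) ⟨Subtype.val, continuous_subtype_val⟩ (a₀ := ⟨0, h.zero_mem_dom⟩) (e₀ := ζ)
    (by simpa using hζ) (by
      rintro ⟨w, hw⟩
      rintro ⟨c, hc, hcw⟩
      simp only [ContinuousMap.coe_mk] at hcw
      exact crit_value_notMem_dom h hc (by rw [hcw]; exact hw))
  classical
  refine ⟨fun w => if hw : w ∈ dom P then F ⟨w, hw⟩ else 0, ?_, ?_, ?_⟩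
  · rw [continuousOn_iff_continuous_domRestrict]
    refine F.continuous.congr fun w => ?_
    simp [Set.domRestrict]
  · simp only [h.zero_mem_dom, dite_true]
    exact hF0
  · intro w hw
    simp only [hw, dite_true]
    have := congrFun hF ⟨w, hw⟩
    simpa using this

open Classical in
/-- The inverse branch on the slit plane starting at `ζ`. -/
noncomputable def br (P : ℂ[X]) (ζ : ℂ) : ℂ → ℂ :=
  if h : ∃ F : ℂ → ℂ, ContinuousOn F (dom P) ∧ F 0 = ζ ∧ ∀ w ∈ dom P, P.eval (F w) = w then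
    h.choose else 0

lemma Good.br_spec (h : Good P g) {ζ : ℂ} (hζ : P.eval ζ = 0) :
    ContinuousOn (br P ζ) (dom P) ∧ br P ζ 0 = ζ ∧ ∀ w ∈ dom P, P.eval (br P ζ w) = w := by
  have hex := h.exists_branch hζ
  unfold br
  rw [dif_pos hex]
  exact hex.choose_spec

lemma Good.br_cont (h : Good P g) {ζ : ℂ} (hζ : P.eval ζ = 0) :
    ContinuousOn (br P ζ) (dom P) := (h.br_spec hζ).1

lemma Good.br_zero (h : Good P g) {ζ : ℂ} (hζ : P.eval ζ = 0) : br P ζ 0 = ζ := (h.br_spec hζ).2.1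

lemma Good.eval_br (h : Good P g) {ζ : ℂ} (hζ : P.eval ζ = 0) {w : ℂ} (hw : w ∈ dom P) :
    P.eval (br P ζ w) = w := (h.br_spec hζ).2.2 w hw

lemma Good.deriv_br_ne (h : Good P g) {ζ : ℂ} (hζ : P.eval ζ = 0) {w : ℂ} (hw : w ∈ dom P) :
    P.derivative.eval (br P ζ w) ≠ 0 := by
  apply h.not_crit
  rwa [h.eval_br hζ hw]

lemma Good.br_continuousAt (h : Good P g) {ζ : ℂ} (hζ : P.eval ζ = 0) {w : ℂ} (hw : w ∈ dom P) :
    ContinuousAt (br P ζ) w := (h.br_cont hζ).continuousAt (h.isOpen_dom.mem_nhds hw)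

lemma Good.br_hasDerivAt (h : Good P g) {ζ : ℂ} (hζ : P.eval ζ = 0) {w : ℂ} (hw : w ∈ dom P) :
    HasDerivAt (br P ζ) (P.derivative.eval (br P ζ w))⁻¹ w := by
  refine HasDerivAt.of_local_left_inverse (f := fun z => P.eval z) (h.br_continuousAt hζ hw)
    (P.hasDerivAt _) (h.deriv_br_ne hζ hw) ?_
  filter_upwards [h.isOpen_dom.mem_nhds hw] with w' hw'
  exact h.eval_br hζ hw'

/-- Uniqueness of continuous inverse branches on connected subsets of the slit plane. -/
lemma Good.branch_unique (h : Good P g) {A : Set ℂ} (hA : IsPreconnected A) (hAd : A ⊆ dom P)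
    {F G : ℂ → ℂ} (hF : ContinuousOn F A) (hG : ContinuousOn G A)
    (hPF : ∀ w ∈ A, P.eval (F w) = w) (hPG : ∀ w ∈ A, P.eval (G w) = w) {w₀ : ℂ} (hw₀ : w₀ ∈ A)
    (he : F w₀ = G w₀) : EqOn F G A := by
  refine lift_unique (P := P) hA hF hG (fun y hy => by rw [hPF y hy, hPG y hy]) (fun y hy => ?_)
    hw₀ he
  apply h.not_crit
  rw [hPF y hy]
  exact hAd hy

lemma Good.br_inj (h : Good P g) {ζ η : ℂ} (hζ : P.eval ζ = 0) (hη : P.eval η = 0) {w w' : ℂ}
    (hw : w ∈ dom P) (hw' : w' ∈ dom P) (he : br P ζ w = br P η w') : ζ = η ∧ w = w' := by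
  have h1 : w = w' := by
    rw [← h.eval_br hζ hw, ← h.eval_br hη hw', he]
  subst h1
  have h2 := h.branch_unique h.isPreconnected_dom subset_rfl (h.br_cont hζ) (h.br_cont hη)
    (fun w hw => h.eval_br hζ hw) (fun w hw => h.eval_br hη hw) hw he
  have h3 := h2 h.zero_mem_dom
  rw [h.br_zero hζ, h.br_zero hη] at h3
  exact ⟨h3, rfl⟩

lemma Good.br_eq_of_continuousOn (h : Good P g) {ζ : ℂ} (hζ : P.eval ζ = 0) {A : Set ℂ}
    (hA : IsPreconnected A) (hAd : A ⊆ dom P) (h0 : (0 : ℂ) ∈ A) {F : ℂ → ℂ}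
    (hF : ContinuousOn F A) (hPF : ∀ w ∈ A, P.eval (F w) = w) (hF0 : F 0 = ζ) :
    EqOn (br P ζ) F A :=
  h.branch_unique hA hAd ((h.br_cont hζ).mono hAd) hF (fun w hw => h.eval_br hζ (hAd hw)) hPF h0
    (by rw [h.br_zero hζ, hF0])

lemma Good.br_root (h : Good P g) : EqOn (br P 0) g (ball 0 1) :=
  h.br_eq_of_continuousOn h.eval_zero (convex_ball _ _).isPreconnected h.ball_subset_dom
    (mem_ball_self one_pos) h.cont h.lift h.g_zero

/-- The zeros of the polynomial. -/
noncomputable def zeros (P : ℂ[X]) : Finset ℂ := P.roots.toFinset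

lemma Good.ne_zero (h : Good P g) : P ≠ 0 := by
  intro h0
  have := h.natDegree_pos
  rw [h0] at this
  simp at this

lemma Good.mem_zeros (h : Good P g) {ζ : ℂ} : ζ ∈ zeros P ↔ P.eval ζ = 0 := by
  simp [zeros, mem_roots h.ne_zero, IsRoot]

lemma Good.sub_ne_zero (h : Good P g) (w : ℂ) : P - C w ≠ 0 := by
  intro h0
  have h1 : P = C w := sub_eq_zero.mp h0
  have := h.natDegree_pos
  rw [h1, natDegree_C] at this
  exact lt_irrefl _ this

lemma natDegree_sub_C' (P : ℂ[X]) (w : ℂ) : (P - C w).natDegree = P.natDegree :=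
  natDegree_sub_C

lemma Good.nodup_roots (h : Good P g) {w : ℂ} (hw : w ∈ dom P) : (P - C w).roots.Nodup := by
  rw [Multiset.nodup_iff_count_le_one]
  intro z
  rw [count_roots]
  by_contra hcon
  push Not at hcon
  have h1 : 1 < (P - C w).rootMultiplicity z := hcon
  have h2 := (one_lt_rootMultiplicity_iff_isRoot (h.sub_ne_zero w)).mp h1
  obtain ⟨h3, h4⟩ := h2
  simp only [IsRoot, derivative_sub, derivative_C, sub_zero, eval_sub, eval_C] at h3 h4
  have h5 : P.eval z = w := sub_eq_zero.mp h3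
  exact h.not_crit (by rw [h5]; exact hw) h4

lemma card_roots_sub (_h : Good P g) (w : ℂ) :
    Multiset.card (P - C w).roots = P.natDegree := by
  rw [← natDegree_sub_C' P w]
  exact (splits_iff_card_roots.mp (IsAlgClosed.splits _))

lemma Good.card_zeros (h : Good P g) : (zeros P).card = P.natDegree := by
  have h1 := h.nodup_roots h.zero_mem_dom
  have h2 := card_roots_sub h 0
  rw [C_0, sub_zero] at h1 h2
  rw [zeros, Multiset.toFinset_card_of_nodup h1, h2]

lemma Good.roots_eq (h : Good P g) {w : ℂ} (hw : w ∈ dom P) :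
    (P - C w).roots = (zeros P).val.map fun ζ => br P ζ w := by
  have hinj : Set.InjOn (fun ζ => br P ζ w) (zeros P : Set ℂ) := by
    intro ζ hζ η hη he
    exact (h.br_inj (h.mem_zeros.mp hζ) (h.mem_zeros.mp hη) hw hw he).1
  have hnd : ((zeros P).val.map fun ζ => br P ζ w).Nodup :=
    Multiset.Nodup.map_on (fun ζ hζ η hη he => hinj hζ hη he) (zeros P).nodup
  have hle : ((zeros P).val.map fun ζ => br P ζ w) ≤ (P - C w).roots := by
    rw [Multiset.le_iff_subset hnd]
    intro z hz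
    rw [Multiset.mem_map] at hz
    obtain ⟨ζ, hζ, rfl⟩ := hz
    rw [mem_roots (h.sub_ne_zero w), IsRoot, eval_sub, eval_C,
      h.eval_br (h.mem_zeros.mp hζ) hw, sub_self]
  symm
  apply Multiset.eq_of_le_of_card_le hle
  rw [card_roots_sub h, Multiset.card_map]
  exact h.card_zeros.ge

lemma Good.exists_br_eq (h : Good P g) {z : ℂ} (hz : P.eval z ∈ dom P) :
    ∃ ζ ∈ zeros P, br P ζ (P.eval z) = z := by
  have h1 : z ∈ (P - C (P.eval z)).roots := by
    rw [mem_roots (h.sub_ne_zero _), IsRoot, eval_sub, eval_C, sub_self]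
  rw [h.roots_eq hz, Multiset.mem_map] at h1
  obtain ⟨ζ, hζ, he⟩ := h1
  exact ⟨ζ, hζ, he⟩

lemma Good.eval_sub_eq (h : Good P g) {w : ℂ} (hw : w ∈ dom P) (z : ℂ) :
    P.eval z - w = P.leadingCoeff * ∏ ζ ∈ zeros P, (z - br P ζ w) := by
  have h1 := (IsAlgClosed.splits (P - C w)).eval_eq_prod_roots z
  have h2 : (P - C w).leadingCoeff = P.leadingCoeff := by
    apply leadingCoeff_sub_of_degree_lt
    exact lt_of_le_of_lt degree_C_le (natDegree_pos_iff_degree_pos.mp h.natDegree_pos)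
  rw [h2, h.roots_eq hw, Multiset.map_map] at h1
  simpa using h1

end Pool.Agent.Hhelper90.BiUniv
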