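import Mathlib
import Pool.Agent.Hhelper90.BiUniv.Sheets

/-!
# How the sheets are glued
-/

set_option autoImplicit false

open Polynomial Set Filter Topology Metric

namespace Pool.Agent.Hhelper90.BiUniv

variable {P : ℂ[X]} {g : ℂ → ℂ}

/-- The sheet of `ζ` has the critical point `c` on its boundary. -/
def Hits (P : ℂ[X]) (ζ c : ℂ) : Prop := Tendsto (br P ζ) (𝓝[ball 0 1] (P.eval c)) (𝓝 c)

lemma mem_closure_unit_ball {v : ℂ} (hv : ‖v‖ = 1) : v ∈ closure (ball (0 : ℂ) 1) := by
  rw [closure_ball _ one_ne_zero, mem_closedBall_zero_iff, hv]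

lemma nhdsWithin_neBot {v : ℂ} (hv : ‖v‖ = 1) : (𝓝[ball (0 : ℂ) 1] v).NeBot :=
  mem_closure_iff_nhdsWithin_neBot.mp (mem_closure_unit_ball hv)

lemma Good.exists_boundary_value (h : Good P g) {ζ : ℂ} (hζ : P.eval ζ = 0) {v : ℂ}
    (hv : ‖v‖ = 1) : ∃ y, P.eval y = v ∧ Tendsto (br P ζ) (𝓝[ball 0 1] v) (𝓝 y) :=
  exists_tendsto_lift_convex h.natDegree_pos (convex_ball _ _) (mem_closure_unit_ball hv)
    ((h.br_cont hζ).mono h.ball_subset_dom) fun _ hw => h.eval_br hζ (h.ball_subset_dom hw)

lemma Good.hits_zero (h : Good P g) {c : ℂ} (hc : P.derivative.eval c = 0) : Hits P 0 c := by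
  refine (h.crit_lim c hc).congr' ?_
  filter_upwards [self_mem_nhdsWithin] with w hw
  exact (h.br_root hw).symm

lemma Good.crit_inj (h : Good P g) {c c' : ℂ} (hc : P.derivative.eval c = 0)
    (hc' : P.derivative.eval c' = 0) (he : P.eval c = P.eval c') : c = c' := by
  have h1 := h.hits_zero hc
  have h2 := h.hits_zero hc'
  unfold Hits at h1 h2
  rw [← he] at h2
  have := nhdsWithin_neBot (h.crit_norm c hc)
  exact tendsto_nhds_unique h1 h2

lemma Good.card_hits (h : Good P g) {c : ℂ} (hc : P.derivative.eval c = 0) [DecidablePred (Hits P · c)] :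
    ((zeros P).filter (Hits P · c)).card = P.derivative.rootMultiplicity c + 1 := by
  classical
  set v := P.eval c with hv
  have hv1 : ‖v‖ = 1 := h.crit_norm c hc
  have hne := nhdsWithin_neBot hv1
  have hex : ∀ ζ ∈ zeros P, ∃ y, P.eval y = v ∧ Tendsto (br P ζ) (𝓝[ball 0 1] v) (𝓝 y) :=
    fun ζ hζ => h.exists_boundary_value (h.mem_zeros.mp hζ) hv1
  choose! y hy hlim using hex
  have hprod : ∀ z, P.eval z - v = P.leadingCoeff * ∏ ζ ∈ zeros P, (z - y ζ) := by
    intro z
    have h1 : Tendsto (fun w => P.eval z - w) (𝓝[ball 0 1] v) (𝓝 (P.eval z - v)) :=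
      (tendsto_const_nhds.sub tendsto_id).mono_left nhdsWithin_le_nhds
    have h2 : Tendsto (fun w => P.leadingCoeff * ∏ ζ ∈ zeros P, (z - br P ζ w))
        (𝓝[ball 0 1] v) (𝓝 (P.leadingCoeff * ∏ ζ ∈ zeros P, (z - y ζ))) := by
      apply Tendsto.const_mul
      apply tendsto_finsetProd
      intro ζ hζ
      exact (hlim ζ hζ).const_sub z
    refine tendsto_nhds_unique h1 (h2.congr' ?_)
    filter_upwards [self_mem_nhdsWithin] with w hw
    exact (h.eval_sub_eq (h.ball_subset_dom hw) z).symm
  have hpoly : P - C v = C P.leadingCoeff * ((zeros P).val.map fun ζ => X - C (y ζ)).prod := by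
    apply Polynomial.funext
    intro z
    rw [eval_sub, eval_C, hprod z, eval_mul, eval_C, eval_multiset_prod, Multiset.map_map]
    congr 1
    change _ = ∏ ζ ∈ zeros P, eval z (X - C (y ζ))
    exact Finset.prod_congr rfl fun ζ _ => by simp
  have hroots : (P - C v).roots = (zeros P).val.map y := by
    rw [hpoly, roots_C_mul _ (by simpa using h.ne_zero)]
    have hmm : (zeros P).val.map (fun ζ => X - C (y ζ)) =
        ((zeros P).val.map y).map fun a => X - C a := by
      rw [Multiset.map_map]; rfl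
    rw [hmm]
    exact roots_multiset_prod_X_sub_C _
  have hcount : (P - C v).rootMultiplicity c = ((zeros P).filter (Hits P · c)).card := by
    rw [← count_roots, hroots, Multiset.count_map, ← Finset.filter_val, Finset.card_val]
    congr 1
    apply Finset.filter_congr
    intro ζ hζ
    constructor
    · intro he
      have h5 := hlim ζ hζ
      rw [← he] at h5
      exact h5
    · intro he
      exact tendsto_nhds_unique he (hlim ζ hζ)
  have hroot : (P - C v).IsRoot c := by
    rw [IsRoot, eval_sub, eval_C, sub_self]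
  have hder := derivative_rootMultiplicity_of_root hroot
  rw [derivative_sub, derivative_C, sub_zero] at hder
  have hpos : 0 < (P - C v).rootMultiplicity c :=
    (rootMultiplicity_pos (h.sub_ne_zero v)).mpr hroot
  rw [← hcount, hder]
  omega

lemma slit_ball_preconnected {v : ℂ} (hv : ‖v‖ = 1) {r : ℝ} (hr : 0 < r) :
    IsPreconnected (ball v r \ slit v) := by
  have hv0 : v ≠ 0 := by
    rintro rfl
    rw [norm_zero] at hv
    exact zero_ne_one hv
  set s : ℝ := min (r / 2) 1 with hs
  have hs0 : 0 < s := lt_min (by positivity) one_pos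
  have hsr : s < r := lt_of_le_of_lt (min_le_left _ _) (by linarith)
  set a : ℂ := ((1 - s : ℝ) : ℂ) * v with ha
  have hav : a / v = ((1 - s : ℝ) : ℂ) := by rw [ha, mul_div_cancel_right₀ _ hv0]
  have haball : a ∈ ball v r := by
    rw [mem_ball, dist_eq_norm]
    have : a - v = ((-s : ℝ) : ℂ) * v := by rw [ha]; push_cast; ring
    rw [this, norm_mul, hv, mul_one, Complex.norm_real, Real.norm_eq_abs, abs_neg,
      abs_of_pos hs0]
    exact hsr
  have hamem : a ∈ ball v r \ slit v := by
    refine ⟨haball, fun hmem => ?_⟩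
    have h1 := hmem.1
    rw [hav, Complex.ofReal_re] at h1
    linarith
  have hstar : StarConvex ℝ a (ball v r \ slit v) := by
    intro w hw α β hα hβ hαβ
    refine ⟨(convex_ball v r) haball hw.1 hα hβ hαβ, fun hmem => hw.2 ?_⟩
    obtain ⟨h1, h2⟩ := hmem
    have h3 : (α • a + β • w) / v = ((α * (1 - s) : ℝ) : ℂ) + ((β : ℝ) : ℂ) * (w / v) := by
      rw [Complex.real_smul, Complex.real_smul, add_div, mul_div_assoc, hav, mul_div_assoc]
      push_cast; ring
    rw [h3] at h1 h2
    simp only [Complex.add_re, Complex.ofReal_re, Complex.mul_re, Complex.ofReal_im, zero_mul,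
      sub_zero, Complex.add_im, Complex.mul_im, add_zero, zero_add] at h1 h2
    have hβ0 : β ≠ 0 := by
      rintro rfl
      have : α = 1 := by linarith
      rw [this] at h1
      linarith
    have hβpos : 0 < β := lt_of_le_of_ne hβ (Ne.symm hβ0)
    refine ⟨?_, ?_⟩
    · have : β * 1 ≤ β * (w / v).re := by nlinarith
      exact le_of_mul_le_mul_left this hβpos
    · exact (mul_eq_zero.mp h2).resolve_left hβ0
  exact (hstar.isPathConnected hamem).isConnected.isPreconnected

/-- Near a critical value the slit plane is a slit disc. -/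
lemma Good.exists_dom_inter_ball (h : Good P g) {c : ℂ} (hc : P.derivative.eval c = 0) {R : ℝ}
    (hR : 0 < R) : ∃ r > 0, r ≤ R ∧ dom P ∩ ball (P.eval c) r = ball (P.eval c) r \ slit (P.eval c) := by
  set v := P.eval c with hv
  have hv1 : ‖v‖ = 1 := h.crit_norm c hc
  have hcl : IsClosed (⋃ c' ∈ {c' | P.derivative.eval c' = 0 ∧ P.eval c' ≠ v}, slit (P.eval c')) :=
    (h.finite_crit.subset fun c' hc' => hc'.1).isClosed_biUnion fun c' _ => isClosed_slit _
  have hvn : v ∉ ⋃ c' ∈ {c' | P.derivative.eval c' = 0 ∧ P.eval c' ≠ v}, slit (P.eval c') := by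
    simp only [mem_ofPred_eq, mem_iUnion, exists_prop, not_exists, not_and, and_imp]
    intro c' hc' hne hmem
    rw [mem_slit_iff (h.crit_ne hc')] at hmem
    obtain ⟨ρ, hρ, he⟩ := hmem
    have h1 : ‖v‖ = ρ := by
      rw [he, norm_mul, h.crit_norm c' hc', mul_one, Complex.norm_real, Real.norm_eq_abs,
        abs_of_pos (by linarith)]
    rw [hv1] at h1
    rw [← h1] at he
    apply hne
    rw [he]; simp
  obtain ⟨r, hr, hball⟩ := Metric.mem_nhds_iff.mp (hcl.isOpen_compl.mem_nhds hvn)
  refine ⟨min r R, lt_min hr hR, min_le_right _ _, ?_⟩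
  ext w
  constructor
  · rintro ⟨h1, h2⟩
    exact ⟨h2, h1 c hc⟩
  · rintro ⟨h1, h2⟩
    refine ⟨fun c' hc' hmem => ?_, h1⟩
    by_cases he : P.eval c' = v
    · rw [he] at hmem; exact h2 hmem
    · have h3 := hball (ball_subset_ball (min_le_left _ _) h1)
      apply h3
      simp only [mem_ofPred_eq, mem_iUnion, exists_prop]
      exact ⟨c', ⟨hc', he⟩, hmem⟩

/-- Lifts over open convex sets without critical values. -/
lemma exists_lift_of_convex (P : ℂ[X]) {A : Set ℂ} (hA : Convex ℝ A) (hAo : IsOpen A)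
    (hAc : ∀ c, P.derivative.eval c = 0 → P.eval c ∉ A) {w₀ z₀ : ℂ} (hw₀ : w₀ ∈ A)
    (hz₀ : P.eval z₀ = w₀) :
    ∃ F : ℂ → ℂ, ContinuousOn F A ∧ F w₀ = z₀ ∧ ∀ w ∈ A, P.eval (F w) = w := by
  have h1 : ContractibleSpace A := hA.contractibleSpace ⟨w₀, hw₀⟩
  have h2 : LocallyPathConnectedSpace A := hAo.locallyPathConnectedSpace
  obtain ⟨F, ⟨hF0, hF⟩, -⟩ := (P.isCoveringMapOn_eval).existsUnique_continuousMap_lifts
    (A := A) ⟨Subtype.val, continuous_subtype_val⟩ (a₀ := ⟨w₀, hw₀⟩) (e₀ := z₀)
    (by simpa using hz₀) (by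
      rintro ⟨w, hw⟩
      rintro ⟨c, hc, hcw⟩
      simp only [ContinuousMap.coe_mk] at hcw
      exact hAc c hc (by rw [hcw]; exact hw))
  classical
  refine ⟨fun w => if hw : w ∈ A then F ⟨w, hw⟩ else 0, ?_, ?_, ?_⟩
  · rw [continuousOn_iff_continuous_domRestrict]
    refine F.continuous.congr fun w => ?_
    simp [Set.domRestrict]
  · simp only [hw₀, dite_true]
    exact hF0
  · intro w hw
    simp only [hw, dite_true]
    have := congrFun hF ⟨w, hw⟩
    simpa using this

/-- A cone with apex `v` around the ray from `v` away from the origin. -/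
def cone (v : ℂ) (κ : ℝ) : Set ℂ := {w | |(w / v).im| < κ * ((w / v).re - 1)}

/-- Linear functionals used for cones. -/
lemma div_re_convex (v : ℂ) : IsLinearMap ℝ fun w : ℂ => (w / v).re :=
  ⟨fun x y => by rw [add_div, Complex.add_re], fun r x => by
    rw [Complex.real_smul, mul_div_assoc, Complex.re_ofReal_mul, smul_eq_mul]⟩

lemma div_im_convex (v : ℂ) : IsLinearMap ℝ fun w : ℂ => (w / v).im :=
  ⟨fun x y => by rw [add_div, Complex.add_im], fun r x => by
    rw [Complex.real_smul, mul_div_assoc, Complex.im_ofReal_mul, smul_eq_mul]⟩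

lemma convex_cone (v : ℂ) (κ : ℝ) : Convex ℝ (cone v κ) := by
  have : cone v κ = {w | (w / v).im - κ * (w / v).re < -κ} ∩
      {w | -(w / v).im - κ * (w / v).re < -κ} := by
    ext w
    simp only [cone, mem_ofPred_eq, mem_inter_iff, abs_lt]
    constructor
    · rintro ⟨h1, h2⟩
      constructor <;> linarith
    · rintro ⟨h1, h2⟩
      constructor <;> linarith
  rw [this]
  refine Convex.inter ?_ ?_
  · apply convex_halfSpace_lt
    exact ⟨fun x y => by rw [(div_im_convex v).map_add, (div_re_convex v).map_add]; ring,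
      fun r x => by rw [(div_im_convex v).map_smul, (div_re_convex v).map_smul]; simp; ring⟩
  · apply convex_halfSpace_lt
    exact ⟨fun x y => by rw [(div_im_convex v).map_add, (div_re_convex v).map_add]; ring,
      fun r x => by rw [(div_im_convex v).map_smul, (div_re_convex v).map_smul]; simp; ring⟩

lemma isOpen_cone (v : ℂ) (κ : ℝ) : IsOpen (cone v κ) := by
  apply isOpen_lt
  · fun_prop
  · fun_prop

end Pool.Agent.Hhelper90.BiUniv
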