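import Mathlib
import Pool.Agent.Hhelper90.BiUniv.Labels

/-!
# How the sheets are glued, continued
-/

set_option autoImplicit false

open Polynomial Set Filter Topology Metric

namespace Pool.Agent.Hhelper90.BiUniv

variable {P : ℂ[X]} {g : ℂ → ℂ}

/-- There is a cone around the slit of `c` which meets no other slit. -/
lemma Good.exists_cone (h : Good P g) {c : ℂ} (hc : P.derivative.eval c = 0) :
    ∃ κ > 0, ∀ w ∈ cone (P.eval c) κ, (w / P.eval c).im ≠ 0 → w ∈ dom P := by
  set v := P.eval c with hv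
  have hv1 : ‖v‖ = 1 := h.crit_norm c hc
  have hv0 : v ≠ 0 := h.crit_ne hc
  have hev : ∀ᶠ κ : ℝ in 𝓝[>] 0, ∀ c' ∈ {c' | P.derivative.eval c' = 0},
      (P.eval c' / v).im ≠ 0 → κ < |(P.eval c' / v).im| := by
    rw [Filter.eventually_all_finite h.finite_crit]
    intro c' _
    by_cases h0 : (P.eval c' / v).im = 0
    · filter_upwards with κ hκ
      exact absurd h0 hκ
    · have : ∀ᶠ κ : ℝ in 𝓝 0, κ < |(P.eval c' / v).im| :=
        eventually_lt_nhds (abs_pos.mpr h0)
      filter_upwards [nhdsWithin_le_nhds this] with κ hκ _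
      exact hκ
  obtain ⟨κ, hκ1, hκ0⟩ := (hev.and self_mem_nhdsWithin).exists
  refine ⟨κ, hκ0, fun w hw him c' hc' hmem => ?_⟩
  have hκ0' : (0 : ℝ) < κ := hκ0
  rw [mem_slit_iff (h.crit_ne hc')] at hmem
  obtain ⟨ρ, hρ, rfl⟩ := hmem
  have h1 : (ρ : ℂ) * P.eval c' / v = (ρ : ℂ) * (P.eval c' / v) := by ring
  simp only [cone, mem_ofPred_eq] at hw
  rw [h1, Complex.im_ofReal_mul] at him
  rw [h1, Complex.im_ofReal_mul, Complex.re_ofReal_mul, abs_mul, abs_of_pos (by linarith)] at hw
  have h2 := hκ1 c' hc' (fun h0 => him (by rw [h0, mul_zero]))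
  have h3 : (P.eval c' / v).re ≤ 1 := by
    have h4 := Complex.re_le_norm (P.eval c' / v)
    rwa [norm_div, hv1, h.crit_norm c' hc', div_one] at h4
  have h5 : ρ * κ < ρ * |(P.eval c' / v).im| := by
    apply mul_lt_mul_of_pos_left h2; linarith
  have h6 : κ * (ρ * (P.eval c' / v).re - 1) ≤ κ * (ρ - 1) := by
    apply mul_le_mul_of_nonneg_left _ hκ0'.le
    nlinarith
  nlinarith

lemma one_lt_norm_of_mem_cone {v w : ℂ} {κ : ℝ} (hv : ‖v‖ = 1) (hκ : 0 < κ) (hw : w ∈ cone v κ) :
    1 < (w / v).re ∧ 1 < ‖w‖ := by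
  simp only [cone, mem_ofPred_eq] at hw
  have h1 : 0 < κ * ((w / v).re - 1) := lt_of_le_of_lt (abs_nonneg _) hw
  have h2 : 0 < (w / v).re - 1 := by
    rcases pos_and_pos_or_neg_and_neg_of_mul_pos h1 with h | h
    · exact h.2
    · linarith [h.1]
  refine ⟨by linarith, ?_⟩
  have h4 := Complex.re_le_norm (w / v)
  rw [norm_div, hv, div_one] at h4
  linarith

/-- If a sheet does not hit the critical point `c` then it extends across the slit of `c`. -/
lemma Good.exists_extension (h : Good P g) {ζ : ℂ} (hζ : P.eval ζ = 0) {c : ℂ}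
    (hc : P.derivative.eval c = 0) (hnot : ¬ Hits P ζ c) {w₀ : ℂ} (hw₀ : w₀ ∈ slit (P.eval c)) :
    ∃ U ∈ 𝓝 w₀, ∃ y : ℂ → ℂ, ContinuousOn y U ∧ (∀ w ∈ U, P.eval (y w) = w) ∧
      EqOn (br P ζ) y (U ∩ dom P) ∧ P.derivative.eval (y w₀) ≠ 0 := by
  set v := P.eval c with hv
  have hv1 : ‖v‖ = 1 := h.crit_norm c hc
  have hv0 : v ≠ 0 := h.crit_ne hc
  have hne := nhdsWithin_neBot hv1
  obtain ⟨y₀, hy₀, hlim⟩ := h.exists_boundary_value hζ hv1
  have hcr : P.derivative.eval y₀ ≠ 0 := by
    intro h0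
    have : y₀ = c := h.crit_inj h0 hc hy₀
    rw [this] at hlim
    exact hnot hlim
  obtain ⟨r₁, hr₁, Y, hYc, hYv, hY⟩ := exists_localInverse hcr
  rw [hy₀] at hYc hYv hY
  obtain ⟨r, hr, hrr₁, hball⟩ := h.exists_dom_inter_ball hc hr₁
  rw [← hv] at hball
  have hsub : ball v r ⊆ ball v r₁ := ball_subset_ball hrr₁
  have hpre : IsPreconnected (dom P ∩ ball v r) := by
    rw [hball]; exact slit_ball_preconnected hv1 hr
  -- the branch agrees with the local inverse near `v`
  have hYcv : ContinuousAt Y v := hYc.continuousAt (ball_mem_nhds v hr₁)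
  obtain ⟨V, hV, hVinj⟩ := exists_injOn hcr
  have hagree : ∃ w ∈ dom P ∩ ball v r, br P ζ w = Y w := by
    have h1 : ∀ᶠ w in 𝓝[ball 0 1] v, br P ζ w ∈ V := hlim.eventually hV
    have h2 : ∀ᶠ w in 𝓝[ball 0 1] v, Y w ∈ V := by
      apply nhdsWithin_le_nhds
      apply hYcv.eventually
      rw [hYv]; exact hV
    have h3 : ∀ᶠ w in 𝓝[ball 0 1] v, w ∈ ball v r :=
      nhdsWithin_le_nhds (ball_mem_nhds v hr)
    have h4 : ∀ᶠ w in 𝓝[ball 0 1] v, w ∈ ball (0 : ℂ) 1 := self_mem_nhdsWithin
    obtain ⟨w, hw1, hw2, hw3, hw4⟩ := (h1.and (h2.and (h3.and h4))).exists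
    have hwd := h.ball_subset_dom hw4
    refine ⟨w, ⟨hwd, hw3⟩, hVinj hw1 hw2 ?_⟩
    simp only
    rw [h.eval_br hζ hwd, (hY w (hsub hw3)).1]
  obtain ⟨w₁, hw₁, hw₁e⟩ := hagree
  have hEq : EqOn (br P ζ) Y (dom P ∩ ball v r) :=
    h.branch_unique hpre inter_subset_left ((h.br_cont hζ).mono inter_subset_left)
      (hYc.mono (inter_subset_right.trans hsub)) (fun w hw => h.eval_br hζ hw.1)
      (fun w hw => (hY w (hsub hw.2)).1) hw₁ hw₁e
  rw [mem_slit_iff hv0] at hw₀
  obtain ⟨ρ, hρ, rfl⟩ := hw₀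
  rcases eq_or_lt_of_le hρ with hρ1 | hρ1
  · -- the endpoint of the slit
    subst hρ1
    rw [Complex.ofReal_one, one_mul]
    refine ⟨ball v r, ball_mem_nhds v hr, Y, hYc.mono hsub, fun w hw => (hY w (hsub hw)).1, ?_, ?_⟩
    · rw [inter_comm]; exact hEq
    · rw [hYv]; exact hcr
  · obtain ⟨κ, hκ, hcone⟩ := h.exists_cone hc
    rw [← hv] at hcone
    -- a lift over the cone
    set s : ℝ := r / 2 with hs
    have hs0 : 0 < s := by positivity
    have hq1 : ((1 + s : ℝ) : ℂ) * v ∈ ball v r := by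
      rw [mem_ball, dist_eq_norm]
      have : ((1 + s : ℝ) : ℂ) * v - v = ((s : ℝ) : ℂ) * v := by push_cast; ring
      rw [this, norm_mul, hv1, mul_one, Complex.norm_real, Real.norm_eq_abs, abs_of_pos hs0]
      linarith
    have hq1c : ((1 + s : ℝ) : ℂ) * v ∈ cone v κ := by
      simp only [cone, mem_ofPred_eq]
      rw [mul_div_cancel_right₀ _ hv0, Complex.ofReal_im, Complex.ofReal_re, abs_zero]
      have : (1 + s - 1) = s := by ring
      rw [this]; positivity
    have hKc : ∀ c', P.derivative.eval c' = 0 → P.eval c' ∉ cone v κ := by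
      intro c' hc' hmem
      have := (one_lt_norm_of_mem_cone hv1 hκ hmem).2
      rw [h.crit_norm c' hc'] at this
      exact lt_irrefl _ this
    obtain ⟨y, hyc, hy1, hyP⟩ := exists_lift_of_convex P (convex_cone v κ) (isOpen_cone v κ) hKc
      hq1c (hY _ (hsub hq1)).1
    -- it agrees with the local inverse near `v`
    have hyY : EqOn Y y (cone v κ ∩ ball v r) := by
      refine lift_unique (P := P) ((convex_cone v κ).inter (convex_ball v r)).isPreconnected
        (hYc.mono (inter_subset_right.trans hsub)) (hyc.mono inter_subset_left)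
        (fun w hw => ?_) (fun w hw => (hY w (hsub hw.2)).2) ⟨hq1c, hq1⟩ hy1.symm
      rw [(hY w (hsub hw.2)).1, hyP w hw.1]
    -- and with the branch on both halves of the cone
    have hhalf : ∀ σ : ℝ, (σ = 1 ∨ σ = -1) →
        EqOn (br P ζ) y (cone v κ ∩ {w | 0 < σ * (w / v).im}) := by
      intro σ hσ
      have hσ2 : σ * σ = 1 := by rcases hσ with rfl | rfl <;> norm_num
      have hσabs : |σ| = 1 := by rcases hσ with rfl | rfl <;> norm_num
      have hconv : Convex ℝ (cone v κ ∩ {w | 0 < σ * (w / v).im}) := by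
        apply (convex_cone v κ).inter
        have := convex_halfSpace_gt (𝕜 := ℝ) (f := fun w : ℂ => σ * (w / v).im)
          ⟨fun x y => by rw [(div_im_convex v).map_add]; ring,
            fun r x => by rw [(div_im_convex v).map_smul]; simp; ring⟩ 0
        exact this
      have hsubd : cone v κ ∩ {w | 0 < σ * (w / v).im} ⊆ dom P := by
        rintro w ⟨hw1, hw2⟩
        apply hcone w hw1
        intro h0
        simp only [mem_ofPred_eq, h0, mul_zero, lt_self_iff_false] at hw2
      set t : ℝ := min (s / 2) (κ * s / 2) with ht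
      have ht0 : 0 < t := lt_min (by positivity) (by positivity)
      set q : ℂ := (((1 + s : ℝ) : ℂ) + ((σ * t : ℝ) : ℂ) * Complex.I) * v with hq
      have hqv : q / v = ((1 + s : ℝ) : ℂ) + ((σ * t : ℝ) : ℂ) * Complex.I := by
        rw [hq, mul_div_cancel_right₀ _ hv0]
      have hqre : (q / v).re = 1 + s := by
        rw [hqv]; simp
      have hqim : (q / v).im = σ * t := by
        rw [hqv]; simp
      have hqc : q ∈ cone v κ := by
        simp only [cone, mem_ofPred_eq]
        rw [hqre, hqim, abs_mul, hσabs, one_mul, abs_of_pos ht0]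
        have : t ≤ κ * s / 2 := min_le_right _ _
        have h5 : 0 < κ * s := by positivity
        have h6 : κ * (1 + s - 1) = κ * s := by ring
        rw [h6]; linarith
      have hqb : q ∈ ball v r := by
        rw [mem_ball, dist_eq_norm]
        have : q - v = (((s : ℝ) : ℂ) + ((σ * t : ℝ) : ℂ) * Complex.I) * v := by
          rw [hq]; push_cast; ring
        rw [this, norm_mul, hv1, mul_one]
        refine lt_of_le_of_lt (norm_add_le _ _) ?_
        rw [norm_mul, Complex.norm_I, mul_one, Complex.norm_real, Complex.norm_real,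
          Real.norm_eq_abs, Real.norm_eq_abs, abs_of_pos hs0, abs_mul, hσabs, one_mul,
          abs_of_pos ht0]
        have : t ≤ s / 2 := min_le_left _ _
        linarith
      have hqh : q ∈ cone v κ ∩ {w | 0 < σ * (w / v).im} := by
        refine ⟨hqc, ?_⟩
        simp only [mem_ofPred_eq]
        rw [hqim, ← mul_assoc, hσ2, one_mul]
        exact ht0
      refine h.branch_unique hconv.isPreconnected hsubd ((h.br_cont hζ).mono hsubd)
        (hyc.mono inter_subset_left) (fun w hw => h.eval_br hζ (hsubd hw))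
        (fun w hw => hyP w hw.1) hqh ?_
      rw [hEq ⟨hsubd hqh, hqb⟩, hyY ⟨hqc, hqb⟩]
    refine ⟨cone v κ, (isOpen_cone v κ).mem_nhds ?_, y, hyc, hyP, ?_, ?_⟩
    · simp only [cone, mem_ofPred_eq]
      rw [mul_div_cancel_right₀ _ hv0, Complex.ofReal_im, Complex.ofReal_re, abs_zero]
      have : 0 < ρ - 1 := by linarith
      positivity
    · rintro w ⟨hw1, hw2⟩
      rcases lt_trichotomy ((w / v).im) 0 with h0 | h0 | h0
      · apply hhalf (-1) (Or.inr rfl) ⟨hw1, _⟩
        simp only [mem_ofPred_eq]; linarith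
      · exfalso
        apply hw2 c hc
        exact ⟨(one_lt_norm_of_mem_cone hv1 hκ hw1).1.le, h0⟩
      · apply hhalf 1 (Or.inl rfl) ⟨hw1, _⟩
        simp only [mem_ofPred_eq]; linarith
    · intro h0
      have h5 : ((ρ : ℝ) : ℂ) * v ∈ cone v κ := by
        simp only [cone, mem_ofPred_eq]
        rw [mul_div_cancel_right₀ _ hv0, Complex.ofReal_im, Complex.ofReal_re, abs_zero]
        have : 0 < ρ - 1 := by linarith
        positivity
      have h6 := h.crit_norm _ h0
      rw [hyP _ h5] at h6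
      have := (one_lt_norm_of_mem_cone hv1 hκ h5).2
      linarith

end Pool.Agent.Hhelper90.BiUniv
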