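import Mathlib
import Pool.Agent.Hhelper90.BiUniv.Glue

/-!
# Adjacent sheets and labels
-/

set_option autoImplicit false

open Polynomial Set Filter Topology Metric

namespace Pool.Agent.Hhelper90.BiUniv

variable {P : ℂ[X]} {g : ℂ → ℂ}

/-- The sheet of `ζ`, a subset of the plane. -/
noncomputable def sheet (P : ℂ[X]) (ζ : ℂ) : Set ℂ := br P ζ '' dom P

lemma Good.mem_sheet_iff (h : Good P g) {ζ z : ℂ} (hζ : P.eval ζ = 0) :
    z ∈ sheet P ζ ↔ P.eval z ∈ dom P ∧ br P ζ (P.eval z) = z := by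
  constructor
  · rintro ⟨w, hw, rfl⟩
    rw [h.eval_br hζ hw]
    exact ⟨hw, rfl⟩
  · rintro ⟨h1, h2⟩
    exact ⟨P.eval z, h1, h2⟩

lemma Good.isOpen_sheet (h : Good P g) {ζ : ℂ} (hζ : P.eval ζ = 0) : IsOpen (sheet P ζ) := by
  rw [isOpen_iff_mem_nhds]
  intro z hz
  obtain ⟨h1, h2⟩ := (h.mem_sheet_iff hζ).mp hz
  obtain ⟨V, hV, hinj⟩ := exists_injOn (h.not_crit h1)
  have hPz : ContinuousAt (fun x => P.eval x) z := P.continuous.continuousAt
  have e1 : ∀ᶠ x in 𝓝 z, P.eval x ∈ dom P := hPz.eventually (h.isOpen_dom.mem_nhds h1)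
  have hcomp : Tendsto (fun x => br P ζ (P.eval x)) (𝓝 z) (𝓝 (br P ζ (P.eval z))) :=
    ContinuousAt.comp (h.br_continuousAt hζ h1) hPz
  rw [h2] at hcomp
  have e2 : ∀ᶠ x in 𝓝 z, br P ζ (P.eval x) ∈ V := hcomp.eventually hV
  filter_upwards [e1, e2, hV] with x hx1 hx2 hx3
  rw [h.mem_sheet_iff hζ]
  refine ⟨hx1, hinj hx2 hx3 ?_⟩
  simp only
  exact h.eval_br hζ hx1

lemma Good.disjoint_sheet (h : Good P g) {ζ η : ℂ} (hζ : P.eval ζ = 0) (hη : P.eval η = 0)
    (hne : ζ ≠ η) : Disjoint (sheet P ζ) (sheet P η) := by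
  rw [Set.disjoint_left]
  rintro z ⟨w, hw, rfl⟩ ⟨w', hw', he⟩
  exact hne (h.br_inj hη hζ hw' hw he).1.symm

lemma Good.exists_seq (h : Good P g) {ζ z : ℂ} (hζ : P.eval ζ = 0)
    (hz : z ∈ closure (sheet P ζ)) :
    ∃ w : ℕ → ℂ, (∀ n, w n ∈ dom P) ∧ Tendsto w atTop (𝓝 (P.eval z)) ∧
      Tendsto (fun n => br P ζ (w n)) atTop (𝓝 z) := by
  obtain ⟨x, hx, hlim⟩ := mem_closure_iff_seq_limit.mp hz
  have h1 : ∀ n, P.eval (x n) ∈ dom P ∧ br P ζ (P.eval (x n)) = x n :=
    fun n => (h.mem_sheet_iff hζ).mp (hx n)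
  refine ⟨fun n => P.eval (x n), fun n => (h1 n).1,
    (P.continuous.tendsto z).comp hlim, ?_⟩
  refine hlim.congr fun n => ?_
  exact (h1 n).2.symm

lemma Good.mem_sheet_of_mem_closure (h : Good P g) {ζ z : ℂ} (hζ : P.eval ζ = 0)
    (hz : z ∈ closure (sheet P ζ)) (hd : P.eval z ∈ dom P) : z ∈ sheet P ζ := by
  obtain ⟨w, -, h2, h3⟩ := h.exists_seq hζ hz
  rw [h.mem_sheet_iff hζ]
  refine ⟨hd, ?_⟩
  exact tendsto_nhds_unique ((h.br_continuousAt hζ hd).tendsto.comp h2) h3

lemma notMem_dom {P : ℂ[X]} {w : ℂ} (hw : w ∉ dom P) :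
    ∃ c, P.derivative.eval c = 0 ∧ w ∈ slit (P.eval c) := by
  simp only [dom, mem_ofPred_eq, not_forall, not_not] at hw
  obtain ⟨c, hc, hw⟩ := hw
  exact ⟨c, hc, hw⟩

/-- Key gluing statement: a common boundary point of two different sheets lies over the slit of a
critical point which is on the boundary of both sheets. -/
lemma Good.hits_of_adjacent (h : Good P g) {ζ η z : ℂ} (hζ : P.eval ζ = 0) (hη : P.eval η = 0)
    (hne : ζ ≠ η) (hz : z ∈ closure (sheet P ζ)) (hz' : z ∈ closure (sheet P η)) {c : ℂ}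
    (hc : P.derivative.eval c = 0) (hzc : P.eval z ∈ slit (P.eval c)) : Hits P ζ c := by
  by_contra hnot
  obtain ⟨U, hU, y, hyc, hyP, hyE, hycr⟩ := h.exists_extension hζ hc hnot hzc
  obtain ⟨w, hw1, hw2, hw3⟩ := h.exists_seq hζ hz
  have hyat : ContinuousAt y (P.eval z) := hyc.continuousAt hU
  have e1 : ∀ᶠ n in atTop, w n ∈ U := hw2.eventually hU
  have hzy : y (P.eval z) = z := by
    refine tendsto_nhds_unique (hyat.tendsto.comp hw2) (hw3.congr' ?_)
    filter_upwards [e1] with n hn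
    exact hyE ⟨hn, hw1 n⟩
  rw [hzy] at hycr
  obtain ⟨V, hV, hinj⟩ := exists_injOn hycr
  obtain ⟨w', hw1', hw2', hw3'⟩ := h.exists_seq hη hz'
  have e2 : ∀ᶠ n in atTop, w' n ∈ U := hw2'.eventually hU
  have e3 : ∀ᶠ n in atTop, br P η (w' n) ∈ V := hw3'.eventually hV
  have e4 : ∀ᶠ n in atTop, y (w' n) ∈ V := by
    have : Tendsto (fun n => y (w' n)) atTop (𝓝 (y (P.eval z))) := hyat.tendsto.comp hw2'
    rw [hzy] at this
    exact this.eventually hV
  obtain ⟨n, hn2, hn3, hn4⟩ := (e2.and (e3.and e4)).exists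
  have h5 : br P η (w' n) = y (w' n) := by
    apply hinj hn3 hn4
    simp only
    rw [h.eval_br hη (hw1' n), hyP _ hn2]
  rw [← hyE ⟨hn2, hw1' n⟩] at h5
  exact hne (h.br_inj hζ hη (hw1' n) (hw1' n) h5.symm).1

lemma Good.adjacent_notMem_dom (h : Good P g) {ζ η z : ℂ} (hζ : P.eval ζ = 0) (hη : P.eval η = 0)
    (hne : ζ ≠ η) (hz : z ∈ closure (sheet P ζ)) (hz' : z ∈ closure (sheet P η)) :
    P.eval z ∉ dom P := by
  intro hd
  have h1 := h.mem_sheet_of_mem_closure hζ hz hd
  have h2 := h.mem_sheet_of_mem_closure hη hz' hd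
  exact Set.disjoint_left.mp (h.disjoint_sheet hζ hη hne) h1 h2

lemma Good.dense_dom (h : Good P g) (w : ℂ) : w ∈ closure (dom P) := by
  by_cases hw : w ∈ dom P
  · exact subset_closure hw
  have hw0 : w ≠ 0 := by
    rintro rfl
    exact hw h.zero_mem_dom
  have hlim : Tendsto (fun t : ℝ => w * (1 + (t : ℂ) * Complex.I)) (𝓝[>] 0) (𝓝 w) := by
    have : Continuous fun t : ℝ => w * (1 + (t : ℂ) * Complex.I) := by fun_prop
    have h2 := this.tendsto 0
    simp only [Complex.ofReal_zero, zero_mul, add_zero, mul_one] at h2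
    exact h2.mono_left nhdsWithin_le_nhds
  apply mem_closure_of_tendsto hlim
  have hev : ∀ᶠ t : ℝ in 𝓝[>] 0, ∀ c ∈ {c | P.derivative.eval c = 0},
      w * (1 + (t : ℂ) * Complex.I) ∉ slit (P.eval c) := by
    rw [Filter.eventually_all_finite h.finite_crit]
    intro c hc
    set a := w / P.eval c with ha
    have ha0 : a ≠ 0 := div_ne_zero hw0 (h.crit_ne hc)
    have him : ∀ t : ℝ, (w * (1 + (t : ℂ) * Complex.I) / P.eval c).im = a.im + t * a.re := by
      intro t
      have : w * (1 + (t : ℂ) * Complex.I) / P.eval c = a * (1 + (t : ℂ) * Complex.I) := by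
        rw [ha]; ring
      rw [this]
      simp
      ring
    by_cases h0 : a.im = 0
    · have hre : a.re ≠ 0 := by
        intro h1
        exact ha0 (Complex.ext h1 h0)
      filter_upwards [self_mem_nhdsWithin] with t ht hmem
      have h3 := hmem.2
      rw [him, h0, zero_add] at h3
      rcases mul_eq_zero.mp h3 with h4 | h4
      · exact (ne_of_gt ht) h4
      · exact hre h4
    · have : Tendsto (fun t : ℝ => a.im + t * a.re) (𝓝[>] 0) (𝓝 a.im) := by
        have h2 : Continuous fun t : ℝ => a.im + t * a.re := by fun_prop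
        have h3 := h2.tendsto 0
        simp only [zero_mul, add_zero] at h3
        exact h3.mono_left nhdsWithin_le_nhds
      filter_upwards [this.eventually_ne h0] with t ht hmem
      have h3 := hmem.2
      rw [him] at h3
      exact ht h3
  filter_upwards [hev] with t ht c hc
  exact ht c hc

/-- Every sheet other than the root sheet hits a critical point. -/
lemma Good.exists_hits (h : Good P g) {ζ : ℂ} (hζ : P.eval ζ = 0) (hζ0 : ζ ≠ 0) :
    ∃ c, P.derivative.eval c = 0 ∧ Hits P ζ c := by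
  by_contra hcon
  push Not at hcon
  have hopen : IsOpen (closure (sheet P ζ)) := by
    rw [isOpen_iff_mem_nhds]
    intro z hz
    by_cases hd : P.eval z ∈ dom P
    · exact mem_of_superset ((h.isOpen_sheet hζ).mem_nhds (h.mem_sheet_of_mem_closure hζ hz hd))
        subset_closure
    · obtain ⟨c, hc, hzc⟩ := notMem_dom hd
      obtain ⟨U, hU, y, hyc, hyP, hyE, hycr⟩ := h.exists_extension hζ hc (hcon c hc) hzc
      obtain ⟨w, hw1, hw2, hw3⟩ := h.exists_seq hζ hz
      have hyat : ContinuousAt y (P.eval z) := hyc.continuousAt hU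
      have e1 : ∀ᶠ n in atTop, w n ∈ U := hw2.eventually hU
      have hzy : y (P.eval z) = z := by
        refine tendsto_nhds_unique (hyat.tendsto.comp hw2) (hw3.congr' ?_)
        filter_upwards [e1] with n hn
        exact hyE ⟨hn, hw1 n⟩
      rw [hzy] at hycr
      obtain ⟨V, hV, hinj⟩ := exists_injOn hycr
      have hPz : ContinuousAt (fun x => P.eval x) z := P.continuous.continuousAt
      obtain ⟨U', hU'U, hU'o, hzU'⟩ := _root_.mem_nhds_iff.mp hU
      have e2 : ∀ᶠ x in 𝓝 z, P.eval x ∈ U' := hPz.eventually (hU'o.mem_nhds hzU')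
      have e3 : ∀ᶠ x in 𝓝 z, y (P.eval x) ∈ V := by
        have : Tendsto (fun x => y (P.eval x)) (𝓝 z) (𝓝 (y (P.eval z))) :=
          ContinuousAt.comp hyat hPz
        rw [hzy] at this
        exact this.eventually hV
      filter_upwards [e2, e3, hV] with x hx1 hx2 hx3
      have hyx : y (P.eval x) = x := by
        apply hinj hx2 hx3
        simp only
        exact hyP _ (hU'U hx1)
      have hyatx : ContinuousAt y (P.eval x) :=
        hyc.continuousAt (mem_of_superset (hU'o.mem_nhds hx1) hU'U)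
      obtain ⟨u, hu, hulim⟩ := mem_closure_iff_seq_limit.mp (h.dense_dom (P.eval x))
      have h5 : Tendsto (fun n => y (u n)) atTop (𝓝 x) := by
        have := hyatx.tendsto.comp hulim
        rwa [hyx] at this
      apply mem_closure_of_tendsto h5
      have e5 : ∀ᶠ n in atTop, u n ∈ U' := hulim.eventually (hU'o.mem_nhds hx1)
      filter_upwards [e5] with n hn
      exact ⟨u n, hu n, hyE ⟨hU'U hn, hu n⟩⟩
  have huniv : closure (sheet P ζ) = univ := by
    apply IsClopen.eq_univ ⟨isClosed_closure, hopen⟩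
    exact ⟨ζ, subset_closure ⟨0, h.zero_mem_dom, h.br_zero hζ⟩⟩
  have h0 : (0 : ℂ) ∈ closure (sheet P ζ) := by rw [huniv]; trivial
  have h1 : P.eval 0 ∈ dom P := by rw [h.eval_zero]; exact h.zero_mem_dom
  have h2 := (h.mem_sheet_iff hζ).mp (h.mem_sheet_of_mem_closure hζ h0 h1)
  rw [h.eval_zero, h.br_zero hζ] at h2
  exact hζ0 h2.2

open Classical in
/-- Every sheet other than the root sheet hits exactly one critical point. -/
theorem Good.exists_label (h : Good P g) {ζ : ℂ} (hζ : P.eval ζ = 0) (hζ0 : ζ ≠ 0) :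
    ∃ c, P.derivative.eval c = 0 ∧ Hits P ζ c ∧
      ∀ c', P.derivative.eval c' = 0 → Hits P ζ c' → c' = c := by
  set Z' := (zeros P).erase 0 with hZ'
  set K := P.derivative.roots.toFinset with hK
  have hmemK : ∀ c, c ∈ K ↔ P.derivative.eval c = 0 := by
    intro c
    simp [hK, mem_roots h.deriv_ne, IsRoot]
  have h0mem : (0 : ℂ) ∈ zeros P := h.mem_zeros.mpr h.eval_zero
  have hcardZ' : Z'.card = P.natDegree - 1 := by
    rw [hZ', Finset.card_erase_of_mem h0mem, h.card_zeros]
  have hdc := Finset.sum_card_bipartiteAbove_eq_sum_card_bipartiteBelow (s := Z') (t := K)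
    (fun ζ c => Hits P ζ c)
  have hle : ∑ c ∈ K, (Z'.bipartiteBelow (fun ζ c => Hits P ζ c) c).card ≤ P.natDegree - 1 := by
    have h1 : ∀ c ∈ K, (Z'.bipartiteBelow (fun ζ c => Hits P ζ c) c).card ≤
        P.derivative.rootMultiplicity c := by
      intro c hc
      have hc' := (hmemK c).mp hc
      have h2 := h.card_hits hc'
      have h3 : Z'.bipartiteBelow (fun ζ c => Hits P ζ c) c =
          ((zeros P).filter (Hits P · c)).erase 0 := by
        ext z
        simp only [Finset.bipartiteBelow, Finset.mem_filter, hZ', Finset.mem_erase]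
        tauto
      have h4 : (0 : ℂ) ∈ (zeros P).filter (Hits P · c) :=
        Finset.mem_filter.mpr ⟨h0mem, h.hits_zero hc'⟩
      rw [h3, Finset.card_erase_of_mem h4, h2]
      simp
    refine (Finset.sum_le_sum h1).trans ?_
    have h5 : ∑ c ∈ K, P.derivative.rootMultiplicity c = Multiset.card P.derivative.roots := by
      rw [← Multiset.toFinset_sum_count_eq]
      apply Finset.sum_congr rfl
      intro c _
      rw [count_roots]
    rw [h5]
    exact (card_roots' _).trans (natDegree_derivative_le P)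
  have hge : ∀ η ∈ Z', 1 ≤ (K.bipartiteAbove (fun ζ c => Hits P ζ c) η).card := by
    intro η hη
    rw [hZ', Finset.mem_erase, h.mem_zeros] at hη
    obtain ⟨c, hc, hhit⟩ := h.exists_hits hη.2 hη.1
    rw [Nat.succ_le_iff, Finset.card_pos]
    exact ⟨c, by simp only [Finset.bipartiteAbove, Finset.mem_filter]; exact ⟨(hmemK c).mpr hc, hhit⟩⟩
  have hsum1 : ∑ η ∈ Z', 1 = Z'.card := by simp
  have hsumeq : ∑ η ∈ Z', 1 = ∑ η ∈ Z', (K.bipartiteAbove (fun ζ c => Hits P ζ c) η).card := by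
    apply le_antisymm (Finset.sum_le_sum hge)
    rw [hdc, hsum1, hcardZ']
    exact hle
  have hall := (Finset.sum_eq_sum_iff_of_le hge).mp hsumeq
  have hζmem : ζ ∈ Z' := by
    rw [hZ', Finset.mem_erase, h.mem_zeros]
    exact ⟨hζ0, hζ⟩
  have hone := (hall ζ hζmem).symm
  rw [Finset.card_eq_one] at hone
  obtain ⟨c, hc⟩ := hone
  have hmem : ∀ c', c' ∈ K.bipartiteAbove (fun ζ c => Hits P ζ c) ζ ↔
      P.derivative.eval c' = 0 ∧ Hits P ζ c' := by
    intro c'
    simp only [Finset.bipartiteAbove, Finset.mem_filter, hmemK]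
  have h1 : c ∈ K.bipartiteAbove (fun ζ c => Hits P ζ c) ζ := by
    rw [hc]; exact Finset.mem_singleton_self c
  refine ⟨c, ((hmem c).mp h1).1, ((hmem c).mp h1).2, fun c' hc' hh => ?_⟩
  have h2 : c' ∈ K.bipartiteAbove (fun ζ c => Hits P ζ c) ζ := (hmem c').mpr ⟨hc', hh⟩
  rw [hc] at h2
  exact Finset.mem_singleton.mp h2

/-- The closures of the sheets cover the plane. -/
lemma Good.exists_mem_closure (h : Good P g) (z : ℂ) : ∃ ζ ∈ zeros P, z ∈ closure (sheet P ζ) := by
  -- the set of points over the slit plane is dense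
  have hdense : z ∈ closure ((fun x => P.eval x) ⁻¹' dom P) := by
    have hopenmap : IsOpenMap fun x : ℂ => P.eval x := by
      have hA : AnalyticOnNhd ℂ (fun x : ℂ => P.eval x) univ := fun x _ =>
        (P.differentiable.analyticAt x)
      rcases hA.is_constant_or_isOpen isPreconnected_univ with ⟨w, hw⟩ | hop
      · exfalso
        have : P = C w := Polynomial.funext fun x => by rw [hw x trivial, eval_C]
        have h1 := h.natDegree_pos
        rw [this, natDegree_C] at h1
        exact lt_irrefl _ h1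
      · exact fun s hs => hop s (subset_univ _) hs
    rw [_root_.mem_closure_iff]
    intro o ho hzo
    have h1 := hopenmap o ho
    obtain ⟨w, hw1, hw2⟩ := _root_.mem_closure_iff.mp (h.dense_dom (P.eval z)) _ h1
      ⟨z, hzo, rfl⟩
    obtain ⟨x, hx, hxw⟩ := hw1
    exact ⟨x, hx, by rw [mem_preimage]; simp only at hxw; rw [hxw]; exact hw2⟩
  have hsub : (fun x => P.eval x) ⁻¹' dom P ⊆ ⋃ ζ ∈ zeros P, sheet P ζ := by
    intro x hx
    obtain ⟨ζ, hζ, he⟩ := h.exists_br_eq hx
    simp only [mem_iUnion, exists_prop]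
    exact ⟨ζ, hζ, P.eval x, hx, he⟩
  have h1 := closure_mono hsub hdense
  rw [Finset.closure_biUnion] at h1
  simpa using h1

end Pool.Agent.Hhelper90.BiUniv
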