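import Mathlib
import Pool.Agent.Hhelper90.BiUniv.Glue2

/-!
# The extremal polynomial
-/

set_option autoImplicit false

open Polynomial Set Filter Topology Metric
open scoped Real

namespace Pool.Agent.Hhelper90.BiUniv

/-- The extremal value `N ^ N / (N + 1) ^ (N + 1)`, where the degree is `N + 1`. -/
noncomputable def aa (N : ℕ) : ℝ := (N : ℝ) ^ N / ((N : ℝ) + 1) ^ (N + 1)

/-- The extremal polynomial `z - a z ^ (N + 1)`. -/
noncomputable def Q (N : ℕ) : ℂ[X] := X - C (aa N : ℂ) * X ^ (N + 1)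

lemma aa_pos {N : ℕ} (hN : 0 < N) : 0 < aa N := by
  have : (0 : ℝ) < N := by exact_mod_cast hN
  unfold aa; positivity

/-- The modulus of the critical points. -/
noncomputable def xc (N : ℕ) : ℝ := ((N : ℝ) + 1) / N

lemma xc_pos {N : ℕ} (hN : 0 < N) : 0 < xc N := by
  have : (0 : ℝ) < N := by exact_mod_cast hN
  unfold xc; positivity

lemma aa_mul_xc_pow {N : ℕ} (hN : 0 < N) : ((N : ℝ) + 1) * aa N * xc N ^ N = 1 := by
  have : (0 : ℝ) < N := by exact_mod_cast hN
  unfold aa xc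
  rw [div_pow, pow_succ]
  field_simp

lemma eval_Q (N : ℕ) (z : ℂ) : (Q N).eval z = z - aa N * z ^ (N + 1) := by
  simp [Q]

lemma eval_derivative_Q (N : ℕ) (z : ℂ) :
    (Q N).derivative.eval z = 1 - ((N : ℂ) + 1) * aa N * z ^ N := by
  simp [Q]
  ring

/-- The real function attached to the extremal polynomial. -/
noncomputable def fR (N : ℕ) (x : ℝ) : ℝ := x - aa N * x ^ (N + 1)

lemma eval_Q_mul {N : ℕ} {v : ℂ} (hv : v ^ N = 1) (z : ℂ) :
    (Q N).eval (v * z) = v * (Q N).eval z := by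
  rw [eval_Q, eval_Q, mul_pow, pow_succ v N, hv]
  ring

lemma eval_Q_real (N : ℕ) (x : ℝ) : (Q N).eval (x : ℂ) = (fR N x : ℂ) := by
  rw [eval_Q, fR]; push_cast; ring

lemma eval_Q_conj (N : ℕ) (z : ℂ) :
    (Q N).eval (starRingEnd ℂ z) = starRingEnd ℂ ((Q N).eval z) := by
  rw [eval_Q, eval_Q]
  simp

lemma fR_xc {N : ℕ} (hN : 0 < N) : fR N (xc N) = 1 := by
  have h0 : (0 : ℝ) < N := by exact_mod_cast hN
  have h1 := aa_mul_xc_pow hN
  have h2 : aa N * xc N ^ N = 1 / ((N : ℝ) + 1) := by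
    rw [eq_div_iff (by positivity)]
    linarith
  unfold fR
  rw [pow_succ, ← mul_assoc, h2]
  unfold xc
  field_simp
  ring

lemma fR_hasDerivAt (N : ℕ) (x : ℝ) : HasDerivAt (fR N) (1 - ((N : ℝ) + 1) * aa N * x ^ N) x := by
  have h1 := (hasDerivAt_pow (N + 1) x).const_mul (aa N)
  have h2 := (hasDerivAt_id x).sub h1
  refine h2.congr_deriv ?_
  push_cast
  simp
  ring

lemma fR_lt {N : ℕ} (hN : 0 < N) {x : ℝ} (hx : 0 ≤ x) (hne : x ≠ xc N) : fR N x < 1 := by
  have ha := aa_pos hN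
  have hxc := xc_pos hN
  have hd := aa_mul_xc_pow hN
  have hN1 : (0 : ℝ) < (N : ℝ) + 1 := by positivity
  have hcont : Continuous (fR N) := by unfold fR; fun_prop
  rcases lt_or_gt_of_ne hne with h | h
  · -- increasing on [0, xc]
    have hmono : StrictMonoOn (fR N) (Icc 0 (xc N)) := by
      apply strictMonoOn_of_deriv_pos (convex_Icc _ _) hcont.continuousOn
      intro y hy
      rw [interior_Icc] at hy
      rw [(fR_hasDerivAt N y).deriv]
      have h1 : y ^ N < xc N ^ N := pow_lt_pow_left₀ hy.2 hy.1.le hN.ne'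
      have h2 : ((N : ℝ) + 1) * aa N * y ^ N < ((N : ℝ) + 1) * aa N * xc N ^ N :=
        mul_lt_mul_of_pos_left h1 (by positivity)
      linarith
    have := hmono ⟨hx, h.le⟩ ⟨hxc.le, le_rfl⟩ h
    rwa [fR_xc hN] at this
  · have hanti : StrictAntiOn (fR N) (Ici (xc N)) := by
      apply strictAntiOn_of_deriv_neg (convex_Ici _) hcont.continuousOn
      intro y hy
      rw [interior_Ici] at hy
      rw [(fR_hasDerivAt N y).deriv]
      have h1 : xc N ^ N < y ^ N := pow_lt_pow_left₀ hy hxc.le hN.ne'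
      have h2 : ((N : ℝ) + 1) * aa N * xc N ^ N < ((N : ℝ) + 1) * aa N * y ^ N :=
        mul_lt_mul_of_pos_left h1 (by positivity)
      linarith
    have := hanti self_mem_Ici (show x ∈ Ici (xc N) from h.le) h
    rwa [fR_xc hN] at this

lemma fR_le {N : ℕ} (hN : 0 < N) {x : ℝ} (hx : 0 ≤ x) : fR N x ≤ 1 := by
  by_cases h : x = xc N
  · rw [h, fR_xc hN]
  · exact (fR_lt hN hx h).le

lemma crit_Q_iff {N : ℕ} (hN : 0 < N) {c : ℂ} :
    (Q N).derivative.eval c = 0 ↔ ∃ v : ℂ, v ^ N = 1 ∧ c = v * xc N := by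
  have hd : (((N : ℂ) + 1) * (aa N : ℂ) * (xc N : ℂ) ^ N) = 1 := by
    have := aa_mul_xc_pow hN
    exact_mod_cast this
  have hxc : (xc N : ℂ) ≠ 0 := by
    exact_mod_cast (xc_pos hN).ne'
  have hk : ((N : ℂ) + 1) * (aa N : ℂ) ≠ 0 := by
    intro h0
    rw [h0, zero_mul] at hd
    exact zero_ne_one hd
  rw [eval_derivative_Q]
  constructor
  · intro h
    refine ⟨c / xc N, ?_, by field_simp⟩
    rw [div_pow, div_eq_one_iff_eq (pow_ne_zero _ hxc)]
    have h1 : ((N : ℂ) + 1) * (aa N : ℂ) * c ^ N = ((N : ℂ) + 1) * (aa N : ℂ) * (xc N : ℂ) ^ N := by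
      rw [hd]
      linear_combination -h
    exact mul_left_cancel₀ hk h1
  · rintro ⟨v, hv, rfl⟩
    rw [mul_pow, hv, one_mul, hd, sub_self]

lemma eval_Q_crit {N : ℕ} (hN : 0 < N) {v : ℂ} (hv : v ^ N = 1) :
    (Q N).eval (v * xc N) = v := by
  rw [eval_Q_mul hv, eval_Q_real, fR_xc hN, Complex.ofReal_one, mul_one]

lemma norm_eq_one_of_pow {N : ℕ} (hN : 0 < N) {v : ℂ} (hv : v ^ N = 1) : ‖v‖ = 1 :=
  Complex.norm_eq_one_of_pow_eq_one hv hN.ne'

lemma crit_value_Q {N : ℕ} (hN : 0 < N) {c : ℂ} (hc : (Q N).derivative.eval c = 0) :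
    (Q N).eval c ^ N = 1 ∧ c = (Q N).eval c * xc N := by
  obtain ⟨v, hv, rfl⟩ := (crit_Q_iff hN).mp hc
  rw [eval_Q_crit hN hv]
  exact ⟨hv, rfl⟩

lemma not_crit_of_norm_lt {N : ℕ} (hN : 0 < N) {z : ℂ} (hz : ‖(Q N).eval z‖ < 1) :
    (Q N).derivative.eval z ≠ 0 := by
  intro hc
  have := norm_eq_one_of_pow hN (crit_value_Q hN hc).1
  linarith

lemma natDegree_Q {N : ℕ} (hN : 0 < N) : (Q N).natDegree = N + 1 := by
  have ha : (aa N : ℂ) ≠ 0 := by exact_mod_cast (aa_pos hN).ne'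
  unfold Q
  rw [natDegree_sub_eq_right_of_natDegree_lt]
  · exact natDegree_C_mul_X_pow _ _ ha
  · rw [natDegree_C_mul_X_pow _ _ ha, natDegree_X]
    omega

/-- The extremal polynomial is good. -/
theorem exists_good_Q {N : ℕ} (hN : 0 < N) : ∃ g : ℂ → ℂ, Good (Q N) g := by
  have hxc := xc_pos hN
  obtain ⟨g, hgc, hg0, hgl⟩ := exists_lift_of_convex (Q N) (convex_ball (0 : ℂ) 1) isOpen_ball
    (fun c hc hmem => by
      have := norm_eq_one_of_pow hN (crit_value_Q hN hc).1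
      rw [mem_ball_zero_iff] at hmem
      linarith) (mem_ball_self one_pos) (z₀ := 0) (by rw [eval_Q]; simp)
  have hNN : N ≠ 0 := hN.ne'
  refine ⟨g, by rw [eval_Q]; simp, by rw [eval_derivative_Q]; simp [hNN], hgc, hg0, hgl,
    fun c hc => norm_eq_one_of_pow hN (crit_value_Q hN hc).1, fun c hc => ?_⟩
  obtain ⟨hv, hcv⟩ := crit_value_Q hN hc
  set v := (Q N).eval c with hvdef
  have hv1 := norm_eq_one_of_pow hN hv
  obtain ⟨y, hy, hlim⟩ := exists_tendsto_lift_convex (P := Q N)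
    (by rw [natDegree_Q hN]; omega) (convex_ball (0 : ℂ) 1) (mem_closure_unit_ball hv1) hgc hgl
  -- the radial values
  have hfRnn : ∀ x ∈ Ico (0 : ℝ) (xc N), ‖((fR N x : ℝ) : ℂ) * v‖ < 1 := by
    intro x hx
    have h1 := fR_lt hN hx.1 hx.2.ne
    have h2 : 0 ≤ fR N x := by
      have hd := aa_mul_xc_pow hN
      have ha := aa_pos hN
      have h3 : aa N * x ^ N ≤ 1 := by
        have h4 : x ^ N ≤ xc N ^ N := pow_le_pow_left₀ hx.1 hx.2.le N
        have h5 : aa N * x ^ N ≤ aa N * xc N ^ N := mul_le_mul_of_nonneg_left h4 ha.le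
        have h6 : aa N * xc N ^ N ≤ ((N : ℝ) + 1) * (aa N * xc N ^ N) := by
          have h7 : 0 ≤ aa N * xc N ^ N := by positivity
          have h8 : (0 : ℝ) ≤ N := Nat.cast_nonneg N
          nlinarith
        linarith
      have : fR N x = x * (1 - aa N * x ^ N) := by unfold fR; ring
      rw [this]
      exact mul_nonneg hx.1 (by linarith)
    rw [norm_mul, hv1, mul_one, Complex.norm_real, Real.norm_eq_abs, abs_of_nonneg h2]
    exact h1
  have hfc : Continuous (fR N) := by unfold fR; fun_prop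
  have hmaps : MapsTo (fun x : ℝ => ((fR N x : ℝ) : ℂ) * v) (Ico 0 (xc N)) (ball 0 1) := by
    intro x hx
    rw [mem_ball_zero_iff]
    exact hfRnn x hx
  have heq : EqOn (fun x : ℝ => g (((fR N x : ℝ) : ℂ) * v)) (fun x : ℝ => v * x) (Ico 0 (xc N)) := by
    refine lift_unique (P := Q N) (convex_Ico _ _).isPreconnected ?_ ?_ ?_ ?_
      (left_mem_Ico.mpr hxc) ?_
    · exact hgc.comp (by fun_prop) hmaps
    · fun_prop
    · intro x hx
      rw [hgl _ (hmaps hx), eval_Q_mul hv, eval_Q_real, mul_comm]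
    · intro x hx
      apply not_crit_of_norm_lt hN
      rw [hgl _ (hmaps hx)]
      exact hfRnn x hx
    · have : fR N 0 = 0 := by unfold fR; simp
      simp [this, hg0]
  have hne : (𝓝[Ico 0 (xc N)] (xc N)).NeBot := by
    rw [← mem_closure_iff_nhdsWithin_neBot, closure_Ico hxc.ne]
    exact right_mem_Icc.mpr hxc.le
  have hlim2 : Tendsto (fun x : ℝ => ((fR N x : ℝ) : ℂ) * v) (𝓝[Ico 0 (xc N)] (xc N))
      (𝓝[ball 0 1] v) := by
    apply tendsto_nhdsWithin_iff.mpr
    constructor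
    · have hcc : Continuous fun x : ℝ => ((fR N x : ℝ) : ℂ) * v := by fun_prop
      have := hcc.tendsto (xc N)
      simp only [fR_xc hN, Complex.ofReal_one, one_mul] at this
      exact this.mono_left nhdsWithin_le_nhds
    · filter_upwards [self_mem_nhdsWithin] with x hx
      exact hmaps hx
  have hlim3 := hlim.comp hlim2
  have hlim4 : Tendsto (fun x : ℝ => v * (x : ℂ)) (𝓝[Ico 0 (xc N)] (xc N)) (𝓝 (v * xc N)) := by
    have hcc : Continuous fun x : ℝ => v * (x : ℂ) := by fun_prop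
    exact (hcc.tendsto (xc N)).mono_left nhdsWithin_le_nhds
  have hlim5 : Tendsto (fun x : ℝ => v * (x : ℂ)) (𝓝[Ico 0 (xc N)] (xc N)) (𝓝 y) := by
    refine hlim3.congr' ?_
    filter_upwards [self_mem_nhdsWithin] with x hx
    exact heq hx
  have : y = c := by
    rw [tendsto_nhds_unique hlim5 hlim4, ← hcv]
  rw [← this]
  exact hlim

end Pool.Agent.Hhelper90.BiUniv
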