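import Mathlib
import Pool.Agent.Hhelper90.BiUniv.Star

/-!
# The extremal polynomial: symmetries and the first sheet
-/

set_option autoImplicit false

open Polynomial Set Filter Topology Metric
open scoped Real ComplexConjugate

namespace Pool.Agent.Hhelper90.BiUniv

lemma mul_mem_slit {ω v w : ℂ} (hω : ω ≠ 0) : ω * w ∈ slit (ω * v) ↔ w ∈ slit v := by
  simp only [slit, mem_ofPred_eq]
  rw [mul_div_mul_left _ _ hω]

lemma conj_mem_slit {v w : ℂ} : conj w ∈ slit (conj v) ↔ w ∈ slit v := by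
  simp only [slit, mem_ofPred_eq]
  rw [← map_div₀, Complex.conj_re, Complex.conj_im, neg_eq_zero]

lemma mem_dom_Q_iff {N : ℕ} (hN : 0 < N) {w : ℂ} :
    w ∈ dom (Q N) ↔ ∀ v : ℂ, v ^ N = 1 → w ∉ slit v := by
  constructor
  · intro h v hv
    have := h (v * xc N) ((crit_Q_iff hN).mpr ⟨v, hv, rfl⟩)
    rwa [eval_Q_crit hN hv] at this
  · intro h c hc
    exact h _ (crit_value_Q hN hc).1

lemma mul_mem_dom {N : ℕ} (hN : 0 < N) {ω w : ℂ} (hω : ω ^ N = 1) :
    ω * w ∈ dom (Q N) ↔ w ∈ dom (Q N) := by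
  have hω0 : ω ≠ 0 := by
    rintro rfl
    rw [zero_pow hN.ne'] at hω
    exact zero_ne_one hω
  rw [mem_dom_Q_iff hN, mem_dom_Q_iff hN]
  constructor
  · intro h v hv
    have := h (ω * v) (by rw [mul_pow, hω, hv, one_mul])
    rwa [mul_mem_slit hω0] at this
  · intro h v hv
    have h1 : (ω⁻¹ * v) ^ N = 1 := by rw [mul_pow, inv_pow, hω, hv]; simp
    have := h _ h1
    rwa [← mul_mem_slit hω0, mul_inv_cancel_left₀ hω0] at this

lemma conj_mem_dom {N : ℕ} (hN : 0 < N) {w : ℂ} :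
    conj w ∈ dom (Q N) ↔ w ∈ dom (Q N) := by
  rw [mem_dom_Q_iff hN, mem_dom_Q_iff hN]
  constructor
  · intro h v hv
    have := h (conj v) (by rw [← map_pow, hv, map_one])
    rwa [conj_mem_slit] at this
  · intro h v hv
    have := h (conj v) (by rw [← map_pow, hv, map_one])
    rwa [← conj_mem_slit, Complex.conj_conj] at this

lemma eval_Q_zero (N : ℕ) : (Q N).eval 0 = 0 := by rw [eval_Q]; simp

lemma br_mul {N : ℕ} (hN : 0 < N) {ω ζ w : ℂ} (hω : ω ^ N = 1) (hζ : (Q N).eval ζ = 0)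
    (hw : w ∈ dom (Q N)) : br (Q N) (ω * ζ) (ω * w) = ω * br (Q N) ζ w := by
  obtain ⟨g, h⟩ := exists_good_Q hN
  have hω0 : ω ≠ 0 := by
    rintro rfl
    rw [zero_pow hN.ne'] at hω
    exact zero_ne_one hω
  have hζ' : (Q N).eval (ω * ζ) = 0 := by rw [eval_Q_mul hω, hζ, mul_zero]
  have hmaps : MapsTo (fun w => ω * w) (dom (Q N)) (dom (Q N)) :=
    fun w hw => (mul_mem_dom hN hω).mpr hw
  have hωi : ω⁻¹ ^ N = 1 := by rw [inv_pow, hω, inv_one]
  have h1 : EqOn (br (Q N) ζ) (fun w => ω⁻¹ * br (Q N) (ω * ζ) (ω * w)) (dom (Q N)) := by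
    refine h.br_eq_of_continuousOn hζ h.isPreconnected_dom subset_rfl h.zero_mem_dom ?_ ?_ ?_
    · exact continuousOn_const.mul ((h.br_cont hζ').comp (by fun_prop) hmaps)
    · intro w hw
      rw [eval_Q_mul hωi, h.eval_br hζ' (hmaps hw), inv_mul_cancel_left₀ hω0]
    · simp only [mul_zero]
      rw [h.br_zero hζ', inv_mul_cancel_left₀ hω0]
  rw [h1 hw]
  simp only
  rw [mul_inv_cancel_left₀ hω0]

lemma br_conj {N : ℕ} (hN : 0 < N) {ζ w : ℂ} (hζ : (Q N).eval ζ = 0)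
    (hw : w ∈ dom (Q N)) : br (Q N) (conj ζ) (conj w) = conj (br (Q N) ζ w) := by
  obtain ⟨g, h⟩ := exists_good_Q hN
  have hζ' : (Q N).eval (conj ζ) = 0 := by rw [eval_Q_conj, hζ, map_zero]
  have hmaps : MapsTo (fun w : ℂ => conj w) (dom (Q N)) (dom (Q N)) :=
    fun w hw => (conj_mem_dom hN).mpr hw
  have h1 : EqOn (br (Q N) ζ) (fun w => conj (br (Q N) (conj ζ) (conj w))) (dom (Q N)) := by
    refine h.br_eq_of_continuousOn hζ h.isPreconnected_dom subset_rfl h.zero_mem_dom ?_ ?_ ?_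
    · have hc : ContinuousOn (fun w : ℂ => conj w) (dom (Q N)) :=
        Complex.continuous_conj.continuousOn
      exact Complex.continuous_conj.comp_continuousOn ((h.br_cont hζ').comp hc hmaps)
    · intro w hw
      rw [eval_Q_conj, h.eval_br hζ' (hmaps hw), Complex.conj_conj]
    · simp only [map_zero]
      rw [h.br_zero hζ', Complex.conj_conj]
  rw [h1 hw]
  simp only
  rw [Complex.conj_conj]

lemma br_zero_mul {N : ℕ} (hN : 0 < N) {ω w : ℂ} (hω : ω ^ N = 1) (hw : w ∈ dom (Q N)) :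
    br (Q N) 0 (ω * w) = ω * br (Q N) 0 w := by
  have := br_mul hN hω (eval_Q_zero N) hw
  rwa [mul_zero] at this

lemma br_zero_conj {N : ℕ} (hN : 0 < N) {w : ℂ} (hw : w ∈ dom (Q N)) :
    br (Q N) 0 (conj w) = conj (br (Q N) 0 w) := by
  have := br_conj hN (eval_Q_zero N) hw
  rwa [map_zero] at this

/-- The positive zero. -/
noncomputable def z1 (N : ℕ) : ℝ := (1 / aa N) ^ (1 / (N : ℝ))

lemma z1_pos {N : ℕ} (hN : 0 < N) : 0 < z1 N :=
  Real.rpow_pos_of_pos (one_div_pos.mpr (aa_pos hN)) _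

lemma aa_mul_z1_pow {N : ℕ} (hN : 0 < N) : aa N * z1 N ^ N = 1 := by
  have h1 : (N : ℝ) ≠ 0 := by exact_mod_cast hN.ne'
  have ha := aa_pos hN
  have h2 : z1 N ^ N = 1 / aa N := by
    unfold z1
    rw [← Real.rpow_natCast, ← Real.rpow_mul (by positivity), one_div_mul_cancel h1,
      Real.rpow_one]
  rw [h2]
  field_simp

lemma fR_z1 {N : ℕ} (hN : 0 < N) : fR N (z1 N) = 0 := by
  have := aa_mul_z1_pow hN
  unfold fR
  rw [pow_succ, ← mul_assoc, this]; ring

lemma eval_Q_z1 {N : ℕ} (hN : 0 < N) : (Q N).eval (z1 N : ℂ) = 0 := by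
  rw [eval_Q_real, fR_z1 hN, Complex.ofReal_zero]

lemma xc_lt_z1 {N : ℕ} (hN : 0 < N) : xc N < z1 N := by
  have h1 := aa_mul_z1_pow hN
  have h2 := aa_mul_xc_pow hN
  have ha := aa_pos hN
  have hx := xc_pos hN
  have hz := z1_pos hN
  have hNr : (0 : ℝ) < N := by exact_mod_cast hN
  apply lt_of_pow_lt_pow_left₀ N hz.le
  have h3 : 0 < aa N * xc N ^ N := by positivity
  have h4 : aa N * xc N ^ N < aa N * z1 N ^ N := by nlinarith
  exact lt_of_mul_lt_mul_left h4 ha.le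

lemma hits_z1 {N : ℕ} (hN : 0 < N) : Hits (Q N) (z1 N) (xc N) := by
  obtain ⟨g, h⟩ := exists_good_Q hN
  have hxc := xc_pos hN
  have hlt := xc_lt_z1 hN
  have hζ := eval_Q_z1 hN
  have hev : (Q N).eval (xc N : ℂ) = 1 := by rw [eval_Q_real, fR_xc hN, Complex.ofReal_one]
  obtain ⟨y, hy, hlim⟩ := h.exists_boundary_value hζ (v := 1) norm_one
  have hfc : Continuous (fR N) := by unfold fR; fun_prop
  have hnn : ∀ x ∈ Ioc (xc N) (z1 N), 0 ≤ fR N x ∧ fR N x < 1 := by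
    intro x hx
    have hx0 : 0 < x := hxc.trans hx.1
    refine ⟨?_, fR_lt hN hx0.le hx.1.ne'⟩
    have ha := aa_pos hN
    have h3 : aa N * x ^ N ≤ 1 := by
      rw [← aa_mul_z1_pow hN]
      exact mul_le_mul_of_nonneg_left (pow_le_pow_left₀ hx0.le hx.2 N) ha.le
    have : fR N x = x * (1 - aa N * x ^ N) := by unfold fR; ring
    rw [this]
    exact mul_nonneg hx0.le (by linarith)
  have hmaps : MapsTo (fun x : ℝ => ((fR N x : ℝ) : ℂ)) (Ioc (xc N) (z1 N)) (ball 0 1) := by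
    intro x hx
    rw [mem_ball_zero_iff, Complex.norm_real, Real.norm_eq_abs, abs_of_nonneg (hnn x hx).1]
    exact (hnn x hx).2
  have heq : EqOn (fun x : ℝ => br (Q N) (z1 N) ((fR N x : ℝ) : ℂ)) (fun x : ℝ => (x : ℂ))
      (Ioc (xc N) (z1 N)) := by
    refine lift_unique (P := Q N) (convex_Ioc _ _).isPreconnected ?_ ?_ ?_ ?_
      (right_mem_Ioc.mpr hlt) ?_
    · exact (h.br_cont hζ).comp (by fun_prop) (fun x hx => h.ball_subset_dom (hmaps hx))
    · fun_prop
    · intro x hx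
      rw [h.eval_br hζ (h.ball_subset_dom (hmaps hx)), eval_Q_real]
    · intro x hx
      exact h.deriv_br_ne hζ (h.ball_subset_dom (hmaps hx))
    · rw [fR_z1 hN, Complex.ofReal_zero, h.br_zero hζ]
  have hne : (𝓝[Ioc (xc N) (z1 N)] (xc N)).NeBot := by
    rw [← mem_closure_iff_nhdsWithin_neBot, closure_Ioc hlt.ne]
    exact left_mem_Icc.mpr hlt.le
  have hlim2 : Tendsto (fun x : ℝ => ((fR N x : ℝ) : ℂ)) (𝓝[Ioc (xc N) (z1 N)] (xc N))
      (𝓝[ball 0 1] 1) := by
    apply tendsto_nhdsWithin_iff.mpr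
    constructor
    · have hcc : Continuous fun x : ℝ => ((fR N x : ℝ) : ℂ) := by fun_prop
      have := hcc.tendsto (xc N)
      simp only [fR_xc hN, Complex.ofReal_one] at this
      exact this.mono_left nhdsWithin_le_nhds
    · filter_upwards [self_mem_nhdsWithin] with x hx
      exact hmaps hx
  have hlim3 := hlim.comp hlim2
  have hlim4 : Tendsto (fun x : ℝ => (x : ℂ)) (𝓝[Ioc (xc N) (z1 N)] (xc N)) (𝓝 (xc N)) :=
    (Complex.continuous_ofReal.tendsto (xc N)).mono_left nhdsWithin_le_nhds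
  have hlim5 : Tendsto (fun x : ℝ => (x : ℂ)) (𝓝[Ioc (xc N) (z1 N)] (xc N)) (𝓝 y) := by
    refine hlim3.congr' ?_
    filter_upwards [self_mem_nhdsWithin] with x hx
    exact heq hx
  have hyx : y = xc N := tendsto_nhds_unique hlim5 hlim4
  unfold Hits
  rw [hev, ← hyx]
  exact hlim

lemma crit_xc {N : ℕ} (hN : 0 < N) : (Q N).derivative.eval (xc N : ℂ) = 0 :=
  (crit_Q_iff hN).mpr ⟨1, one_pow N, by rw [one_mul]⟩

lemma eval_Q_xc {N : ℕ} (hN : 0 < N) : (Q N).eval (xc N : ℂ) = 1 := by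
  rw [eval_Q_real, fR_xc hN, Complex.ofReal_one]

/-- Only the root sheet and the sheet of the positive zero hit the critical point `xc`. -/
lemma eq_of_hits_xc {N : ℕ} (hN : 0 < N) {ζ : ℂ} (hζ : (Q N).eval ζ = 0)
    (hh : Hits (Q N) ζ (xc N)) : ζ = 0 ∨ ζ = z1 N := by
  classical
  obtain ⟨g, h⟩ := exists_good_Q hN
  have hc := crit_xc hN
  have hcard := h.card_hits hc
  have hmult : (Q N).derivative.rootMultiplicity (xc N : ℂ) ≤ 1 := by
    by_contra hcon
    push Not at hcon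
    have h2 := ((one_lt_rootMultiplicity_iff_isRoot h.deriv_ne).mp hcon).2
    have h3 : (Q N).derivative.derivative.eval (xc N : ℂ) =
        -(((N : ℂ) + 1) * N * aa N * (xc N : ℂ) ^ (N - 1)) := by
      have hder : (Q N).derivative = C 1 - C (((N : ℂ) + 1) * aa N) * X ^ N := by
        apply Polynomial.funext
        intro z
        rw [eval_derivative_Q]
        simp
      rw [hder]
      simp [derivative_X_pow]
      ring
    rw [IsRoot, h3, neg_eq_zero] at h2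
    have h4 : (xc N : ℂ) ≠ 0 := by exact_mod_cast (xc_pos hN).ne'
    have h5 : (aa N : ℂ) ≠ 0 := by exact_mod_cast (aa_pos hN).ne'
    have h6 : (N : ℂ) ≠ 0 := by exact_mod_cast hN.ne'
    have h7 : (N : ℂ) + 1 ≠ 0 := by exact_mod_cast (Nat.succ_ne_zero N)
    exact mul_ne_zero (mul_ne_zero (mul_ne_zero h7 h6) h5) (pow_ne_zero _ h4) h2
  have hsub : ({0, (z1 N : ℂ)} : Finset ℂ) ⊆ (zeros (Q N)).filter (Hits (Q N) · (xc N)) := by
    intro x hx
    rw [Finset.mem_insert, Finset.mem_singleton] at hx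
    rw [Finset.mem_filter, h.mem_zeros]
    rcases hx with rfl | rfl
    · exact ⟨h.eval_zero, h.hits_zero hc⟩
    · exact ⟨eval_Q_z1 hN, hits_z1 hN⟩
  have hne : (0 : ℂ) ≠ (z1 N : ℂ) := by exact_mod_cast (z1_pos hN).ne
  have hcard2 : ({0, (z1 N : ℂ)} : Finset ℂ).card = 2 := Finset.card_pair hne
  have heq := Finset.eq_of_subset_of_card_le hsub (by rw [hcard, hcard2]; omega)
  have hmem : ζ ∈ (zeros (Q N)).filter (Hits (Q N) · (xc N)) := by
    rw [Finset.mem_filter, h.mem_zeros]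
    exact ⟨hζ, hh⟩
  rw [← heq, Finset.mem_insert, Finset.mem_singleton] at hmem
  exact hmem

end Pool.Agent.Hhelper90.BiUniv
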