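import Mathlib
import Pool.Agent.Hhelper90.BiUniv.Star2

/-!
# The extremal polynomial: boundary values on the slits
-/

set_option autoImplicit false

open Polynomial Set Filter Topology Metric
open scoped Real ComplexConjugate

namespace Pool.Agent.Hhelper90.BiUniv

/-- Half of the angle between two slits of the extremal polynomial. -/
noncomputable def hh (N : ℕ) : ℝ := π / N

/-- The unit vector in direction `hh`. -/
noncomputable def eh (N : ℕ) : ℂ := Complex.exp (hh N * Complex.I)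

lemma hh_pos {N : ℕ} (hN : 0 < N) : 0 < hh N := by
  have : (0 : ℝ) < N := by exact_mod_cast hN
  unfold hh
  have := Real.pi_pos
  positivity

lemma hh_le_pi {N : ℕ} (hN : 0 < N) : hh N ≤ π := by
  have : (1 : ℝ) ≤ N := by exact_mod_cast hN
  unfold hh
  exact div_le_self Real.pi_pos.le this

lemma mul_hh {N : ℕ} (hN : 0 < N) : (N : ℝ) * hh N = π := by
  have : (N : ℝ) ≠ 0 := by exact_mod_cast hN.ne'
  unfold hh
  field_simp

lemma hh_lt_pi {N : ℕ} (hN : 2 ≤ N) : hh N < π := by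
  have h1 : (2 : ℝ) ≤ N := by exact_mod_cast hN
  have := mul_hh (N := N) (by omega)
  have h2 := hh_pos (N := N) (by omega)
  nlinarith

lemma norm_eh (N : ℕ) : ‖eh N‖ = 1 := by
  unfold eh
  rw [Complex.norm_exp_ofReal_mul_I]

lemma eh_ne_zero (N : ℕ) : eh N ≠ 0 := Complex.exp_ne_zero _

lemma eh_pow {N : ℕ} (hN : 0 < N) : eh N ^ N = -1 := by
  unfold eh
  rw [← Complex.exp_nat_mul, ← mul_assoc]
  have : (N : ℂ) * (hh N : ℂ) = (π : ℂ) := by
    have := mul_hh hN
    exact_mod_cast this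
  rw [this, Complex.exp_pi_mul_I]

lemma conj_eh (N : ℕ) : conj (eh N) = (eh N)⁻¹ := by
  rw [Complex.inv_def, Complex.normSq_eq_norm_sq, norm_eh]
  simp

lemma eh_mul_conj (N : ℕ) : eh N * conj (eh N) = 1 := by
  rw [conj_eh, mul_inv_cancel₀ (eh_ne_zero N)]

lemma eval_Q_mid {N : ℕ} (hN : 0 < N) (t : ℝ) :
    (Q N).eval (t * eh N) = ((t + aa N * t ^ (N + 1) : ℝ) : ℂ) * eh N := by
  rw [eval_Q, mul_pow, pow_succ (eh N), eh_pow hN]
  push_cast
  ring

lemma eq_mul_eh_of_im {N : ℕ} {z : ℂ} (hz : (eh N * conj z).im = 0) :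
    ∃ t : ℝ, z = t * eh N := by
  refine ⟨(eh N * conj z).re, ?_⟩
  have h1 : eh N * conj z = (((eh N * conj z).re : ℝ) : ℂ) := by
    apply Complex.ext <;> simp [hz]
  have h2 : conj (eh N * conj z) = (((eh N * conj z).re : ℝ) : ℂ) := by
    rw [h1, Complex.conj_ofReal, Complex.ofReal_re]
  rw [map_mul, Complex.conj_conj, conj_eh] at h2
  rw [← h2, mul_assoc, mul_comm z, ← mul_assoc, inv_mul_cancel₀ (eh_ne_zero N), one_mul]

lemma im_mul_conj_mid (N : ℕ) (t : ℝ) : (eh N * conj ((t : ℂ) * eh N)).im = 0 := by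
  rw [map_mul, Complex.conj_ofReal, mul_left_comm, eh_mul_conj, mul_one, Complex.ofReal_im]

/-- The open sector between the positive real axis and the direction `eh`. -/
def sec (N : ℕ) : Set ℂ := {w | 0 < w.im ∧ 0 < (eh N * conj w).im}

lemma convex_sec (N : ℕ) : Convex ℝ (sec N) := by
  have h1 : Convex ℝ {w : ℂ | 0 < w.im} := by
    exact convex_halfSpace_gt (𝕜 := ℝ) (f := fun w : ℂ => w.im)
      ⟨fun x y => Complex.add_im x y, fun r x => by simp⟩ 0
  have h2 : Convex ℝ {w : ℂ | 0 < (eh N * conj w).im} := by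
    exact convex_halfSpace_gt (𝕜 := ℝ) (f := fun w : ℂ => (eh N * conj w).im)
      ⟨fun x y => by rw [map_add, mul_add, Complex.add_im],
        fun r x => by
          rw [Complex.real_smul, map_mul, Complex.conj_ofReal, mul_left_comm,
            Complex.im_ofReal_mul, smul_eq_mul]⟩ 0
  exact h1.inter h2

lemma im_eh_mul_conj_exp (N : ℕ) (r θ : ℝ) :
    (eh N * conj ((r : ℂ) * Complex.exp (θ * Complex.I))).im = r * Real.sin (hh N - θ) := by
  have h1 : eh N * conj ((r : ℂ) * Complex.exp (θ * Complex.I)) =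
      (r : ℂ) * Complex.exp (((hh N - θ : ℝ) : ℂ) * Complex.I) := by
    unfold eh
    rw [map_mul, Complex.conj_ofReal, ← Complex.exp_conj, map_mul, Complex.conj_ofReal,
      Complex.conj_I, mul_left_comm, ← Complex.exp_add]
    congr 2
    push_cast; ring
  rw [h1, Complex.im_ofReal_mul, Complex.exp_ofReal_mul_I_im]

lemma mul_exp_mem_sec {N : ℕ} (hN : 0 < N) {r θ : ℝ} (hr : 0 < r) (hθ : 0 < θ) (hθ2 : θ < hh N) :
    (r : ℂ) * Complex.exp (θ * Complex.I) ∈ sec N := by
  have h1 := hh_le_pi hN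
  constructor
  · rw [Complex.im_ofReal_mul, Complex.exp_ofReal_mul_I_im]
    exact mul_pos hr (Real.sin_pos_of_pos_of_lt_pi hθ (by linarith))
  · rw [im_eh_mul_conj_exp]
    exact mul_pos hr (Real.sin_pos_of_pos_of_lt_pi (by linarith) (by linarith))

lemma arg_of_mem_sec {N : ℕ} (hN : 0 < N) {w : ℂ} (hw : w ∈ sec N) :
    0 < w.arg ∧ w.arg < hh N := by
  obtain ⟨h1, h2⟩ := hw
  have hw0 : w ≠ 0 := by
    rintro rfl
    simp at h1
  have h3 : 0 < w.arg := by
    have h4 : 0 ≤ w.arg := Complex.arg_nonneg_iff.mpr h1.le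
    rcases h4.eq_or_lt with h5 | h5
    · exfalso
      rw [← Complex.norm_mul_exp_arg_mul_I w, ← h5] at h1
      simp at h1
    · exact h5
  refine ⟨h3, ?_⟩
  have h4 : w.arg ≤ π := Complex.arg_le_pi w
  have h5 : w.arg < π := by
    rcases h4.eq_or_lt with h5 | h5
    · exfalso
      rw [Complex.arg_eq_pi_iff] at h5
      linarith [h5.2]
    · exact h5
  rw [← Complex.norm_mul_exp_arg_mul_I w, im_eh_mul_conj_exp] at h2
  have h6 : 0 < Real.sin (hh N - w.arg) := by
    have : 0 < ‖w‖ := norm_pos_iff.mpr hw0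
    exact (mul_pos_iff_of_pos_left this).mp h2
  by_contra hcon
  push Not at hcon
  have := hh_pos hN
  have : Real.sin (hh N - w.arg) ≤ 0 :=
    Real.sin_nonpos_of_nonpos_of_neg_pi_le (by linarith) (by linarith)
  linarith

lemma sec_subset_dom {N : ℕ} (hN : 0 < N) : sec N ⊆ dom (Q N) := by
  intro w hw
  rw [mem_dom_Q_iff hN]
  intro v hv hmem
  have hv1 := norm_eq_one_of_pow hN hv
  have hv0 : v ≠ 0 := by
    rintro rfl
    rw [norm_zero] at hv1
    exact zero_ne_one hv1
  rw [mem_slit_iff hv0] at hmem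
  obtain ⟨ρ, hρ, rfl⟩ := hmem
  obtain ⟨h1, h2⟩ := arg_of_mem_sec hN hw
  rw [Complex.arg_real_mul v (by linarith)] at h1 h2
  have h3 : v = Complex.exp (v.arg * Complex.I) := by
    have := Complex.norm_mul_exp_arg_mul_I v
    rw [hv1, Complex.ofReal_one, one_mul] at this
    exact this.symm
  rw [h3, ← Complex.exp_nat_mul, ← mul_assoc] at hv
  have h4 : (Complex.exp ((N : ℂ) * (v.arg : ℂ) * Complex.I)).im = Real.sin (N * v.arg) := by
    have : (N : ℂ) * (v.arg : ℂ) = ((N * v.arg : ℝ) : ℂ) := by push_cast; ring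
    rw [this, Complex.exp_ofReal_mul_I_im]
  rw [hv, Complex.one_im] at h4
  have hNr : (0 : ℝ) < N := by exact_mod_cast hN
  have h5 : (N : ℝ) * v.arg < π := by
    rw [← mul_hh hN]
    exact mul_lt_mul_of_pos_left h2 hNr
  have h6 := Real.sin_pos_of_pos_of_lt_pi (mul_pos hNr h1) h5
  linarith

/-- The root branch maps the sector into itself. -/
lemma br_mem_sec {N : ℕ} (hN : 0 < N) {w : ℂ} (hw : w ∈ sec N) : br (Q N) 0 w ∈ sec N := by
  obtain ⟨g, h⟩ := exists_good_Q hN
  have hζ := eval_Q_zero N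
  have hsub := sec_subset_dom hN
  have hpos := hh_pos hN
  have hle := hh_le_pi hN
  -- nonvanishing
  have hne1 : ∀ w ∈ sec N, (br (Q N) 0 w).im ≠ 0 := by
    intro w hw h0
    have h1 : br (Q N) 0 w = (((br (Q N) 0 w).re : ℝ) : ℂ) := by
      apply Complex.ext <;> simp [h0]
    have h2 := h.eval_br hζ (hsub hw)
    rw [h1, eval_Q_real] at h2
    have h3 := hw.1
    rw [← h2, Complex.ofReal_im] at h3
    exact lt_irrefl _ h3
  have hne2 : ∀ w ∈ sec N, (eh N * conj (br (Q N) 0 w)).im ≠ 0 := by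
    intro w hw h0
    obtain ⟨t, ht⟩ := eq_mul_eh_of_im h0
    have h2 := h.eval_br hζ (hsub hw)
    rw [ht, eval_Q_mid hN] at h2
    have h3 := hw.2
    rw [← h2, im_mul_conj_mid] at h3
    exact lt_irrefl _ h3
  -- positivity near the origin
  have hder : HasDerivAt (br (Q N) 0) 1 0 := by
    have := h.br_hasDerivAt hζ h.zero_mem_dom
    rwa [h.br_zero hζ, h.deriv_zero, inv_one] at this
  set q : ℂ := Complex.exp (((hh N / 2 : ℝ) : ℂ) * Complex.I) with hq
  have hlim : Tendsto (fun t : ℝ => (t : ℂ)⁻¹ * br (Q N) 0 (t * q)) (𝓝[>] 0) (𝓝 q) := by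
    have h1 : HasDerivAt (fun t : ℝ => br (Q N) 0 ((t : ℂ) * q)) (1 * q) 0 := by
      have h2 : HasDerivAt (fun t : ℝ => (t : ℂ) * q) q 0 := by
        simpa using (Complex.ofRealCLM.hasDerivAt (x := (0 : ℝ))).mul_const q
      have h3 : HasDerivAt (br (Q N) 0) 1 (((0 : ℝ) : ℂ) * q) := by
        rw [Complex.ofReal_zero, zero_mul]; exact hder
      exact h3.comp (0 : ℝ) h2
    rw [one_mul] at h1
    have h4 := h1.tendsto_slope_zero_right
    refine h4.congr fun t => ?_
    simp only [zero_add, Complex.ofReal_zero, zero_mul, h.br_zero hζ, sub_zero]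
    rw [Complex.real_smul, Complex.ofReal_inv]
  have hsin : 0 < Real.sin (hh N / 2) :=
    Real.sin_pos_of_pos_of_lt_pi (by linarith) (by linarith [Real.pi_pos])
  have hqim : q.im = Real.sin (hh N / 2) := by rw [hq, Complex.exp_ofReal_mul_I_im]
  have hqim2 : (eh N * conj q).im = Real.sin (hh N / 2) := by
    have := im_eh_mul_conj_exp N 1 (hh N / 2)
    rw [Complex.ofReal_one, one_mul, one_mul] at this
    rw [hq, this]
    congr 1; ring
  obtain ⟨t, ht0, ht1, ht2⟩ : ∃ t : ℝ, 0 < t ∧ 0 < (br (Q N) 0 (t * q)).im ∧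
      0 < (eh N * conj (br (Q N) 0 (t * q))).im := by
    have hl1 : Tendsto (fun t : ℝ => ((t : ℂ)⁻¹ * br (Q N) 0 (t * q)).im) (𝓝[>] 0) (𝓝 q.im) :=
      (Complex.continuous_im.tendsto q).comp hlim
    have hc2 : Continuous fun z : ℂ => (eh N * conj z).im := by fun_prop
    have hl2 : Tendsto (fun t : ℝ => (eh N * conj ((t : ℂ)⁻¹ * br (Q N) 0 (t * q))).im) (𝓝[>] 0)
        (𝓝 (eh N * conj q).im) := (hc2.tendsto q).comp hlim
    have e1 := hl1.eventually_const_lt (show (0 : ℝ) < q.im by rw [hqim]; exact hsin)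
    have e2 := hl2.eventually_const_lt
      (show (0 : ℝ) < (eh N * conj q).im by rw [hqim2]; exact hsin)
    obtain ⟨t, ht1, ht2, ht0⟩ := (e1.and (e2.and self_mem_nhdsWithin)).exists
    have ht0' : 0 < t := ht0
    refine ⟨t, ht0, ?_, ?_⟩
    · rw [← Complex.ofReal_inv, Complex.im_ofReal_mul] at ht1
      exact (mul_pos_iff_of_pos_left (inv_pos.mpr ht0')).mp ht1
    · rw [← Complex.ofReal_inv, map_mul, Complex.conj_ofReal, mul_left_comm,
        Complex.im_ofReal_mul] at ht2
      exact (mul_pos_iff_of_pos_left (inv_pos.mpr ht0')).mp ht2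
  have htq : (t : ℂ) * q ∈ sec N := mul_exp_mem_sec hN ht0 (by linarith) (by linarith)
  have hcont : ContinuousOn (br (Q N) 0) (sec N) := (h.br_cont hζ).mono hsub
  constructor
  · by_contra hcon
    push Not at hcon
    obtain ⟨x, hx, hx0⟩ := (convex_sec N).isPreconnected.intermediate_value₂ hw htq
      (Complex.continuous_im.comp_continuousOn hcont) continuousOn_const hcon ht1.le
    exact hne1 x hx hx0
  · by_contra hcon
    push Not at hcon
    have hc2 : Continuous fun z : ℂ => (eh N * conj z).im := by fun_prop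
    obtain ⟨x, hx, hx0⟩ := (convex_sec N).isPreconnected.intermediate_value₂ hw htq
      (hc2.comp_continuousOn hcont) continuousOn_const hcon ht2.le
    exact hne2 x hx hx0

end Pool.Agent.Hhelper90.BiUniv
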