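import Mathlib
import Pool.Agent.Hhelper90.BiUniv.Star3

/-!
# The extremal polynomial: the functions used as test functions
-/

set_option autoImplicit false

open Polynomial Set Filter Topology Metric
open scoped Real ComplexConjugate

namespace Pool.Agent.Hhelper90.BiUniv

lemma exists_ball_subset_cone {N : ℕ} (hN : 0 < N) {ρ : ℝ} (hρ : 1 < ρ) :
    ∃ r > 0, ∀ w ∈ ball (ρ : ℂ) r, 1 < w.re ∧ (w.im ≠ 0 → w ∈ dom (Q N)) := by
  obtain ⟨g, h⟩ := exists_good_Q hN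
  obtain ⟨κ, hκ, hcone⟩ := h.exists_cone (crit_xc hN)
  rw [eval_Q_xc hN] at hcone
  have hmem : (ρ : ℂ) ∈ cone 1 κ := by
    simp only [cone, mem_ofPred_eq, div_one, Complex.ofReal_im, Complex.ofReal_re, abs_zero]
    have : 0 < ρ - 1 := by linarith
    positivity
  obtain ⟨r, hr, hball⟩ := Metric.mem_nhds_iff.mp ((isOpen_cone 1 κ).mem_nhds hmem)
  refine ⟨r, hr, fun w hw => ⟨?_, fun him => ?_⟩⟩
  · have := (one_lt_norm_of_mem_cone norm_one hκ (hball hw)).1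
    rwa [div_one] at this
  · exact hcone w (hball hw) (by rwa [div_one])

lemma upper_neBot (ρ : ℝ) : (𝓝[{w : ℂ | 0 < w.im}] (ρ : ℂ)).NeBot := by
  rw [← mem_closure_iff_nhdsWithin_neBot]
  have hlim : Tendsto (fun t : ℝ => (ρ : ℂ) + (t : ℂ) * Complex.I) (𝓝[>] 0) (𝓝 (ρ : ℂ)) := by
    have hc : Continuous fun t : ℝ => (ρ : ℂ) + (t : ℂ) * Complex.I := by fun_prop
    have h2 := hc.tendsto 0
    simp only [Complex.ofReal_zero, zero_mul, add_zero] at h2
    exact h2.mono_left nhdsWithin_le_nhds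
  apply mem_closure_of_tendsto hlim
  filter_upwards [self_mem_nhdsWithin] with t ht
  simpa using ht

lemma lower_neBot (ρ : ℝ) : (𝓝[{w : ℂ | w.im < 0}] (ρ : ℂ)).NeBot := by
  rw [← mem_closure_iff_nhdsWithin_neBot]
  have hlim : Tendsto (fun t : ℝ => (ρ : ℂ) - (t : ℂ) * Complex.I) (𝓝[>] 0) (𝓝 (ρ : ℂ)) := by
    have hc : Continuous fun t : ℝ => (ρ : ℂ) - (t : ℂ) * Complex.I := by fun_prop
    have h2 := hc.tendsto 0
    simp only [Complex.ofReal_zero, zero_mul, sub_zero] at h2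
    exact h2.mono_left nhdsWithin_le_nhds
  apply mem_closure_of_tendsto hlim
  filter_upwards [self_mem_nhdsWithin] with t ht
  simpa using ht

lemma tendsto_conj_lower (ρ : ℝ) :
    Tendsto (fun w : ℂ => conj w) (𝓝[{w : ℂ | w.im < 0}] (ρ : ℂ)) (𝓝[{w : ℂ | 0 < w.im}] (ρ : ℂ)) := by
  apply tendsto_nhdsWithin_iff.mpr
  constructor
  · have := Complex.continuous_conj.tendsto (ρ : ℂ)
    rw [Complex.conj_ofReal] at this
    exact this.mono_left nhdsWithin_le_nhds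
  · filter_upwards [self_mem_nhdsWithin] with w hw
    have hw' : w.im < 0 := hw
    have : 0 < (conj w).im := by
      rw [Complex.conj_im]
      linarith
    exact this

/-- Boundary values from both sides of the slit on the positive axis. -/
lemma exists_upper_limit {N : ℕ} (hN : 0 < N) {ζ : ℂ} (hζ : (Q N).eval ζ = 0)
    (hreal : conj ζ = ζ) {ρ : ℝ} (hρ : 1 < ρ) :
    ∃ y, (Q N).eval y = ρ ∧ Tendsto (br (Q N) ζ) (𝓝[{w | 0 < w.im}] (ρ : ℂ)) (𝓝 y) ∧
      Tendsto (br (Q N) ζ) (𝓝[{w | w.im < 0}] (ρ : ℂ)) (𝓝 (conj y)) := by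
  obtain ⟨g, h⟩ := exists_good_Q hN
  obtain ⟨r, hr, hball⟩ := exists_ball_subset_cone hN hρ
  have hconv : Convex ℝ (ball (ρ : ℂ) r ∩ {w : ℂ | 0 < w.im}) := by
    apply (convex_ball _ _).inter
    exact convex_halfSpace_gt (𝕜 := ℝ) (f := fun w : ℂ => w.im)
      ⟨fun x y => Complex.add_im x y, fun r x => by simp⟩ 0
  have hsub : ball (ρ : ℂ) r ∩ {w : ℂ | 0 < w.im} ⊆ dom (Q N) := by
    rintro w ⟨h1, h2⟩
    exact (hball w h1).2 (ne_of_gt h2)
  have hnw : 𝓝[ball (ρ : ℂ) r ∩ {w : ℂ | 0 < w.im}] (ρ : ℂ) = 𝓝[{w : ℂ | 0 < w.im}] (ρ : ℂ) :=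
    nhdsWithin_inter_of_mem (nhdsWithin_le_nhds (ball_mem_nhds _ hr))
  have hcl : (ρ : ℂ) ∈ closure (ball (ρ : ℂ) r ∩ {w : ℂ | 0 < w.im}) := by
    rw [mem_closure_iff_nhdsWithin_neBot, hnw]
    exact upper_neBot ρ
  obtain ⟨y, hy, hlim⟩ := exists_tendsto_lift_convex h.natDegree_pos hconv hcl
    ((h.br_cont hζ).mono hsub) (fun w hw => h.eval_br hζ (hsub hw))
  rw [hnw] at hlim
  refine ⟨y, hy, hlim, ?_⟩
  have h1 := (Complex.continuous_conj.tendsto y).comp (hlim.comp (tendsto_conj_lower ρ))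
  refine h1.congr' ?_
  have h2 : ∀ᶠ w in 𝓝[{w : ℂ | w.im < 0}] (ρ : ℂ), w ∈ ball (ρ : ℂ) r :=
    nhdsWithin_le_nhds (ball_mem_nhds _ hr)
  filter_upwards [h2, self_mem_nhdsWithin] with w hw1 hw2
  have hwd : w ∈ dom (Q N) := (hball w hw1).2 (ne_of_lt hw2)
  have h3 := br_conj hN hζ hwd
  rw [hreal] at h3
  simp only [Function.comp_apply]
  rw [h3, Complex.conj_conj]

lemma nhdsWithin_dom_le {N : ℕ} (hN : 0 < N) {ρ : ℝ} (hρ : 1 < ρ) :
    𝓝[dom (Q N)] (ρ : ℂ) ≤ 𝓝[{w : ℂ | 0 < w.im}] (ρ : ℂ) ⊔ 𝓝[{w : ℂ | w.im < 0}] (ρ : ℂ) := by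
  obtain ⟨r, hr, hball⟩ := exists_ball_subset_cone hN hρ
  rw [← nhdsWithin_union]
  have h1 : 𝓝[dom (Q N)] (ρ : ℂ) = 𝓝[ball (ρ : ℂ) r ∩ dom (Q N)] (ρ : ℂ) :=
    (nhdsWithin_inter_of_mem (nhdsWithin_le_nhds (ball_mem_nhds _ hr))).symm
  rw [h1]
  apply nhdsWithin_mono
  rintro w ⟨hw1, hw2⟩
  rcases lt_trichotomy w.im 0 with h0 | h0 | h0
  · right; exact h0
  · exfalso
    apply (mem_dom_Q_iff hN).mp hw2 1 (one_pow N)
    refine ⟨?_, ?_⟩
    · rw [div_one]; exact (hball w hw1).1.le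
    · rw [div_one]; exact h0
  · left; exact h0

lemma exists_tip_limit {N : ℕ} (hN : 0 < N) {ζ : ℂ} (hζ : (Q N).eval ζ = 0) :
    ∃ y, (Q N).eval y = 1 ∧ Tendsto (br (Q N) ζ) (𝓝[dom (Q N)] 1) (𝓝 y) := by
  obtain ⟨g, h⟩ := exists_good_Q hN
  refine exists_tendsto_lift h.natDegree_pos (h.dense_dom 1) (fun R hR => ?_) (h.br_cont hζ)
    (fun w hw => h.eval_br hζ hw)
  obtain ⟨r, hr, hrR, hball⟩ := h.exists_dom_inter_ball (crit_xc hN) hR
  rw [eval_Q_xc hN] at hball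
  refine ⟨ball 1 r, ball_mem_nhds _ hr, ball_subset_ball hrR, ?_⟩
  rw [hball]
  exact slit_ball_preconnected norm_one hr

lemma exists_norm_limit_real {N : ℕ} (hN : 0 < N) {ζ : ℂ} (hζ : (Q N).eval ζ = 0)
    (hreal : conj ζ = ζ) {ρ : ℝ} (hρ : 1 ≤ ρ) :
    ∃ y, (Q N).eval y = ρ ∧ Tendsto (fun w => ‖br (Q N) ζ w‖) (𝓝[dom (Q N)] (ρ : ℂ)) (𝓝 ‖y‖) := by
  rcases hρ.eq_or_lt with h1 | h1
  · obtain ⟨y, hy, hlim⟩ := exists_tip_limit hN hζ
    refine ⟨y, by rw [hy, ← h1, Complex.ofReal_one], ?_⟩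
    rw [← h1, Complex.ofReal_one]
    exact hlim.norm
  · obtain ⟨y, hy, hup, hlow⟩ := exists_upper_limit hN hζ hreal h1
    refine ⟨y, hy, ?_⟩
    refine Tendsto.mono_left ?_ (nhdsWithin_dom_le hN h1)
    rw [tendsto_sup]
    refine ⟨hup.norm, ?_⟩
    have := hlow.norm
    rwa [RCLike.norm_conj] at this

/-- The crucial compatibility: crossing the slit on the positive axis leads from the root sheet to
the sheet of the positive zero. -/
lemma norm_limit_compat {N : ℕ} (hN : 0 < N) {ρ : ℝ} (hρ : 1 < ρ) {y₀ y₁ : ℂ}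
    (hy₀ : (Q N).eval y₀ = ρ)
    (h0 : Tendsto (br (Q N) 0) (𝓝[{w | 0 < w.im}] (ρ : ℂ)) (𝓝 y₀))
    (h0' : Tendsto (br (Q N) 0) (𝓝[{w | w.im < 0}] (ρ : ℂ)) (𝓝 (conj y₀)))
    (h1' : Tendsto (br (Q N) (z1 N)) (𝓝[{w | w.im < 0}] (ρ : ℂ)) (𝓝 (conj y₁))) :
    ‖y₀‖ = ‖y₁‖ := by
  obtain ⟨g, h⟩ := exists_good_Q hN
  have hcr : (Q N).derivative.eval y₀ ≠ 0 := by
    intro hc
    have := norm_eq_one_of_pow hN (crit_value_Q hN hc).1
    rw [hy₀, Complex.norm_real, Real.norm_eq_abs, abs_of_pos (by linarith)] at this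
    linarith
  obtain ⟨r₁, hr₁, Y, hYc, hY0, hY⟩ := exists_localInverse hcr
  rw [hy₀] at hYc hY0 hY
  obtain ⟨r₂, hr₂, hball⟩ := exists_ball_subset_cone hN hρ
  set r := min r₁ r₂ with hr
  have hr0 : 0 < r := lt_min hr₁ hr₂
  have hconv : Convex ℝ (ball (ρ : ℂ) r ∩ {w : ℂ | w.im < 0}) := by
    apply (convex_ball _ _).inter
    exact convex_halfSpace_lt (𝕜 := ℝ) (f := fun w : ℂ => w.im)
      ⟨fun x y => Complex.add_im x y, fun r x => by simp⟩ 0
  have hsub : ball (ρ : ℂ) r ∩ {w : ℂ | w.im < 0} ⊆ dom (Q N) := by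
    rintro w ⟨h1, h2⟩
    exact (hball w (ball_subset_ball (min_le_right _ _) h1)).2 (ne_of_lt h2)
  have hsub1 : ball (ρ : ℂ) r ∩ {w : ℂ | w.im < 0} ⊆ ball (ρ : ℂ) r₁ :=
    inter_subset_left.trans (ball_subset_ball (min_le_left _ _))
  have hnb := lower_neBot ρ
  have hmem : ∀ᶠ w in 𝓝[{w : ℂ | w.im < 0}] (ρ : ℂ), w ∈ ball (ρ : ℂ) r ∩ {w : ℂ | w.im < 0} := by
    filter_upwards [nhdsWithin_le_nhds (ball_mem_nhds (ρ : ℂ) hr0), self_mem_nhdsWithin]
      with w h1 h2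
    exact ⟨h1, h2⟩
  obtain ⟨w₁, hw₁⟩ := hmem.exists
  obtain ⟨ζ, hζ, hζe⟩ := h.exists_br_eq (z := Y w₁) (by
    rw [(hY w₁ (hsub1 hw₁)).1]; exact hsub hw₁)
  rw [(hY w₁ (hsub1 hw₁)).1] at hζe
  rw [h.mem_zeros] at hζ
  have hEq : EqOn (br (Q N) ζ) Y (ball (ρ : ℂ) r ∩ {w : ℂ | w.im < 0}) :=
    h.branch_unique hconv.isPreconnected hsub ((h.br_cont hζ).mono hsub) (hYc.mono hsub1)
      (fun w hw => h.eval_br hζ (hsub hw)) (fun w hw => (hY w (hsub1 hw)).1) hw₁ hζe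
  have hlimζ : Tendsto (br (Q N) ζ) (𝓝[{w : ℂ | w.im < 0}] (ρ : ℂ)) (𝓝 y₀) := by
    have h2 : Tendsto Y (𝓝[{w : ℂ | w.im < 0}] (ρ : ℂ)) (𝓝 y₀) := by
      have := (hYc.continuousAt (ball_mem_nhds _ hr₁)).tendsto
      rw [hY0] at this
      exact this.mono_left nhdsWithin_le_nhds
    refine h2.congr' ?_
    filter_upwards [hmem] with w hw
    exact (hEq hw).symm
  have hub := upper_neBot ρ
  have hupd : ∀ᶠ w in 𝓝[{w : ℂ | 0 < w.im}] (ρ : ℂ), w ∈ dom (Q N) := by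
    filter_upwards [nhdsWithin_le_nhds (ball_mem_nhds (ρ : ℂ) hr₂), self_mem_nhdsWithin]
      with w h1 h2
    exact (hball w h1).2 (ne_of_gt h2)
  by_cases hζ0 : ζ = 0
  · -- impossible
    exfalso
    rw [hζ0] at hlimζ
    have hreal : conj y₀ = y₀ := tendsto_nhds_unique h0' hlimζ
    have him : y₀.im = 0 := Complex.conj_eq_iff_im.mp hreal
    set x := y₀.re with hx
    have hyx : y₀ = (x : ℂ) := by apply Complex.ext <;> simp [hx, him]
    rw [hyx, eval_Q_real] at hy₀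
    have hfx : fR N x = ρ := by exact_mod_cast hy₀
    rcases lt_or_ge x 0 with hneg | hnonneg
    · rcases Nat.lt_or_ge N 2 with hN2 | hN2
      · have hN1 : N = 1 := by omega
        subst hN1
        have ha := aa_pos (N := 1) one_pos
        unfold fR at hfx
        have : 0 ≤ aa 1 * x ^ (1 + 1) := mul_nonneg ha.le (sq_nonneg x)
        linarith
      · -- the sector argument
        have hlt := hh_lt_pi hN2
        have hpos := hh_pos hN
        have hsin := Real.sin_pos_of_pos_of_lt_pi hpos hlt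
        have hc2 : Continuous fun z : ℂ => (eh N * conj z).im := by fun_prop
        have hval : ∀ t : ℝ, (eh N * conj (t : ℂ)).im = t * Real.sin (hh N) := by
          intro t
          have := im_eh_mul_conj_exp N t 0
          simpa using this
        have hsec : ∀ᶠ w in 𝓝[{w : ℂ | 0 < w.im}] (ρ : ℂ), w ∈ sec N := by
          have e1 : ∀ᶠ w in 𝓝[{w : ℂ | 0 < w.im}] (ρ : ℂ), 0 < (eh N * conj w).im := by
            have h3 : Tendsto (fun z : ℂ => (eh N * conj z).im) (𝓝[{w : ℂ | 0 < w.im}] (ρ : ℂ))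
                (𝓝 (eh N * conj (ρ : ℂ)).im) := (hc2.tendsto _).mono_left nhdsWithin_le_nhds
            rw [hval] at h3
            exact h3.eventually_const_lt (mul_pos (by linarith) hsin)
          filter_upwards [e1, self_mem_nhdsWithin] with w h4 h5
          exact ⟨h5, h4⟩
        have h5 : Tendsto (fun w => (eh N * conj (br (Q N) 0 w)).im)
            (𝓝[{w : ℂ | 0 < w.im}] (ρ : ℂ)) (𝓝 (eh N * conj y₀).im) := (hc2.tendsto _).comp h0
        have h6 : 0 ≤ (eh N * conj y₀).im := by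
          apply ge_of_tendsto h5
          filter_upwards [hsec] with w hw
          exact (br_mem_sec hN hw).2.le
        rw [hyx, hval] at h6
        nlinarith
    · have := fR_le hN hnonneg
      linarith
  · -- the sheets are adjacent
    have hcl0 : y₀ ∈ closure (sheet (Q N) 0) := by
      apply mem_closure_of_tendsto h0
      filter_upwards [hupd] with w hw
      exact ⟨w, hw, rfl⟩
    have hclζ : y₀ ∈ closure (sheet (Q N) ζ) := by
      apply mem_closure_of_tendsto hlimζ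
      filter_upwards [hmem] with w hw
      exact ⟨w, hsub hw, rfl⟩
    have hslit : (Q N).eval y₀ ∈ slit ((Q N).eval (xc N : ℂ)) := by
      rw [hy₀, eval_Q_xc hN]
      refine ⟨?_, ?_⟩
      · rw [div_one, Complex.ofReal_re]; exact hρ.le
      · rw [div_one, Complex.ofReal_im]
    have hhit := h.hits_of_adjacent hζ h.eval_zero hζ0 hclζ hcl0 (crit_xc hN) hslit
    rcases eq_of_hits_xc hN hζ hhit with h7 | h7
    · exact absurd h7 hζ0
    · rw [h7] at hlimζ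
      have h8 : y₀ = conj y₁ := tendsto_nhds_unique hlimζ h1'
      rw [h8, RCLike.norm_conj]

end Pool.Agent.Hhelper90.BiUniv
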