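import Mathlib
import Pool.Agent.Hhelper90.BiUniv.Star4

/-!
# The extremal polynomial: the functions used as test functions, continued
-/

set_option autoImplicit false

open Polynomial Set Filter Topology Metric
open scoped Real ComplexConjugate

namespace Pool.Agent.Hhelper90.BiUniv

lemma conj_z1 (N : ℕ) : conj (z1 N : ℂ) = (z1 N : ℂ) := Complex.conj_ofReal _

lemma z1_ne_zero {N : ℕ} (hN : 0 < N) : (z1 N : ℂ) ≠ 0 := by exact_mod_cast (z1_pos hN).ne'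

lemma not_hits_z1 {N : ℕ} (hN : 0 < N) {v : ℂ} (hv : v ^ N = 1) (hv1 : v ≠ 1) :
    ¬ Hits (Q N) (z1 N) (v * xc N) := by
  obtain ⟨g, h⟩ := exists_good_Q hN
  intro hh
  obtain ⟨c, -, -, huniq⟩ := h.exists_label (eval_Q_z1 hN) (z1_ne_zero hN)
  have h1 := huniq _ ((crit_Q_iff hN).mpr ⟨v, hv, rfl⟩) hh
  have h2 := huniq _ (crit_xc hN) (hits_z1 hN)
  rw [← h2] at h1
  have h3 : (xc N : ℂ) ≠ 0 := by exact_mod_cast (xc_pos hN).ne'
  apply hv1
  exact (mul_eq_right₀ h3).mp h1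

lemma tendsto_mul_dom {N : ℕ} (hN : 0 < N) {ω : ℂ} (hω : ω ^ N = 1) (w₀ : ℂ) :
    Tendsto (fun w => ω * w) (𝓝[dom (Q N)] w₀) (𝓝[dom (Q N)] (ω * w₀)) := by
  apply tendsto_nhdsWithin_iff.mpr
  constructor
  · have hc : Continuous fun w : ℂ => ω * w := by fun_prop
    exact (hc.tendsto w₀).mono_left nhdsWithin_le_nhds
  · filter_upwards [self_mem_nhdsWithin] with w hw
    exact (mul_mem_dom hN hω).mpr hw

/-- The modulus of the two basic branches has a limit everywhere. -/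
lemma exists_norm_limit {N : ℕ} (hN : 0 < N) {ζ : ℂ} (hζ : ζ = 0 ∨ ζ = z1 N) (w₀ : ℂ) :
    ∃ y, (Q N).eval y = w₀ ∧
      Tendsto (fun w => ‖br (Q N) ζ w‖) (𝓝[dom (Q N)] w₀) (𝓝 ‖y‖) := by
  obtain ⟨g, h⟩ := exists_good_Q hN
  have hζ0 : (Q N).eval ζ = 0 := by
    rcases hζ with rfl | rfl
    · exact eval_Q_zero N
    · exact eval_Q_z1 hN
  have hreal : conj ζ = ζ := by
    rcases hζ with rfl | rfl
    · exact map_zero _
    · exact conj_z1 N
  by_cases hd : w₀ ∈ dom (Q N)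
  · exact ⟨br (Q N) ζ w₀, h.eval_br hζ0 hd,
      ((h.br_continuousAt hζ0 hd).norm.tendsto).mono_left nhdsWithin_le_nhds⟩
  · rw [mem_dom_Q_iff hN] at hd
    push Not at hd
    obtain ⟨v, hv, hmem⟩ := hd
    have hv0 : v ≠ 0 := by
      rintro rfl
      rw [zero_pow hN.ne'] at hv
      exact zero_ne_one hv
    have hmem' := hmem
    rw [mem_slit_iff hv0] at hmem'
    obtain ⟨ρ, hρ, rfl⟩ := hmem'
    by_cases hv1 : v = 1
    · subst hv1
      rw [mul_one]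
      exact exists_norm_limit_real hN hζ0 hreal hρ
    · rcases hζ with rfl | rfl
      · obtain ⟨y, hy, hlim⟩ := exists_norm_limit_real hN (eval_Q_zero N) (map_zero _) hρ
        have hvi : v⁻¹ ^ N = 1 := by rw [inv_pow, hv, inv_one]
        refine ⟨v * y, by rw [eval_Q_mul hv, hy, mul_comm], ?_⟩
        have h1 := tendsto_mul_dom hN hvi ((ρ : ℂ) * v)
        have h2 : v⁻¹ * ((ρ : ℂ) * v) = ρ := by field_simp
        rw [h2] at h1
        have h3 := hlim.comp h1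
        rw [norm_mul, norm_eq_one_of_pow hN hv, one_mul]
        refine h3.congr' ?_
        filter_upwards [self_mem_nhdsWithin] with w hw
        simp only [Function.comp_apply]
        rw [br_zero_mul hN hvi hw, norm_mul, norm_eq_one_of_pow hN hvi, one_mul]
      · have hnot := not_hits_z1 hN hv hv1
        have hcr : (Q N).derivative.eval (v * xc N) = 0 := (crit_Q_iff hN).mpr ⟨v, hv, rfl⟩
        have hmem2 : (ρ : ℂ) * v ∈ slit ((Q N).eval (v * xc N)) := by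
          rw [eval_Q_crit hN hv]; exact hmem
        obtain ⟨U, hU, y, hyc, hyP, hyE, -⟩ := h.exists_extension hζ0 hcr hnot hmem2
        have hUw : (ρ : ℂ) * v ∈ U := mem_of_mem_nhds hU
        refine ⟨y (ρ * v), hyP _ hUw, ?_⟩
        have h1 : Tendsto (fun w => ‖y w‖) (𝓝[dom (Q N)] ((ρ : ℂ) * v)) (𝓝 ‖y (ρ * v)‖) :=
          ((hyc.continuousAt hU).norm.tendsto).mono_left nhdsWithin_le_nhds
        refine h1.congr' ?_
        filter_upwards [self_mem_nhdsWithin, nhdsWithin_le_nhds hU] with w hw1 hw2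
        rw [hyE ⟨hw2, hw1⟩]

/-- The common boundary value on the positive slit. -/
lemma exists_common_limit {N : ℕ} (hN : 0 < N) {ρ : ℝ} (hρ : 1 ≤ ρ) :
    ∃ m : ℝ, Tendsto (fun w => ‖br (Q N) 0 w‖) (𝓝[dom (Q N)] (ρ : ℂ)) (𝓝 m) ∧
      Tendsto (fun w => ‖br (Q N) (z1 N) w‖) (𝓝[dom (Q N)] (ρ : ℂ)) (𝓝 m) := by
  obtain ⟨g, h⟩ := exists_good_Q hN
  rcases hρ.eq_or_lt with h1 | h1
  · refine ⟨‖(xc N : ℂ)‖, ?_, ?_⟩
    · rw [← h1, Complex.ofReal_one]
      obtain ⟨y, -, hlim⟩ := exists_tip_limit hN (eval_Q_zero N)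
      have h2 := h.hits_zero (crit_xc hN)
      unfold Hits at h2
      rw [eval_Q_xc hN] at h2
      have h3 := hlim.mono_left (nhdsWithin_mono (1 : ℂ) h.ball_subset_dom)
      have := nhdsWithin_neBot (v := 1) norm_one
      rw [← tendsto_nhds_unique h3 h2]
      exact hlim.norm
    · rw [← h1, Complex.ofReal_one]
      obtain ⟨y, -, hlim⟩ := exists_tip_limit hN (eval_Q_z1 hN)
      have h2 := hits_z1 hN
      unfold Hits at h2
      rw [eval_Q_xc hN] at h2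
      have h3 := hlim.mono_left (nhdsWithin_mono (1 : ℂ) h.ball_subset_dom)
      have := nhdsWithin_neBot (v := 1) norm_one
      rw [← tendsto_nhds_unique h3 h2]
      exact hlim.norm
  · obtain ⟨y₀, hy₀, hup0, hlow0⟩ := exists_upper_limit hN (eval_Q_zero N) (map_zero _) h1
    obtain ⟨y₁, hy₁, hup1, hlow1⟩ := exists_upper_limit hN (eval_Q_z1 hN) (conj_z1 N) h1
    have heq := norm_limit_compat hN h1 hy₀ hup0 hlow0 hlow1
    refine ⟨‖y₀‖, ?_, ?_⟩
    · refine Tendsto.mono_left ?_ (nhdsWithin_dom_le hN h1)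
      rw [tendsto_sup]
      refine ⟨hup0.norm, ?_⟩
      have := hlow0.norm
      rwa [RCLike.norm_conj] at this
    · refine Tendsto.mono_left ?_ (nhdsWithin_dom_le hN h1)
      rw [tendsto_sup, heq]
      refine ⟨hup1.norm, ?_⟩
      have := hlow1.norm
      rwa [RCLike.norm_conj] at this

/-- Logarithm of the modulus of a branch, extended continuously to the slits. -/
noncomputable def uu (N : ℕ) (ζ : ℂ) : ℂ → ℝ :=
  extendFrom (dom (Q N)) fun w => Real.log ‖br (Q N) ζ w‖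

lemma uu_spec {N : ℕ} (hN : 0 < N) {ζ : ℂ} (hζ : ζ = 0 ∨ ζ = z1 N) {w₀ : ℂ}
    (hw : w₀ ≠ 0 ∨ ζ ≠ 0) :
    ∃ y, y ≠ 0 ∧ (Q N).eval y = w₀ ∧ uu N ζ w₀ = Real.log ‖y‖ ∧
      Tendsto (fun w => Real.log ‖br (Q N) ζ w‖) (𝓝[dom (Q N)] w₀) (𝓝 (Real.log ‖y‖)) := by
  obtain ⟨g, h⟩ := exists_good_Q hN
  have hζ0 : (Q N).eval ζ = 0 := by
    rcases hζ with rfl | rfl
    · exact eval_Q_zero N
    · exact eval_Q_z1 hN
  obtain ⟨y, hy, hlim⟩ := exists_norm_limit hN hζ w₀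
  have hcl : w₀ ∈ closure (dom (Q N)) := h.dense_dom w₀
  have hnb : (𝓝[dom (Q N)] w₀).NeBot := mem_closure_iff_nhdsWithin_neBot.mp hcl
  have hy0 : y ≠ 0 := by
    rintro rfl
    rw [eval_Q_zero] at hy
    subst hy
    rcases hw with hw | hw
    · exact hw rfl
    · have h1 := h.br_continuousAt hζ0 h.zero_mem_dom
      have h2 : Tendsto (fun w => ‖br (Q N) ζ w‖) (𝓝[dom (Q N)] 0) (𝓝 ‖ζ‖) := by
        have := h1.norm.tendsto
        rw [h.br_zero hζ0] at this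
        exact this.mono_left nhdsWithin_le_nhds
      have h3 := tendsto_nhds_unique hlim h2
      rw [norm_zero] at h3
      exact hw (norm_eq_zero.mp h3.symm)
  have hlog : Tendsto (fun w => Real.log ‖br (Q N) ζ w‖) (𝓝[dom (Q N)] w₀)
      (𝓝 (Real.log ‖y‖)) :=
    (Real.continuousAt_log (norm_ne_zero_iff.mpr hy0)).tendsto.comp hlim
  exact ⟨y, hy0, hy, extendFrom_eq hcl hlog, hlog⟩

lemma uu_eq {N : ℕ} (hN : 0 < N) {ζ : ℂ} (hζ : ζ = 0 ∨ ζ = z1 N) {w : ℂ} (hw : w ∈ dom (Q N))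
    (hw' : w ≠ 0 ∨ ζ ≠ 0) : uu N ζ w = Real.log ‖br (Q N) ζ w‖ ∧ br (Q N) ζ w ≠ 0 := by
  obtain ⟨g, h⟩ := exists_good_Q hN
  have hζ0 : (Q N).eval ζ = 0 := by
    rcases hζ with rfl | rfl
    · exact eval_Q_zero N
    · exact eval_Q_z1 hN
  have hne : br (Q N) ζ w ≠ 0 := by
    intro h0
    have h1 := h.eval_br hζ0 hw
    rw [h0, eval_Q_zero] at h1
    subst h1
    rw [h.br_zero hζ0] at h0
    rcases hw' with h2 | h2
    · exact h2 rfl
    · exact h2 h0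
  refine ⟨?_, hne⟩
  apply extendFrom_eq (h.dense_dom w)
  have h1 : ContinuousAt (fun w => Real.log ‖br (Q N) ζ w‖) w :=
    (h.br_continuousAt hζ0 hw).norm.log (norm_ne_zero_iff.mpr hne)
  exact h1.tendsto.mono_left nhdsWithin_le_nhds

lemma uu_zero_continuousOn {N : ℕ} (hN : 0 < N) : ContinuousOn (uu N 0) {0}ᶜ := by
  obtain ⟨g, h⟩ := exists_good_Q hN
  apply continuousOn_extendFrom (fun w _ => h.dense_dom w)
  intro w hw
  obtain ⟨y, -, -, -, hlim⟩ := uu_spec hN (Or.inl rfl) (w₀ := w) (Or.inl hw)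
  exact ⟨_, hlim⟩

lemma uu_one_continuous {N : ℕ} (hN : 0 < N) : Continuous (uu N (z1 N)) := by
  obtain ⟨g, h⟩ := exists_good_Q hN
  rw [← continuousOn_univ]
  apply continuousOn_extendFrom (fun w _ => h.dense_dom w)
  intro w hw
  obtain ⟨y, -, -, -, hlim⟩ := uu_spec hN (Or.inr rfl) (w₀ := w) (Or.inr (z1_ne_zero hN))
  exact ⟨_, hlim⟩

lemma uu_compat {N : ℕ} (hN : 0 < N) {ρ : ℝ} (hρ : 1 ≤ ρ) : uu N 0 ρ = uu N (z1 N) ρ := by
  obtain ⟨g, h⟩ := exists_good_Q hN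
  have hρ0 : (ρ : ℂ) ≠ 0 := by
    rw [Ne, Complex.ofReal_eq_zero]; linarith
  obtain ⟨m, hm0, hm1⟩ := exists_common_limit hN hρ
  have hcl : (ρ : ℂ) ∈ closure (dom (Q N)) := h.dense_dom _
  have hnb : (𝓝[dom (Q N)] (ρ : ℂ)).NeBot := mem_closure_iff_nhdsWithin_neBot.mp hcl
  obtain ⟨y, hy, hlim⟩ := exists_norm_limit hN (Or.inl rfl) (ρ : ℂ)
  have hmy : m = ‖y‖ := tendsto_nhds_unique hm0 hlim
  have hm : m ≠ 0 := by
    rw [hmy, norm_ne_zero_iff]
    rintro rfl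
    rw [eval_Q_zero] at hy
    exact hρ0 hy.symm
  have h0 : uu N 0 ρ = Real.log m :=
    extendFrom_eq hcl ((Real.continuousAt_log hm).tendsto.comp hm0)
  have h1 : uu N (z1 N) ρ = Real.log m :=
    extendFrom_eq hcl ((Real.continuousAt_log hm).tendsto.comp hm1)
  rw [h0, h1]

end Pool.Agent.Hhelper90.BiUniv
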