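import Mathlib
import Pool.Agent.Hhelper90.BiUniv.LengthArea
import Pool.Agent.Hhelper90.BiUniv.Star5

/-!
# Change of variables and logarithmic area
-/

set_option autoImplicit false

open Polynomial Set Filter Topology Metric MeasureTheory
open scoped ENNReal Real ComplexConjugate

namespace Pool.Agent.Hhelper90.BiUniv

lemma det_mul_real (a : ℂ) :
    ((ContinuousLinearMap.toSpanSingleton ℂ a : ℂ →L[ℂ] ℂ).restrictScalars ℝ).det = ‖a‖ ^ 2 := by
  rw [ContinuousLinearMap.det, ← Complex.normSq_eq_norm_sq]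
  have : ((((ContinuousLinearMap.toSpanSingleton ℂ a : ℂ →L[ℂ] ℂ).restrictScalars ℝ) :
      ℂ →L[ℝ] ℂ) : ℂ →ₗ[ℝ] ℂ) = LinearMap.mulLeft ℝ a := by
    (ext; simp [mul_comm])
  rw [this]
  have h2 : Algebra.norm ℝ a = Complex.normSq a := by rw [Algebra.norm_complex_apply]
  rw [← h2]
  rfl

/-- Change of variables by an injective holomorphic function. -/
lemma lintegral_image_holo {f f' : ℂ → ℂ} {s : Set ℂ} (hs : MeasurableSet s)
    (hf : ∀ x ∈ s, HasDerivAt f (f' x) x) (hinj : InjOn f s) (G : ℂ → ℝ≥0∞) :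
    ∫⁻ z in f '' s, G z = ∫⁻ w in s, ENNReal.ofReal (‖f' w‖ ^ 2) * G (f w) := by
  have h1 : ∀ x ∈ s, HasFDerivWithinAt f
      ((ContinuousLinearMap.toSpanSingleton ℂ (f' x) : ℂ →L[ℂ] ℂ).restrictScalars ℝ) s x :=
    fun x hx => ((hf x hx).hasFDerivAt.restrictScalars ℝ).hasFDerivWithinAt
  rw [lintegral_image_eq_lintegral_abs_det_fderiv_mul volume hs h1 hinj G]
  congr 1
  ext w
  rw [det_mul_real, abs_of_nonneg (by positivity)]

/-- The logarithmic area density. -/
noncomputable def la (z : ℂ) : ℝ≥0∞ := ENNReal.ofReal ((‖z‖ ^ 2)⁻¹)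

lemma measurable_la : Measurable la := by unfold la; fun_prop

lemma lintegral_inv_Ioo {r R : ℝ} (hr : 0 < r) (hrR : r < R) :
    ∫⁻ ρ in Ioo r R, ENNReal.ofReal (ρ⁻¹) = ENNReal.ofReal (Real.log (R / r)) := by
  have hR : 0 < R := hr.trans hrR
  have h1 : ∫ ρ in Ioo r R, ρ⁻¹ = Real.log (R / r) := by
    rw [← integral_Ioc_eq_integral_Ioo, ← intervalIntegral.integral_of_le hrR.le,
      integral_inv_of_pos hr hR]
  rw [← h1, ofReal_integral_eq_lintegral_ofReal]
  · have : IntervalIntegrable (fun ρ : ℝ => ρ⁻¹) volume r R := by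
      apply intervalIntegral.intervalIntegrable_inv
      · intro x hx
        rw [uIcc_of_le hrR.le] at hx
        exact (hr.trans_le hx.1).ne'
      · exact continuousOn_id
    rw [intervalIntegrable_iff_integrableOn_Ioo_of_le hrR.le] at this
    exact this
  · filter_upwards [ae_restrict_mem measurableSet_Ioo] with ρ hρ
    exact (inv_pos.mpr (hr.trans hρ.1)).le

lemma measurableSet_sec (N : ℕ) : MeasurableSet (sec N) := by
  have h1 : IsOpen (sec N) := by
    have h2 : Continuous fun w : ℂ => w.im := Complex.continuous_im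
    have h3 : Continuous fun w : ℂ => (eh N * conj w).im := by fun_prop
    exact (isOpen_lt continuous_const h2).inter (isOpen_lt continuous_const h3)
  exact h1.measurableSet

lemma arg_mul_exp {r θ : ℝ} (hr : 0 < r) (hθ : θ ∈ Ioc (-π) π) :
    Complex.arg ((r : ℂ) * Complex.exp (θ * Complex.I)) = θ := by
  rw [Complex.exp_mul_I]
  exact Complex.arg_mul_cos_add_sin_mul_I hr hθ

lemma mul_exp_mem_sec_iff {N : ℕ} (hN : 0 < N) {r θ : ℝ} (hr : 0 < r) (hθ : θ ∈ Ioo (-π) π) :
    (r : ℂ) * Complex.exp (θ * Complex.I) ∈ sec N ↔ θ ∈ Ioo 0 (hh N) := by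
  constructor
  · intro h
    have h1 := arg_of_mem_sec hN h
    rw [arg_mul_exp hr ⟨hθ.1, hθ.2.le⟩] at h1
    exact h1
  · intro h
    exact mul_exp_mem_sec hN hr h.1 h.2

/-- Integration in polar coordinates over a part of the sector. -/
lemma lintegral_sec {N : ℕ} (hN : 0 < N) {f : ℂ → ℝ≥0∞} (hf : Measurable f) {r R : ℝ}
    (hr : 0 < r) :
    ∫⁻ z in sec N ∩ {z | r < ‖z‖ ∧ ‖z‖ < R}, f z = ∫⁻ φ in Ioo 0 (hh N), ∫⁻ ρ in Ioo r R,
      ENNReal.ofReal ρ * f (ρ * Complex.exp (φ * Complex.I)) := by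
  have hm := measurableSet_sec N
  have hle := hh_le_pi hN
  rw [← setLIntegral_indicator hm, lintegral_annulus (hf.indicator hm) hr]
  have h1 : ∀ φ ∈ Ioo (-π) π, (∫⁻ ρ in Ioo r R, ENNReal.ofReal ρ *
      (sec N).indicator f (ρ * Complex.exp (φ * Complex.I))) =
      (Ioo 0 (hh N)).indicator (fun φ => ∫⁻ ρ in Ioo r R, ENNReal.ofReal ρ *
        f (ρ * Complex.exp (φ * Complex.I))) φ := by
    intro φ hφ
    by_cases h2 : φ ∈ Ioo 0 (hh N)
    · rw [indicator_of_mem h2]
      apply setLIntegral_congr_fun measurableSet_Ioo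
      intro ρ hρ
      simp only
      rw [indicator_of_mem ((mul_exp_mem_sec_iff hN (hr.trans hρ.1) hφ).mpr h2)]
    · rw [indicator_of_notMem h2]
      rw [← lintegral_zero (μ := volume.restrict (Ioo r R))]
      apply setLIntegral_congr_fun measurableSet_Ioo
      intro ρ hρ
      simp only
      rw [indicator_of_notMem (fun h3 => h2 ((mul_exp_mem_sec_iff hN (hr.trans hρ.1) hφ).mp h3)),
        mul_zero]
  rw [setLIntegral_congr_fun measurableSet_Ioo h1, setLIntegral_indicator measurableSet_Ioo]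
  congr 2
  ext φ
  simp only [mem_inter_iff, mem_Ioo]
  constructor
  · exact fun h => h.1
  · intro h
    have := Real.pi_pos
    exact ⟨h, by linarith, by linarith⟩

/-- Logarithmic area of a part of the sector. -/
lemma lintegral_la_sec {N : ℕ} (hN : 0 < N) {r R : ℝ} (hr : 0 < r) (hrR : r < R) :
    ∫⁻ z in sec N ∩ {z | r < ‖z‖ ∧ ‖z‖ < R}, la z =
      ENNReal.ofReal (hh N * Real.log (R / r)) := by
  rw [lintegral_sec hN measurable_la hr]
  have h1 : ∀ φ : ℝ, (∫⁻ ρ in Ioo r R, ENNReal.ofReal ρ * la (ρ * Complex.exp (φ * Complex.I))) =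
      ENNReal.ofReal (Real.log (R / r)) := by
    intro φ
    rw [← lintegral_inv_Ioo hr hrR]
    apply setLIntegral_congr_fun measurableSet_Ioo
    intro ρ hρ
    have hρ0 : 0 < ρ := hr.trans hρ.1
    simp only [la]
    rw [norm_mul_exp hρ0.le, ← ENNReal.ofReal_mul hρ0.le]
    congr 1
    field_simp
  simp_rw [h1]
  rw [setLIntegral_const, Real.volume_Ioo, sub_zero, ← ENNReal.ofReal_mul, mul_comm]
  exact Real.log_nonneg (by rw [le_div_iff₀ hr]; linarith)

end Pool.Agent.Hhelper90.BiUniv
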