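import Mathlib
import Pool.Agent.Hhelper68.Pick

/-!
# Polynomials with an inverse on the unit disc: growth and coefficient bounds
-/

set_option autoImplicit false

open Polynomial Set Filter Topology Metric
open scoped ComplexConjugate

namespace Pool.Agent.Hhelper90.BiUniv

/-- Polynomials of degree at most `n` with an inverse `g` on the unit disc. -/
structure KK (n : ℕ) (P : ℂ[X]) (g : ℂ → ℂ) : Prop where
  deg : P.natDegree ≤ n
  coeff_zero : P.coeff 0 = 0
  coeff_one : P.coeff 1 = 1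
  diff : DifferentiableOn ℂ g (ball 0 1)
  g_zero : g 0 = 0
  lift : ∀ w ∈ ball (0 : ℂ) 1, P.eval (g w) = w

variable {n : ℕ} {P : ℂ[X]} {g : ℂ → ℂ}

lemma KK.eval_zero (h : KK n P g) : P.eval 0 = 0 := by
  rw [← coeff_zero_eq_eval_zero, h.coeff_zero]

lemma KK.deriv_zero (h : KK n P g) : P.derivative.eval 0 = 1 := by
  rw [← coeff_zero_eq_eval_zero, coeff_derivative]
  simp [h.coeff_one]

lemma KK.injOn (h : KK n P g) : InjOn g (ball 0 1) := by
  intro w hw w' hw' he
  rw [← h.lift w hw, ← h.lift w' hw', he]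

lemma KK.hasDerivAt (h : KK n P g) {w : ℂ} (hw : w ∈ ball (0 : ℂ) 1) :
    HasDerivAt g (deriv g w) w :=
  ((h.diff w hw).differentiableAt (isOpen_ball.mem_nhds hw)).hasDerivAt

lemma KK.mul_deriv (h : KK n P g) {w : ℂ} (hw : w ∈ ball (0 : ℂ) 1) :
    P.derivative.eval (g w) * deriv g w = 1 := by
  have h1 : HasDerivAt (fun w => P.eval (g w)) (P.derivative.eval (g w) * deriv g w) w :=
    HasDerivAt.comp (h₂ := fun z => P.eval z) w (P.hasDerivAt _) (h.hasDerivAt hw)
  have h2 : HasDerivAt (fun w => P.eval (g w)) 1 w := by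
    refine (hasDerivAt_id w).congr_of_eventuallyEq ?_
    filter_upwards [isOpen_ball.mem_nhds hw] with w' hw'
    exact h.lift w' hw'
  exact h1.unique h2

lemma KK.deriv_g_zero (h : KK n P g) : deriv g 0 = 1 := by
  have := h.mul_deriv (mem_ball_self one_pos)
  rwa [h.g_zero, h.deriv_zero, one_mul] at this

open Pool.Agent.Hhelper68 in
/-- Growth bound for the inverse. -/
lemma KK.growth (h : KK n P g) {w : ℂ} (hw : w ∈ ball (0 : ℂ) 1) :
    ‖g w‖ ≤ ‖w‖ * (1 + ‖w‖) ^ 2 / (1 - ‖w‖) ^ 2 := by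
  rw [mem_ball_zero_iff] at hw
  set x := ‖w‖ with hx
  have hx0 : 0 ≤ x := norm_nonneg w
  set ρ := (1 + x) / 2 with hρ
  have hρ0 : 0 < ρ := by positivity
  have hρ1 : ρ < 1 := by rw [hρ]; linarith
  have hxρ : x < ρ := by rw [hρ]; linarith
  obtain ⟨M₀, hM₀⟩ := (isCompact_closedBall (0 : ℂ) ρ).exists_bound_of_continuousOn
    (h.diff.continuousOn.mono (closedBall_subset_ball hρ1))
  set M := |M₀| + 1 with hM
  have hM0 : 0 < M := by positivity
  have hMb : ∀ z : ℂ, ‖z‖ ≤ ρ → ‖g z‖ < M := by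
    intro z hz
    have := hM₀ z (mem_closedBall_zero_iff.mpr hz)
    linarith [le_abs_self M₀]
  have hmem : ∀ z : ℂ, ‖z‖ < 1 → ‖(ρ : ℂ) * z‖ < ρ := by
    intro z hz
    rw [norm_mul, Complex.norm_real, Real.norm_eq_abs, abs_of_pos hρ0]
    nlinarith
  have hmem' : ∀ z : ℂ, ‖z‖ < 1 → (ρ : ℂ) * z ∈ ball (0 : ℂ) 1 := by
    intro z hz
    rw [mem_ball_zero_iff]
    exact (hmem z hz).trans hρ1
  have hρc : (ρ : ℂ) ≠ 0 := by exact_mod_cast hρ0.ne'
  have hMc : (M : ℂ) ≠ 0 := by exact_mod_cast hM0.ne'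
  have hU : Uni fun z => g (ρ * z) / M := by
    refine ⟨?_, ?_, ?_, ?_⟩
    · apply DifferentiableOn.div_const
      apply h.diff.comp (by fun_prop)
      intro z hz
      exact hmem' z (mem_ball_zero_iff.mp hz)
    · intro z hz
      rw [mem_ball_zero_iff] at hz ⊢
      rw [norm_div, Complex.norm_real, Real.norm_eq_abs, abs_of_pos hM0, div_lt_one hM0]
      exact hMb _ (hmem z hz).le
    · intro z hz z' hz' he
      rw [mem_ball_zero_iff] at hz hz'
      simp only at he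
      rw [div_left_inj' hMc] at he
      have := h.injOn (hmem' z hz) (hmem' z' hz') he
      exact mul_left_cancel₀ hρc this
    · simp only [mul_zero, h.g_zero, zero_div]
  have hc : ‖w / ρ‖ < 1 := by
    rw [norm_div, Complex.norm_real, Real.norm_eq_abs, abs_of_pos hρ0, div_lt_one hρ0]
    exact hxρ
  have hp := pick hU hc
  have hd : deriv (fun z => g (ρ * z) / M) 0 = ρ / M := by
    have h1 : HasDerivAt (fun z : ℂ => (ρ : ℂ) * z) ρ 0 := by
      simpa using (hasDerivAt_id (0 : ℂ)).const_mul (ρ : ℂ)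
    have h2 : HasDerivAt g 1 ((ρ : ℂ) * 0) := by
      rw [mul_zero, ← h.deriv_g_zero]
      exact h.hasDerivAt (mem_ball_self one_pos)
    have h3 := (HasDerivAt.comp (h₂ := g) (0 : ℂ) h2 h1).div_const (M : ℂ)
    rw [one_mul] at h3
    exact h3.deriv
  simp only [hd] at hp
  have hwρ : (ρ : ℂ) * (w / ρ) = w := by field_simp
  rw [hwρ, norm_div, norm_div, norm_div, Complex.norm_real, Complex.norm_real, Real.norm_eq_abs,
    Real.norm_eq_abs, abs_of_pos hρ0, abs_of_pos hM0, ← hx] at hp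
  have hgM : ‖g w‖ / M < 1 := by
    rw [div_lt_one hM0]
    exact hMb w hxρ.le
  have hphi : ‖g w‖ / M ≤ Phi (‖g w‖ / M) := by
    unfold Phi
    have h1 : 0 < 1 - ‖g w‖ / M := by linarith
    have h2 : 0 ≤ ‖g w‖ / M := by positivity
    rw [le_div_iff₀ (by positivity)]
    have h3 : (1 - ‖g w‖ / M) ^ 2 ≤ 1 := by nlinarith
    nlinarith
  have h5 := hphi.trans hp
  unfold Phi at h5
  have h6 : 0 < 1 - x := by linarith
  have h7 : x / ρ / (1 - x / ρ) ^ 2 = (x / ρ) * (1 + x) ^ 2 / (1 - x) ^ 2 := by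
    have h8 : 1 - x / ρ = (1 - x) / (1 + x) := by
      rw [hρ]
      field_simp
      ring
    rw [h8, div_pow]
    field_simp
  rw [h7] at h5
  have h9 : ρ / M * (x / ρ * (1 + x) ^ 2 / (1 - x) ^ 2) =
      (x * (1 + x) ^ 2 / (1 - x) ^ 2) / M := by
    field_simp
  rw [h9] at h5
  exact (div_le_div_iff_of_pos_right hM0).mp h5

/-- Covering: the image of the inverse contains a fixed disc. -/
lemma KK.covering (h : KK n P g) : ball (0 : ℂ) (1 / 200) ⊆ g '' ball 0 1 := by
  -- the quotient `q = g w / w`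
  set q : ℂ → ℂ := dslope g 0 with hq
  have hqd : DifferentiableOn ℂ q (ball 0 (1 / 2)) := by
    have h1 := (Complex.differentiableOn_dslope (isOpen_ball.mem_nhds
      (mem_ball_self (x := (0 : ℂ)) one_pos))).mpr h.diff
    exact h1.mono (ball_subset_ball (by norm_num))
  have hq0 : q 0 = 1 := by rw [hq, dslope_same, h.deriv_g_zero]
  have hqe : ∀ w : ℂ, w ≠ 0 → q w = g w / w := by
    intro w hw
    rw [hq, dslope_of_ne _ hw, slope_def_field, h.g_zero, sub_zero, sub_zero]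
  have hqb : ∀ w ∈ ball (0 : ℂ) (1 / 2), ‖q w‖ ≤ 9 := by
    intro w hw
    rw [mem_ball_zero_iff] at hw
    by_cases hw0 : w = 0
    · rw [hw0, hq0]; norm_num
    · have hwp : 0 < ‖w‖ := norm_pos_iff.mpr hw0
      rw [hqe w hw0, norm_div, div_le_iff₀ hwp]
      have h1 := h.growth (w := w) (by rw [mem_ball_zero_iff]; linarith)
      have h2 : ‖w‖ * (1 + ‖w‖) ^ 2 / (1 - ‖w‖) ^ 2 ≤ 9 * ‖w‖ := by
        have h3 : 0 < 1 - ‖w‖ := by linarith
        rw [div_le_iff₀ (by positivity)]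
        have h4 : (1 + ‖w‖) ^ 2 ≤ 9 * (1 - ‖w‖) ^ 2 := by nlinarith
        nlinarith
      exact h1.trans h2
  have hqs : ∀ w ∈ ball (0 : ℂ) (1 / 2), ‖q w - 1‖ ≤ 20 * ‖w‖ := by
    intro w hw
    have h1 := Complex.dist_le_div_mul_dist_of_mapsTo_ball (R₂ := 10) hqd (by
      intro z hz
      rw [hq0, mem_closedBall, dist_eq_norm]
      calc ‖q z - 1‖ ≤ ‖q z‖ + ‖(1 : ℂ)‖ := norm_sub_le _ _
        _ ≤ 9 + 1 := by rw [norm_one]; linarith [hqb z hz]
        _ = 10 := by norm_num) hw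
    rw [hq0, dist_eq_norm, dist_zero_right] at h1
    linarith
  have hcl : DiffContOnCl ℂ g (ball 0 (1 / 40)) := by
    apply DifferentiableOn.diffContOnCl
    rw [closure_ball _ (by norm_num)]
    exact h.diff.mono (closedBall_subset_ball (by norm_num))
  have hlow : ∀ z ∈ sphere (0 : ℂ) (1 / 40), (1 / 80 : ℝ) ≤ ‖g z - g 0‖ := by
    intro z hz
    rw [mem_sphere_zero_iff_norm] at hz
    have hz0 : z ≠ 0 := by
      rintro rfl
      rw [norm_zero] at hz
      norm_num at hz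
    have h1 := hqs z (by rw [mem_ball_zero_iff, hz]; norm_num)
    rw [hz] at h1
    have h2 : (1 / 2 : ℝ) ≤ ‖q z‖ := by
      have h3 : ‖(1 : ℂ)‖ ≤ ‖q z‖ + ‖1 - q z‖ := by
        have := norm_add_le (q z) (1 - q z)
        simpa using this
      rw [norm_one, norm_sub_rev] at h3
      linarith
    rw [hqe z hz0, norm_div, hz] at h2
    rw [h.g_zero, sub_zero]
    rw [le_div_iff₀ (by norm_num)] at h2
    linarith
  have hfreq : ∃ᶠ z in 𝓝 (0 : ℂ), g z ≠ g 0 := by
    have h1 : ∀ᶠ z in 𝓝[≠] (0 : ℂ), g z ≠ g 0 := by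
      have h2 : ball (0 : ℂ) 1 ∈ 𝓝[≠] (0 : ℂ) :=
        mem_nhdsWithin_of_mem_nhds (ball_mem_nhds _ one_pos)
      filter_upwards [h2, self_mem_nhdsWithin] with z hz hz0 he
      exact hz0 (h.injOn hz (mem_ball_self one_pos) he)
    exact h1.frequently.filter_mono nhdsWithin_le_nhds
  have h1 := hcl.ball_subset_image_closedBall (by norm_num) hlow hfreq
  rw [h.g_zero] at h1
  intro z hz
  obtain ⟨w, hw, rfl⟩ := h1 (ball_subset_ball (by norm_num) hz)
  exact ⟨w, closedBall_subset_ball (by norm_num) hw, rfl⟩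

lemma iteratedDeriv_eval (P : ℂ[X]) (k : ℕ) :
    iteratedDeriv k (fun z => P.eval z) = fun z => (derivative^[k] P).eval z := by
  induction k with
  | zero => simp
  | succ k ih =>
    rw [iteratedDeriv_succ, ih]
    ext z
    rw [Polynomial.deriv, Function.iterate_succ_apply']

lemma norm_coeff_le {P : ℂ[X]} {R C : ℝ} (hR : 0 < R) (hC : ∀ z ∈ sphere (0 : ℂ) R, ‖P.eval z‖ ≤ C)
    (k : ℕ) : ‖P.coeff k‖ ≤ C / R ^ k := by
  have h1 := Complex.norm_iteratedDeriv_le_of_forall_mem_sphere_norm_le k hR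
    (f := fun z => P.eval z) (P.differentiable.diffContOnCl) hC
  rw [iteratedDeriv_eval] at h1
  simp only at h1
  rw [← coeff_zero_eq_eval_zero, coeff_iterate_derivative, zero_add, Nat.descFactorial_self,
    nsmul_eq_mul, norm_mul, Complex.norm_natCast, mul_div_assoc] at h1
  have h2 : (0 : ℝ) < k.factorial := by exact_mod_cast k.factorial_pos
  exact le_of_mul_le_mul_left h1 h2

lemma KK.coeff_le (h : KK n P g) (k : ℕ) : ‖P.coeff k‖ ≤ 400 ^ k := by
  have h1 := norm_coeff_le (P := P) (R := 1 / 400) (C := 1) (by norm_num) (by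
    intro z hz
    rw [mem_sphere_zero_iff_norm] at hz
    obtain ⟨w, hw, rfl⟩ := h.covering (show z ∈ ball (0 : ℂ) (1 / 200) by
      rw [mem_ball_zero_iff, hz]; norm_num)
    rw [h.lift w hw]
    exact (mem_ball_zero_iff.mp hw).le) k
  refine h1.trans (le_of_eq ?_)
  rw [one_div_pow, one_div_one_div]

end Pool.Agent.Hhelper90.BiUniv
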