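import Mathlib
import Pool.Agent.Hhelper90.BiUniv.Area

/-!
# Energies of the sheets of the extremal polynomial
-/

set_option autoImplicit false

open Polynomial Set Filter Topology Metric MeasureTheory
open scoped ENNReal Real ComplexConjugate

namespace Pool.Agent.Hhelper90.BiUniv

/-- The lower half of the sheet of the positive zero is mapped into the sector. -/
lemma br_z1_mem_sec {N : ℕ} (hN : 0 < N) {w : ℂ} (hw : w ∈ dom (Q N)) (him : w.im < 0) :
    br (Q N) (z1 N) w ∈ sec N := by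
  obtain ⟨g, h⟩ := exists_good_Q hN
  have hζ := eval_Q_z1 hN
  have hNr : (0 : ℝ) < N := by exact_mod_cast hN
  have hz := z1_pos hN
  have hpos := hh_pos hN
  have hseg : ∀ t ∈ Ioc (0 : ℝ) 1, (t : ℂ) * w ∈ dom (Q N) := by
    intro t ht
    have := (starConvex_zero_iff.mp h.starConvex) hw ht.1.le ht.2
    rwa [Complex.real_smul] at this
  have hcont : ContinuousOn (fun t : ℝ => br (Q N) (z1 N) ((t : ℂ) * w)) (Ioc 0 1) :=
    (h.br_cont hζ).comp (by fun_prop) hseg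
  -- derivative at the origin
  have hdv : (Q N).derivative.eval (z1 N : ℂ) = -(N : ℂ) := by
    rw [eval_derivative_Q]
    have h1 : (aa N : ℂ) * (z1 N : ℂ) ^ N = 1 := by exact_mod_cast aa_mul_z1_pow hN
    linear_combination (-((N : ℂ) + 1)) * h1
  have hder : HasDerivAt (br (Q N) (z1 N)) (-(N : ℂ))⁻¹ 0 := by
    have := h.br_hasDerivAt hζ h.zero_mem_dom
    rwa [h.br_zero hζ, hdv] at this
  have hlim : Tendsto (fun t : ℝ => (t : ℂ)⁻¹ * (br (Q N) (z1 N) (t * w) - z1 N)) (𝓝[>] 0)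
      (𝓝 ((-(N : ℂ))⁻¹ * w)) := by
    have h1 : HasDerivAt (fun t : ℝ => br (Q N) (z1 N) ((t : ℂ) * w)) ((-(N : ℂ))⁻¹ * w) 0 := by
      have h2 : HasDerivAt (fun t : ℝ => (t : ℂ) * w) w 0 := by
        simpa using (Complex.ofRealCLM.hasDerivAt (x := (0 : ℝ))).mul_const w
      have h3 : HasDerivAt (br (Q N) (z1 N)) (-(N : ℂ))⁻¹ (((0 : ℝ) : ℂ) * w) := by
        rw [Complex.ofReal_zero, zero_mul]; exact hder
      exact h3.comp (0 : ℝ) h2
    have h4 := h1.tendsto_slope_zero_right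
    refine h4.congr fun t => ?_
    simp only [zero_add, Complex.ofReal_zero, zero_mul, h.br_zero hζ]
    rw [Complex.real_smul, Complex.ofReal_inv]
  have hval : ((-(N : ℂ))⁻¹ * w).im = -w.im / N := by
    have : ((-(N : ℂ))⁻¹ * w) = (((-(N : ℝ))⁻¹ : ℝ) : ℂ) * w := by push_cast; ring
    rw [this, Complex.im_ofReal_mul, inv_neg, neg_mul, inv_mul_eq_div, neg_div]
  have hl1 : Tendsto (fun t : ℝ => ((t : ℂ)⁻¹ * (br (Q N) (z1 N) (t * w) - z1 N)).im) (𝓝[>] 0)
      (𝓝 ((-(N : ℂ))⁻¹ * w).im) := (Complex.continuous_im.tendsto _).comp hlim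
  have e1 := hl1.eventually_const_lt (show (0 : ℝ) < ((-(N : ℂ))⁻¹ * w).im by
    rw [hval]; apply div_pos _ hNr; linarith)
  have hc2 : Continuous fun z : ℂ => (eh N * conj z).im := by fun_prop
  have hne1 : ∀ t ∈ Ioc (0 : ℝ) 1, (br (Q N) (z1 N) (t * w)).im ≠ 0 := by
    intro t ht h0
    have h1 : br (Q N) (z1 N) (t * w) = (((br (Q N) (z1 N) (t * w)).re : ℝ) : ℂ) := by
      apply Complex.ext <;> simp [h0]
    have h2 := h.eval_br hζ (hseg t ht)
    rw [h1, eval_Q_real] at h2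
    have h3 : ((t : ℂ) * w).im < 0 := by
      rw [Complex.im_ofReal_mul]
      exact mul_neg_of_pos_of_neg ht.1 him
    rw [← h2, Complex.ofReal_im] at h3
    exact lt_irrefl _ h3
  obtain ⟨t₀, ht₀, ht1, ht2⟩ : ∃ t : ℝ, 0 < t ∧ t ≤ 1 ∧ 0 < (br (Q N) (z1 N) (t * w)).im := by
    have e3 : ∀ᶠ t : ℝ in 𝓝[>] 0, t ≤ 1 := by
      have : ∀ᶠ t : ℝ in 𝓝 0, t < 1 := eventually_lt_nhds one_pos
      filter_upwards [nhdsWithin_le_nhds this] with t ht
      exact ht.le
    obtain ⟨t, ht1, ht3, ht0⟩ := (e1.and (e3.and self_mem_nhdsWithin)).exists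
    have ht0' : 0 < t := ht0
    refine ⟨t, ht0, ht3, ?_⟩
    rw [← Complex.ofReal_inv, Complex.im_ofReal_mul] at ht1
    have := (mul_pos_iff_of_pos_left (inv_pos.mpr ht0')).mp ht1
    rwa [Complex.sub_im, Complex.ofReal_im, sub_zero] at this
  have himpos : ∀ t ∈ Ioc (0 : ℝ) 1, 0 < (br (Q N) (z1 N) (t * w)).im := by
    intro t ht
    by_contra hcon
    push Not at hcon
    obtain ⟨x, hx, hx0⟩ := (convex_Ioc (0 : ℝ) 1).isPreconnected.intermediate_value₂ ht
      ⟨ht₀, ht1⟩ (Complex.continuous_im.comp_continuousOn hcont) continuousOn_const hcon ht2.le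
    exact hne1 x hx hx0
  have h1w := himpos 1 ⟨one_pos, le_rfl⟩
  rw [Complex.ofReal_one, one_mul] at h1w
  refine ⟨h1w, ?_⟩
  rcases Nat.lt_or_ge N 2 with hN2 | hN2
  · have hN1 : N = 1 := by omega
    subst hN1
    have : eh 1 = -1 := by
      have := eh_pow (N := 1) one_pos
      rwa [pow_one] at this
    rw [this]
    simpa using h1w
  · have hlt := hh_lt_pi hN2
    have hsin := Real.sin_pos_of_pos_of_lt_pi hpos hlt
    have hehim : (eh N).im = Real.sin (hh N) := by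
      unfold eh; rw [Complex.exp_ofReal_mul_I_im]
    have hne2 : ∀ t ∈ Ioc (0 : ℝ) 1, (eh N * conj (br (Q N) (z1 N) (t * w))).im ≠ 0 := by
      intro t ht h0
      obtain ⟨s, hs⟩ := eq_mul_eh_of_im h0
      have h2 := h.eval_br hζ (hseg t ht)
      have h3 := himpos t ht
      rw [hs, Complex.im_ofReal_mul, hehim] at h3
      have hs0 : 0 < s := (mul_pos_iff_of_pos_right hsin).mp h3
      rw [hs, eval_Q_mid hN] at h2
      have h4 : ((t : ℂ) * w).im < 0 := by
        rw [Complex.im_ofReal_mul]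
        exact mul_neg_of_pos_of_neg ht.1 him
      rw [← h2, Complex.im_ofReal_mul, hehim] at h4
      have ha := aa_pos hN
      have : 0 < (s + aa N * s ^ (N + 1)) * Real.sin (hh N) := by positivity
      linarith
    have hval2 : (eh N * conj (z1 N : ℂ)).im = z1 N * Real.sin (hh N) := by
      have := im_eh_mul_conj_exp N (z1 N) 0
      simpa using this
    have hlim0 : Tendsto (fun t : ℝ => br (Q N) (z1 N) (t * w)) (𝓝[>] 0) (𝓝 (z1 N : ℂ)) := by
      have h5 : Tendsto (fun t : ℝ => (t : ℂ) * w) (𝓝[>] 0) (𝓝 0) := by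
        have hc : Continuous fun t : ℝ => (t : ℂ) * w := by fun_prop
        have := hc.tendsto 0
        rw [Complex.ofReal_zero, zero_mul] at this
        exact this.mono_left nhdsWithin_le_nhds
      have h6 := (h.br_continuousAt hζ h.zero_mem_dom).tendsto
      rw [h.br_zero hζ] at h6
      exact h6.comp h5
    have hl2 : Tendsto (fun t : ℝ => (eh N * conj (br (Q N) (z1 N) (t * w))).im) (𝓝[>] 0)
        (𝓝 (eh N * conj (z1 N : ℂ)).im) := (hc2.tendsto _).comp hlim0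
    rw [hval2] at hl2
    have e2 := hl2.eventually_const_lt (mul_pos hz hsin)
    obtain ⟨t₁, ht₁, ht₁1, ht₁2⟩ : ∃ t : ℝ, 0 < t ∧ t ≤ 1 ∧
        0 < (eh N * conj (br (Q N) (z1 N) (t * w))).im := by
      have e3 : ∀ᶠ t : ℝ in 𝓝[>] 0, t ≤ 1 := by
        have : ∀ᶠ t : ℝ in 𝓝 0, t < 1 := eventually_lt_nhds one_pos
        filter_upwards [nhdsWithin_le_nhds this] with t ht
        exact ht.le
      obtain ⟨t, ht1, ht3, ht0⟩ := (e2.and (e3.and self_mem_nhdsWithin)).exists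
      exact ⟨t, ht0, ht3, ht1⟩
    by_contra hcon
    push Not at hcon
    have hcon' : (eh N * conj (br (Q N) (z1 N) (((1 : ℝ) : ℂ) * w))).im ≤ 0 := by
      rwa [Complex.ofReal_one, one_mul]
    obtain ⟨x, hx, hx0⟩ := (convex_Ioc (0 : ℝ) 1).isPreconnected.intermediate_value₂
      (⟨one_pos, le_rfl⟩ : (1 : ℝ) ∈ Ioc (0 : ℝ) 1) (⟨ht₁, ht₁1⟩ : t₁ ∈ Ioc (0 : ℝ) 1)
      (hc2.comp_continuousOn hcont) continuousOn_const hcon' ht₁2.le
    exact hne2 x hx hx0

/-- Logarithmic derivative of a branch. -/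
noncomputable def ld (N : ℕ) (ζ w : ℂ) : ℂ := deriv (br (Q N) ζ) w / br (Q N) ζ w

/-- Energy density of a branch. -/
noncomputable def dn (N : ℕ) (ζ : ℂ) : ℂ → ℝ≥0∞ :=
  (dom (Q N)).indicator fun w => ENNReal.ofReal (‖ld N ζ w‖ ^ 2)

lemma measurable_dn {N : ℕ} (hN : 0 < N) {ζ : ℂ} (hζ : (Q N).eval ζ = 0) :
    Measurable (dn N ζ) := by
  classical
  obtain ⟨g, h⟩ := exists_good_Q hN
  have hbr : Measurable ((dom (Q N)).indicator (br (Q N) ζ)) := by
    have := (h.br_cont hζ).measurable_piecewise (g := 0) continuousOn_const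
      h.isOpen_dom.measurableSet
    rwa [Set.piecewise_eq_indicator] at this
  have h1 : Measurable fun w => ENNReal.ofReal
      (‖deriv (br (Q N) ζ) w / (dom (Q N)).indicator (br (Q N) ζ) w‖ ^ 2) := by
    have := measurable_deriv (br (Q N) ζ)
    fun_prop
  have h2 := h1.indicator h.isOpen_dom.measurableSet
  convert h2 using 1
  unfold dn ld
  ext w
  by_cases hw : w ∈ dom (Q N)
  · simp only [indicator_of_mem hw]
  · simp only [indicator_of_notMem hw]

lemma dn_eq {N : ℕ} {ζ w : ℂ} (hw : w ∈ dom (Q N)) :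
    dn N ζ w = ENNReal.ofReal (‖deriv (br (Q N) ζ) w‖ ^ 2) * la (br (Q N) ζ w) := by
  unfold dn ld la
  rw [indicator_of_mem hw, ← ENNReal.ofReal_mul (by positivity)]
  congr 1
  rw [norm_div, div_pow]
  rfl

/-- The fundamental energy bound for the extremal polynomial. -/
lemma energy_bound {N : ℕ} (hN : 0 < N) {ε R r₁ R₁ : ℝ} (hr₁ : 0 < r₁) (hrR₁ : r₁ < R₁)
    (hb0 : ∀ w ∈ sec N, ε < ‖w‖ → ‖w‖ < R →
      r₁ < ‖br (Q N) 0 w‖ ∧ ‖br (Q N) 0 w‖ < R₁)
    (hb1 : ∀ w ∈ dom (Q N), w.im < 0 → ‖w‖ < R →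
      r₁ < ‖br (Q N) (z1 N) w‖ ∧ ‖br (Q N) (z1 N) w‖ < R₁) :
    (∫⁻ w in sec N ∩ {w | ε < ‖w‖ ∧ ‖w‖ < R}, dn N 0 w) +
      (∫⁻ w in dom (Q N) ∩ ({w | w.im < 0} ∩ {w | ‖w‖ < R}), dn N (z1 N) w) ≤
      ENNReal.ofReal (hh N * Real.log (R₁ / r₁)) := by
  obtain ⟨g, h⟩ := exists_good_Q hN
  have hζ0 := eval_Q_zero N
  have hζ1 := eval_Q_z1 hN
  set A := sec N ∩ {w | ε < ‖w‖ ∧ ‖w‖ < R} with hA
  set B := dom (Q N) ∩ ({w | w.im < 0} ∩ {w | ‖w‖ < R}) with hB
  have hAd : A ⊆ dom (Q N) := fun w hw => sec_subset_dom hN hw.1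
  have hBd : B ⊆ dom (Q N) := fun w hw => hw.1
  have hAm : MeasurableSet A := (measurableSet_sec N).inter
    ((measurableSet_lt measurable_const measurable_norm).inter
      (measurableSet_lt measurable_norm measurable_const))
  have hBm : MeasurableSet B := h.isOpen_dom.measurableSet.inter
    ((measurableSet_lt Complex.measurable_im measurable_const).inter
      (measurableSet_lt measurable_norm measurable_const))
  have hAi : InjOn (br (Q N) 0) A := fun x hx y hy he =>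
    (h.br_inj hζ0 hζ0 (hAd hx) (hAd hy) he).2
  have hBi : InjOn (br (Q N) (z1 N)) B := fun x hx y hy he =>
    (h.br_inj hζ1 hζ1 (hBd hx) (hBd hy) he).2
  have hAe : ∫⁻ w in A, dn N 0 w = ∫⁻ z in br (Q N) 0 '' A, la z := by
    rw [lintegral_image_holo hAm (fun x hx =>
      (h.br_hasDerivAt hζ0 (hAd hx)).differentiableAt.hasDerivAt) hAi]
    apply setLIntegral_congr_fun hAm
    intro w hw
    exact dn_eq (hAd hw)
  have hBe : ∫⁻ w in B, dn N (z1 N) w = ∫⁻ z in br (Q N) (z1 N) '' B, la z := by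
    rw [lintegral_image_holo hBm (fun x hx =>
      (h.br_hasDerivAt hζ1 (hBd hx)).differentiableAt.hasDerivAt) hBi]
    apply setLIntegral_congr_fun hBm
    intro w hw
    exact dn_eq (hBd hw)
  have hBim : MeasurableSet (br (Q N) (z1 N) '' B) :=
    hBm.image_of_continuousOn_injOn ((h.br_cont hζ1).mono hBd) hBi
  have hdisj : Disjoint (br (Q N) 0 '' A) (br (Q N) (z1 N) '' B) := by
    rw [Set.disjoint_left]
    rintro _ ⟨w, hw, rfl⟩ ⟨w', hw', he⟩
    exact z1_ne_zero hN (h.br_inj hζ1 hζ0 (hBd hw') (hAd hw) he).1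
  refine (add_le_add hAe.le hBe.le).trans ?_
  rw [← lintegral_union hBim hdisj, ← lintegral_la_sec hN hr₁ hrR₁]
  apply lintegral_mono_set
  rintro z (⟨w, hw, rfl⟩ | ⟨w, hw, rfl⟩)
  · exact ⟨br_mem_sec hN hw.1, hb0 w hw.1 hw.2.1 hw.2.2⟩
  · exact ⟨br_z1_mem_sec hN hw.1 hw.2.1, hb1 w hw.1 hw.2.1 hw.2.2⟩

end Pool.Agent.Hhelper90.BiUniv
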