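import Mathlib
import Pool.Agent.Hhelper90.BiUniv.Energy

/-!
# Energies along rays
-/

set_option autoImplicit false

open Polynomial Set Filter Topology Metric MeasureTheory
open scoped ENNReal Real ComplexConjugate

namespace Pool.Agent.Hhelper90.BiUniv

lemma ld_eq {N : ℕ} (hN : 0 < N) {ζ w : ℂ} (hζ : (Q N).eval ζ = 0) (hw : w ∈ dom (Q N)) :
    ld N ζ w = ((1 - ((N : ℂ) + 1) * aa N * br (Q N) ζ w ^ N) * br (Q N) ζ w)⁻¹ := by
  obtain ⟨g, h⟩ := exists_good_Q hN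
  unfold ld
  rw [(h.br_hasDerivAt hζ hw).deriv, eval_derivative_Q, mul_inv, div_eq_mul_inv]

lemma norm_ld_conj {N : ℕ} (hN : 0 < N) {ζ w : ℂ} (hζ : (Q N).eval ζ = 0) (hr : conj ζ = ζ)
    (hw : w ∈ dom (Q N)) : ‖ld N ζ (conj w)‖ = ‖ld N ζ w‖ := by
  have hw' := (conj_mem_dom hN).mpr hw
  have h1 := br_conj hN hζ hw
  rw [hr] at h1
  rw [ld_eq hN hζ hw', ld_eq hN hζ hw, h1, ← RCLike.norm_conj (_)⁻¹]
  simp

lemma norm_ld_mul {N : ℕ} (hN : 0 < N) {ω w : ℂ} (hω : ω ^ N = 1)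
    (hw : w ∈ dom (Q N)) : ‖ld N 0 (ω * w)‖ = ‖ld N 0 w‖ := by
  have hw' := (mul_mem_dom hN hω).mpr hw
  rw [ld_eq hN (eval_Q_zero N) hw', ld_eq hN (eval_Q_zero N) hw, br_zero_mul hN hω hw,
    mul_pow, hω, one_mul, norm_inv, norm_inv, norm_mul, norm_mul, norm_eq_one_of_pow hN hω,
    one_mul, norm_mul]

lemma dn_conj {N : ℕ} (hN : 0 < N) {ζ w : ℂ} (hζ : (Q N).eval ζ = 0) (hr : conj ζ = ζ) :
    dn N ζ (conj w) = dn N ζ w := by
  unfold dn
  by_cases hw : w ∈ dom (Q N)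
  · rw [indicator_of_mem ((conj_mem_dom hN).mpr hw), indicator_of_mem hw,
      norm_ld_conj hN hζ hr hw]
  · rw [indicator_of_notMem (fun h => hw ((conj_mem_dom hN).mp h)), indicator_of_notMem hw]

lemma dn_mul {N : ℕ} (hN : 0 < N) {ω w : ℂ} (hω : ω ^ N = 1) :
    dn N 0 (ω * w) = dn N 0 w := by
  unfold dn
  by_cases hw : w ∈ dom (Q N)
  · rw [indicator_of_mem ((mul_mem_dom hN hω).mpr hw), indicator_of_mem hw,
      norm_ld_mul hN hω hw]
  · rw [indicator_of_notMem (fun h => hw ((mul_mem_dom hN hω).mp h)), indicator_of_notMem hw]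

lemma volume_real_axis : volume {w : ℂ | w.im = 0} = 0 := by
  have h1 : (LinearMap.ker Complex.imLm : Submodule ℝ ℂ) ≠ ⊤ := by
    intro h
    have : Complex.I ∈ (LinearMap.ker Complex.imLm : Submodule ℝ ℂ) := by rw [h]; trivial
    simp at this
  have h2 := Measure.addHaar_submodule (volume : Measure ℂ) _ h1
  have h3 : ((LinearMap.ker Complex.imLm : Submodule ℝ ℂ) : Set ℂ) = {w : ℂ | w.im = 0} := by
    ext w
    simp
  rwa [h3] at h2

/-- The energy of the sheet of the positive zero is twice the energy of its lower half. -/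
lemma lintegral_dn_z1_le {N : ℕ} (hN : 0 < N) (R : ℝ) :
    ∫⁻ w in {w | ‖w‖ < R}, dn N (z1 N) w ≤
      2 * ∫⁻ w in dom (Q N) ∩ ({w | w.im < 0} ∩ {w | ‖w‖ < R}), dn N (z1 N) w := by
  obtain ⟨g, h⟩ := exists_good_Q hN
  set B := dom (Q N) ∩ ({w : ℂ | w.im < 0} ∩ {w | ‖w‖ < R}) with hB
  have hBm : MeasurableSet B := h.isOpen_dom.measurableSet.inter
    ((measurableSet_lt Complex.measurable_im measurable_const).inter
      (measurableSet_lt measurable_norm measurable_const))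
  set B' := (fun w : ℂ => conj w) ⁻¹' B with hB'
  have hmp : MeasurePreserving (fun w : ℂ => conj w) volume volume :=
    Complex.conjLIE.measurePreserving
  have hme : MeasurableEmbedding (fun w : ℂ => conj w) :=
    Complex.conjLIE.toHomeomorph.measurableEmbedding
  have hconj : ∫⁻ w in B', dn N (z1 N) w = ∫⁻ w in B, dn N (z1 N) w := by
    have h0 := hmp.setLIntegral_comp_preimage_emb hme (dn N (z1 N)) B
    simp_rw [dn_conj hN (eval_Q_z1 hN) (conj_z1 N)] at h0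
    exact h0
  have hdm : MeasurableSet (dom (Q N)) := h.isOpen_dom.measurableSet
  have h1 : ∫⁻ w in {w | ‖w‖ < R}, dn N (z1 N) w =
      ∫⁻ w in dom (Q N) ∩ {w | ‖w‖ < R}, dn N (z1 N) w := by
    unfold dn
    rw [setLIntegral_indicator hdm, setLIntegral_indicator hdm, ← inter_assoc, inter_self]
  rw [h1]
  have h2 : dom (Q N) ∩ {w : ℂ | ‖w‖ < R} ⊆ (B ∪ B') ∪ {w : ℂ | w.im = 0} := by
    rintro w ⟨hw1, hw2⟩
    rcases lt_trichotomy w.im 0 with h0 | h0 | h0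
    · left; left; exact ⟨hw1, h0, hw2⟩
    · right; exact h0
    · left; right
      refine ⟨(conj_mem_dom hN).mpr hw1, ?_, ?_⟩
      · have : (conj w).im < 0 := by rw [Complex.conj_im]; linarith
        exact this
      · have : ‖conj w‖ < R := by rw [RCLike.norm_conj]; exact hw2
        exact this
  calc ∫⁻ w in dom (Q N) ∩ {w | ‖w‖ < R}, dn N (z1 N) w
      ≤ ∫⁻ w in (B ∪ B') ∪ {w : ℂ | w.im = 0}, dn N (z1 N) w := lintegral_mono_set h2
    _ ≤ (∫⁻ w in B ∪ B', dn N (z1 N) w) + ∫⁻ w in {w : ℂ | w.im = 0}, dn N (z1 N) w :=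
        lintegral_union_le _ _ _
    _ = ∫⁻ w in B ∪ B', dn N (z1 N) w := by
        rw [setLIntegral_measure_zero _ _ volume_real_axis, add_zero]
    _ ≤ (∫⁻ w in B, dn N (z1 N) w) + ∫⁻ w in B', dn N (z1 N) w := lintegral_union_le _ _ _
    _ = 2 * ∫⁻ w in B, dn N (z1 N) w := by rw [hconj, two_mul]

/-- Energy of the root sheet along a ray. -/
noncomputable def EE (N : ℕ) (ε R δ : ℝ) : ℝ≥0∞ :=
  ∫⁻ ρ in Ioo ε R, ENNReal.ofReal ρ * dn N 0 (ρ * Complex.exp (δ * Complex.I))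

/-- The energy bound in terms of energies along rays. -/
lemma energy_bound' {N : ℕ} (hN : 0 < N) {ε R r₁ R₁ : ℝ} (hε : 0 < ε) (hr₁ : 0 < r₁)
    (hrR₁ : r₁ < R₁)
    (hb0 : ∀ w ∈ sec N, ε < ‖w‖ → ‖w‖ < R →
      r₁ < ‖br (Q N) 0 w‖ ∧ ‖br (Q N) 0 w‖ < R₁)
    (hb1 : ∀ w ∈ dom (Q N), w.im < 0 → ‖w‖ < R →
      r₁ < ‖br (Q N) (z1 N) w‖ ∧ ‖br (Q N) (z1 N) w‖ < R₁) :
    2 * N * (∫⁻ δ in Ioo 0 (hh N), EE N ε R δ) +
      N * (∫⁻ w in {w | ‖w‖ < R}, dn N (z1 N) w) ≤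
      ENNReal.ofReal (2 * π * Real.log (R₁ / r₁)) := by
  have h1 := energy_bound hN hr₁ hrR₁ hb0 hb1
  have h2 := lintegral_dn_z1_le hN R
  have h3 := lintegral_sec hN (measurable_dn hN (eval_Q_zero N)) (R := R) hε
  have h4 : (∫⁻ w in sec N ∩ {w | ε < ‖w‖ ∧ ‖w‖ < R}, dn N 0 w) =
      ∫⁻ δ in Ioo 0 (hh N), EE N ε R δ := h3
  rw [h4] at h1
  have hNr : (0 : ℝ) < N := by exact_mod_cast hN
  calc 2 * N * (∫⁻ δ in Ioo 0 (hh N), EE N ε R δ) +
      N * (∫⁻ w in {w | ‖w‖ < R}, dn N (z1 N) w)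
      ≤ 2 * N * (∫⁻ δ in Ioo 0 (hh N), EE N ε R δ) +
      N * (2 * ∫⁻ w in dom (Q N) ∩ ({w | w.im < 0} ∩ {w | ‖w‖ < R}), dn N (z1 N) w) := by
        gcongr
    _ = 2 * N * ((∫⁻ δ in Ioo 0 (hh N), EE N ε R δ) +
        ∫⁻ w in dom (Q N) ∩ ({w | w.im < 0} ∩ {w | ‖w‖ < R}), dn N (z1 N) w) := by ring
    _ ≤ 2 * N * ENNReal.ofReal (hh N * Real.log (R₁ / r₁)) := by gcongr
    _ = ENNReal.ofReal (2 * π * Real.log (R₁ / r₁)) := by
        rw [← mul_hh hN]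
        have : (2 * (N : ℝ≥0∞)) = ENNReal.ofReal (2 * N) := by
          rw [ENNReal.ofReal_mul two_pos.le, ENNReal.ofReal_natCast]
          norm_num
        rw [this, ← ENNReal.ofReal_mul (by positivity)]
        congr 1
        ring

end Pool.Agent.Hhelper90.BiUniv
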