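import Mathlib
import Pool.Agent.Hhelper90.BiUniv.Energy2

/-!
# Comparison of energies along rays
-/

set_option autoImplicit false

open Polynomial Set Filter Topology Metric MeasureTheory Bornology
open scoped ENNReal Real ComplexConjugate

namespace Pool.Agent.Hhelper90.BiUniv

/-- The square of the logarithmic derivative `d log z / d log w`, as a function of `z`. -/
noncomputable def Phi (N : ℕ) (z : ℂ) : ℂ :=
  ((1 - aa N * z ^ N) / (1 - ((N : ℂ) + 1) * aa N * z ^ N)) ^ 2

lemma mul_ld_sq {N : ℕ} (hN : 0 < N) {w : ℂ} (hw : w ∈ dom (Q N)) (hw0 : w ≠ 0) :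
    (w * ld N 0 w) ^ 2 = Phi N (br (Q N) 0 w) := by
  obtain ⟨g, h⟩ := exists_good_Q hN
  have h1 := h.eval_br (eval_Q_zero N) hw
  have hz : br (Q N) 0 w ≠ 0 := by
    intro h0
    rw [h0, eval_Q_zero] at h1
    exact hw0 h1.symm
  have h3 : 1 - ((N : ℂ) + 1) * aa N * br (Q N) 0 w ^ N ≠ 0 := by
    have := h.deriv_br_ne (eval_Q_zero N) hw
    rwa [eval_derivative_Q] at this
  have h2 : w = br (Q N) 0 w * (1 - aa N * br (Q N) 0 w ^ N) := by
    conv_lhs => rw [← h1, eval_Q, pow_succ]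
    ring
  rw [ld_eq hN (eval_Q_zero N) hw, Phi]
  conv_lhs => rw [h2]
  congr 1
  rw [← h2]
  generalize br (Q N) 0 w = z at *
  rw [h2]
  field_simp

lemma norm_mul_ld_sq {N : ℕ} (hN : 0 < N) {w : ℂ} (hw : w ∈ dom (Q N)) (hw0 : w ≠ 0) :
    ‖w‖ ^ 2 * ‖ld N 0 w‖ ^ 2 = ‖Phi N (br (Q N) 0 w)‖ := by
  rw [← mul_ld_sq hN hw hw0, norm_pow, norm_mul, mul_pow]

lemma mid_mem_dom {N : ℕ} (hN : 0 < N) {ρ : ℝ} (hρ : 0 < ρ) : (ρ : ℂ) * eh N ∈ dom (Q N) := by
  rw [mem_dom_Q_iff hN]
  intro v hv hmem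
  have hv1 := norm_eq_one_of_pow hN hv
  have hv0 : v ≠ 0 := by
    rintro rfl
    rw [norm_zero] at hv1
    exact zero_ne_one hv1
  rw [mem_slit_iff hv0] at hmem
  obtain ⟨ρ', hρ', he⟩ := hmem
  have h1 : ρ = ρ' := by
    have h2 := congrArg norm he
    rw [norm_mul, norm_mul, norm_eh, hv1, mul_one, mul_one, Complex.norm_real, Complex.norm_real,
      Real.norm_eq_abs, Real.norm_eq_abs, abs_of_pos hρ, abs_of_pos (by linarith)] at h2
    exact h2
  rw [← h1] at he
  have hρc : (ρ : ℂ) ≠ 0 := by exact_mod_cast hρ.ne'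
  have h3 : eh N = v := mul_left_cancel₀ hρc he
  rw [← h3, eh_pow hN] at hv
  norm_num at hv

lemma ray_mem_dom {N : ℕ} (hN : 0 < N) {ρ δ : ℝ} (hρ : 0 < ρ) (hδ : δ ∈ Ioc 0 (hh N)) :
    (ρ : ℂ) * Complex.exp (δ * Complex.I) ∈ dom (Q N) := by
  rcases hδ.2.eq_or_lt with h | h
  · rw [h]; exact mid_mem_dom hN hρ
  · exact sec_subset_dom hN (mul_exp_mem_sec hN hρ hδ.1 h)

/-- On the middle ray the square of the logarithmic derivative is a nonnegative real number. -/
lemma Phi_mid {N : ℕ} (hN : 0 < N) {ρ : ℝ} (hρ : 0 < ρ) :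
    (Phi N (br (Q N) 0 (ρ * eh N))).re = ‖Phi N (br (Q N) 0 (ρ * eh N))‖ := by
  have hmem := mid_mem_dom hN hρ
  have hconj : conj ((ρ : ℂ) * eh N) = ρ * (eh N)⁻¹ := by
    rw [map_mul, Complex.conj_ofReal, conj_eh]
  have hω : (eh N ^ 2) ^ N = 1 := by
    rw [← pow_mul, mul_comm, pow_mul, eh_pow hN]; norm_num
  have h1 : (ρ : ℂ) * eh N = eh N ^ 2 * conj ((ρ : ℂ) * eh N) := by
    rw [hconj]
    have := eh_ne_zero N
    field_simp
  set z := br (Q N) 0 (ρ * eh N) with hz
  have h2 : z = eh N ^ 2 * conj z := by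
    rw [hz]
    conv_lhs => rw [h1]
    rw [br_zero_mul hN hω ((conj_mem_dom hN).mpr hmem), br_zero_conj hN hmem]
  have h3 : (eh N * conj z).im = 0 := by
    have h4 : conj (eh N * conj z) = eh N * conj z := by
      rw [map_mul, Complex.conj_conj, conj_eh]
      conv_lhs => rw [h2]
      have := eh_ne_zero N
      field_simp
    exact Complex.conj_eq_iff_im.mp h4
  obtain ⟨t, ht⟩ := eq_mul_eh_of_im h3
  have h5 : Phi N z = (((1 + aa N * t ^ N) / (1 + ((N : ℝ) + 1) * aa N * t ^ N)) ^ 2 : ℝ) := by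
    rw [Phi, ht, mul_pow, eh_pow hN]
    push_cast
    congr 1
    ring
  rw [h5, Complex.ofReal_re, Complex.norm_real, Real.norm_eq_abs, abs_of_nonneg (by positivity)]

lemma EE_eq {N : ℕ} (hN : 0 < N) {ε R δ : ℝ} (hε : 0 < ε) (hεR : ε < R)
    (hδ : δ ∈ Ioc 0 (hh N)) :
    EE N ε R δ = ENNReal.ofReal (∫ x in (Real.log ε)..(Real.log R),
      ‖Phi N (br (Q N) 0 (Complex.exp (x + δ * Complex.I)))‖) := by
  obtain ⟨g, h⟩ := exists_good_Q hN
  have hR : 0 < R := hε.trans hεR
  set G : ℝ → ℝ := fun ρ => ‖Phi N (br (Q N) 0 (ρ * Complex.exp (δ * Complex.I)))‖ / ρ with hG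
  have hden : ∀ w ∈ dom (Q N), 1 - ((N : ℂ) + 1) * aa N * br (Q N) 0 w ^ N ≠ 0 := by
    intro w hw
    have := h.deriv_br_ne (eval_Q_zero N) hw
    rwa [eval_derivative_Q] at this
  have hbrc : ContinuousOn (fun ρ : ℝ => br (Q N) 0 (ρ * Complex.exp (δ * Complex.I)))
      (Icc ε R) :=
    (h.br_cont (eval_Q_zero N)).comp (by fun_prop)
      (fun ρ hρ => ray_mem_dom hN (hε.trans_le hρ.1) hδ)
  have hGc : ContinuousOn G (Icc ε R) := by
    apply ContinuousOn.div
    · apply ContinuousOn.norm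
      unfold Phi
      apply ContinuousOn.pow
      apply ContinuousOn.div
      · fun_prop
      · fun_prop
      · intro ρ hρ
        exact hden _ (ray_mem_dom hN (hε.trans_le hρ.1) hδ)
    · exact continuousOn_id
    · intro ρ hρ
      exact (hε.trans_le hρ.1).ne'
  have h1 : EE N ε R δ = ∫⁻ ρ in Ioo ε R, ENNReal.ofReal (G ρ) := by
    unfold EE
    apply setLIntegral_congr_fun measurableSet_Ioo
    intro ρ hρ
    have hρ0 : 0 < ρ := hε.trans hρ.1
    have hmem := ray_mem_dom hN hρ0 hδ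
    have hne : (ρ : ℂ) * Complex.exp (δ * Complex.I) ≠ 0 :=
      mul_ne_zero (by exact_mod_cast hρ0.ne') (Complex.exp_ne_zero _)
    simp only [dn]
    rw [indicator_of_mem hmem, ← ENNReal.ofReal_mul hρ0.le, hG]
    congr 1
    simp only
    rw [← norm_mul_ld_sq hN hmem hne, norm_mul_exp hρ0.le]
    field_simp
  have hint : IntegrableOn G (Ioo ε R) :=
    (hGc.integrableOn_compact isCompact_Icc).mono_set Ioo_subset_Icc_self
  rw [h1, ← ofReal_integral_eq_lintegral_ofReal hint]
  · congr 1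
    rw [← integral_Ioc_eq_integral_Ioo, ← intervalIntegral.integral_of_le hεR.le]
    have h2 := intervalIntegral.integral_comp_mul_deriv' (f := Real.exp) (f' := Real.exp)
      (a := Real.log ε) (b := Real.log R) (g := G) (fun x _ => Real.hasDerivAt_exp x)
      Real.continuous_exp.continuousOn (by
        apply hGc.mono
        rintro _ ⟨x, hx, rfl⟩
        rw [uIcc_of_le (Real.log_le_log hε hεR.le)] at hx
        refine ⟨?_, ?_⟩
        · rw [← Real.exp_log hε]; exact Real.exp_le_exp.mpr hx.1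
        · rw [← Real.exp_log hR]; exact Real.exp_le_exp.mpr hx.2)
    rw [Real.exp_log hε, Real.exp_log hR] at h2
    rw [← h2]
    apply intervalIntegral.integral_congr
    intro x _
    simp only [Function.comp_apply, hG]
    rw [div_mul_cancel₀ _ (Real.exp_pos x).ne', Complex.exp_add, Complex.ofReal_exp]
  · filter_upwards [ae_restrict_mem measurableSet_Ioo] with ρ hρ
    have : 0 < ρ := hε.trans hρ.1
    positivity

/-- The integral over the ray is minimal for the middle ray, up to a small error. -/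
lemma EE_mid_le {N : ℕ} (hN : 0 < N) {ε R δ κ c : ℝ} (hε : 0 < ε) (hεR : ε < R)
    (hδ : δ ∈ Ioc 0 (hh N))
    (h1 : ∀ w, ‖w‖ = ε → ‖Phi N (br (Q N) 0 w) - 1‖ ≤ κ)
    (h2 : ∀ w ∈ dom (Q N), ‖w‖ = R → ‖Phi N (br (Q N) 0 w) - c‖ ≤ κ) :
    EE N ε R (hh N) ≤ EE N ε R δ + ENNReal.ofReal (2 * (hh N * κ)) := by
  obtain ⟨g, h⟩ := exists_good_Q hN
  have hR : 0 < R := hε.trans hεR
  have hpos := hh_pos hN
  set H : ℂ → ℂ := fun ξ => Phi N (br (Q N) 0 (Complex.exp ξ)) with hH
  have hmem : ∀ ξ : ℂ, ξ.im ∈ Ioc 0 (hh N) → Complex.exp ξ ∈ dom (Q N) := by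
    intro ξ hξ
    have : Complex.exp ξ = ((Real.exp ξ.re : ℝ) : ℂ) * Complex.exp (ξ.im * Complex.I) := by
      rw [Complex.ofReal_exp, ← Complex.exp_add, Complex.re_add_im]
    rw [this]
    exact ray_mem_dom hN (Real.exp_pos _) hξ
  have hden : ∀ w ∈ dom (Q N), 1 - ((N : ℂ) + 1) * aa N * br (Q N) 0 w ^ N ≠ 0 := by
    intro w hw
    have := h.deriv_br_ne (eval_Q_zero N) hw
    rwa [eval_derivative_Q] at this
  have hHd : ∀ ξ : ℂ, ξ.im ∈ Ioc 0 (hh N) → DifferentiableAt ℂ H ξ := by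
    intro ξ hξ
    have hm := hmem ξ hξ
    have hb : DifferentiableAt ℂ (fun ξ => br (Q N) 0 (Complex.exp ξ)) ξ :=
      ((h.br_hasDerivAt (eval_Q_zero N) hm).differentiableAt).comp ξ
        Complex.differentiable_exp.differentiableAt
    simp only [hH, Phi]
    apply DifferentiableAt.pow
    apply DifferentiableAt.div
    · fun_prop
    · fun_prop
    · exact hden _ hm
  have hlog : Real.log ε ≤ Real.log R := Real.log_le_log hε hεR.le
  -- Cauchy on the rectangle
  have hcauchy := Complex.integral_boundary_rect_eq_zero_of_differentiableOn H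
    ((Real.log ε : ℂ) + δ * Complex.I) ((Real.log R : ℂ) + hh N * Complex.I) (by
      intro ξ hξ
      rw [Complex.mem_reProdIm] at hξ
      have h3 := hξ.2
      simp only [Complex.add_im, Complex.ofReal_im, Complex.mul_im, Complex.ofReal_re,
        Complex.I_im, mul_one, Complex.I_re, mul_zero, add_zero, zero_add] at h3
      rw [uIcc_of_le hδ.2] at h3
      exact (hHd ξ ⟨hδ.1.trans_le h3.1, h3.2⟩).differentiableWithinAt)
  simp only [Complex.add_re, Complex.ofReal_re, Complex.mul_re, Complex.I_re, mul_zero,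
    Complex.ofReal_im, Complex.I_im, mul_one, sub_self, add_zero, Complex.add_im,
    Complex.mul_im, zero_add, smul_eq_mul] at hcauchy
  -- end corrections
  have hend : ∀ (S c' : ℝ), (∀ y ∈ Icc δ (hh N), ‖H (S + y * Complex.I) - c'‖ ≤ κ) →
      |(∫ y in δ..(hh N), H (S + y * Complex.I)).im| ≤ hh N * κ := by
    intro S c' hb
    have hcont : ContinuousOn (fun y : ℝ => H (S + y * Complex.I)) (Icc δ (hh N)) := by
      intro y hy
      have h4 : ((S : ℂ) + y * Complex.I).im ∈ Ioc 0 (hh N) := by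
        simpa using (⟨hδ.1.trans_le hy.1, hy.2⟩ : y ∈ Ioc 0 (hh N))
      have h5 : ContinuousAt (fun y : ℝ => (S : ℂ) + y * Complex.I) y := by fun_prop
      have h6 : ContinuousAt H ((S : ℂ) + y * Complex.I) := (hHd _ h4).continuousAt
      exact (ContinuousAt.comp (f := fun y : ℝ => (S : ℂ) + y * Complex.I) h6 h5).continuousWithinAt
    have hint : IntervalIntegrable (fun y : ℝ => H (S + y * Complex.I)) volume δ (hh N) := by
      apply ContinuousOn.intervalIntegrable
      rwa [uIcc_of_le hδ.2]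
    have h7 : (∫ y in δ..(hh N), H (S + y * Complex.I)).im =
        (∫ y in δ..(hh N), (H (S + y * Complex.I) - c')).im := by
      rw [intervalIntegral.integral_sub hint (by simp), Complex.sub_im,
        intervalIntegral.integral_const]
      simp
    rw [h7]
    refine (Complex.abs_im_le_norm _).trans ?_
    have h8 := intervalIntegral.norm_integral_le_of_norm_le_const (a := δ) (b := hh N) (C := κ)
      (f := fun y : ℝ => H (S + y * Complex.I) - c') (fun y hy => by
        rw [uIoc_of_le hδ.2] at hy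
        exact hb y ⟨hy.1.le, hy.2⟩)
    refine h8.trans ?_
    rw [abs_of_nonneg (by linarith [hδ.2]), mul_comm]
    have hκ : 0 ≤ κ := (norm_nonneg _).trans (hb δ ⟨le_rfl, hδ.2⟩)
    apply mul_le_mul_of_nonneg_right _ hκ
    linarith [hδ.1]
  have hA := hend (Real.log R) c (by
    intro y hy
    have hyI : y ∈ Ioc 0 (hh N) := ⟨hδ.1.trans_le hy.1, hy.2⟩
    apply h2
    · apply hmem
      simpa using hyI
    · rw [Complex.norm_exp]
      simp [Real.exp_log hR])
  have hB := hend (Real.log ε) 1 (by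
    intro y hy
    have := h1 (Complex.exp (Real.log ε + y * Complex.I)) (by
      rw [Complex.norm_exp]
      simp [Real.exp_log hε])
    simpa using this)
  rw [EE_eq hN hε hεR hδ, EE_eq hN hε hεR ⟨hpos, le_rfl⟩]
  have hκ : 0 ≤ κ := by
    have := h1 (ε : ℂ) (by rw [Complex.norm_real, Real.norm_eq_abs, abs_of_pos hε])
    exact (norm_nonneg _).trans this
  have hHint : ∀ y : ℝ, y ∈ Ioc 0 (hh N) →
      IntervalIntegrable (fun x : ℝ => H (x + y * Complex.I)) volume (Real.log ε) (Real.log R) := by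
    intro y hy
    apply ContinuousOn.intervalIntegrable
    intro x _
    have h4 : ((x : ℂ) + y * Complex.I).im ∈ Ioc 0 (hh N) := by simpa using hy
    have h5 : ContinuousAt (fun x : ℝ => (x : ℂ) + y * Complex.I) x := by fun_prop
    have h6 : ContinuousAt H ((x : ℂ) + y * Complex.I) := (hHd _ h4).continuousAt
    exact (ContinuousAt.comp (f := fun x : ℝ => (x : ℂ) + y * Complex.I) h6 h5).continuousWithinAt
  have hnorm : ∀ x y : ℝ, ‖Phi N (br (Q N) 0 (Complex.exp (x + y * Complex.I)))‖ =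
      ‖H (x + y * Complex.I)‖ := fun x y => rfl
  simp_rw [hnorm]
  have hre : ∀ y ∈ Ioc 0 (hh N), ∫ x in (Real.log ε)..(Real.log R), (H (x + y * Complex.I)).re =
      (∫ x in (Real.log ε)..(Real.log R), H (x + y * Complex.I)).re := by
    intro y hy
    exact Complex.reCLM.intervalIntegral_comp_comm (hHint y hy)
  have hhmem : hh N ∈ Ioc 0 (hh N) := ⟨hpos, le_rfl⟩
  -- the middle ray
  have hmid : ∫ x in (Real.log ε)..(Real.log R), ‖H (x + hh N * Complex.I)‖ =
      (∫ x in (Real.log ε)..(Real.log R), H (x + hh N * Complex.I)).re := by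
    rw [← hre _ hhmem]
    apply intervalIntegral.integral_congr
    intro x _
    simp only [hH]
    have h10 : Complex.exp ((x : ℂ) + hh N * Complex.I) = ((Real.exp x : ℝ) : ℂ) * eh N := by
      rw [Complex.exp_add, Complex.ofReal_exp, eh]
    rw [h10]
    exact (Phi_mid hN (Real.exp_pos x)).symm
  have hle : (∫ x in (Real.log ε)..(Real.log R), H (x + δ * Complex.I)).re ≤
      ∫ x in (Real.log ε)..(Real.log R), ‖H (x + δ * Complex.I)‖ := by
    rw [← hre δ hδ]
    apply intervalIntegral.integral_mono_on hlog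
    · have := (hHint δ hδ)
      exact ⟨this.1.re, this.2.re⟩
    · exact (hHint δ hδ).norm
    · intro x _
      exact Complex.re_le_norm _
  have hfin := congrArg Complex.re hcauchy
  simp only [Complex.sub_re, Complex.add_re, Complex.mul_re, Complex.I_re, Complex.I_im,
    zero_mul, one_mul, zero_sub, Complex.zero_re] at hfin
  rw [abs_le] at hA hB
  have hkey : ∫ x in (Real.log ε)..(Real.log R), ‖H (x + hh N * Complex.I)‖ ≤
      (∫ x in (Real.log ε)..(Real.log R), ‖H (x + δ * Complex.I)‖) + 2 * (hh N * κ) := by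
    rw [hmid]
    linarith [hA.1, hA.2, hB.1, hB.2]
  calc ENNReal.ofReal (∫ x in (Real.log ε)..(Real.log R), ‖H (x + hh N * Complex.I)‖)
      ≤ ENNReal.ofReal ((∫ x in (Real.log ε)..(Real.log R), ‖H (x + δ * Complex.I)‖) +
          2 * (hh N * κ)) := ENNReal.ofReal_le_ofReal hkey
    _ ≤ _ := ENNReal.ofReal_add_le

end Pool.Agent.Hhelper90.BiUniv
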