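import Mathlib
import Pool.Agent.Hhelper90.BiUniv.Energy3

/-!
# Asymptotics
-/

set_option autoImplicit false

open Polynomial Set Filter Topology Metric MeasureTheory Bornology
open scoped ENNReal Real ComplexConjugate

namespace Pool.Agent.Hhelper90.BiUniv

lemma tendsto_inv_cobounded : Tendsto (fun z : ℂ => z⁻¹) (cobounded ℂ) (𝓝 0) :=
  tendsto_inv₀_cobounded

lemma eventually_cobounded_iff {p : ℂ → Prop} (h : ∀ᶠ z in cobounded ℂ, p z) :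
    ∃ K > 0, ∀ z, K ≤ ‖z‖ → p z := by
  rw [Filter.Eventually, ← comap_norm_atTop, mem_comap] at h
  obtain ⟨s, hs, hsub⟩ := h
  rw [mem_atTop_sets] at hs
  obtain ⟨a, ha⟩ := hs
  exact ⟨max a 1, lt_max_of_lt_right one_pos, fun z hz =>
    hsub (ha _ ((le_max_left _ _).trans hz))⟩

lemma tendsto_div_pow {P : ℂ[X]} :
    Tendsto (fun z => P.eval z / z ^ P.natDegree) (cobounded ℂ) (𝓝 P.leadingCoeff) := by
  have h1 : Tendsto (fun z : ℂ => P.reverse.eval z⁻¹) (cobounded ℂ) (𝓝 (P.reverse.eval 0)) :=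
    (P.reverse.continuous.tendsto 0).comp tendsto_inv_cobounded
  have h2 : P.reverse.eval 0 = P.leadingCoeff := by
    rw [← coeff_zero_eq_eval_zero, coeff_zero_reverse]
  rw [h2] at h1
  refine h1.congr' ?_
  have h3 : ∀ᶠ z in cobounded ℂ, z ≠ (0 : ℂ) := eventually_ne_cobounded 0
  filter_upwards [h3] with z hz
  have hinv := invertibleOfNonzero hz
  have h4 := eval₂_reverse_mul_pow (RingHom.id ℂ) z P
  rw [eq_div_iff (pow_ne_zero _ hz)]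
  simpa [eval₂_id, eval₂_eq_eval_map] using h4

lemma poly_large {P : ℂ[X]} (hP : P ≠ 0) {η : ℝ} (hη : 0 < η) :
    ∃ K > 0, ∀ z : ℂ, K ≤ ‖z‖ →
      ‖P.leadingCoeff‖ * ‖z‖ ^ P.natDegree * Real.exp (-η) ≤ ‖P.eval z‖ ∧
      ‖P.eval z‖ ≤ ‖P.leadingCoeff‖ * ‖z‖ ^ P.natDegree * Real.exp η := by
  have hlc : 0 < ‖P.leadingCoeff‖ := norm_pos_iff.mpr (by simpa using hP)
  have h1 := (tendsto_div_pow (P := P)).norm
  have he1 : ‖P.leadingCoeff‖ * Real.exp (-η) < ‖P.leadingCoeff‖ := by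
    have : Real.exp (-η) < 1 := by rw [Real.exp_lt_one_iff]; linarith
    nlinarith
  have he2 : ‖P.leadingCoeff‖ < ‖P.leadingCoeff‖ * Real.exp η := by
    have : 1 < Real.exp η := by rw [Real.one_lt_exp_iff]; exact hη
    nlinarith
  have h3 : ∀ᶠ z in cobounded ℂ, z ≠ (0 : ℂ) := eventually_ne_cobounded 0
  obtain ⟨K, hK, h4⟩ := eventually_cobounded_iff ((h1.eventually_const_lt he1).and
    ((h1.eventually_lt_const he2).and h3))
  refine ⟨K, hK, fun z hz => ?_⟩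
  obtain ⟨h5, h6, h7⟩ := h4 z hz
  have hz0 : 0 < ‖z‖ ^ P.natDegree := pow_pos (norm_pos_iff.mpr h7) _
  rw [norm_div, norm_pow] at h5 h6
  rw [lt_div_iff₀ hz0] at h5
  rw [div_lt_iff₀ hz0] at h6
  constructor
  · linarith
  · linarith

lemma poly_small {P : ℂ[X]} (h0 : P.eval 0 = 0) (h1 : P.derivative.eval 0 = 1) {η : ℝ}
    (hη : 0 < η) : ∃ κ > 0, ∀ z : ℂ, ‖z‖ ≤ κ →
      ‖z‖ * Real.exp (-η) ≤ ‖P.eval z‖ ∧ ‖P.eval z‖ ≤ ‖z‖ * Real.exp η := by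
  have hd : HasDerivAt (fun z => P.eval z) 1 0 := by
    have := P.hasDerivAt (0 : ℂ)
    rwa [h1] at this
  have h2 := (hasDerivAt_iff_tendsto_slope.mp hd).norm
  rw [norm_one] at h2
  have he1 : Real.exp (-η) < 1 := by rw [Real.exp_lt_one_iff]; linarith
  have he2 : 1 < Real.exp η := by rw [Real.one_lt_exp_iff]; exact hη
  have h3 := (h2.eventually_const_lt he1).and (h2.eventually_lt_const he2)
  rw [eventually_nhdsWithin_iff] at h3
  obtain ⟨κ, hκ, hb⟩ := Metric.eventually_nhds_iff.mp h3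
  refine ⟨κ / 2, by positivity, fun z hz => ?_⟩
  by_cases hz0 : z = 0
  · subst hz0
    rw [h0]
    simp
  · obtain ⟨h5, h6⟩ := hb (y := z) (by rw [dist_zero_right]; linarith) hz0
    have hzn : 0 < ‖z‖ := norm_pos_iff.mpr hz0
    have h7 : ‖slope (fun z => P.eval z) 0 z‖ = ‖P.eval z‖ / ‖z‖ := by
      rw [slope_def_field, h0, sub_zero, sub_zero, norm_div]
    rw [h7] at h5 h6
    rw [lt_div_iff₀ hzn] at h5
    rw [div_lt_iff₀ hzn] at h6
    constructor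
    · linarith
    · linarith

lemma leadingCoeff_Q {N : ℕ} (hN : 0 < N) : ‖(Q N).leadingCoeff‖ = aa N := by
  have h1 : (Q N).leadingCoeff = -(aa N : ℂ) := by
    rw [leadingCoeff, natDegree_Q hN, Q]
    have : N ≠ 0 := hN.ne'
    simp [coeff_X, this]
  rw [h1, norm_neg, Complex.norm_real, Real.norm_eq_abs, abs_of_pos (aa_pos hN)]

lemma tendsto_Phi (N : ℕ) (hN : 0 < N) :
    Tendsto (Phi N) (cobounded ℂ) (𝓝 ((((1 / ((N : ℝ) + 1)) ^ 2 : ℝ)) : ℂ)) := by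
  have ha : (aa N : ℂ) ≠ 0 := by exact_mod_cast (aa_pos hN).ne'
  have hN1 : (N : ℂ) + 1 ≠ 0 := by exact_mod_cast (Nat.succ_ne_zero N)
  have h1 : Tendsto (fun z : ℂ => (z⁻¹) ^ N) (cobounded ℂ) (𝓝 0) := by
    have := tendsto_inv_cobounded.pow N
    rwa [zero_pow hN.ne'] at this
  have h2 : Tendsto (fun z : ℂ => (((z⁻¹) ^ N - aa N) / ((z⁻¹) ^ N - ((N : ℂ) + 1) * aa N)) ^ 2)
      (cobounded ℂ) (𝓝 (((0 - (aa N : ℂ)) / (0 - ((N : ℂ) + 1) * aa N)) ^ 2)) := by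
    apply Tendsto.pow
    apply Tendsto.div (h1.sub_const _) (h1.sub_const _)
    rw [zero_sub, neg_ne_zero]
    exact mul_ne_zero hN1 ha
  have h3 : ((0 - (aa N : ℂ)) / (0 - ((N : ℂ) + 1) * aa N)) ^ 2 =
      ((((1 / ((N : ℝ) + 1)) ^ 2 : ℝ)) : ℂ) := by
    push_cast
    congr 1
    rw [zero_sub, zero_sub, neg_div_neg_eq]
    field_simp
  rw [h3] at h2
  refine h2.congr' ?_
  have h4 : ∀ᶠ z in cobounded ℂ, z ≠ (0 : ℂ) := eventually_ne_cobounded 0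
  filter_upwards [h4] with z hz
  rw [Phi]
  congr 1
  have hzN : z ^ N ≠ 0 := pow_ne_zero _ hz
  have e1 : (z⁻¹) ^ N - aa N = (1 - aa N * z ^ N) * (z⁻¹) ^ N := by
    rw [inv_pow]; field_simp
  have e2 : (z⁻¹) ^ N - ((N : ℂ) + 1) * aa N = (1 - ((N : ℂ) + 1) * aa N * z ^ N) * (z⁻¹) ^ N := by
    rw [inv_pow]; field_simp
  rw [e1, e2, mul_div_mul_right]
  exact pow_ne_zero _ (inv_ne_zero hz)

/-- Branches over points near infinity are near infinity. -/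
lemma br_large {N : ℕ} (K : ℝ) :
    ∃ R₀ > 0, ∀ z : ℂ, R₀ ≤ ‖(Q N).eval z‖ → K ≤ ‖z‖ := by
  refine ⟨max 1 (|K| + |aa N| * |K| ^ (N + 1) + 1), lt_max_of_lt_left one_pos, fun z hz => ?_⟩
  by_contra hcon
  push Not at hcon
  have h1 : ‖(Q N).eval z‖ ≤ |K| + |aa N| * |K| ^ (N + 1) := by
    rw [eval_Q]
    refine (norm_sub_le _ _).trans ?_
    rw [norm_mul, norm_pow, Complex.norm_real, Real.norm_eq_abs]
    have h2 : ‖z‖ ≤ |K| := hcon.le.trans (le_abs_self K)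
    gcongr
  have h3 := (le_max_right (1 : ℝ) (|K| + |aa N| * |K| ^ (N + 1) + 1)).trans hz
  linarith

lemma Phi_near_zero {N : ℕ} (hN : 0 < N) {κ : ℝ} (hκ : 0 < κ) :
    ∃ ε₀ > 0, ∀ w : ℂ, ‖w‖ ≤ ε₀ → ‖Phi N (br (Q N) 0 w) - 1‖ ≤ κ := by
  obtain ⟨g, h⟩ := exists_good_Q hN
  have h1 : ContinuousAt (fun w => Phi N (br (Q N) 0 w)) 0 := by
    have hb := h.br_continuousAt (eval_Q_zero N) h.zero_mem_dom
    unfold Phi
    apply ContinuousAt.pow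
    apply ContinuousAt.div
    · fun_prop
    · fun_prop
    · rw [h.br_zero (eval_Q_zero N), zero_pow hN.ne']
      simp
  have h2 : Phi N (br (Q N) 0 0) = 1 := by
    rw [h.br_zero (eval_Q_zero N), Phi, zero_pow hN.ne']
    simp
  rw [Metric.continuousAt_iff] at h1
  obtain ⟨δ, hδ, hb⟩ := h1 κ hκ
  refine ⟨δ / 2, by positivity, fun w hw => ?_⟩
  have := hb (x := w) (by rw [dist_zero_right]; linarith)
  rw [h2, dist_eq_norm] at this
  exact this.le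

lemma Phi_near_top {N : ℕ} (hN : 0 < N) {κ : ℝ} (hκ : 0 < κ) :
    ∃ R₀ > 0, ∀ w ∈ dom (Q N), R₀ ≤ ‖w‖ →
      ‖Phi N (br (Q N) 0 w) - ((((1 / ((N : ℝ) + 1)) ^ 2 : ℝ)) : ℂ)‖ ≤ κ := by
  obtain ⟨g, h⟩ := exists_good_Q hN
  have h1 : ∀ᶠ z in cobounded ℂ, dist (Phi N z) ((((1 / ((N : ℝ) + 1)) ^ 2 : ℝ)) : ℂ) < κ :=
    (tendsto_Phi N hN).eventually (ball_mem_nhds _ hκ)
  obtain ⟨K, hK, hb⟩ := eventually_cobounded_iff h1
  obtain ⟨R₀, hR₀, hc⟩ := br_large (N := N) K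
  refine ⟨R₀, hR₀, fun w hw hwR => ?_⟩
  have h2 := hc (br (Q N) 0 w) (by rw [h.eval_br (eval_Q_zero N) hw]; exact hwR)
  have h3 := hb _ h2
  rw [dist_eq_norm] at h3
  exact h3.le

end Pool.Agent.Hhelper90.BiUniv
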