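import Mathlib
import Pool.Agent.Hhelper90.BiUniv.Limits

/-!
# Folding the plane along finitely many directions
-/

set_option autoImplicit false

open Polynomial Set Filter Topology Metric MeasureTheory Bornology InnerProductGeometry
open scoped ENNReal Real ComplexConjugate

namespace Pool.Agent.Hhelper90.BiUniv

/-- Truncated angle to the nearest direction in `S`. -/
noncomputable def th (N : ℕ) (S : Finset ℂ) (hS : S.Nonempty) (w : ℂ) : ℝ :=
  min (S.inf' hS fun v => angle w v) (hh N)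

/-- The folding map. -/
noncomputable def fold (N : ℕ) (S : Finset ℂ) (hS : S.Nonempty) (w : ℂ) : ℂ :=
  (‖w‖ : ℂ) * Complex.exp (th N S hS w * Complex.I)

section

variable {N : ℕ} {S : Finset ℂ} {hS : S.Nonempty}

lemma norm_fold (w : ℂ) : ‖fold N S hS w‖ = ‖w‖ := by
  unfold fold
  exact norm_mul_exp (norm_nonneg w)

lemma th_le (w : ℂ) : th N S hS w ≤ hh N := min_le_right _ _

lemma th_nonneg (hN : 0 < N) (w : ℂ) : 0 ≤ th N S hS w := by
  unfold th
  apply le_min
  · rw [Finset.le_inf'_iff]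
    intro v _
    exact angle_nonneg _ _
  · exact (hh_pos hN).le

lemma th_le_angle {v : ℂ} (hv : v ∈ S) (w : ℂ) : th N S hS w ≤ angle w v :=
  (min_le_left _ _).trans (Finset.inf'_le _ hv)

lemma th_eq_of_forall {v w : ℂ} (hv : v ∈ S) (h : ∀ v' ∈ S, angle w v ≤ angle w v')
    (hle : angle w v ≤ hh N) : th N S hS w = angle w v := by
  apply le_antisymm (th_le_angle hv w)
  apply le_min _ hle
  rw [Finset.le_inf'_iff]
  exact h

lemma th_eq_hh {w : ℂ} (h : ∀ v ∈ S, hh N ≤ angle w v) : th N S hS w = hh N := by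
  unfold th
  apply min_eq_right
  rw [Finset.le_inf'_iff]
  exact h

lemma continuousAt_angle_left {v w : ℂ} (hv : v ≠ 0) (hw : w ≠ 0) :
    ContinuousAt (fun w => angle w v) w := by
  have h1 : ContinuousAt (fun y : ℂ × ℂ => angle y.1 y.2) (w, v) :=
    continuousAt_angle (x := (w, v)) hw hv
  exact ContinuousAt.comp (f := fun w : ℂ => (w, v)) h1 (by fun_prop)

lemma continuousAt_th (hS0 : ∀ v ∈ S, v ≠ 0) {w : ℂ} (hw : w ≠ 0) :
    ContinuousAt (th N S hS) w := by
  unfold th
  have h1 : ContinuousAt (fun w => S.inf' hS fun v => angle w v) w :=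
    ContinuousAt.finset_inf'_apply hS fun v hv => continuousAt_angle_left (hS0 v hv) hw
  exact h1.tendsto.min tendsto_const_nhds

lemma continuousAt_fold (hS0 : ∀ v ∈ S, v ≠ 0) {w : ℂ} (hw : w ≠ 0) :
    ContinuousAt (fold N S hS) w := by
  unfold fold
  have h1 := continuousAt_th (N := N) (hS := hS) hS0 hw
  have h2 : ContinuousAt (fun w => (th N S hS w : ℂ)) w :=
    Complex.continuous_ofReal.continuousAt.comp h1
  apply ContinuousAt.mul
  · fun_prop
  · exact Complex.continuous_exp.continuousAt.comp (h2.mul continuousAt_const)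

lemma th_smul {ρ : ℝ} (hρ : 0 < ρ) (w : ℂ) : th N S hS ((ρ : ℂ) * w) = th N S hS w := by
  unfold th
  congr 1
  apply Finset.inf'_congr hS rfl
  intro v _
  rw [← Complex.real_smul]
  exact angle_smul_left_of_pos _ _ hρ

lemma th_mem {v : ℂ} (hN : 0 < N) (hv : v ∈ S) (hv0 : v ≠ 0) {ρ : ℝ} (hρ : 0 < ρ) :
    th N S hS ((ρ : ℂ) * v) = 0 := by
  rw [th_smul hρ]
  apply le_antisymm _ (th_nonneg hN _)
  have := th_le_angle (N := N) (hS := hS) hv v
  rwa [angle_self hv0] at this

lemma fold_mem {v : ℂ} (hN : 0 < N) (hv : v ∈ S) (hv1 : ‖v‖ = 1) {ρ : ℝ} (hρ : 0 < ρ) :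
    fold N S hS ((ρ : ℂ) * v) = ρ := by
  have hv0 : v ≠ 0 := by
    rintro rfl
    rw [norm_zero] at hv1
    exact zero_ne_one hv1
  unfold fold
  rw [th_mem hN hv hv0 hρ, norm_mul, hv1, mul_one, Complex.norm_real, Real.norm_eq_abs,
    abs_of_pos hρ]
  simp

lemma fold_ne_zero {w : ℂ} (hw : w ≠ 0) : fold N S hS w ≠ 0 := by
  rw [← norm_ne_zero_iff, norm_fold]
  exact norm_ne_zero_iff.mpr hw

end

/-- Folding along one direction. -/
lemma norm_mul_exp_angle {v w : ℂ} (hv : ‖v‖ = 1) (hw : w ≠ 0) :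
    (‖w‖ : ℂ) * Complex.exp (angle w v * Complex.I) = w / v ∨
      (‖w‖ : ℂ) * Complex.exp (angle w v * Complex.I) = conj (w / v) := by
  have hv0 : v ≠ 0 := by
    rintro rfl
    rw [norm_zero] at hv
    exact zero_ne_one hv
  rw [Complex.angle_eq_abs_arg hw hv0]
  have hnorm : ‖w‖ = ‖w / v‖ := by rw [norm_div, hv, div_one]
  rw [hnorm]
  rcases le_or_gt 0 (w / v).arg with h | h
  · left
    rw [abs_of_nonneg h]
    exact Complex.norm_mul_exp_arg_mul_I _
  · right
    rw [abs_of_neg h]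
    conv_rhs => rw [← Complex.norm_mul_exp_arg_mul_I (w / v)]
    rw [map_mul, Complex.conj_ofReal, ← Complex.exp_conj, map_mul, Complex.conj_ofReal,
      Complex.conj_I]
    push_cast
    congr 2
    ring

lemma lintegral_Ioo_symm {f : ℝ → ℝ≥0∞} (a : ℝ) :
    ∫⁻ φ in Ioo (-a) a, f |φ| = 2 * ∫⁻ φ in Ioo 0 a, f φ := by
  rcases le_or_gt a 0 with ha | ha
  · rw [Ioo_eq_empty (by linarith), Ioo_eq_empty (by linarith)]
    simp
  · have h1 : ∫⁻ φ in Ioo (-a) a, f |φ| = (∫⁻ φ in Ioo (-a) 0, f |φ|) + ∫⁻ φ in Ico 0 a, f |φ| := by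
      rw [← lintegral_union measurableSet_Ico]
      · rw [Ioo_union_Ico_eq_Ioo (by linarith) ha.le]
      · rw [Set.disjoint_left]
        intro x hx hx'
        linarith [hx.2, hx'.1]
    have h2 : ∫⁻ φ in Ico 0 a, f |φ| = ∫⁻ φ in Ioo 0 a, f φ := by
      rw [setLIntegral_congr Ioo_ae_eq_Ico.symm]
      apply setLIntegral_congr_fun measurableSet_Ioo
      intro x hx
      simp only
      rw [abs_of_pos hx.1]
    have h3 : ∫⁻ φ in Ioo (-a) 0, f |φ| = ∫⁻ φ in Ioo 0 a, f φ := by
      have hmp : MeasurePreserving (fun x : ℝ => -x) volume volume := Measure.measurePreserving_neg _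
      have hme : MeasurableEmbedding (fun x : ℝ => -x) := (Homeomorph.neg ℝ).measurableEmbedding
      have h4 := hmp.setLIntegral_comp_preimage_emb hme f (Ioo 0 a)
      rw [← h4]
      have h5 : (fun x : ℝ => -x) ⁻¹' Ioo 0 a = Ioo (-a) 0 := by
        ext x
        simp only [mem_preimage, mem_Ioo]
        constructor
        · rintro ⟨h6, h7⟩
          constructor <;> linarith
        · rintro ⟨h6, h7⟩
          constructor <;> linarith
      rw [h5]
      apply setLIntegral_congr_fun measurableSet_Ioo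
      intro x hx
      simp only
      rw [abs_of_neg hx.2]
    rw [h1, h2, h3, two_mul]

/-- Integrals of functions of the angle to a given direction. -/
lemma lintegral_angle {f : ℝ → ℝ≥0∞} (hf : Measurable f) {v : ℂ} (hv : ‖v‖ = 1) :
    ∫⁻ φ in Ioo (-π) π, f (angle (Complex.exp ((φ : ℝ) * Complex.I)) v) =
      2 * ∫⁻ φ in Ioo 0 π, f φ := by
  have hv0 : v ≠ 0 := by
    rintro rfl
    rw [norm_zero] at hv
    exact zero_ne_one hv
  have hmeas : ∀ v : ℂ, Measurable fun w : ℂ => f (angle w v) := by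
    intro v
    apply hf.comp
    unfold angle
    apply Real.continuous_arccos.measurable.comp
    apply Measurable.div
    · fun_prop
    · fun_prop
  set c : ℝ≥0∞ := ∫⁻ ρ in Ioo (1 : ℝ) 2, ENNReal.ofReal ρ with hc
  have hc0 : c ≠ 0 := by
    have h1 : ENNReal.ofReal 1 * volume (Ioo (1 : ℝ) 2) ≤ c := by
      rw [hc, ← setLIntegral_const]
      apply setLIntegral_mono' measurableSet_Ioo
      intro x hx
      exact ENNReal.ofReal_le_ofReal hx.1.le
    intro h0
    rw [h0, Real.volume_Ioo, ← ENNReal.ofReal_mul (by norm_num)] at h1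
    norm_num at h1
  have hct : c ≠ ∞ := by
    have h1 : c ≤ ENNReal.ofReal 2 * volume (Ioo (1 : ℝ) 2) := by
      rw [hc, ← setLIntegral_const]
      apply setLIntegral_mono' measurableSet_Ioo
      intro x hx
      exact ENNReal.ofReal_le_ofReal hx.2.le
    intro h0
    rw [h0, Real.volume_Ioo, ← ENNReal.ofReal_mul (by norm_num)] at h1
    exact ENNReal.ofReal_ne_top (top_le_iff.mp h1)
  have hK : ∀ v : ℂ, ∫⁻ w in {w : ℂ | 1 < ‖w‖ ∧ ‖w‖ < 2}, f (angle w v) =
      c * ∫⁻ φ in Ioo (-π) π, f (angle (Complex.exp ((φ : ℝ) * Complex.I)) v) := by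
    intro v
    rw [lintegral_annulus (hmeas v) one_pos]
    have hm2 : Measurable fun φ : ℝ => f (angle (Complex.exp ((φ : ℝ) * Complex.I)) v) :=
      (hmeas v).comp (by fun_prop)
    rw [← lintegral_const_mul _ hm2]
    congr 1
    ext φ
    have h1 : ∀ ρ ∈ Ioo (1 : ℝ) 2, ENNReal.ofReal ρ *
        f (angle ((ρ : ℂ) * Complex.exp ((φ : ℝ) * Complex.I)) v) =
        ENNReal.ofReal ρ * f (angle (Complex.exp ((φ : ℝ) * Complex.I)) v) := by
      intro ρ hρ
      rw [← Complex.real_smul, angle_smul_left_of_pos _ _ (by linarith [hρ.1])]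
    rw [setLIntegral_congr_fun measurableSet_Ioo h1, lintegral_mul_const _ (by fun_prop)]
  have hrot : ∫⁻ w in {w : ℂ | 1 < ‖w‖ ∧ ‖w‖ < 2}, f (angle w v) =
      ∫⁻ w in {w : ℂ | 1 < ‖w‖ ∧ ‖w‖ < 2}, f (angle w 1) := by
    set L : ℂ ≃ₗᵢ[ℝ] ℂ := rotation ⟨v, by simp [Submonoid.unitSphere, hv]⟩ with hL
    have hLv : ∀ w, L w = v * w := fun w => rfl
    have hmp : MeasurePreserving L volume volume := L.measurePreserving
    have hme : MeasurableEmbedding L := L.toHomeomorph.measurableEmbedding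
    have h4 := hmp.setLIntegral_comp_preimage_emb hme (fun w => f (angle w v))
      {w : ℂ | 1 < ‖w‖ ∧ ‖w‖ < 2}
    rw [← h4]
    have h5 : L ⁻¹' {w : ℂ | 1 < ‖w‖ ∧ ‖w‖ < 2} = {w : ℂ | 1 < ‖w‖ ∧ ‖w‖ < 2} := by
      ext w
      simp only [mem_preimage, mem_ofPred_eq, LinearIsometryEquiv.norm_map]
    rw [h5]
    congr 1
    ext w
    rw [hLv]
    have : angle (v * w) v = angle w 1 := by
      conv_lhs => rw [← mul_one v, mul_assoc, one_mul]
      exact Complex.angle_mul_left hv0 w 1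
    rw [this]
  rw [hK v, hK 1] at hrot
  have h6 := (ENNReal.mul_right_inj hc0 hct).mp hrot
  rw [h6, ← lintegral_Ioo_symm]
  apply setLIntegral_congr_fun measurableSet_Ioo
  intro φ hφ
  simp only
  rw [Complex.angle_one_right (Complex.exp_ne_zero _)]
  have := arg_mul_exp (r := 1) one_pos (θ := φ) ⟨hφ.1, hφ.2.le⟩
  rw [Complex.ofReal_one, one_mul] at this
  rw [this]

end Pool.Agent.Hhelper90.BiUniv
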