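import Mathlib
import Pool.Agent.Hhelper90.BiUniv.Fold

/-!
# Energy of the folded root sheet
-/

set_option autoImplicit false

open Polynomial Set Filter Topology Metric MeasureTheory Bornology InnerProductGeometry
open scoped ENNReal Real ComplexConjugate

namespace Pool.Agent.Hhelper90.BiUniv

lemma measurable_EE {N : ℕ} (hN : 0 < N) (ε R : ℝ) : Measurable (EE N ε R) := by
  have hmeas2 : Measurable fun p : ℝ × ℝ =>
      ENNReal.ofReal p.2 * dn N 0 ((p.2 : ℂ) * Complex.exp ((p.1 : ℂ) * Complex.I)) := by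
    apply Measurable.mul (by fun_prop)
    apply (measurable_dn hN (eval_Q_zero N)).comp
    fun_prop
  exact hmeas2.lintegral_prod_right'

lemma measurable_fold {N : ℕ} {S : Finset ℂ} {hS : S.Nonempty} (hS0 : ∀ v ∈ S, v ≠ 0) :
    Measurable (fold N S hS) :=
  measurable_of_continuousOn_compl_singleton 0 fun _ hw =>
    (continuousAt_fold hS0 hw).continuousWithinAt

/-- Energy of the root sheet with several slits. -/
theorem root_energy {N : ℕ} (hN : 0 < N) {S : Finset ℂ} {hS : S.Nonempty}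
    (hS1 : ∀ v ∈ S, ‖v‖ = 1) (hcard : S.card ≤ N) {ε R : ℝ} (hε : 0 < ε) {η' : ℝ≥0∞}
    (hcmp : ∀ δ ∈ Ioc 0 (hh N), EE N ε R (hh N) ≤ EE N ε R δ + η') :
    ∫⁻ w in {w : ℂ | ε < ‖w‖ ∧ ‖w‖ < R}, dn N 0 (fold N S hS w) ≤
      2 * N * (∫⁻ δ in Ioo 0 (hh N), EE N ε R δ) + ENNReal.ofReal (2 * π) * η' := by
  have hpos := hh_pos hN
  have hle := hh_le_pi hN
  have hpi := Real.pi_pos
  have hS0 : ∀ v ∈ S, v ≠ 0 := by
    intro v hv
    rintro rfl
    have := hS1 0 hv
    rw [norm_zero] at this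
    exact zero_ne_one this
  have hEm := measurable_EE hN ε R
  rw [lintegral_annulus (f := fun w => dn N 0 (fold N S hS w))
    ((measurable_dn hN (eval_Q_zero N)).comp (measurable_fold hS0)) hε]
  set E' : ℝ → ℝ≥0∞ := fun δ => EE N ε R δ + η' - EE N ε R (hh N) with hE'
  have hE'm : Measurable E' := (hEm.add_const _).sub_const _
  set F' : ℝ → ℝ≥0∞ := (Iio (hh N)).indicator E' with hF'
  have hF'm : Measurable F' := hE'm.indicator measurableSet_Iio
  have hpt : ∀ φ ∈ Ioo (-π) π, (∫⁻ ρ in Ioo ε R, ENNReal.ofReal ρ *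
      dn N 0 (fold N S hS ((ρ : ℂ) * Complex.exp ((φ : ℝ) * Complex.I)))) ≤
      (∑ v ∈ S, F' (angle (Complex.exp ((φ : ℝ) * Complex.I)) v)) + EE N ε R (hh N) := by
    intro φ _
    set δ := th N S hS (Complex.exp ((φ : ℝ) * Complex.I)) with hδ
    have h1 : (∫⁻ ρ in Ioo ε R, ENNReal.ofReal ρ *
        dn N 0 (fold N S hS ((ρ : ℂ) * Complex.exp ((φ : ℝ) * Complex.I)))) = EE N ε R δ := by
      unfold EE
      apply setLIntegral_congr_fun measurableSet_Ioo
      intro ρ hρ
      have hρ0 : 0 < ρ := hε.trans hρ.1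
      simp only
      unfold fold
      rw [th_smul hρ0, norm_mul_exp hρ0.le]
    rw [h1]
    rcases (th_le (N := N) (hS := hS) (Complex.exp ((φ : ℝ) * Complex.I))).eq_or_lt with h2 | h2
    · rw [← hδ] at h2
      rw [h2]
      exact le_add_self
    · rw [← hδ] at h2
      obtain ⟨v, hv, hve⟩ := Finset.exists_mem_eq_inf' hS
        fun v => angle (Complex.exp ((φ : ℝ) * Complex.I)) v
      have h3 : δ = angle (Complex.exp ((φ : ℝ) * Complex.I)) v := by
        rw [hδ]
        unfold th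
        rw [hve]
        apply min_eq_left
        rw [hδ] at h2
        unfold th at h2
        rw [hve] at h2
        by_contra hcon
        push Not at hcon
        rw [min_eq_right hcon.le] at h2
        exact lt_irrefl _ h2
      have h4 : EE N ε R δ ≤ E' δ + EE N ε R (hh N) := by
        have h5 : EE N ε R δ ≤ EE N ε R δ + η' := le_self_add
        exact h5.trans le_tsub_add
      have h6 : E' δ = F' (angle (Complex.exp ((φ : ℝ) * Complex.I)) v) := by
        rw [← h3, hF', indicator_of_mem (show δ ∈ Iio (hh N) from h2)]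
      refine h4.trans ?_
      rw [h6]
      gcongr
      exact Finset.single_le_sum (f := fun v => F' (angle (Complex.exp ((φ : ℝ) * Complex.I)) v))
        (fun _ _ => zero_le) hv
  have hang : ∀ v : ℂ, Measurable fun φ : ℝ => F' (angle (Complex.exp ((φ : ℝ) * Complex.I)) v) := by
    intro v
    apply hF'm.comp
    unfold angle
    apply Real.continuous_arccos.measurable.comp
    apply Measurable.div
    · fun_prop
    · fun_prop
  have hF'int : ∫⁻ φ in Ioo 0 π, F' φ = ∫⁻ φ in Ioo 0 (hh N), E' φ := by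
    rw [hF', setLIntegral_indicator measurableSet_Iio]
    congr 2
    ext x
    simp only [mem_inter_iff, mem_Iio, mem_Ioo]
    constructor
    · rintro ⟨h1, h2, h3⟩
      exact ⟨h2, h1⟩
    · rintro ⟨h1, h2⟩
      exact ⟨h2, h1, by linarith⟩
  have hcancel : ∫⁻ φ in Ioo 0 (hh N), (E' φ + EE N ε R (hh N)) =
      ∫⁻ φ in Ioo 0 (hh N), (EE N ε R φ + η') := by
    apply setLIntegral_congr_fun measurableSet_Ioo
    intro φ hφ
    exact tsub_add_cancel_of_le (hcmp φ ⟨hφ.1, hφ.2.le⟩)
  have h2pi : ENNReal.ofReal (2 * π) = 2 * N * ENNReal.ofReal (hh N) := by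
    rw [← mul_hh hN]
    have : (2 * (N : ℝ≥0∞)) = ENNReal.ofReal (2 * N) := by
      rw [ENNReal.ofReal_mul two_pos.le, ENNReal.ofReal_natCast]
      norm_num
    rw [this, ← ENNReal.ofReal_mul (by positivity)]
    congr 1
    ring
  calc ∫⁻ φ in Ioo (-π) π, ∫⁻ ρ in Ioo ε R, ENNReal.ofReal ρ *
        dn N 0 (fold N S hS ((ρ : ℂ) * Complex.exp ((φ : ℝ) * Complex.I)))
      ≤ ∫⁻ φ in Ioo (-π) π, ((∑ v ∈ S, F' (angle (Complex.exp ((φ : ℝ) * Complex.I)) v)) +
          EE N ε R (hh N)) := setLIntegral_mono' measurableSet_Ioo hpt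
    _ = (∑ v ∈ S, ∫⁻ φ in Ioo (-π) π, F' (angle (Complex.exp ((φ : ℝ) * Complex.I)) v)) +
          EE N ε R (hh N) * ENNReal.ofReal (2 * π) := by
        rw [lintegral_add_right _ measurable_const, lintegral_finsetSum _ fun v _ => hang v,
          setLIntegral_const, Real.volume_Ioo]
        congr 3
        ring
    _ = (∑ v ∈ S, 2 * ∫⁻ φ in Ioo 0 (hh N), E' φ) + EE N ε R (hh N) * ENNReal.ofReal (2 * π) := by
        congr 1
        apply Finset.sum_congr rfl
        intro v hv
        rw [lintegral_angle hF'm (hS1 v hv), hF'int]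
    _ = S.card * (2 * ∫⁻ φ in Ioo 0 (hh N), E' φ) + EE N ε R (hh N) * ENNReal.ofReal (2 * π) := by
        rw [Finset.sum_const, nsmul_eq_mul]
    _ ≤ N * (2 * ∫⁻ φ in Ioo 0 (hh N), E' φ) + EE N ε R (hh N) * ENNReal.ofReal (2 * π) := by
        gcongr
    _ = 2 * N * ((∫⁻ φ in Ioo 0 (hh N), E' φ) + EE N ε R (hh N) * ENNReal.ofReal (hh N)) := by
        rw [h2pi]; ring
    _ = 2 * N * (∫⁻ φ in Ioo 0 (hh N), (E' φ + EE N ε R (hh N))) := by
        rw [lintegral_add_right _ measurable_const, setLIntegral_const, Real.volume_Ioo, sub_zero]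
    _ = 2 * N * ((∫⁻ φ in Ioo 0 (hh N), EE N ε R φ) + η' * ENNReal.ofReal (hh N)) := by
        rw [hcancel, lintegral_add_right _ measurable_const, setLIntegral_const, Real.volume_Ioo,
          sub_zero]
    _ = _ := by rw [h2pi]; ring

end Pool.Agent.Hhelper90.BiUniv
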