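import Mathlib
import Pool.Agent.Hhelper90.BiUniv.RootEnergy

/-!
# The test function
-/

set_option autoImplicit false

open Polynomial Set Filter Topology Metric MeasureTheory Bornology InnerProductGeometry
open scoped ENNReal Real ComplexConjugate

namespace Pool.Agent.Hhelper90.BiUniv

/-- The critical values. -/
noncomputable def cv (P : ℂ[X]) : Finset ℂ :=
  (P.derivative.roots.toFinset).image fun c => P.eval c

section

variable {P : ℂ[X]} {g : ℂ → ℂ}

lemma Good.mem_cv (h : Good P g) {v : ℂ} :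
    v ∈ cv P ↔ ∃ c, P.derivative.eval c = 0 ∧ P.eval c = v := by
  simp [cv, mem_roots h.deriv_ne, IsRoot]

lemma Good.cv_norm (h : Good P g) {v : ℂ} (hv : v ∈ cv P) : ‖v‖ = 1 := by
  obtain ⟨c, hc, rfl⟩ := h.mem_cv.mp hv
  exact h.crit_norm c hc

lemma Good.cv_ne (h : Good P g) {v : ℂ} (hv : v ∈ cv P) : v ≠ 0 := by
  rintro rfl
  have := h.cv_norm hv
  rw [norm_zero] at this
  exact zero_ne_one this

lemma cv_card {N : ℕ} (hn : P.natDegree = N + 1) : (cv P).card ≤ N := by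
  calc (cv P).card ≤ P.derivative.roots.toFinset.card := Finset.card_image_le
    _ ≤ Multiset.card P.derivative.roots := Multiset.toFinset_card_le _
    _ ≤ P.derivative.natDegree := card_roots' _
    _ ≤ P.natDegree - 1 := natDegree_derivative_le _
    _ = N := by rw [hn]; rfl

lemma Good.exists_nonzero_zero (h : Good P g) {N : ℕ} (hN : 0 < N) (hn : P.natDegree = N + 1) :
    ∃ ζ ∈ zeros P, ζ ≠ 0 := by
  by_contra hcon
  push Not at hcon
  have h1 : zeros P ⊆ {0} := fun ζ hζ => Finset.mem_singleton.mpr (hcon ζ hζ)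
  have h2 := Finset.card_le_card h1
  rw [h.card_zeros, hn, Finset.card_singleton] at h2
  omega

lemma Good.cv_nonempty (h : Good P g) {N : ℕ} (hN : 0 < N) (hn : P.natDegree = N + 1) :
    (cv P).Nonempty := by
  obtain ⟨ζ, hζ, hζ0⟩ := h.exists_nonzero_zero hN hn
  obtain ⟨c, hc, -⟩ := h.exists_hits (h.mem_zeros.mp hζ) hζ0
  exact ⟨P.eval c, h.mem_cv.mpr ⟨c, hc, rfl⟩⟩

open Classical in
/-- The critical value at which a sheet is attached. -/
noncomputable def lab (P : ℂ[X]) (ζ : ℂ) : ℂ :=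
  if h : ∃ c, P.derivative.eval c = 0 ∧ Hits P ζ c then P.eval h.choose else 1

lemma Good.lab_spec (h : Good P g) {ζ : ℂ} (hζ : P.eval ζ = 0) (hζ0 : ζ ≠ 0) :
    ∃ c, P.derivative.eval c = 0 ∧ lab P ζ = P.eval c ∧
      ∀ c', P.derivative.eval c' = 0 → Hits P ζ c' → c' = c := by
  have hex := h.exists_hits hζ hζ0
  obtain ⟨c, hc, hh, huniq⟩ := h.exists_label hζ hζ0
  refine ⟨c, hc, ?_, huniq⟩
  unfold lab
  rw [dif_pos hex]
  rw [huniq _ hex.choose_spec.1 hex.choose_spec.2]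

lemma Good.lab_norm (h : Good P g) {ζ : ℂ} (hζ : P.eval ζ = 0) (hζ0 : ζ ≠ 0) :
    ‖lab P ζ‖ = 1 := by
  obtain ⟨c, hc, he, -⟩ := h.lab_spec hζ hζ0
  rw [he]
  exact h.crit_norm c hc

/-- The test function on the sheet of `ζ`. -/
noncomputable def Vs (N : ℕ) (P : ℂ[X]) (hS : (cv P).Nonempty) (ζ w : ℂ) : ℝ :=
  if ζ = 0 then uu N 0 (fold N (cv P) hS w) else uu N (z1 N) (w / lab P ζ)

open Classical in
/-- A sheet whose closure contains the point. -/
noncomputable def pick (P : ℂ[X]) (z : ℂ) : ℂ :=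
  if h : ∃ ζ ∈ zeros P, z ∈ closure (sheet P ζ) then h.choose else 0

lemma Good.pick_spec (h : Good P g) (z : ℂ) :
    pick P z ∈ zeros P ∧ z ∈ closure (sheet P (pick P z)) := by
  have hex := h.exists_mem_closure z
  unfold pick
  rw [dif_pos hex]
  exact hex.choose_spec

/-- The test function. -/
noncomputable def Vt (N : ℕ) (P : ℂ[X]) (hS : (cv P).Nonempty) (z : ℂ) : ℝ :=
  Vs N P hS (pick P z) (P.eval z)

lemma Good.Vs_compat_zero (h : Good P g) {N : ℕ} (hN : 0 < N) {hS : (cv P).Nonempty}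
    {ζ z : ℂ} (hζ : P.eval ζ = 0) (hζ0 : ζ ≠ 0)
    (hz : z ∈ closure (sheet P ζ)) (hz' : z ∈ closure (sheet P 0)) :
    Vs N P hS ζ (P.eval z) = Vs N P hS 0 (P.eval z) := by
  obtain ⟨c, hc, hzc⟩ := notMem_dom (h.adjacent_notMem_dom hζ h.eval_zero hζ0 hz hz')
  have hhit := h.hits_of_adjacent hζ h.eval_zero hζ0 hz hz' hc hzc
  obtain ⟨c', hc', he, huniq⟩ := h.lab_spec hζ hζ0
  have hcc : c = c' := huniq c hc hhit
  subst hcc
  rw [mem_slit_iff (h.crit_ne hc)] at hzc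
  obtain ⟨ρ, hρ, hρe⟩ := hzc
  unfold Vs
  rw [if_neg hζ0, if_pos rfl, he, hρe, mul_div_cancel_right₀ _ (h.crit_ne hc),
    fold_mem hN (h.mem_cv.mpr ⟨c, hc, rfl⟩) (h.crit_norm c hc) (by linarith)]
  exact (uu_compat hN hρ).symm

lemma Good.Vs_compat (h : Good P g) {N : ℕ} (hN : 0 < N) {hS : (cv P).Nonempty}
    {ζ η z : ℂ} (hζ : P.eval ζ = 0) (hη : P.eval η = 0)
    (hz : z ∈ closure (sheet P ζ)) (hz' : z ∈ closure (sheet P η)) :
    Vs N P hS ζ (P.eval z) = Vs N P hS η (P.eval z) := by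
  by_cases hne : ζ = η
  · rw [hne]
  by_cases hζ0 : ζ = 0
  · subst hζ0
    exact (h.Vs_compat_zero hN hη (Ne.symm hne) hz' hz).symm
  by_cases hη0 : η = 0
  · subst hη0
    exact h.Vs_compat_zero hN hζ hζ0 hz hz'
  obtain ⟨c, hc, hzc⟩ := notMem_dom (h.adjacent_notMem_dom hζ hη hne hz hz')
  have hhit := h.hits_of_adjacent hζ hη hne hz hz' hc hzc
  have hhit' := h.hits_of_adjacent hη hζ (Ne.symm hne) hz' hz hc hzc
  obtain ⟨c₁, hc₁, he₁, hu₁⟩ := h.lab_spec hζ hζ0
  obtain ⟨c₂, hc₂, he₂, hu₂⟩ := h.lab_spec hη hη0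
  unfold Vs
  rw [if_neg hζ0, if_neg hη0, he₁, he₂, ← hu₁ c hc hhit, ← hu₂ c hc hhit']

lemma Good.Vt_eq (h : Good P g) {N : ℕ} (hN : 0 < N) {hS : (cv P).Nonempty}
    {ζ z : ℂ} (hζ : ζ ∈ zeros P) (hz : z ∈ closure (sheet P ζ)) :
    Vt N P hS z = Vs N P hS ζ (P.eval z) := by
  obtain ⟨h1, h2⟩ := h.pick_spec z
  exact h.Vs_compat hN (h.mem_zeros.mp h1) (h.mem_zeros.mp hζ) h2 hz

lemma Good.eval_ne_zero_of_root (h : Good P g) {z : ℂ} (hz : z ≠ 0)
    (hz' : z ∈ closure (sheet P 0)) : P.eval z ≠ 0 := by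
  intro h0
  have h1 := h.mem_sheet_of_mem_closure h.eval_zero hz' (by rw [h0]; exact h.zero_mem_dom)
  have h2 := ((h.mem_sheet_iff h.eval_zero).mp h1).2
  rw [h0, h.br_zero h.eval_zero] at h2
  exact hz h2.symm

lemma Good.continuousAt_Vs (h : Good P g) {N : ℕ} (hN : 0 < N) {hS : (cv P).Nonempty}
    {ζ z : ℂ} (hz : z ≠ 0) (hz' : z ∈ closure (sheet P ζ)) :
    ContinuousAt (fun z => Vs N P hS ζ (P.eval z)) z := by
  unfold Vs
  have hP : ContinuousAt (fun z => P.eval z) z := P.continuous.continuousAt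
  by_cases hζ0 : ζ = 0
  · subst hζ0
    simp only [if_true]
    have hne := h.eval_ne_zero_of_root hz hz'
    have h1 : ContinuousAt (uu N 0) (fold N (cv P) hS (P.eval z)) :=
      (uu_zero_continuousOn hN).continuousAt
        (isOpen_compl_singleton.mem_nhds (fold_ne_zero hne))
    have h2 : ContinuousAt (fold N (cv P) hS) (P.eval z) :=
      continuousAt_fold (fun v hv => h.cv_ne hv) hne
    have h3 : ContinuousAt (fun z => fold N (cv P) hS (P.eval z)) z :=
      ContinuousAt.comp (f := fun z => P.eval z) h2 hP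
    exact ContinuousAt.comp (f := fun z => fold N (cv P) hS (P.eval z)) h1 h3
  · simp only [if_neg hζ0]
    have h1 := (uu_one_continuous hN)
    have h2 : Continuous fun z => P.eval z / lab P ζ := P.continuous.div_const _
    exact (h1.comp h2).continuousAt

lemma Good.continuousOn_Vt (h : Good P g) {N : ℕ} (hN : 0 < N) {hS : (cv P).Nonempty} :
    ContinuousOn (Vt N P hS) {0}ᶜ := by
  intro z hz
  apply ContinuousAt.continuousWithinAt
  have hz0 : z ≠ 0 := hz
  rw [Metric.continuousAt_iff']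
  intro ε hε
  have h1 : ∀ ζ ∈ zeros P, ∀ᶠ x in 𝓝 z, x ∈ closure (sheet P ζ) →
      dist (Vs N P hS ζ (P.eval x)) (Vt N P hS z) < ε := by
    intro ζ hζ
    by_cases hm : z ∈ closure (sheet P ζ)
    · have h2 := h.continuousAt_Vs hN (hS := hS) hz0 hm
      rw [Metric.continuousAt_iff'] at h2
      filter_upwards [h2 ε hε] with x hx _
      rw [h.Vt_eq hN hζ hm]
      exact hx
    · have h2 : (closure (sheet P ζ))ᶜ ∈ 𝓝 z := isClosed_closure.isOpen_compl.mem_nhds hm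
      filter_upwards [h2] with x hx hx'
      exact absurd hx' hx
  have h2 : ∀ᶠ x in 𝓝 z, ∀ ζ ∈ zeros P, x ∈ closure (sheet P ζ) →
      dist (Vs N P hS ζ (P.eval x)) (Vt N P hS z) < ε := by
    rw [Filter.eventually_all_finset]
    exact h1
  filter_upwards [h2] with x hx
  obtain ⟨h3, h4⟩ := h.pick_spec x
  exact hx _ h3 h4

end

end Pool.Agent.Hhelper90.BiUniv
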