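import Mathlib
import Pool.Agent.Hhelper90.BiUniv.TestFn

/-!
# Derivatives of the test function
-/

set_option autoImplicit false

open Polynomial Set Filter Topology Metric MeasureTheory Bornology InnerProductGeometry
open scoped ENNReal Real ComplexConjugate

namespace Pool.Agent.Hhelper90.BiUniv

/-- Derivative of the logarithm of the modulus along a path. -/
lemma exists_deriv_log_norm {u : ℝ → ℂ} {u' : ℂ} {t : ℝ} (hu : HasDerivAt u u' t)
    (hne : u t ≠ 0) : ∃ d : ℝ, HasDerivAt (fun s => Real.log ‖u s‖) d t ∧ |d| ≤ ‖u'‖ / ‖u t‖ := by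
  have hpos : 0 < ‖u t‖ := norm_pos_iff.mpr hne
  have h1 := hu.norm_sq
  have h2 := (h1.log (by positivity)).const_mul (1 / 2 : ℝ)
  have h3 : (fun s => (1 / 2 : ℝ) * Real.log (‖u s‖ ^ 2)) = fun s => Real.log ‖u s‖ := by
    ext s
    rw [Real.log_pow]
    push_cast
    ring
  rw [h3] at h2
  refine ⟨_, h2, ?_⟩
  have h4 : |inner ℝ (u t) u'| ≤ ‖u t‖ * ‖u'‖ := abs_real_inner_le_norm _ _
  have h5 : (1 / 2 : ℝ) * (2 * inner ℝ (u t) u' / ‖u t‖ ^ 2) = inner ℝ (u t) u' / ‖u t‖ ^ 2 := by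
    ring
  rw [h5, abs_div, abs_of_pos (by positivity : (0 : ℝ) < ‖u t‖ ^ 2), div_le_div_iff₀ (by positivity)
    hpos]
  calc |inner ℝ (u t) u'| * ‖u t‖ ≤ (‖u t‖ * ‖u'‖) * ‖u t‖ := by gcongr
    _ = ‖u'‖ * ‖u t‖ ^ 2 := by ring

/-- Derivative of the modulus along a path. -/
lemma exists_deriv_norm {u : ℝ → ℂ} {u' : ℂ} {t : ℝ} (hu : HasDerivAt u u' t)
    (hne : u t ≠ 0) : ∃ d : ℝ, HasDerivAt (fun s => ‖u s‖) d t ∧ |d| ≤ ‖u'‖ := by
  obtain ⟨d, hd, hle⟩ := exists_deriv_log_norm hu hne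
  have hpos : 0 < ‖u t‖ := norm_pos_iff.mpr hne
  have h1 := hd.exp
  rw [Real.exp_log hpos] at h1
  refine ⟨‖u t‖ * d, ?_, ?_⟩
  · refine h1.congr_of_eventuallyEq ?_
    have h2 : ∀ᶠ s in 𝓝 t, u s ≠ 0 := hu.continuousAt.eventually_ne hne
    filter_upwards [h2] with s hs
    rw [Real.exp_log (norm_pos_iff.mpr hs)]
  · rw [abs_mul, abs_of_pos hpos]
    rw [le_div_iff₀ hpos] at hle
    linarith

/-- The exceptional directions. -/
def GoodPt (N : ℕ) (S : Finset ℂ) (w : ℂ) : Prop :=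
  w ≠ 0 ∧ (∀ v ∈ S, ∀ ω : ℂ, ω ^ N = 1 → (w * conj (v * ω)).im ≠ 0) ∧
    (∀ v ∈ S, (w * conj (v * eh N)).im ≠ 0) ∧ (∀ v ∈ S, (w * conj (v * conj (eh N))).im ≠ 0) ∧
    ∀ v ∈ S, ∀ v' ∈ S, v ≠ v' → (w * conj (Complex.I * (v - v'))).im ≠ 0

lemma im_mul_conj_self (ρ : ℝ) (b : ℂ) : ((ρ : ℂ) * b * conj b).im = 0 := by
  rw [mul_assoc, Complex.mul_conj, ← Complex.ofReal_mul, Complex.ofReal_im]

lemma GoodPt.div_mem_dom {N : ℕ} (hN : 0 < N) {S : Finset ℂ} {w v : ℂ} (hw : GoodPt N S w)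
    (hv : v ∈ S) (hv0 : v ≠ 0) : w / v ∈ dom (Q N) := by
  rw [mem_dom_Q_iff hN]
  intro ω hω hmem
  have hω0 : ω ≠ 0 := by
    rintro rfl
    rw [zero_pow hN.ne'] at hω
    exact zero_ne_one hω
  rw [mem_slit_iff hω0] at hmem
  obtain ⟨ρ, -, he⟩ := hmem
  rw [div_eq_iff hv0] at he
  apply hw.2.1 v hv ω hω
  have : w = (ρ : ℂ) * (v * ω) := by rw [he]; ring
  rw [this]
  exact im_mul_conj_self _ _

lemma Good.mem_dom_of_goodPt {P : ℂ[X]} {g : ℂ → ℂ} (h : Good P g) {N : ℕ} {w : ℂ}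
    (hw : GoodPt N (cv P) w) : w ∈ dom P := by
  intro c hc hmem
  rw [mem_slit_iff (h.crit_ne hc)] at hmem
  obtain ⟨ρ, -, he⟩ := hmem
  apply hw.2.1 (P.eval c) (h.mem_cv.mpr ⟨c, hc, rfl⟩) 1 (one_pow N)
  rw [he, mul_one]
  exact im_mul_conj_self _ _

/-- The dichotomy for the folding map. -/
lemma GoodPt.dichotomy {N : ℕ} {S : Finset ℂ} (hS : S.Nonempty)
    (hS1 : ∀ v ∈ S, ‖v‖ = 1) {w : ℂ} (hw : GoodPt N S w) :
    (∃ v ∈ S, angle w v < hh N ∧ ∀ v' ∈ S, v' ≠ v → angle w v < angle w v') ∨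
      ∀ v ∈ S, hh N < angle w v := by
  obtain ⟨v, hv, hmin⟩ := S.exists_min_image (fun v => angle w v) hS
  have hwpos : 0 < ‖w‖ := norm_pos_iff.mpr hw.1
  have hstrict : ∀ v' ∈ S, v' ≠ v → angle w v < angle w v' := by
    intro v' hv' hne
    rcases (hmin v' hv').lt_or_eq with h1 | h1
    · exact h1
    · exfalso
      have h2 : inner ℝ w v = inner ℝ w v' := by
        rw [← cos_angle_mul_norm_mul_norm w v, ← cos_angle_mul_norm_mul_norm w v', h1, hS1 v hv,
          hS1 v' hv']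
      apply hw.2.2.2.2 v' hv' v hv hne
      have h3 : (w * conj (Complex.I * (v' - v))).im = inner ℝ w v - inner ℝ w v' := by
        rw [Complex.inner, Complex.inner]
        simp
        ring
      rw [h3, h2, sub_self]
  have hv0 : v ≠ 0 := by
    rintro rfl
    have := hS1 0 hv
    rw [norm_zero] at this
    exact zero_ne_one this
  have hne : angle w v ≠ hh N := by
    intro h1
    rcases norm_mul_exp_angle (hS1 v hv) hw.1 with h2 | h2
    · rw [h1] at h2
      apply hw.2.2.1 v hv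
      have h3 : w = (‖w‖ : ℂ) * (v * eh N) := by
        rw [eq_div_iff hv0] at h2
        rw [← h2, eh]
        simp only [norm_mul, Complex.norm_real, norm_norm]
        rw [Complex.norm_exp_ofReal_mul_I, hS1 v hv]
        push_cast
        ring
      rw [h3]
      exact im_mul_conj_self _ _
    · rw [h1] at h2
      apply hw.2.2.2.1 v hv
      have h3 : w = (‖w‖ : ℂ) * (v * conj (eh N)) := by
        have h4 := congrArg conj h2
        rw [Complex.conj_conj, map_mul, Complex.conj_ofReal, eq_div_iff hv0] at h4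
        rw [← h4, ← eh]
        simp only [norm_mul, Complex.norm_real, norm_norm, RCLike.norm_conj]
        rw [norm_eh, hS1 v hv]
        push_cast
        ring
      rw [h3]
      exact im_mul_conj_self _ _
  rcases lt_or_gt_of_ne hne with h1 | h1
  · exact Or.inl ⟨v, hv, h1, hstrict⟩
  · exact Or.inr fun v' hv' => lt_of_lt_of_le h1 (hmin v' hv')

/-- Energy density of the test function, on the plane of values. -/
noncomputable def mm (N : ℕ) (P : ℂ[X]) (hS : (cv P).Nonempty) (ζ w : ℂ) : ℝ≥0∞ :=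
  if ζ = 0 then dn N 0 (fold N (cv P) hS w) else dn N (z1 N) (w / lab P ζ)

lemma ofReal_sq_le {d a b : ℝ} (ha : 0 ≤ a) (hb : 0 ≤ b) (h : |d| ≤ a * b) :
    ENNReal.ofReal (d ^ 2) ≤ ENNReal.ofReal (a ^ 2) * ENNReal.ofReal (b ^ 2) := by
  rw [← ENNReal.ofReal_mul (by positivity)]
  apply ENNReal.ofReal_le_ofReal
  rw [← sq_abs, ← mul_pow]
  exact pow_le_pow_left₀ (abs_nonneg _) h 2

/-- The derivative of the test function along a path in the plane of values. -/
lemma exists_deriv_Vs {P : ℂ[X]} {g : ℂ → ℂ} (h : Good P g) {N : ℕ} (hN : 0 < N)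
    {hS : (cv P).Nonempty} {ζ : ℂ} (hζ : P.eval ζ = 0) {p : ℝ → ℂ} {p' : ℂ} {t : ℝ}
    (hp : HasDerivAt p p' t) (hw : GoodPt N (cv P) (p t)) :
    ∃ d : ℝ, HasDerivAt (fun s => Vs N P hS ζ (p s)) d t ∧
      ENNReal.ofReal (d ^ 2) ≤ mm N P hS ζ (p t) * ENNReal.ofReal (‖p'‖ ^ 2) := by
  obtain ⟨gQ, hQ⟩ := exists_good_Q hN
  have hpc := hp.continuousAt
  have hpos := hh_pos hN
  by_cases hζ0 : ζ = 0
  · subst hζ0
    have hp0 : ∀ᶠ s in 𝓝 t, p s ≠ 0 := hpc.eventually_ne hw.1
    rcases hw.dichotomy hS (fun v hv => h.cv_norm hv) with ⟨v, hv, hlt, hstrict⟩ | hgt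
    · have hv0 := h.cv_ne hv
      have hv1 := h.cv_norm hv
      have hmem := hw.div_mem_dom hN hv hv0
      have hne0 : p t / v ≠ 0 := div_ne_zero hw.1 hv0
      -- near `t` the folding is folding along `v`
      have hangc : ∀ v' ∈ cv P, ContinuousAt (fun s => angle (p s) v') t := fun v' hv' =>
        ContinuousAt.comp (f := p) (continuousAt_angle_left (h.cv_ne hv') hw.1) hpc
      have e1 : ∀ᶠ s in 𝓝 t, angle (p s) v < hh N :=
        (hangc v hv).tendsto.eventually_lt_const hlt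
      have e2 : ∀ᶠ s in 𝓝 t, ∀ v' ∈ cv P, angle (p s) v ≤ angle (p s) v' := by
        rw [Filter.eventually_all_finset]
        intro v' hv'
        by_cases hvv : v' = v
        · subst hvv
          filter_upwards with s
          exact le_rfl
        · filter_upwards [(hangc v hv).tendsto.eventually_lt (hangc v' hv').tendsto
            (hstrict v' hv' hvv)] with s hs
          exact hs.le
      have hdiv : ContinuousAt (fun s => p s / v) t := hpc.div_const v
      have e3 : ∀ᶠ s in 𝓝 t, p s / v ∈ dom (Q N) :=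
        hdiv.eventually (hQ.isOpen_dom.mem_nhds hmem)
      have hfold : ∀ s, (∀ v' ∈ cv P, angle (p s) v ≤ angle (p s) v') → angle (p s) v < hh N →
          p s ≠ 0 → fold N (cv P) hS (p s) = p s / v ∨
            fold N (cv P) hS (p s) = conj (p s / v) := by
        intro s h1 h2 h3
        unfold fold
        rw [th_eq_of_forall hv h1 h2.le]
        exact norm_mul_exp_angle hv1 h3
      have heq : (fun s => Vs N P hS 0 (p s)) =ᶠ[𝓝 t]
          fun s => Real.log ‖br (Q N) 0 (p s / v)‖ := by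
        filter_upwards [e1, e2, e3, hp0] with s h1 h2 h3 h4
        unfold Vs
        rw [if_pos rfl]
        have h5 : p s / v ≠ 0 := div_ne_zero h4 hv0
        rcases hfold s h2 h1 h4 with h6 | h6
        · rw [h6]
          exact (uu_eq hN (Or.inl rfl) h3 (Or.inl h5)).1
        · rw [h6]
          have h7 : conj (p s / v) ≠ 0 := by rwa [Ne, map_eq_zero]
          rw [(uu_eq hN (Or.inl rfl) ((conj_mem_dom hN).mpr h3) (Or.inl h7)).1,
            br_zero_conj hN h3, RCLike.norm_conj]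
      have hbr := hQ.br_hasDerivAt (eval_Q_zero N) hmem
      have hcomp : HasDerivAt (fun s => br (Q N) 0 (p s / v))
          (deriv (br (Q N) 0) (p t / v) * (p' / v)) t := by
        rw [hbr.deriv]
        exact HasDerivAt.comp (h₂ := br (Q N) 0) t hbr (hp.div_const v)
      have hbne := (uu_eq hN (Or.inl rfl) hmem (Or.inl hne0)).2
      obtain ⟨d, hd, hdle⟩ := exists_deriv_log_norm hcomp hbne
      refine ⟨d, hd.congr_of_eventuallyEq heq, ?_⟩
      have hmm : mm N P hS 0 (p t) = ENNReal.ofReal (‖ld N 0 (p t / v)‖ ^ 2) := by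
        unfold mm
        rw [if_pos rfl]
        have h8 : ∀ v' ∈ cv P, angle (p t) v ≤ angle (p t) v' := by
          intro v' hv'
          by_cases hvv : v' = v
          · rw [hvv]
          · exact (hstrict v' hv' hvv).le
        rcases hfold t h8 hlt hw.1 with h6 | h6
        · rw [h6]
          exact indicator_of_mem hmem _
        · rw [h6, dn_conj hN (eval_Q_zero N) (map_zero _)]
          exact indicator_of_mem hmem _
      rw [hmm]
      apply ofReal_sq_le (norm_nonneg _) (norm_nonneg _)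
      refine hdle.trans (le_of_eq ?_)
      unfold ld
      rw [norm_mul, norm_div, hv1, div_one, norm_div]
      ring
    · -- the folding is constant in the angular direction
      have hangc : ∀ v' ∈ cv P, ContinuousAt (fun s => angle (p s) v') t := fun v' hv' =>
        ContinuousAt.comp (f := p) (continuousAt_angle_left (h.cv_ne hv') hw.1) hpc
      have e1 : ∀ᶠ s in 𝓝 t, ∀ v' ∈ cv P, hh N ≤ angle (p s) v' := by
        rw [Filter.eventually_all_finset]
        intro v' hv'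
        filter_upwards [(hangc v' hv').tendsto.eventually_const_lt (hgt v' hv')] with s hs
        exact hs.le
      have hfold : ∀ s, (∀ v' ∈ cv P, hh N ≤ angle (p s) v') →
          fold N (cv P) hS (p s) = (‖p s‖ : ℂ) * eh N := by
        intro s h1
        unfold fold
        rw [th_eq_hh h1, eh]
      have heq : (fun s => Vs N P hS 0 (p s)) =ᶠ[𝓝 t]
          fun s => Real.log ‖br (Q N) 0 ((‖p s‖ : ℂ) * eh N)‖ := by
        filter_upwards [e1, hp0] with s h1 h4
        unfold Vs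
        rw [if_pos rfl, hfold s h1]
        have h5 : 0 < ‖p s‖ := norm_pos_iff.mpr h4
        exact (uu_eq hN (Or.inl rfl) (mid_mem_dom hN h5)
          (Or.inl (mul_ne_zero (by exact_mod_cast h5.ne') (eh_ne_zero N)))).1
      have hnpos : 0 < ‖p t‖ := norm_pos_iff.mpr hw.1
      have hmem := mid_mem_dom hN hnpos
      obtain ⟨n', hn', hn'le⟩ := exists_deriv_norm hp hw.1
      have hnc : HasDerivAt (fun s => (‖p s‖ : ℂ) * eh N) ((n' : ℂ) * eh N) t :=
        (hn'.ofReal_comp).mul_const _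
      have hbr := hQ.br_hasDerivAt (eval_Q_zero N) hmem
      have hcomp : HasDerivAt (fun s => br (Q N) 0 ((‖p s‖ : ℂ) * eh N))
          (deriv (br (Q N) 0) ((‖p t‖ : ℂ) * eh N) * ((n' : ℂ) * eh N)) t := by
        rw [hbr.deriv]
        exact HasDerivAt.comp (h₂ := br (Q N) 0) t hbr hnc
      have hne0 : (‖p t‖ : ℂ) * eh N ≠ 0 := mul_ne_zero (by exact_mod_cast hnpos.ne') (eh_ne_zero N)
      have hbne := (uu_eq hN (Or.inl rfl) hmem (Or.inl hne0)).2
      obtain ⟨d, hd, hdle⟩ := exists_deriv_log_norm hcomp hbne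
      refine ⟨d, hd.congr_of_eventuallyEq heq, ?_⟩
      have hmm : mm N P hS 0 (p t) = ENNReal.ofReal (‖ld N 0 ((‖p t‖ : ℂ) * eh N)‖ ^ 2) := by
        unfold mm
        rw [if_pos rfl, hfold t (fun v' hv' => (hgt v' hv').le)]
        exact indicator_of_mem hmem _
      rw [hmm]
      apply ofReal_sq_le (norm_nonneg _) (norm_nonneg _)
      refine hdle.trans ?_
      unfold ld
      rw [norm_mul, norm_mul, norm_eh, mul_one, Complex.norm_real, Real.norm_eq_abs, norm_div,
        mul_div_right_comm]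
      gcongr
  · obtain ⟨c, hc, hlab, -⟩ := h.lab_spec hζ hζ0
    have hv : lab P ζ ∈ cv P := h.mem_cv.mpr ⟨c, hc, hlab.symm⟩
    set v := lab P ζ with hvdef
    have hv0 := h.cv_ne hv
    have hv1 := h.cv_norm hv
    have hmem := hw.div_mem_dom hN hv hv0
    have hdiv : ContinuousAt (fun s => p s / v) t := hpc.div_const v
    have e3 : ∀ᶠ s in 𝓝 t, p s / v ∈ dom (Q N) :=
      hdiv.eventually (hQ.isOpen_dom.mem_nhds hmem)
    have heq : (fun s => Vs N P hS ζ (p s)) =ᶠ[𝓝 t]
        fun s => Real.log ‖br (Q N) (z1 N) (p s / v)‖ := by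
      filter_upwards [e3] with s h3
      unfold Vs
      rw [if_neg hζ0]
      exact (uu_eq hN (Or.inr rfl) h3 (Or.inr (z1_ne_zero hN))).1
    have hbr := hQ.br_hasDerivAt (eval_Q_z1 hN) hmem
    have hcomp : HasDerivAt (fun s => br (Q N) (z1 N) (p s / v))
        (deriv (br (Q N) (z1 N)) (p t / v) * (p' / v)) t := by
      rw [hbr.deriv]
      exact HasDerivAt.comp (h₂ := br (Q N) (z1 N)) t hbr (hp.div_const v)
    have hbne := (uu_eq hN (Or.inr rfl) hmem (Or.inr (z1_ne_zero hN))).2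
    obtain ⟨d, hd, hdle⟩ := exists_deriv_log_norm hcomp hbne
    refine ⟨d, hd.congr_of_eventuallyEq heq, ?_⟩
    have hmm : mm N P hS ζ (p t) = ENNReal.ofReal (‖ld N (z1 N) (p t / v)‖ ^ 2) := by
      unfold mm
      rw [if_neg hζ0]
      exact indicator_of_mem hmem _
    rw [hmm]
    apply ofReal_sq_le (norm_nonneg _) (norm_nonneg _)
    refine hdle.trans (le_of_eq ?_)
    unfold ld
    rw [norm_mul, norm_div, hv1, div_one, norm_div]
    ring

end Pool.Agent.Hhelper90.BiUniv
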