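import Mathlib
import Pool.Agent.Hhelper90.BiUniv.Deriv
import Pool.Agent.Hhelper90.BiUniv.Limits

/-!
# The root sheet near the origin
-/

set_option autoImplicit false

open Polynomial Set Filter Topology Metric MeasureTheory Bornology InnerProductGeometry
open scoped ENNReal Real ComplexConjugate

namespace Pool.Agent.Hhelper90.BiUniv

variable {P : ℂ[X]} {g : ℂ → ℂ}

/-- Near the origin, the root branch is an inverse of the polynomial. -/
lemma Good.near_zero (h : Good P g) :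
    ∃ κ > 0, ∀ z : ℂ, ‖z‖ ≤ κ → ‖P.eval z‖ < 1 ∧ br P 0 (P.eval z) = z := by
  have hd0 : P.derivative.eval 0 ≠ 0 := by rw [h.deriv_zero]; exact one_ne_zero
  obtain ⟨U, hU, hinj⟩ := exists_injOn hd0
  have hP : Tendsto (fun z => P.eval z) (𝓝 0) (𝓝 0) := by
    have := P.continuous.tendsto 0
    rwa [h.eval_zero] at this
  have hbr : Tendsto (br P 0) (𝓝 0) (𝓝 0) := by
    have := h.br_continuousAt h.eval_zero h.zero_mem_dom
    have h2 := this.tendsto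
    rwa [h.br_zero h.eval_zero] at h2
  have e1 : ∀ᶠ z in 𝓝 (0 : ℂ), z ∈ U := hU
  have e2 : ∀ᶠ z in 𝓝 (0 : ℂ), br P 0 (P.eval z) ∈ U := (hbr.comp hP).eventually hU
  have e3 : ∀ᶠ z in 𝓝 (0 : ℂ), P.eval z ∈ ball (0 : ℂ) 1 :=
    hP.eventually (ball_mem_nhds _ one_pos)
  have e4 := e1.and (e2.and e3)
  rw [Metric.eventually_nhds_iff] at e4
  obtain ⟨κ, hκ, hb⟩ := e4
  refine ⟨κ / 2, by positivity, fun z hz => ?_⟩
  obtain ⟨h1, h2, h3⟩ := hb (y := z) (by rw [dist_zero_right]; linarith)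
  rw [mem_ball_zero_iff] at h3
  refine ⟨h3, ?_⟩
  apply hinj h2 h1
  exact h.eval_br h.eval_zero (h.ball_subset_dom (mem_ball_zero_iff.mpr h3))

/-- Near the origin, the root branch is close to the identity. -/
lemma Good.br_small (h : Good P g) {η : ℝ} (hη : 0 < η) :
    ∃ κ > 0, ∀ w : ℂ, ‖w‖ ≤ κ →
      ‖w‖ * Real.exp (-η) ≤ ‖br P 0 w‖ ∧ ‖br P 0 w‖ ≤ ‖w‖ * Real.exp η := by
  obtain ⟨κ₁, hκ₁, hb⟩ := poly_small h.eval_zero h.deriv_zero hη
  have hbr : Tendsto (fun w => ‖br P 0 w‖) (𝓝 0) (𝓝 0) := by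
    have := (h.br_continuousAt h.eval_zero h.zero_mem_dom).tendsto.norm
    rwa [h.br_zero h.eval_zero, norm_zero] at this
  have e1 : ∀ᶠ w in 𝓝 (0 : ℂ), ‖br P 0 w‖ < κ₁ := hbr.eventually_lt_const hκ₁
  have e2 : ∀ᶠ w in 𝓝 (0 : ℂ), w ∈ dom P := h.isOpen_dom.mem_nhds h.zero_mem_dom
  have e4 := e1.and e2
  rw [Metric.eventually_nhds_iff] at e4
  obtain ⟨κ, hκ, hb'⟩ := e4
  refine ⟨κ / 2, by positivity, fun w hw => ?_⟩
  obtain ⟨h1, h2⟩ := hb' (y := w) (by rw [dist_zero_right]; linarith)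
  obtain ⟨h3, h4⟩ := hb _ h1.le
  rw [h.eval_br h.eval_zero h2] at h3 h4
  constructor
  · rw [Real.exp_neg, ← div_eq_mul_inv, div_le_iff₀ (Real.exp_pos _)]
    exact h4
  · rw [Real.exp_neg, ← div_eq_mul_inv, div_le_iff₀ (Real.exp_pos _)] at h3
    exact h3

end Pool.Agent.Hhelper90.BiUniv
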