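import Mathlib
import Pool.Agent.Hhelper90.BiUniv.Near

/-!
# Total energy of the test function
-/

set_option autoImplicit false

open Polynomial Set Filter Topology Metric MeasureTheory Bornology InnerProductGeometry
open scoped ENNReal Real ComplexConjugate

namespace Pool.Agent.Hhelper90.BiUniv

/-- The energy density of the test function. -/
noncomputable def MM (N : ℕ) (P : ℂ[X]) (hS : (cv P).Nonempty) (z : ℂ) : ℝ≥0∞ :=
  ∑ ζ ∈ zeros P, (sheet P ζ).indicator
    (fun z => mm N P hS ζ (P.eval z) * ENNReal.ofReal (‖P.derivative.eval z‖ ^ 2)) z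

variable {P : ℂ[X]} {g : ℂ → ℂ}

lemma Good.measurable_mm (h : Good P g) {N : ℕ} (hN : 0 < N) {hS : (cv P).Nonempty} (ζ : ℂ) :
    Measurable (mm N P hS ζ) := by
  unfold mm
  by_cases hζ : ζ = 0
  · simp only [if_pos hζ]
    exact (measurable_dn hN (eval_Q_zero N)).comp (measurable_fold fun v hv => h.cv_ne hv)
  · simp only [if_neg hζ]
    exact (measurable_dn hN (eval_Q_z1 hN)).comp (measurable_id.div_const _)

lemma Good.measurable_MM (h : Good P g) {N : ℕ} (hN : 0 < N) {hS : (cv P).Nonempty} :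
    Measurable (MM N P hS) := by
  unfold MM
  apply Finset.measurable_fun_sum
  intro ζ hζ
  apply Measurable.indicator _ (h.isOpen_sheet (h.mem_zeros.mp hζ)).measurableSet
  apply Measurable.mul
  · exact (h.measurable_mm hN ζ).comp P.continuous.measurable
  · have : Continuous fun z => P.derivative.eval z := P.derivative.continuous
    exact ((this.norm.pow 2).measurable).ennreal_ofReal

lemma Good.le_MM (_h : Good P g) {N : ℕ} {hS : (cv P).Nonempty} {ζ z : ℂ}
    (hζ : ζ ∈ zeros P) (hz : z ∈ sheet P ζ) :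
    mm N P hS ζ (P.eval z) * ENNReal.ofReal (‖P.derivative.eval z‖ ^ 2) ≤ MM N P hS z := by
  have h1 : mm N P hS ζ (P.eval z) * ENNReal.ofReal (‖P.derivative.eval z‖ ^ 2) =
      (sheet P ζ).indicator
        (fun z => mm N P hS ζ (P.eval z) * ENNReal.ofReal (‖P.derivative.eval z‖ ^ 2)) z := by
    rw [indicator_of_mem hz]
  rw [h1]
  unfold MM
  exact Finset.single_le_sum (f := fun ζ => (sheet P ζ).indicator
    (fun z => mm N P hS ζ (P.eval z) * ENNReal.ofReal (‖P.derivative.eval z‖ ^ 2)) z)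
    (fun _ _ => zero_le) hζ

/-- The energy of one sheet, by change of variables. -/
lemma Good.lintegral_sheet (h : Good P g) {G : ℂ → ℝ≥0∞} {ζ : ℂ}
    (hζ : P.eval ζ = 0) {A : Set ℂ} (hA : MeasurableSet A) :
    ∫⁻ z in A, (sheet P ζ).indicator
      (fun z => G (P.eval z) * ENNReal.ofReal (‖P.derivative.eval z‖ ^ 2)) z =
      ∫⁻ w in {w | w ∈ dom P ∧ br P ζ w ∈ A}, G w := by
  classical
  rw [setLIntegral_indicator (h.isOpen_sheet hζ).measurableSet]
  have hset : sheet P ζ ∩ A = br P ζ '' {w | w ∈ dom P ∧ br P ζ w ∈ A} := by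
    ext z
    constructor
    · rintro ⟨⟨w, hw, rfl⟩, hz⟩
      exact ⟨w, ⟨hw, hz⟩, rfl⟩
    · rintro ⟨w, ⟨hw, hz⟩, rfl⟩
      exact ⟨⟨w, hw, rfl⟩, hz⟩
  have hms : MeasurableSet {w | w ∈ dom P ∧ br P ζ w ∈ A} := by
    have h1 : Measurable ((dom P).indicator (br P ζ)) := by
      have := (h.br_cont hζ).measurable_piecewise (g := 0) continuousOn_const
        h.isOpen_dom.measurableSet
      rwa [Set.piecewise_eq_indicator] at this
    have h2 : {w | w ∈ dom P ∧ br P ζ w ∈ A} = dom P ∩ (dom P).indicator (br P ζ) ⁻¹' A := by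
      ext w
      simp only [mem_ofPred_eq, mem_inter_iff, mem_preimage]
      constructor
      · rintro ⟨h3, h4⟩
        exact ⟨h3, by rwa [indicator_of_mem h3]⟩
      · rintro ⟨h3, h4⟩
        exact ⟨h3, by rwa [indicator_of_mem h3] at h4⟩
    rw [h2]
    exact h.isOpen_dom.measurableSet.inter (h1 hA)
  rw [hset, lintegral_image_holo (f' := fun w => (P.derivative.eval (br P ζ w))⁻¹) hms
    (fun w hw => h.br_hasDerivAt hζ hw.1)
    (fun w hw w' hw' he => (h.br_inj hζ hζ hw.1 hw'.1 he).2)]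
  apply setLIntegral_congr_fun hms
  intro w hw
  simp only
  rw [h.eval_br hζ hw.1]
  have hne := h.deriv_br_ne hζ hw.1
  have h1 : ENNReal.ofReal (‖(P.derivative.eval (br P ζ w))⁻¹‖ ^ 2) *
      ENNReal.ofReal (‖P.derivative.eval (br P ζ w)‖ ^ 2) = 1 := by
    rw [← ENNReal.ofReal_mul (by positivity), ← mul_pow, norm_inv,
      inv_mul_cancel₀ (norm_ne_zero_iff.mpr hne), one_pow, ENNReal.ofReal_one]
  calc _ = G w * (ENNReal.ofReal (‖(P.derivative.eval (br P ζ w))⁻¹‖ ^ 2) *
      ENNReal.ofReal (‖P.derivative.eval (br P ζ w)‖ ^ 2)) := by ring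
    _ = G w := by rw [h1, mul_one]

/-- Rotation invariance. -/
lemma lintegral_div_const {G : ℂ → ℝ≥0∞} {v : ℂ} (hv : ‖v‖ = 1) (R : ℝ) :
    ∫⁻ w in {w | ‖w‖ < R}, G (w / v) = ∫⁻ w in {w | ‖w‖ < R}, G w := by
  have hv0 : v ≠ 0 := by
    rintro rfl
    rw [norm_zero] at hv
    exact zero_ne_one hv
  have hv' : ‖v⁻¹‖ = 1 := by rw [norm_inv, hv, inv_one]
  let a : Circle := ⟨v⁻¹, by simpa [Submonoid.unitSphere] using hv'⟩
  have hmp : MeasurePreserving (fun w : ℂ => w / v) volume volume := by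
    have h1 := (rotation a).measurePreserving
    have h2 : (fun w : ℂ => w / v) = rotation a := by
      ext w
      rw [rotation_apply]
      simp [a, div_eq_mul_inv, mul_comm]
    rw [h2]
    exact h1
  have hme : MeasurableEmbedding (fun w : ℂ => w / v) := by
    have h2 : (fun w : ℂ => w / v) = rotation a := by
      ext w
      rw [rotation_apply]
      simp [a, div_eq_mul_inv, mul_comm]
    rw [h2]
    exact (rotation a).toHomeomorph.measurableEmbedding
  have h3 : {w : ℂ | ‖w‖ < R} = (fun w : ℂ => w / v) ⁻¹' {w : ℂ | ‖w‖ < R} := by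
    ext w
    simp only [mem_ofPred_eq, mem_preimage, norm_div, hv, div_one]
  conv_lhs => rw [h3]
  exact hmp.setLIntegral_comp_preimage_emb hme G _

lemma Good.lintegral_MM_le (h : Good P g) {N : ℕ} (hN : 0 < N) (hn : P.natDegree = N + 1)
    {hS : (cv P).Nonempty} {ε R r R₀ : ℝ}
    (hup : ∀ z, ‖z‖ < R₀ → ‖P.eval z‖ < R)
    (hlow : ∀ w ∈ dom P, ‖w‖ ≤ ε → ‖br P 0 w‖ ≤ r) :
    ∫⁻ z in {z | r < ‖z‖ ∧ ‖z‖ < R₀}, MM N P hS z ≤
      N * (∫⁻ w in {w | ‖w‖ < R}, dn N (z1 N) w) +
        ∫⁻ w in {w : ℂ | ε < ‖w‖ ∧ ‖w‖ < R}, dn N 0 (fold N (cv P) hS w) := by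
  set A : Set ℂ := {z | r < ‖z‖ ∧ ‖z‖ < R₀} with hA
  have hAm : MeasurableSet A :=
    (measurableSet_lt measurable_const measurable_norm).inter
      (measurableSet_lt measurable_norm measurable_const)
  have h0 : (0 : ℂ) ∈ zeros P := h.mem_zeros.mpr h.eval_zero
  have hsum : ∫⁻ z in A, MM N P hS z = ∑ ζ ∈ zeros P, ∫⁻ z in A, (sheet P ζ).indicator
      (fun z => mm N P hS ζ (P.eval z) * ENNReal.ofReal (‖P.derivative.eval z‖ ^ 2)) z := by
    unfold MM
    apply lintegral_finsetSum
    intro ζ hζ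
    apply Measurable.indicator _ (h.isOpen_sheet (h.mem_zeros.mp hζ)).measurableSet
    apply Measurable.mul
    · exact (h.measurable_mm hN ζ).comp P.continuous.measurable
    · have : Continuous fun z => P.derivative.eval z := P.derivative.continuous
      exact ((this.norm.pow 2).measurable).ennreal_ofReal
  rw [hsum, ← Finset.sum_erase_add _ _ h0]
  apply add_le_add
  · have hcard : ((zeros P).erase 0).card = N := by
      rw [Finset.card_erase_of_mem h0, h.card_zeros, hn]
      rfl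
    calc ∑ ζ ∈ (zeros P).erase 0, ∫⁻ z in A, (sheet P ζ).indicator
          (fun z => mm N P hS ζ (P.eval z) * ENNReal.ofReal (‖P.derivative.eval z‖ ^ 2)) z
        ≤ ∑ ζ ∈ (zeros P).erase 0, (∫⁻ w in {w | ‖w‖ < R}, dn N (z1 N) w) := by
          apply Finset.sum_le_sum
          intro ζ hζ
          rw [Finset.mem_erase] at hζ
          have hζ' := h.mem_zeros.mp hζ.2
          rw [h.lintegral_sheet (G := mm N P hS ζ) hζ' hAm]
          calc ∫⁻ w in {w | w ∈ dom P ∧ br P ζ w ∈ A}, mm N P hS ζ w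
              ≤ ∫⁻ w in {w | ‖w‖ < R}, mm N P hS ζ w := by
                apply lintegral_mono_set
                rintro w ⟨hw1, hw2⟩
                have := hup _ hw2.2
                rwa [h.eval_br hζ' hw1] at this
            _ = ∫⁻ w in {w | ‖w‖ < R}, dn N (z1 N) w := by
                unfold mm
                simp only [if_neg hζ.1]
                exact lintegral_div_const (h.lab_norm hζ' hζ.1) R
      _ = _ := by rw [Finset.sum_const, hcard, nsmul_eq_mul]
  · rw [h.lintegral_sheet (G := mm N P hS 0) h.eval_zero hAm]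
    have h2 : ∀ w, mm N P hS 0 w = dn N 0 (fold N (cv P) hS w) := by
      intro w
      unfold mm
      rw [if_pos rfl]
    simp_rw [h2]
    apply lintegral_mono_set
    rintro w ⟨hw1, hw2⟩
    refine ⟨?_, ?_⟩
    · by_contra hcon
      push Not at hcon
      exact absurd (hlow w hw1 hcon) (not_le.mpr hw2.1)
    · have := hup _ hw2.2
      rwa [h.eval_br h.eval_zero hw1] at this

end Pool.Agent.Hhelper90.BiUniv
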