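import Mathlib
import Pool.Agent.Hhelper90.BiUniv.Density

/-!
# Derivative of the test function along almost every ray
-/

set_option autoImplicit false

open Polynomial Set Filter Topology Metric MeasureTheory Bornology InnerProductGeometry
open scoped ENNReal Real ComplexConjugate

namespace Pool.Agent.Hhelper90.BiUniv

/-- The exceptional directions in the plane of values. -/
def Bad (N : ℕ) (S : Finset ℂ) : Set ℂ :=
  {b | ∃ v ∈ S, ∃ ω : ℂ, ω ^ N = 1 ∧ b = v * ω} ∪ {b | ∃ v ∈ S, b = v * eh N} ∪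
    {b | ∃ v ∈ S, b = v * conj (eh N)} ∪
    {b | ∃ v ∈ S, ∃ v' ∈ S, v ≠ v' ∧ b = Complex.I * (v - v')}

lemma finite_Bad {N : ℕ} (hN : 0 < N) (S : Finset ℂ) : (Bad N S).Finite := by
  have hroots : {ω : ℂ | ω ^ N = 1}.Finite := by
    have h1 : (X ^ N - 1 : ℂ[X]) ≠ 0 := X_pow_sub_C_ne_zero hN 1
    refine ((X ^ N - 1 : ℂ[X]).roots.toFinset.finite_toSet).subset fun ω hω => ?_
    simp only [mem_ofPred_eq] at hω
    simp [mem_roots h1, IsRoot, hω]
  unfold Bad
  refine (((Set.Finite.union ?_ ?_).union ?_).union ?_)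
  · refine ((S.finite_toSet.prod hroots).image fun p => p.1 * p.2).subset ?_
    rintro b ⟨v, hv, ω, hω, rfl⟩
    exact ⟨(v, ω), ⟨hv, hω⟩, rfl⟩
  · refine (S.finite_toSet.image fun v => v * eh N).subset ?_
    rintro b ⟨v, hv, rfl⟩
    exact ⟨v, hv, rfl⟩
  · refine (S.finite_toSet.image fun v => v * conj (eh N)).subset ?_
    rintro b ⟨v, hv, rfl⟩
    exact ⟨v, hv, rfl⟩
  · refine ((S.finite_toSet.prod S.finite_toSet).image
      fun p => Complex.I * (p.1 - p.2)).subset ?_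
    rintro b ⟨v, hv, v', hv', -, rfl⟩
    exact ⟨(v, v'), ⟨hv, hv'⟩, rfl⟩

lemma ne_zero_of_mem_Bad {N : ℕ} (hN : 0 < N) {S : Finset ℂ} (hS0 : ∀ v ∈ S, v ≠ 0) {b : ℂ}
    (hb : b ∈ Bad N S) : b ≠ 0 := by
  rcases hb with ((⟨v, hv, ω, hω, rfl⟩ | ⟨v, hv, rfl⟩) | ⟨v, hv, rfl⟩) | ⟨v, hv, v', hv', hne, rfl⟩
  · apply mul_ne_zero (hS0 v hv)
    rintro rfl
    rw [zero_pow hN.ne'] at hω
    exact zero_ne_one hω
  · exact mul_ne_zero (hS0 v hv) (eh_ne_zero N)
  · apply mul_ne_zero (hS0 v hv)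
    rw [Ne, map_eq_zero]
    exact eh_ne_zero N
  · exact mul_ne_zero Complex.I_ne_zero (sub_ne_zero.mpr hne)

lemma goodPt_of {N : ℕ} {S : Finset ℂ} (hS : S.Nonempty) {w : ℂ}
    (h : ∀ b ∈ Bad N S, (w * conj b).im ≠ 0) : GoodPt N S w := by
  refine ⟨?_, ?_, ?_, ?_, ?_⟩
  · rintro rfl
    obtain ⟨v, hv⟩ := hS
    apply h (v * 1) (Or.inl (Or.inl (Or.inl ⟨v, hv, 1, one_pow N, rfl⟩)))
    simp
  · intro v hv ω hω
    exact h _ (Or.inl (Or.inl (Or.inl ⟨v, hv, ω, hω, rfl⟩)))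
  · intro v hv
    exact h _ (Or.inl (Or.inl (Or.inr ⟨v, hv, rfl⟩)))
  · intro v hv
    exact h _ (Or.inl (Or.inr ⟨v, hv, rfl⟩))
  · intro v hv v' hv' hne
    exact h _ (Or.inr ⟨v, hv, v', hv', hne, rfl⟩)

/-- Zeros of the imaginary part of a polynomial on the real line. -/
lemma finite_im_eq_zero (p : ℂ[X]) (k : ℕ) (hk : (p.coeff k).im ≠ 0) :
    {ρ : ℝ | (p.eval (ρ : ℂ)).im = 0}.Finite := by
  set q : ℝ[X] := ∑ i ∈ Finset.range (p.natDegree + 1), monomial i (p.coeff i).im with hq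
  have hqc : q.coeff k = (p.coeff k).im := by
    rw [hq, finsetSum_coeff]
    simp only [coeff_monomial]
    rw [Finset.sum_ite_eq' (Finset.range (p.natDegree + 1)) k]
    rw [if_pos]
    rw [Finset.mem_range, Nat.lt_succ_iff]
    apply le_natDegree_of_ne_zero
    intro h0
    rw [h0] at hk
    exact hk rfl
  have hq0 : q ≠ 0 := by
    intro h0
    rw [h0, coeff_zero] at hqc
    exact hk hqc.symm
  refine (q.roots.toFinset.finite_toSet).subset fun ρ hρ => ?_
  simp only [mem_ofPred_eq] at hρ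
  simp only [Multiset.mem_toFinset, Finset.mem_coe, mem_roots hq0, IsRoot]
  rw [hq, eval_finsetSum]
  simp only [eval_monomial]
  rw [eval_eq_sum_range, Complex.im_sum] at hρ
  rw [← hρ]
  apply Finset.sum_congr rfl
  intro i _
  rw [← Complex.ofReal_pow, Complex.im_mul_ofReal]

/-- Only finitely many directions are parallel to a given vector. -/
lemma finite_dir {b : ℂ} (hb : b ≠ 0) :
    {φ : ℝ | φ ∈ Ioo (-π) π ∧ (Complex.exp (φ * Complex.I) * conj b).im = 0}.Finite := by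
  have hbc : conj b ≠ 0 := by rwa [Ne, map_eq_zero]
  refine (Set.toFinite {Complex.arg (‖b‖ / conj b), Complex.arg (-‖b‖ / conj b)}).subset ?_
  rintro φ ⟨hφ, him⟩
  have harg : Complex.arg (Complex.exp (φ * Complex.I)) = φ := by
    have := arg_mul_exp one_pos (θ := φ) ⟨hφ.1, hφ.2.le⟩
    rwa [Complex.ofReal_one, one_mul] at this
  set x := Complex.exp (φ * Complex.I) * conj b with hx
  have hnx : ‖x‖ = ‖b‖ := by
    rw [hx, norm_mul, Complex.norm_exp_ofReal_mul_I, one_mul, RCLike.norm_conj]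
  have hxr : x = (x.re : ℂ) := by
    apply Complex.ext
    · simp
    · rw [him, Complex.ofReal_im]
  have hexp : Complex.exp (φ * Complex.I) = x / conj b := by
    rw [hx, mul_div_cancel_right₀ _ hbc]
  have habs : |x.re| = ‖b‖ := by
    rw [← hnx]
    conv_rhs => rw [hxr]
    rw [Complex.norm_real, Real.norm_eq_abs]
  rw [hexp] at harg
  rcases abs_choice x.re with h1 | h1
  · left
    rw [← harg, hxr, ← habs, h1]
  · right
    rw [Set.mem_singleton_iff, ← harg, hxr, ← habs, h1]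
    simp

lemma Good.coeff_one {P : ℂ[X]} {g : ℂ → ℂ} (h : Good P g) : P.coeff 1 = 1 := by
  have h1 := h.deriv_zero
  rw [← coeff_zero_eq_eval_zero, coeff_derivative] at h1
  simpa using h1

lemma Good.ray_deriv {P : ℂ[X]} {g : ℂ → ℂ} (h : Good P g) {N : ℕ} (hN : 0 < N)
    {hS : (cv P).Nonempty} :
    ∀ᵐ (φ : ℝ) ∂(volume.restrict (Ioo (-π) π)), ∃ s : Set ℝ, s.Countable ∧ ∀ ρ, ρ ∉ s →
      ∃ d : ℝ, HasDerivAt (fun t : ℝ => Vt N P hS (t * Complex.exp (φ * Complex.I))) d ρ ∧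
        ENNReal.ofReal (d ^ 2) ≤ MM N P hS (ρ * Complex.exp (φ * Complex.I)) := by
  have hfin : {φ : ℝ | φ ∈ Ioo (-π) π ∧
      ∃ b ∈ Bad N (cv P), (Complex.exp (φ * Complex.I) * conj b).im = 0}.Finite := by
    refine ((finite_Bad hN (cv P)).biUnion fun b hb =>
      finite_dir (ne_zero_of_mem_Bad hN (fun v hv => h.cv_ne hv) hb)).subset ?_
    rintro φ ⟨hφ, b, hb, him⟩
    exact mem_biUnion hb ⟨hφ, him⟩
  filter_upwards [ae_restrict_mem measurableSet_Ioo,
    ae_restrict_of_ae (hfin.countable.ae_notMem volume)] with φ hφ hnot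
  have hgood : ∀ b ∈ Bad N (cv P), (Complex.exp (φ * Complex.I) * conj b).im ≠ 0 := by
    intro b hb him
    exact hnot ⟨hφ, b, hb, him⟩
  set e := Complex.exp (φ * Complex.I) with he
  have hne : ‖e‖ = 1 := Complex.norm_exp_ofReal_mul_I φ
  refine ⟨{ρ : ℝ | ∃ b ∈ Bad N (cv P), (P.eval ((ρ : ℂ) * e) * conj b).im = 0}, ?_, ?_⟩
  · apply Set.Finite.countable
    have : ∀ b ∈ Bad N (cv P), {ρ : ℝ | (P.eval ((ρ : ℂ) * e) * conj b).im = 0}.Finite := by
      intro b hb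
      have h1 := finite_im_eq_zero ((P.comp (C e * X)) * C (conj b)) 1 (by
        rw [coeff_mul_C, comp_C_mul_X_coeff, h.coeff_one, one_mul, pow_one]
        exact hgood b hb)
      refine h1.subset fun ρ hρ => ?_
      simp only [mem_ofPred_eq, eval_mul, eval_comp, eval_C, eval_X] at hρ ⊢
      rwa [mul_comm e]
    refine ((finite_Bad hN (cv P)).biUnion this).subset ?_
    rintro ρ ⟨b, hb, him⟩
    exact mem_biUnion hb him
  · intro ρ hρ
    have hgp : GoodPt N (cv P) (P.eval ((ρ : ℂ) * e)) := by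
      apply goodPt_of hS
      intro b hb him
      exact hρ ⟨b, hb, him⟩
    have hdom := h.mem_dom_of_goodPt hgp
    obtain ⟨ζ, hζ, hbr⟩ := h.exists_br_eq hdom
    have hζ' := h.mem_zeros.mp hζ
    have hmem : (ρ : ℂ) * e ∈ sheet P ζ := (h.mem_sheet_iff hζ').mpr ⟨hdom, hbr⟩
    have hline : HasDerivAt (fun t : ℝ => (t : ℂ) * e) e ρ := by
      have h1 := (Complex.ofRealCLM.hasDerivAt (x := ρ)).mul_const e
      simpa using h1
    have hpath : HasDerivAt (fun t : ℝ => P.eval ((t : ℂ) * e))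
        (P.derivative.eval ((ρ : ℂ) * e) * e) ρ :=
      HasDerivAt.comp (h₂ := fun z => P.eval z) ρ (P.hasDerivAt _) hline
    obtain ⟨d, hd, hle⟩ := exists_deriv_Vs h hN (hS := hS) hζ' hpath hgp
    refine ⟨d, ?_, ?_⟩
    · refine hd.congr_of_eventuallyEq ?_
      have hev : ∀ᶠ t : ℝ in 𝓝 ρ, (t : ℂ) * e ∈ sheet P ζ :=
        hline.continuousAt.eventually ((h.isOpen_sheet hζ').mem_nhds hmem)
      filter_upwards [hev] with t ht
      exact h.Vt_eq hN hζ (subset_closure ht)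
    · refine hle.trans ?_
      rw [norm_mul, hne, mul_one]
      exact h.le_MM hζ hmem

end Pool.Agent.Hhelper90.BiUniv
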