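import Mathlib
import Pool.Agent.Hhelper90.BiUniv.Rays

/-!
# The comparison theorem: the leading coefficient of a polynomial all of whose critical points are
boundary values of the root branch
-/

set_option autoImplicit false

open Polynomial Set Filter Topology Metric MeasureTheory Bornology InnerProductGeometry
open scoped ENNReal Real ComplexConjugate

namespace Pool.Agent.Hhelper90.BiUniv

variable {P : ℂ[X]} {g : ℂ → ℂ}

lemma Good.Vt_spec (h : Good P g) {N : ℕ} (hN : 0 < N) {hS : (cv P).Nonempty} {z : ℂ}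
    (hz : z ≠ 0) : ∃ y : ℂ, y ≠ 0 ∧ ‖(Q N).eval y‖ = ‖P.eval z‖ ∧
      Vt N P hS z = Real.log ‖y‖ := by
  obtain ⟨h1, h2⟩ := h.pick_spec z
  unfold Vt Vs
  by_cases h0 : pick P z = 0
  · rw [if_pos h0]
    rw [h0] at h2
    have hne := h.eval_ne_zero_of_root hz h2
    obtain ⟨y, hy0, hy, hu, -⟩ := uu_spec hN (Or.inl rfl)
      (w₀ := fold N (cv P) hS (P.eval z)) (Or.inl (fold_ne_zero hne))
    exact ⟨y, hy0, by rw [hy, norm_fold], hu⟩
  · rw [if_neg h0]
    obtain ⟨y, hy0, hy, hu, -⟩ := uu_spec hN (Or.inr rfl)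
      (w₀ := P.eval z / lab P (pick P z)) (Or.inr (z1_ne_zero hN))
    refine ⟨y, hy0, ?_, hu⟩
    rw [hy, norm_div, h.lab_norm (h.mem_zeros.mp h1) h0, div_one]

lemma Good.Vt_small (h : Good P g) {N : ℕ} (hN : 0 < N) {hS : (cv P).Nonempty} {η : ℝ}
    (hη : 0 < η) : ∃ κ > 0, ∀ z : ℂ, z ≠ 0 → ‖z‖ ≤ κ →
      Vt N P hS z ≤ Real.log ‖z‖ + 2 * η := by
  obtain ⟨gQ, hQ⟩ := exists_good_Q hN
  obtain ⟨κ₂, hκ₂, hb₂⟩ := h.near_zero
  obtain ⟨κ₃, hκ₃, hb₃⟩ := poly_small h.eval_zero h.deriv_zero hη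
  obtain ⟨κ₄, hκ₄, hb₄⟩ := hQ.br_small hη
  have hexp : 0 < Real.exp (-η) := Real.exp_pos _
  refine ⟨min (min κ₂ κ₃) (κ₄ * Real.exp (-η)), by positivity, fun z hz0 hz => ?_⟩
  have hz2 : ‖z‖ ≤ κ₂ := hz.trans ((min_le_left _ _).trans (min_le_left _ _))
  have hz3 : ‖z‖ ≤ κ₃ := hz.trans ((min_le_left _ _).trans (min_le_right _ _))
  have hz4 : ‖z‖ ≤ κ₄ * Real.exp (-η) := hz.trans (min_le_right _ _)
  obtain ⟨h1, h2⟩ := hb₂ z hz2
  have hdom : P.eval z ∈ dom P := h.ball_subset_dom (mem_ball_zero_iff.mpr h1)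
  have hsh : z ∈ sheet P 0 := (h.mem_sheet_iff h.eval_zero).mpr ⟨hdom, h2⟩
  have hcl := subset_closure hsh
  rw [h.Vt_eq hN (h.mem_zeros.mpr h.eval_zero) hcl]
  have hne := h.eval_ne_zero_of_root hz0 hcl
  unfold Vs
  rw [if_pos rfl]
  set w := fold N (cv P) hS (P.eval z) with hw
  have hwn : ‖w‖ = ‖P.eval z‖ := norm_fold _
  have hw0 : w ≠ 0 := fold_ne_zero hne
  have hwd : w ∈ dom (Q N) := hQ.ball_subset_dom (mem_ball_zero_iff.mpr (by rw [hwn]; exact h1))
  obtain ⟨h5, h6⟩ := uu_eq hN (Or.inl rfl) hwd (Or.inl hw0)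
  rw [h5]
  have h7 : ‖w‖ ≤ ‖z‖ * Real.exp η := by rw [hwn]; exact (hb₃ z hz3).2
  have h8 : ‖w‖ ≤ κ₄ := by
    refine h7.trans ?_
    calc ‖z‖ * Real.exp η ≤ (κ₄ * Real.exp (-η)) * Real.exp η := by gcongr
      _ = κ₄ := by rw [mul_assoc, ← Real.exp_add, neg_add_cancel, Real.exp_zero, mul_one]
  have h9 : ‖br (Q N) 0 w‖ ≤ ‖z‖ * Real.exp (2 * η) := by
    calc ‖br (Q N) 0 w‖ ≤ ‖w‖ * Real.exp η := (hb₄ w h8).2
      _ ≤ (‖z‖ * Real.exp η) * Real.exp η := by gcongr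
      _ = ‖z‖ * Real.exp (2 * η) := by rw [mul_assoc, ← Real.exp_add]; ring_nf
  have hzp : 0 < ‖z‖ := norm_pos_iff.mpr hz0
  calc Real.log ‖br (Q N) 0 w‖ ≤ Real.log (‖z‖ * Real.exp (2 * η)) :=
        Real.log_le_log (norm_pos_iff.mpr h6) h9
    _ = Real.log ‖z‖ + 2 * η := by
        rw [Real.log_mul hzp.ne' (Real.exp_pos _).ne', Real.log_exp]

lemma Good.Vt_large (h : Good P g) {N : ℕ} (hN : 0 < N) {hS : (cv P).Nonempty} {η : ℝ}
    (hη : 0 < η) : ∃ R' > 0, ∀ z : ℂ, z ≠ 0 → R' ≤ ‖P.eval z‖ →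
      Real.log ‖P.eval z‖ ≤ Real.log (aa N) + (N + 1) * Vt N P hS z + η := by
  have hQ0 : Q N ≠ 0 := by
    intro h0
    have := natDegree_Q hN
    rw [h0, natDegree_zero] at this
    omega
  obtain ⟨K, hK, hb⟩ := poly_large hQ0 hη
  obtain ⟨R', hR', hc⟩ := br_large (N := N) K
  refine ⟨R', hR', fun z hz hzR => ?_⟩
  obtain ⟨y, hy0, hy, hV⟩ := h.Vt_spec hN (hS := hS) hz
  have h1 : K ≤ ‖y‖ := hc y (by rw [hy]; exact hzR)
  have h2 := (hb y h1).2
  rw [leadingCoeff_Q hN, natDegree_Q hN, hy] at h2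
  have hyp : 0 < ‖y‖ := norm_pos_iff.mpr hy0
  have haa := aa_pos hN
  have hzp : 0 < ‖P.eval z‖ := lt_of_lt_of_le hR' hzR
  have h3 := Real.log_le_log hzp h2
  rw [Real.log_mul (by positivity) (Real.exp_pos _).ne', Real.log_exp,
    Real.log_mul haa.ne' (by positivity), Real.log_pow] at h3
  rw [hV]
  push_cast at h3
  linarith

/-- The main estimate with cutoffs. -/
lemma Good.log_leadingCoeff_le (h : Good P g) {N : ℕ} (hN : 0 < N) (hn : P.natDegree = N + 1)
    {η : ℝ} (hη : 0 < η) :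
    (Real.log ‖P.leadingCoeff‖ - Real.log (aa N)) / (N + 1) ≤ 16 * η := by
  obtain ⟨gQ, hQ⟩ := exists_good_Q hN
  have hS := h.cv_nonempty hN hn
  have hpos := hh_pos hN
  have hpi := Real.pi_pos
  have haa := aa_pos hN
  have hQ0 : Q N ≠ 0 := hQ.ne_zero
  set A := ‖P.leadingCoeff‖ with hA
  have hA0 : 0 < A := norm_pos_iff.mpr (leadingCoeff_ne_zero.mpr h.ne_zero)
  have hN1 : (0 : ℝ) < (N : ℝ) + 1 := by positivity
  set L := Real.log A - Real.log (aa N) with hL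
  set κ := η / (2 * hh N) with hκdef
  have hκ : 0 < κ := by positivity
  have hκη : 2 * (hh N * κ) = η := by rw [hκdef]; field_simp
  -- constants
  obtain ⟨KP, hKP, hbKP⟩ := poly_large h.ne_zero hη
  obtain ⟨KQ, hKQ, hbKQ⟩ := poly_large hQ0 hη
  obtain ⟨κ₁, hκ₁, hb₁⟩ := h.br_small hη
  obtain ⟨κ₂, hκ₂, hb₂⟩ := h.Vt_small hN (hS := hS) hη
  obtain ⟨κ₅, hκ₅, hb₅⟩ := hQ.near_zero
  obtain ⟨κ₆, hκ₆, hb₆⟩ := poly_small hQ.eval_zero hQ.deriv_zero hη
  obtain ⟨ε₀, hε₀, hbε₀⟩ := Phi_near_zero hN hκ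
  obtain ⟨Rt, hRt, hbRt⟩ := Phi_near_top hN hκ
  obtain ⟨R', hR', hbR'⟩ := h.Vt_large hN (hS := hS) hη
  obtain ⟨MP, hMP⟩ : ∃ M : ℝ, ∀ z : ℂ, ‖z‖ ≤ KP → ‖P.eval z‖ ≤ M := by
    obtain ⟨M, hM⟩ := (isCompact_closedBall (0 : ℂ) KP).exists_bound_of_continuousOn
      P.continuous.continuousOn
    exact ⟨M, fun z hz => hM z (mem_closedBall_zero_iff.mpr hz)⟩
  -- the inner radius
  set r := min (min (min κ₁ κ₂) (min κ₅ κ₆)) ε₀ with hr
  have hr0 : 0 < r := by positivity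
  have hr1 : r ≤ κ₁ := (min_le_left _ _).trans ((min_le_left _ _).trans (min_le_left _ _))
  have hr2 : r ≤ κ₂ := (min_le_left _ _).trans ((min_le_left _ _).trans (min_le_right _ _))
  have hr5 : r ≤ κ₅ := (min_le_left _ _).trans ((min_le_right _ _).trans (min_le_left _ _))
  have hr6 : r ≤ κ₆ := (min_le_left _ _).trans ((min_le_right _ _).trans (min_le_right _ _))
  have hrε : r ≤ ε₀ := min_le_right _ _
  set ε := r * Real.exp (-(2 * η)) with hε
  have hε0 : 0 < ε := by positivity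
  have hexp_le : ∀ x : ℝ, 0 ≤ x → Real.exp (-x) ≤ 1 := fun x hx => by
    rw [Real.exp_le_one_iff]; linarith
  have hεr : ε ≤ r := by
    calc ε ≤ r * 1 := by
          rw [hε]; gcongr; exact hexp_le _ (by positivity)
      _ = r := mul_one r
  set r₁ := r * Real.exp (-(4 * η)) with hr₁
  have hr₁0 : 0 < r₁ := by positivity
  have hr₁r : r₁ ≤ r := by
    calc r₁ ≤ r * 1 := by
          rw [hr₁]; gcongr; exact hexp_le _ (by positivity)
      _ = r := mul_one r
  -- the outer radius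
  set W := max (max Rt R') (max (max (MP + 1) (ε + 1))
    (aa N * (KQ + r₁ + 1) ^ (N + 1))) with hW
  obtain ⟨R₀, hR₀K, hR₀r, hR₀W⟩ : ∃ R₀ : ℝ, KP ≤ R₀ ∧ r < R₀ ∧
      W ≤ A * R₀ ^ (N + 1) * Real.exp (-η) := by
    have h1 : Tendsto (fun x : ℝ => A * x ^ (N + 1) * Real.exp (-η)) atTop atTop := by
      apply Tendsto.atTop_mul_const (Real.exp_pos _)
      exact (tendsto_pow_atTop (Nat.succ_ne_zero N)).const_mul_atTop hA0
    obtain ⟨x, h2, h3, h4⟩ := ((eventually_ge_atTop KP).and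
      ((eventually_gt_atTop r).and (h1.eventually_ge_atTop W))).exists
    exact ⟨x, h2, h3, h4⟩
  have hR₀0 : 0 < R₀ := hr0.trans hR₀r
  set R := A * R₀ ^ (N + 1) * Real.exp (2 * η) with hR
  have hlowR : A * R₀ ^ (N + 1) * Real.exp (-η) ≤ R := by
    rw [hR]
    gcongr
    linarith
  have hWR : W ≤ R := hR₀W.trans hlowR
  have hR0 : 0 < R := by positivity
  have hRRt : Rt ≤ R := ((le_max_left _ _).trans (le_max_left _ _)).trans hWR
  have hRMP : MP < R := by
    have : MP + 1 ≤ R :=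
      ((le_max_left _ _).trans ((le_max_left _ _).trans (le_max_right _ _))).trans hWR
    linarith
  have hεR : ε < R := by
    have : ε + 1 ≤ R :=
      ((le_max_right _ _).trans ((le_max_left _ _).trans (le_max_right _ _))).trans hWR
    linarith
  have hR'W : R' ≤ A * R₀ ^ (N + 1) * Real.exp (-η) :=
    ((le_max_right _ _).trans (le_max_left _ _)).trans hR₀W
  set R₁ := R₀ * Real.exp ((L + 3 * η) / (N + 1)) with hR₁
  have hR₁0 : 0 < R₁ := by positivity
  have hR₁pow : aa N * R₁ ^ (N + 1) = R * Real.exp η := by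
    rw [hR₁, mul_pow, ← Real.exp_nat_mul]
    have h1 : ((N + 1 : ℕ) : ℝ) * ((L + 3 * η) / (N + 1)) = L + 3 * η := by
      push_cast
      field_simp
    rw [h1, Real.exp_add, hL, Real.exp_sub, Real.exp_log hA0, Real.exp_log haa, hR]
    have h2 : Real.exp (3 * η) = Real.exp (2 * η) * Real.exp η := by
      rw [← Real.exp_add]; ring_nf
    rw [h2]
    field_simp
  have hR₁K : KQ + r₁ + 1 ≤ R₁ := by
    have h1 : aa N * (KQ + r₁ + 1) ^ (N + 1) ≤ aa N * R₁ ^ (N + 1) := by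
      rw [hR₁pow]
      have h2 : aa N * (KQ + r₁ + 1) ^ (N + 1) ≤ R :=
        ((le_max_right _ _).trans (le_max_right _ _)).trans hWR
      have h3 : 1 ≤ Real.exp η := Real.one_le_exp hη.le
      nlinarith
    have h4 := le_of_mul_le_mul_left h1 haa
    exact le_of_pow_le_pow_left₀ (Nat.succ_ne_zero N) hR₁0.le h4
  have hR₁KQ : KQ ≤ R₁ := by linarith
  have hr₁R₁ : r₁ < R₁ := by linarith
  -- bounds for the branches of the extremal polynomial
  have hupper : ∀ y : ℂ, ‖(Q N).eval y‖ < R → ‖y‖ < R₁ := by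
    intro y hy
    by_contra hcon
    push Not at hcon
    have h1 := (hbKQ y (hR₁KQ.trans hcon)).1
    rw [leadingCoeff_Q hN, natDegree_Q hN] at h1
    have h2 : aa N * R₁ ^ (N + 1) * Real.exp (-η) ≤ aa N * ‖y‖ ^ (N + 1) * Real.exp (-η) := by
      gcongr
    rw [hR₁pow, mul_assoc, ← Real.exp_add, add_neg_cancel, Real.exp_zero, mul_one] at h2
    linarith
  have hb0 : ∀ w ∈ sec N, ε < ‖w‖ → ‖w‖ < R →
      r₁ < ‖br (Q N) 0 w‖ ∧ ‖br (Q N) 0 w‖ < R₁ := by
    intro w hw hw1 hw2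
    have hwd := sec_subset_dom hN hw
    have he := hQ.eval_br hQ.eval_zero hwd
    constructor
    · by_contra hcon
      push Not at hcon
      have h1 := (hb₆ _ (hcon.trans (hr₁r.trans hr6))).2
      rw [he] at h1
      have h2 : ‖w‖ ≤ r₁ * Real.exp η := h1.trans (by gcongr)
      have h3 : r₁ * Real.exp η ≤ ε := by
        rw [hr₁, hε, mul_assoc, ← Real.exp_add]
        gcongr
        linarith
      linarith
    · exact hupper _ (by rw [he]; exact hw2)
  have hb1 : ∀ w ∈ dom (Q N), w.im < 0 → ‖w‖ < R →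
      r₁ < ‖br (Q N) (z1 N) w‖ ∧ ‖br (Q N) (z1 N) w‖ < R₁ := by
    intro w hw _ hw2
    have he := hQ.eval_br (eval_Q_z1 hN) hw
    constructor
    · by_contra hcon
      push Not at hcon
      have h1 := (hb₅ _ (hcon.trans (hr₁r.trans hr5))).2
      rw [he] at h1
      have h2 := (hQ.br_inj hQ.eval_zero (eval_Q_z1 hN) hw hw h1).1
      exact z1_ne_zero hN h2.symm
    · exact hupper _ (by rw [he]; exact hw2)
  -- the energies
  have hE := energy_bound' hN hε0 hr₁0 hr₁R₁ hb0 hb1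
  have hcmp : ∀ δ ∈ Ioc 0 (hh N), EE N ε R (hh N) ≤ EE N ε R δ + ENNReal.ofReal η := by
    intro δ hδ
    have := EE_mid_le hN hε0 hεR hδ (κ := κ) (c := (1 / ((N : ℝ) + 1)) ^ 2)
      (fun w hw => hbε₀ w (by rw [hw]; exact hεr.trans hrε))
      (fun w hw hwR => hbRt w hw (by rw [hwR]; exact hRRt))
    rwa [hκη] at this
  have hroot := root_energy hN (hS := hS) (fun v hv => h.cv_norm hv) (cv_card hn) hε0 hcmp
  have hup : ∀ z : ℂ, ‖z‖ < R₀ → ‖P.eval z‖ < R := by
    intro z hz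
    rcases le_or_gt ‖z‖ KP with h1 | h1
    · exact lt_of_le_of_lt (hMP z h1) hRMP
    · have h2 := (hbKP z h1.le).2
      rw [hn] at h2
      calc ‖P.eval z‖ ≤ A * ‖z‖ ^ (N + 1) * Real.exp η := h2
        _ ≤ A * R₀ ^ (N + 1) * Real.exp η := by gcongr
        _ < A * R₀ ^ (N + 1) * Real.exp (2 * η) := by
            apply mul_lt_mul_of_pos_left _ (by positivity)
            apply Real.exp_lt_exp.mpr
            linarith
  have hlow : ∀ w ∈ dom P, ‖w‖ ≤ ε → ‖br P 0 w‖ ≤ r := by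
    intro w _ hw
    have h1 := (hb₁ w (hw.trans (hεr.trans hr1))).2
    calc ‖br P 0 w‖ ≤ ‖w‖ * Real.exp η := h1
      _ ≤ ε * Real.exp η := by gcongr
      _ = r * Real.exp (-η) := by
          rw [hε, mul_assoc, ← Real.exp_add]; ring_nf
      _ ≤ r * 1 := by gcongr; exact hexp_le _ hη.le
      _ = r := mul_one r
  have hMM := h.lintegral_MM_le hN hn (hS := hS) hup hlow
  set B := 2 * π * Real.log (R₁ / r₁) + 2 * π * η with hB
  have hlogpos : 0 ≤ Real.log (R₁ / r₁) := by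
    apply Real.log_nonneg
    rw [le_div_iff₀ hr₁0]
    linarith
  have hB0 : 0 ≤ B := by positivity
  have hMMB : ∫⁻ z in {z | r < ‖z‖ ∧ ‖z‖ < R₀}, MM N P hS z ≤ ENNReal.ofReal B := by
    calc ∫⁻ z in {z | r < ‖z‖ ∧ ‖z‖ < R₀}, MM N P hS z
        ≤ N * (∫⁻ w in {w | ‖w‖ < R}, dn N (z1 N) w) +
          ∫⁻ w in {w : ℂ | ε < ‖w‖ ∧ ‖w‖ < R}, dn N 0 (fold N (cv P) hS w) := hMM
      _ ≤ N * (∫⁻ w in {w | ‖w‖ < R}, dn N (z1 N) w) +
          (2 * N * (∫⁻ δ in Ioo 0 (hh N), EE N ε R δ) +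
            ENNReal.ofReal (2 * π) * ENNReal.ofReal η) := by gcongr
      _ = (2 * N * (∫⁻ δ in Ioo 0 (hh N), EE N ε R δ) +
          N * (∫⁻ w in {w | ‖w‖ < R}, dn N (z1 N) w)) +
            ENNReal.ofReal (2 * π) * ENNReal.ofReal η := by ring
      _ ≤ ENNReal.ofReal (2 * π * Real.log (R₁ / r₁)) +
            ENNReal.ofReal (2 * π) * ENNReal.ofReal η := by gcongr
      _ = ENNReal.ofReal B := by
          rw [← ENNReal.ofReal_mul (by positivity), ← ENNReal.ofReal_add (by positivity)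
            (by positivity)]
  have hVc := h.continuousOn_Vt hN (hS := hS)
  have hla := length_area hr0 hR₀r (V := Vt N P hS) (hVc.mono fun z hz => by
      simp only [mem_compl_iff, mem_singleton_iff]
      rintro rfl
      have := hz.1
      rw [norm_zero] at this
      linarith) (h.measurable_MM hN) hB0 hMMB (by
      filter_upwards [h.ray_deriv hN (hS := hS)] with φ hφ
      obtain ⟨s, hs, hd⟩ := hφ
      exact ⟨s, hs, fun ρ hρ => hd ρ hρ.2⟩)
  -- pointwise bounds on the two circles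
  have hne0 : ∀ {ρ φ : ℝ}, 0 < ρ → (ρ : ℂ) * Complex.exp (φ * Complex.I) ≠ 0 := by
    intro ρ φ hρ h0
    have := norm_mul_exp (φ := φ) hρ.le
    rw [h0, norm_zero] at this
    linarith
  set c := L / (N + 1) + Real.log R₀ - 2 * η / (N + 1) - Real.log r - 2 * η with hc
  have hpt : ∀ φ : ℝ, c ≤ Vt N P hS (R₀ * Complex.exp (φ * Complex.I)) -
      Vt N P hS (r * Complex.exp (φ * Complex.I)) := by
    intro φ
    have h1 := hb₂ (r * Complex.exp (φ * Complex.I)) (hne0 hr0)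
      (by rw [norm_mul_exp hr0.le]; exact hr2)
    rw [norm_mul_exp hr0.le] at h1
    have h2 := (hbKP ((R₀ : ℂ) * Complex.exp (φ * Complex.I))
      (by rw [norm_mul_exp hR₀0.le]; exact hR₀K)).1
    rw [norm_mul_exp hR₀0.le, hn, ← hA] at h2
    have h3 := hbR' ((R₀ : ℂ) * Complex.exp (φ * Complex.I)) (hne0 hR₀0) (hR'W.trans h2)
    have h4 := Real.log_le_log (by positivity) h2
    rw [Real.log_mul (by positivity) (Real.exp_pos _).ne', Real.log_exp,
      Real.log_mul hA0.ne' (by positivity), Real.log_pow] at h4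
    push_cast at h4
    set V := Vt N P hS (R₀ * Complex.exp (φ * Complex.I))
    have h5 : L + (N + 1) * Real.log R₀ - 2 * η ≤ (N + 1) * V := by
      rw [hL]; linarith
    have h6 : (L + (N + 1) * Real.log R₀ - 2 * η) / (N + 1) ≤ V := by
      rw [div_le_iff₀ hN1]
      linarith
    have h7 : (L + (N + 1) * Real.log R₀ - 2 * η) / (N + 1) =
        L / (N + 1) + Real.log R₀ - 2 * η / (N + 1) := by
      field_simp
    rw [h7] at h6
    rw [hc]
    linarith
  have hcont : ∀ {ρ : ℝ}, 0 < ρ → Integrable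
      (fun φ : ℝ => Vt N P hS (ρ * Complex.exp (φ * Complex.I)))
        (volume.restrict (Ioo (-π) π)) := by
    intro ρ hρ
    have hcc : Continuous fun φ : ℝ => Vt N P hS (ρ * Complex.exp (φ * Complex.I)) := by
      rw [← continuousOn_univ]
      apply hVc.comp (by fun_prop)
      intro φ _
      exact hne0 hρ
    exact (hcc.integrableOn_Icc (a := -π) (b := π)).mono_set Ioo_subset_Icc_self
  have hmono := integral_mono (integrable_const c) ((hcont hR₀0).sub (hcont hr0)) hpt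
  have h2 : (volume.restrict (Ioo (-π) π)).real univ = 2 * π := by
    rw [measureReal_restrict_apply_univ, Real.volume_real_Ioo_of_le (by linarith [Real.pi_pos])]
    ring
  rw [integral_const, h2, smul_eq_mul] at hmono
  have hfin : 2 * π * c ≤ B / 2 + π * Real.log (R₀ / r) := hmono.trans hla
  have hlog1 : Real.log (R₁ / r₁) = Real.log R₀ + (L + 3 * η) / (N + 1) -
      Real.log r + 4 * η := by
    rw [Real.log_div hR₁0.ne' hr₁0.ne', hR₁, hr₁, Real.log_mul hR₀0.ne' (Real.exp_pos _).ne',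
      Real.log_mul hr0.ne' (Real.exp_pos _).ne', Real.log_exp, Real.log_exp]
    ring
  have hlog2 : Real.log (R₀ / r) = Real.log R₀ - Real.log r := Real.log_div hR₀0.ne' hr0.ne'
  have hfin2 : 2 * c ≤ Real.log (R₁ / r₁) + η + Real.log (R₀ / r) := by
    have h3 : π * (2 * c) ≤ π * (Real.log (R₁ / r₁) + η + Real.log (R₀ / r)) := by
      have h4 : B / 2 = π * Real.log (R₁ / r₁) + π * η := by rw [hB]; ring
      rw [h4] at hfin
      linarith
    exact le_of_mul_le_mul_left h3 hpi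
  rw [hlog1, hlog2, hc] at hfin2
  have h8 : η / (N + 1) ≤ η := by
    apply div_le_self hη.le
    linarith [Nat.cast_nonneg (α := ℝ) N]
  have h9 : (L + 3 * η) / (N + 1) = L / (N + 1) + 3 * (η / (N + 1)) := by ring
  have h10 : 2 * η / (N + 1) = 2 * (η / (N + 1)) := by ring
  rw [h9, h10] at hfin2
  linarith

/-- The comparison theorem. -/
theorem Good.leadingCoeff_le (h : Good P g) {N : ℕ} (hN : 0 < N) (hn : P.natDegree = N + 1) :
    ‖P.leadingCoeff‖ ≤ aa N := by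
  have haa := aa_pos hN
  have hA0 : 0 < ‖P.leadingCoeff‖ := norm_pos_iff.mpr (leadingCoeff_ne_zero.mpr h.ne_zero)
  have hN1 : (0 : ℝ) < (N : ℝ) + 1 := by positivity
  have h1 : (Real.log ‖P.leadingCoeff‖ - Real.log (aa N)) / (N + 1) ≤ 0 := by
    apply le_of_forall_pos_le_add
    intro δ hδ
    have := h.log_leadingCoeff_le hN hn (η := δ / 16) (by positivity)
    linarith
  have h2 : Real.log ‖P.leadingCoeff‖ - Real.log (aa N) ≤ 0 := by
    rw [div_le_iff₀ hN1] at h1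
    linarith
  exact (Real.log_le_log_iff hA0 haa).mp (by linarith)

end Pool.Agent.Hhelper90.BiUniv
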