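import Mathlib
import Pool.Agent.Hhelper90.BiUniv.Class
import Pool.Agent.Lib.Montel

/-!
# Existence of an extremal polynomial
-/

set_option autoImplicit false

open Polynomial Set Filter Topology Metric
open scoped ComplexConjugate

namespace Pool.Agent.Hhelper90.BiUniv

variable {n : ℕ}

lemma kk_X (hn : 1 ≤ n) : KK n (X : ℂ[X]) id := by
  refine ⟨?_, ?_, ?_, differentiableOn_id, rfl, ?_⟩
  · rw [natDegree_X]; exact hn
  · simp
  · simp
  · intro w _
    simp

/-- Growth bound in a simple form. -/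
lemma KK.growth' {P : ℂ[X]} {g : ℂ → ℂ} (h : KK n P g) {r : ℝ} (hr : r < 1) {w : ℂ}
    (hw : ‖w‖ ≤ r) : ‖g w‖ ≤ 4 / (1 - r) ^ 2 := by
  have hw1 : ‖w‖ < 1 := lt_of_le_of_lt hw hr
  have h1 := h.growth (w := w) (mem_ball_zero_iff.mpr hw1)
  have h0 : 0 ≤ ‖w‖ := norm_nonneg w
  have h2 : 0 < 1 - ‖w‖ := by linarith
  have h3 : 0 < 1 - r := by linarith
  refine h1.trans ?_
  have h4 : ‖w‖ * (1 + ‖w‖) ^ 2 ≤ 4 := by
    have h5 : (1 + ‖w‖) ^ 2 ≤ 4 := by nlinarith
    nlinarith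
  gcongr

/-- Existence of an extremal polynomial. -/
theorem exists_max (hn : 1 ≤ n) : ∃ P g, KK n P g ∧
    ∀ P' g', KK n P' g' → ‖P'.coeff n‖ ≤ ‖P.coeff n‖ := by
  set S : Set ℝ := {x | ∃ P g, KK n P g ∧ ‖P.coeff n‖ = x} with hS
  have hne : S.Nonempty := ⟨_, X, id, kk_X hn, rfl⟩
  have hbdd : BddAbove S := by
    refine ⟨400 ^ n, ?_⟩
    rintro x ⟨P, g, hP, rfl⟩
    exact hP.coeff_le n
  set s := sSup S with hs
  have hseq : ∀ j : ℕ, ∃ P g, KK n P g ∧ s - 1 / ((j : ℝ) + 1) < ‖P.coeff n‖ := by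
    intro j
    obtain ⟨x, ⟨P, g, hP, rfl⟩, hx⟩ := exists_lt_of_lt_csSup hne
      (show s - 1 / ((j : ℝ) + 1) < s by
        have : 0 < 1 / ((j : ℝ) + 1) := by positivity
        linarith)
    exact ⟨P, g, hP, hx⟩
  choose P g hP hlt using hseq
  set p : Ultrafilter ℕ := hyperfilter ℕ with hp
  have hple : (p : Filter ℕ) ≤ atTop := by
    rw [← Nat.cofinite_eq_atTop]
    exact hyperfilter_le_cofinite
  obtain ⟨G, hGd, hG⟩ := Pool.Agent.Lib.Montel.exists_tendstoLocallyUniformlyOn_ultrafilter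
    (U := ball (0 : ℂ) 1) isOpen_ball (fun j => (hP j).diff) (by
      intro K hK hKc
      obtain ⟨r, hr, hKr⟩ : ∃ r < 1, ∀ z ∈ K, ‖z‖ ≤ r := by
        rcases K.eq_empty_or_nonempty with rfl | hKne
        · exact ⟨0, by norm_num, fun z hz => absurd hz (notMem_empty z)⟩
        · obtain ⟨z₀, hz₀, hmax⟩ := hKc.exists_isMaxOn hKne continuous_norm.continuousOn
          exact ⟨‖z₀‖, mem_ball_zero_iff.mp (hK hz₀), fun z hz => hmax hz⟩
      exact ⟨4 / (1 - r) ^ 2, fun j z hz => (hP j).growth' hr (hKr z hz)⟩) p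
  have hcoef : ∀ k : ℕ, ∃ a : ℂ, Tendsto (fun j => (P j).coeff k) p (𝓝 a) := by
    intro k
    have h1 : ((p.map (fun j => (P j).coeff k) : Ultrafilter ℂ) : Filter ℂ) ≤
        𝓟 (closedBall (0 : ℂ) (400 ^ k)) := by
      rw [le_principal_iff]
      change (fun j => (P j).coeff k) ⁻¹' (closedBall (0 : ℂ) (400 ^ k)) ∈ (p : Filter ℕ)
      refine Filter.univ_mem' fun j => ?_
      simpa using (hP j).coeff_le k
    obtain ⟨c, -, hc⟩ := (isCompact_closedBall (0 : ℂ) (400 ^ k)).ultrafilter_le_nhds _ h1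
    exact ⟨c, hc⟩
  choose a ha using hcoef
  set P₀ : ℂ[X] := ∑ k ∈ Finset.range (n + 1), monomial k (a k) with hP₀
  have hP₀c : ∀ k, k ≤ n → P₀.coeff k = a k := by
    intro k hk
    rw [hP₀, finsetSum_coeff]
    simp only [coeff_monomial]
    rw [Finset.sum_ite_eq' (Finset.range (n + 1)) k, if_pos]
    rw [Finset.mem_range]
    omega
  have hP₀e : ∀ z, P₀.eval z = ∑ k ∈ Finset.range (n + 1), a k * z ^ k := by
    intro z
    rw [hP₀, eval_finsetSum]
    simp only [eval_monomial]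
  have hGpt : ∀ w ∈ ball (0 : ℂ) 1, Tendsto (fun j => g j w) p (𝓝 (G w)) := fun w hw =>
    hG.tendsto_at hw
  refine ⟨P₀, G, ⟨?_, ?_, ?_, hGd, ?_, ?_⟩, ?_⟩
  · rw [hP₀]
    apply natDegree_sum_le_of_forall_le
    intro k hk
    rw [Finset.mem_range] at hk
    exact (natDegree_monomial_le _).trans (by omega)
  · rw [hP₀c 0 (Nat.zero_le n)]
    refine tendsto_nhds_unique (ha 0) ?_
    simp_rw [(hP _).coeff_zero]
    exact tendsto_const_nhds
  · rw [hP₀c 1 hn]
    refine tendsto_nhds_unique (ha 1) ?_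
    simp_rw [(hP _).coeff_one]
    exact tendsto_const_nhds
  · refine tendsto_nhds_unique (hGpt 0 (mem_ball_self one_pos)) ?_
    simp_rw [(hP _).g_zero]
    exact tendsto_const_nhds
  · intro w hw
    have h1 : Tendsto (fun j => (P j).eval (g j w)) p (𝓝 (P₀.eval (G w))) := by
      have h2 : ∀ j, (P j).eval (g j w) =
          ∑ k ∈ Finset.range (n + 1), (P j).coeff k * (g j w) ^ k := fun j =>
        eval_eq_sum_range' (Nat.lt_succ_of_le (hP j).deg) _
      simp_rw [h2, hP₀e]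
      apply tendsto_finsetSum
      intro k _
      exact (ha k).mul ((hGpt w hw).pow k)
    refine tendsto_nhds_unique h1 ?_
    simp_rw [(hP _).lift w hw]
    exact tendsto_const_nhds
  · intro P' g' hP'
    have h1 : ‖P'.coeff n‖ ≤ s := le_csSup hbdd ⟨P', g', hP', rfl⟩
    refine h1.trans ?_
    rw [hP₀c n le_rfl]
    have h2 : Tendsto (fun j => ‖(P j).coeff n‖) p (𝓝 ‖a n‖) := (ha n).norm
    have h3 : Tendsto (fun j : ℕ => s - 1 / ((j : ℝ) + 1)) p (𝓝 s) := by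
      have h4 : Tendsto (fun j : ℕ => s - 1 / ((j : ℝ) + 1)) atTop (𝓝 (s - 0)) :=
        tendsto_const_nhds.sub tendsto_one_div_add_atTop_nhds_zero_nat
      rw [sub_zero] at h4
      exact h4.mono_left hple
    exact le_of_tendsto_of_tendsto' h3 h2 fun j => (hlt j).le

end Pool.Agent.Hhelper90.BiUniv
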