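import Mathlib
import Pool.Agent.Hhelper90.BiUniv.Extremal

/-!
# Inverting a perturbation of the identity, and Taylor bounds for polynomials
-/

set_option autoImplicit false

open Polynomial Set Filter Topology Metric
open scoped ComplexConjugate NNReal

namespace Pool.Agent.Hhelper90.BiUniv

/-- A perturbation of the identity on the unit disc has an inverse on a slightly smaller disc. -/
theorem exists_inverse_perturb {e : ℂ → ℂ} (he : DifferentiableOn ℂ e (ball 0 1)) (he0 : e 0 = 0)
    {η ρ : ℝ} (hη : 0 < η) (hρ0 : 0 < ρ) (hρ : ρ < 1) (hb : ∀ w ∈ ball (0 : ℂ) 1, ‖e w‖ ≤ η)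
    (hL : 4 * η ≤ 1 - ρ) (hηρ : η < ρ) :
    ∃ W : ℂ → ℂ, DifferentiableOn ℂ W (ball 0 (ρ - η)) ∧ W 0 = 0 ∧
      ∀ u ∈ ball (0 : ℂ) (ρ - η), W u ∈ ball (0 : ℂ) 1 ∧ W u + e (W u) = u := by
  have hsub : closedBall (0 : ℂ) ρ ⊆ ball 0 1 := closedBall_subset_ball hρ
  have hderiv : ∀ w ∈ closedBall (0 : ℂ) ρ, ‖deriv e w‖ ≤ 1 / 2 := by
    intro w hw
    have hr : 0 < (1 - ρ) / 2 := by linarith
    have hcl : closedBall w ((1 - ρ) / 2) ⊆ ball 0 1 := by
      intro z hz
      rw [mem_closedBall] at hz hw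
      rw [mem_ball]
      calc dist z 0 ≤ dist z w + dist w 0 := dist_triangle _ _ _
        _ ≤ (1 - ρ) / 2 + ρ := add_le_add hz hw
        _ < 1 := by linarith
    have h1 := Complex.norm_deriv_le_of_forall_mem_sphere_norm_le (f := e) (c := w) (C := η) hr
      (by
        apply DifferentiableOn.diffContOnCl
        rw [closure_ball _ hr.ne']
        exact he.mono hcl)
      (fun z hz => hb z (hcl (sphere_subset_closedBall hz)))
    refine h1.trans ?_
    rw [div_le_iff₀ hr]
    linarith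
  have hlip : ∀ w ∈ closedBall (0 : ℂ) ρ, ∀ w' ∈ closedBall (0 : ℂ) ρ,
      ‖e w - e w'‖ ≤ 1 / 2 * ‖w - w'‖ := by
    intro w hw w' hw'
    exact (convex_closedBall (0 : ℂ) ρ).norm_image_sub_le_of_norm_deriv_le (𝕜 := ℂ)
      (fun z hz => he.differentiableAt (isOpen_ball.mem_nhds (hsub hz))) hderiv hw' hw
  have hfix : ∀ u ∈ ball (0 : ℂ) (ρ - η), ∃ w ∈ closedBall (0 : ℂ) ρ, w + e w = u := by
    intro u hu
    rw [mem_ball_zero_iff] at hu
    have hmaps : MapsTo (fun w => u - e w) (closedBall (0 : ℂ) ρ) (closedBall (0 : ℂ) ρ) := by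
      intro w hw
      rw [mem_closedBall_zero_iff]
      calc ‖u - e w‖ ≤ ‖u‖ + ‖e w‖ := norm_sub_le _ _
        _ ≤ (ρ - η) + η := add_le_add hu.le (hb w (hsub hw))
        _ = ρ := by ring
    have hK : ContractingWith (1 / 2 : ℝ≥0) (hmaps.restrict _ _ _) := by
      constructor
      · rw [← NNReal.coe_lt_coe]
        push_cast
        norm_num
      · apply LipschitzWith.of_dist_le_mul
        rintro ⟨w, hw⟩ ⟨w', hw'⟩
        rw [Subtype.dist_eq, Subtype.dist_eq, dist_eq_norm, dist_eq_norm]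
        simp only [MapsTo.val_restrict_apply]
        have h1 := hlip w' hw' w hw
        have h2 : u - e w - (u - e w') = e w' - e w := by ring
        rw [h2]
        push_cast
        rw [norm_sub_rev w w']
        exact h1
    obtain ⟨y, hy, hfy, -⟩ := hK.exists_fixedPoint' (isCompact_closedBall (0 : ℂ) ρ).isComplete
      hmaps (x := 0) (mem_closedBall_self hρ0.le) (edist_ne_top _ _)
    refine ⟨y, hy, ?_⟩
    have h3 : u - e y = y := hfy
    linear_combination -h3
  classical
  set W : ℂ → ℂ := fun u => if hu : u ∈ ball (0 : ℂ) (ρ - η) then (hfix u hu).choose else 0 with hW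
  have hWspec : ∀ u ∈ ball (0 : ℂ) (ρ - η), W u ∈ closedBall (0 : ℂ) ρ ∧ W u + e (W u) = u := by
    intro u hu
    have h1 : W u = (hfix u hu).choose := by rw [hW]; simp only [dif_pos hu]
    rw [h1]
    exact (hfix u hu).choose_spec
  have hWlip : ∀ u ∈ ball (0 : ℂ) (ρ - η), ∀ u' ∈ ball (0 : ℂ) (ρ - η),
      ‖W u - W u'‖ ≤ 2 * ‖u - u'‖ := by
    intro u hu u' hu'
    obtain ⟨h1, h2⟩ := hWspec u hu
    obtain ⟨h3, h4⟩ := hWspec u' hu'
    have h5 := hlip _ h1 _ h3
    have h6 : W u - W u' = (u - u') - (e (W u) - e (W u')) := by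
      linear_combination h2 - h4
    have h7 : ‖W u - W u'‖ ≤ ‖u - u'‖ + ‖e (W u) - e (W u')‖ := by
      conv_lhs => rw [h6]
      exact norm_sub_le _ _
    linarith
  have h0mem : (0 : ℂ) ∈ ball (0 : ℂ) (ρ - η) := mem_ball_self (by linarith)
  refine ⟨W, ?_, ?_, fun u hu => ⟨hsub (hWspec u hu).1, (hWspec u hu).2⟩⟩
  · intro u hu
    apply DifferentiableAt.differentiableWithinAt
    obtain ⟨h1, h2⟩ := hWspec u hu
    have hcont : ContinuousAt W u := by
      rw [Metric.continuousAt_iff']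
      intro δ hδ
      have h3 : ball u (δ / 2) ∈ 𝓝 u := ball_mem_nhds _ (by positivity)
      filter_upwards [isOpen_ball.mem_nhds hu, h3] with u' hu' hu''
      rw [dist_eq_norm]
      rw [mem_ball, dist_eq_norm] at hu''
      have := hWlip u' hu' u hu
      linarith
    have hF : HasDerivAt (fun w => w + e w) (1 + deriv e (W u)) (W u) :=
      (hasDerivAt_id _).add (he.differentiableAt (isOpen_ball.mem_nhds (hsub h1))).hasDerivAt
    have hne : 1 + deriv e (W u) ≠ 0 := by
      intro h0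
      have h3 := hderiv _ h1
      have h4 : deriv e (W u) = -1 := by linear_combination h0
      rw [h4, norm_neg, norm_one] at h3
      norm_num at h3
    refine (HasDerivAt.of_local_left_inverse (f := fun w => w + e w) hcont hF hne
      ?_).differentiableAt
    filter_upwards [isOpen_ball.mem_nhds hu] with u' hu'
    exact (hWspec u' hu').2
  · obtain ⟨h1, h2⟩ := hWspec 0 h0mem
    have h3 := hlip _ h1 0 (mem_closedBall_self hρ0.le)
    rw [he0, sub_zero, sub_zero] at h3
    have h4 : W 0 = - e (W 0) := by linear_combination h2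
    have h5 : ‖W 0‖ = ‖e (W 0)‖ := by
      conv_lhs => rw [h4, norm_neg]
    have h6 : ‖W 0‖ ≤ 0 := by linarith
    exact norm_le_zero_iff.mp h6

/-- First order bound. -/
lemma poly_lip (p : ℂ[X]) (M : ℝ) : ∃ C : ℝ, 0 ≤ C ∧ ∀ x y : ℂ, ‖x‖ ≤ M → ‖y‖ ≤ M →
    ‖p.eval (x + y) - p.eval x‖ ≤ C * ‖y‖ := by
  obtain ⟨C, hC⟩ := (isCompact_closedBall (0 : ℂ) (2 * M)).exists_bound_of_continuousOn
    p.derivative.continuous.continuousOn
  refine ⟨|C|, abs_nonneg _, fun x y hx hy => ?_⟩
  have hx' : x ∈ closedBall (0 : ℂ) (2 * M) := by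
    rw [mem_closedBall_zero_iff]
    linarith [norm_nonneg x]
  have hxy : x + y ∈ closedBall (0 : ℂ) (2 * M) := by
    rw [mem_closedBall_zero_iff]
    linarith [norm_add_le x y]
  have h1 := (convex_closedBall (0 : ℂ) (2 * M)).norm_image_sub_le_of_norm_hasDerivWithin_le
    (f := fun z => p.eval z) (f' := fun z => p.derivative.eval z) (C := |C|)
    (fun z _ => (p.hasDerivAt z).hasDerivWithinAt) (fun z hz => (hC z hz).trans (le_abs_self C))
    hx' hxy
  simpa using h1

/-- Second order bound. -/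
lemma poly_quad (p : ℂ[X]) (M : ℝ) : ∃ C : ℝ, 0 ≤ C ∧ ∀ x y : ℂ, ‖x‖ ≤ M → ‖y‖ ≤ M →
    ‖p.eval (x + y) - p.eval x - p.derivative.eval x * y‖ ≤ C * ‖y‖ ^ 2 := by
  obtain ⟨C, hC0, hC⟩ := poly_lip p.derivative M
  refine ⟨C, hC0, fun x y hx hy => ?_⟩
  have h1 := (convex_closedBall (0 : ℂ) ‖y‖).norm_image_sub_le_of_norm_hasDerivWithin_le
    (f := fun t => p.eval (x + t) - p.derivative.eval x * t)
    (f' := fun t => p.derivative.eval (x + t) - p.derivative.eval x) (C := C * ‖y‖)
    (fun t _ => by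
      have h2 : HasDerivAt (fun t => p.eval (x + t)) (p.derivative.eval (x + t)) t := by
        have h3 := HasDerivAt.comp (h₂ := fun z => p.eval z) t (p.hasDerivAt (x + t))
          ((hasDerivAt_id t).const_add x)
        rw [mul_one] at h3
        exact h3
      have h4 : HasDerivAt (fun t : ℂ => p.derivative.eval x * t) (p.derivative.eval x) t := by
        simpa using (hasDerivAt_id t).const_mul (p.derivative.eval x)
      exact (h2.sub h4).hasDerivWithinAt)
    (fun t ht => by
      rw [mem_closedBall_zero_iff] at ht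
      refine (hC x t hx (ht.trans hy)).trans ?_
      gcongr)
    (mem_closedBall_self (norm_nonneg y)) (show y ∈ closedBall (0 : ℂ) ‖y‖ by
      rw [mem_closedBall_zero_iff])
  simp only [add_zero, mul_zero, sub_zero] at h1
  have h5 : p.eval (x + y) - p.eval x - p.derivative.eval x * y =
      p.eval (x + y) - p.derivative.eval x * y - p.eval x := by ring
  rw [h5]
  refine h1.trans (le_of_eq ?_)
  ring

end Pool.Agent.Hhelper90.BiUniv
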