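import Mathlib
import Pool.Agent.Hhelper90.BiUniv.Perturb
import Pool.Agent.Hhelper90.BiUniv.Compare

/-!
# The variation: at an extremal polynomial all critical points are on the boundary
-/

set_option autoImplicit false

open Polynomial Set Filter Topology Metric
open scoped ComplexConjugate NNReal

namespace Pool.Agent.Hhelper90.BiUniv

variable {n : ℕ} {P : ℂ[X]} {g : ℂ → ℂ}

lemma KK.natDegree_pos (h : KK n P g) : 0 < P.natDegree := by
  by_contra hcon
  have h1 : P.natDegree = 0 := by omega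
  have h2 : P.coeff 1 = 0 := coeff_eq_zero_of_natDegree_lt (by omega)
  rw [h.coeff_one] at h2
  exact one_ne_zero h2

lemma KK.exists_bound (h : KK n P g) : ∃ M : ℝ, 1 ≤ M ∧ ∀ w ∈ ball (0 : ℂ) 1, ‖g w‖ ≤ M := by
  obtain ⟨M, hM⟩ := (isCompact_preimage h.natDegree_pos (0 : ℂ) 1).isBounded.exists_norm_le
  refine ⟨max M 1, le_max_right _ _, fun w hw => (hM _ ?_).trans (le_max_left _ _)⟩
  simp only [mem_preimage, h.lift w hw]
  exact ball_subset_closedBall hw

lemma exists_quotient (hn : P.natDegree ≤ n) (hd : P.derivative ≠ 0) {c : ℂ}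
    (hc : P.derivative.eval c = 0) : ∃ q : ℂ[X], P.derivative = (X - C c) * q ∧
      q.natDegree + 2 ≤ n ∧ q.coeff (n - 2) = P.coeff n * n := by
  obtain ⟨q, hq⟩ := dvd_iff_isRoot.mpr (show P.derivative.IsRoot c from hc)
  have hq0 : q ≠ 0 := by
    rintro rfl
    rw [mul_zero] at hq
    exact hd hq
  have h1 : P.derivative.natDegree = 1 + q.natDegree := by
    rw [hq, natDegree_mul (X_sub_C_ne_zero c) hq0, natDegree_X_sub_C]
  have h2 : P.derivative.natDegree ≤ P.natDegree - 1 := natDegree_derivative_le P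
  have h3 : 0 < P.natDegree := by
    by_contra hcon
    have h4 : P.natDegree = 0 := by omega
    rw [eq_C_of_natDegree_eq_zero h4, derivative_C] at hd
    exact hd rfl
  have h5 : q.natDegree + 2 ≤ n := by omega
  refine ⟨q, hq, h5, ?_⟩
  obtain ⟨m, rfl⟩ : ∃ m, n = m + 2 := ⟨n - 2, by omega⟩
  have h6 : (m + 2 - 2) = m := by omega
  rw [h6]
  have h7 : P.derivative.coeff (m + 1) = P.coeff (m + 2) * ((m + 2 : ℕ) : ℂ) := by
    rw [coeff_derivative]
    push_cast
    ring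
  rw [← h7, hq, sub_mul, coeff_sub, coeff_X_mul, coeff_C_mul,
    coeff_eq_zero_of_natDegree_lt (show q.natDegree < m + 1 by omega), mul_zero, sub_zero]

lemma final_ineq {n : ℕ} {τ s : ℝ} (hn2 : 2 ≤ n) (hτ0 : 0 < τ) (hτn : 8 * n * τ ≤ 1)
    (hτ1 : τ ≤ 1 / 16) (hs : 1 - 2 * τ ^ 3 ≤ s) : 1 < (1 + n * τ ^ 2) * s ^ (n - 1) := by
  have hnr : (2 : ℝ) ≤ n := by exact_mod_cast hn2
  have hτ3 : 0 < τ ^ 3 := by positivity
  have hτ3' : τ ^ 3 ≤ 1 / 4096 := by
    calc τ ^ 3 ≤ (1 / 16) ^ 3 := by gcongr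
      _ = 1 / 4096 := by norm_num
  have h3 : 1 + ((n - 1 : ℕ) : ℝ) * (-(2 * τ ^ 3)) ≤ (1 + -(2 * τ ^ 3)) ^ (n - 1) :=
    one_add_mul_le_pow (by linarith) _
  have h4 : (1 + -(2 * τ ^ 3)) ^ (n - 1) ≤ s ^ (n - 1) := by
    apply pow_le_pow_left₀ (by linarith)
    linarith
  have h5 : ((n - 1 : ℕ) : ℝ) ≤ n := by exact_mod_cast Nat.sub_le n 1
  have h6 : 1 - n * (2 * τ ^ 3) ≤ s ^ (n - 1) := by
    have : ((n - 1 : ℕ) : ℝ) * (2 * τ ^ 3) ≤ n * (2 * τ ^ 3) := by gcongr
    linarith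
  set ε := τ ^ 2 with hε
  have hε0 : 0 < ε := by positivity
  have h8 : (1 + n * ε) * (1 - n * (2 * τ ^ 3)) ≤ (1 + n * ε) * s ^ (n - 1) := by gcongr
  have h12 : 0 < n * ε := by positivity
  have h9 : n * ε ≤ 1 := by
    have : n * ε = (8 * n * τ) * (τ / 8) := by rw [hε]; ring
    rw [this]
    calc (8 * n * τ) * (τ / 8) ≤ 1 * 1 := by
          apply mul_le_mul hτn (by linarith) (by positivity) one_pos.le
      _ = 1 := one_mul 1
  have h11 : n * (2 * τ ^ 3) = n * ε * (2 * τ) := by rw [hε]; ring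
  have h13 : (1 + n * ε) * (1 - n * ε * (2 * τ)) =
      1 + n * ε * (1 - 2 * τ * (1 + n * ε)) := by ring
  have h15 : 2 * τ * (1 + n * ε) ≤ 2 * τ * 2 := by gcongr; linarith
  have h14 : 0 < 1 - 2 * τ * (1 + n * ε) := by linarith
  have h10 : 1 < (1 + n * ε) * (1 - n * (2 * τ ^ 3)) := by
    rw [h11, h13]
    linarith [mul_pos h12 h14]
  linarith

/-- The variation. -/
theorem KK.variation (h : KK n P g) (ha : P.coeff n ≠ 0) {c : ℂ}
    (hc : P.derivative.eval c = 0) (hcl : c ∉ closure (g '' ball 0 1)) :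
    ∃ P' g', KK n P' g' ∧ ‖P.coeff n‖ < ‖P'.coeff n‖ := by
  have hd : P.derivative ≠ 0 := by
    intro h0
    have := h.deriv_zero
    rw [h0, Polynomial.eval_zero] at this
    exact zero_ne_one this
  obtain ⟨q, hq, hqd, hqc⟩ := exists_quotient h.deg hd hc
  have hn2 : 2 ≤ n := by omega
  obtain ⟨M, hM1, hM⟩ := h.exists_bound
  obtain ⟨δ, hδ, hball⟩ : ∃ δ > 0, ∀ w ∈ ball (0 : ℂ) 1, δ ≤ ‖g w - c‖ := by
    have h1 : (closure (g '' ball 0 1))ᶜ ∈ 𝓝 c := isClosed_closure.isOpen_compl.mem_nhds hcl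
    obtain ⟨δ, hδ, hsub⟩ := Metric.mem_nhds_iff.mp h1
    refine ⟨δ, hδ, fun w hw => ?_⟩
    by_contra hcon
    push Not at hcon
    exact hsub (mem_ball.mpr (by rw [dist_eq_norm]; exact hcon))
      (subset_closure ⟨w, hw, rfl⟩)
  have hgc : ∀ w ∈ ball (0 : ℂ) 1, g w - c ≠ 0 := by
    intro w hw h0
    have := hball w hw
    rw [h0, norm_zero] at this
    linarith
  set H : ℂ[X] := X ^ 2 * q with hH
  set φ : ℂ → ℂ := fun w => g w ^ 2 / (g w - c) with hφ
  set M₁ := M ^ 2 / δ with hM₁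
  have hM₁0 : 0 < M₁ := by positivity
  have hφb : ∀ w ∈ ball (0 : ℂ) 1, ‖φ w‖ ≤ M₁ := by
    intro w hw
    rw [hφ, hM₁]
    simp only [norm_div, norm_pow]
    have := hM w hw
    have := hball w hw
    gcongr
  have hφd : DifferentiableOn ℂ φ (ball 0 1) := by
    apply DifferentiableOn.div (h.diff.pow 2) (h.diff.sub_const c) hgc
  set M' := max M M₁ with hM'
  obtain ⟨C₁, hC₁0, hC₁⟩ := poly_lip H M'
  obtain ⟨C₂, hC₂0, hC₂⟩ := poly_quad P M'
  set B := C₂ * M₁ ^ 2 + C₁ * M₁ + 1 with hB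
  have hB1 : 1 ≤ B := by
    have : 0 ≤ C₂ * M₁ ^ 2 := by positivity
    have : 0 ≤ C₁ * M₁ := by positivity
    linarith
  -- choice of the parameter
  have hnr : (2 : ℝ) ≤ n := by exact_mod_cast hn2
  set τ : ℝ := 1 / (8 * n + 4 * B) with hτ
  have hτ0 : 0 < τ := by positivity
  have hτn : 8 * n * τ ≤ 1 := by
    rw [hτ, mul_one_div, div_le_one (by positivity)]
    linarith
  have hτB : 4 * B * τ ≤ 1 := by
    rw [hτ, mul_one_div, div_le_one (by positivity)]
    linarith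
  have hτ1 : τ ≤ 1 / 16 := by nlinarith
  set ε := τ ^ 2 with hε
  have hε0 : 0 < ε := by positivity
  have hε1 : ε ≤ 1 := by rw [hε]; nlinarith
  set η := B * τ ^ 4 with hη
  have hη0 : 0 < η := by positivity
  set ρ := 1 - τ ^ 3 with hρ
  have hτ3 : 0 < τ ^ 3 := by positivity
  have hτ3' : τ ^ 3 ≤ 1 / 4096 := by
    calc τ ^ 3 ≤ (1 / 16) ^ 3 := by gcongr
      _ = 1 / 4096 := by norm_num
  have hητ : 4 * η ≤ τ ^ 3 := by
    have : 4 * η = (4 * B * τ) * τ ^ 3 := by rw [hη]; ring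
    rw [this]
    nlinarith
  -- the perturbed polynomial
  set Pε : ℂ[X] := P + C (ε : ℂ) * H with hPε
  set k : ℂ → ℂ := fun w => g w + (-(ε : ℂ) * φ w) with hk
  set e : ℂ → ℂ := fun w => Pε.eval (k w) - w with he
  have hkd : DifferentiableOn ℂ k (ball 0 1) := h.diff.add (hφd.const_mul _)
  have hed : DifferentiableOn ℂ e (ball 0 1) := by
    apply DifferentiableOn.sub _ differentiableOn_id
    exact Pε.differentiable.comp_differentiableOn hkd
  have hH0 : H.eval 0 = 0 := by rw [hH, eval_mul, eval_pow, eval_X]; ring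
  have hk0 : k 0 = 0 := by
    rw [hk, hφ]
    simp [h.g_zero]
  have he0 : e 0 = 0 := by
    rw [he]
    simp only [hk0]
    rw [hPε, eval_add, eval_mul, hH0, h.eval_zero]
    simp
  have heb : ∀ w ∈ ball (0 : ℂ) 1, ‖e w‖ ≤ η := by
    intro w hw
    have hgM : ‖g w‖ ≤ M' := (hM w hw).trans (le_max_left _ _)
    have hεn : ‖-(ε : ℂ)‖ = ε := by
      rw [norm_neg, Complex.norm_real, Real.norm_eq_abs, abs_of_pos hε0]
    have hyn : ‖-(ε : ℂ) * φ w‖ ≤ ε * M₁ := by
      rw [norm_mul, hεn]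
      have := hφb w hw
      gcongr
    have hyM : ‖-(ε : ℂ) * φ w‖ ≤ M' := by
      refine hyn.trans ?_
      calc ε * M₁ ≤ 1 * M₁ := by gcongr
        _ = M₁ := one_mul _
        _ ≤ M' := le_max_right _ _
    have h1 := hC₂ (g w) (-(ε : ℂ) * φ w) hgM hyM
    have h2 := hC₁ (g w) (-(ε : ℂ) * φ w) hgM hyM
    have h3 : P.derivative.eval (g w) * φ w = H.eval (g w) := by
      rw [hq, hH, hφ]
      simp only [eval_mul, eval_sub, eval_X, eval_C, eval_pow]
      have := hgc w hw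
      field_simp
    have h4 : e w = (P.eval (g w + (-(ε : ℂ) * φ w)) - P.eval (g w) -
        P.derivative.eval (g w) * (-(ε : ℂ) * φ w)) +
        (ε : ℂ) * (H.eval (g w + (-(ε : ℂ) * φ w)) - H.eval (g w)) := by
      rw [he]
      simp only
      rw [hPε, eval_add, eval_mul, eval_C, hk]
      simp only
      rw [h.lift w hw]
      linear_combination (ε : ℂ) * (-h3)
    rw [h4]
    calc ‖_ + _‖ ≤ ‖(P.eval (g w + (-(ε : ℂ) * φ w)) - P.eval (g w) -
          P.derivative.eval (g w) * (-(ε : ℂ) * φ w))‖ +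
          ‖(ε : ℂ) * (H.eval (g w + (-(ε : ℂ) * φ w)) - H.eval (g w))‖ := norm_add_le _ _
      _ ≤ C₂ * (ε * M₁) ^ 2 + ε * (C₁ * (ε * M₁)) := by
          apply add_le_add
          · refine h1.trans ?_
            gcongr
          · rw [norm_mul, Complex.norm_real, Real.norm_eq_abs, abs_of_pos hε0]
            gcongr
            refine h2.trans ?_
            gcongr
      _ = (C₂ * M₁ ^ 2 + C₁ * M₁) * ε ^ 2 := by ring
      _ ≤ B * ε ^ 2 := by
          gcongr
          linarith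
      _ = η := by rw [hη, hε]; ring
  obtain ⟨W, hWd, hW0, hW⟩ := exists_inverse_perturb hed he0 hη0 (ρ := ρ) (by linarith)
    (by linarith) heb (by rw [hρ]; linarith) (by linarith)
  set s := ρ - η with hs
  have hs0 : 0 < s := by linarith
  have hs1 : s < 1 := by linarith
  have hsc : (s : ℂ) ≠ 0 := by exact_mod_cast hs0.ne'
  have hslow : 1 - 2 * τ ^ 3 ≤ s := by linarith
  -- the coefficients
  have hHdeg : H.natDegree ≤ n := by
    refine (natDegree_mul_le).trans ?_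
    rw [natDegree_X_pow]
    omega
  have hHc : H.coeff n = P.coeff n * n := by
    rw [hH, coeff_X_pow_mul', if_pos hn2, hqc]
  have hHc0 : H.coeff 0 = 0 := by rw [hH, coeff_X_pow_mul']; simp
  have hHc1 : H.coeff 1 = 0 := by rw [hH, coeff_X_pow_mul']; simp
  set P' : ℂ[X] := C (s : ℂ)⁻¹ * Pε.comp (C (s : ℂ) * X) with hP'
  have hP'c : ∀ j, P'.coeff j = (s : ℂ)⁻¹ * (Pε.coeff j * (s : ℂ) ^ j) := by
    intro j
    rw [hP', coeff_C_mul, comp_C_mul_X_coeff]
  have hmaps : ∀ w ∈ ball (0 : ℂ) 1, (s : ℂ) * w ∈ ball (0 : ℂ) s := by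
    intro w hw
    rw [mem_ball_zero_iff] at hw ⊢
    rw [norm_mul, Complex.norm_real, Real.norm_eq_abs, abs_of_pos hs0]
    nlinarith
  refine ⟨P', fun w => k (W (s * w)) / s, ⟨?_, ?_, ?_, ?_, ?_, ?_⟩, ?_⟩
  · rw [hP']
    refine (natDegree_C_mul_le _ _).trans ?_
    refine natDegree_comp_le.trans ?_
    have h1 : (C (s : ℂ) * X).natDegree ≤ 1 :=
      (natDegree_C_mul_le _ _).trans natDegree_X_le
    have h2 : Pε.natDegree ≤ n := by
      rw [hPε]
      refine natDegree_add_le_of_degree_le h.deg ?_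
      exact (natDegree_C_mul_le _ _).trans hHdeg
    calc Pε.natDegree * (C (s : ℂ) * X).natDegree ≤ n * 1 := Nat.mul_le_mul h2 h1
      _ = n := mul_one n
  · rw [hP'c, hPε, coeff_add, coeff_C_mul, hHc0, h.coeff_zero]
    ring
  · rw [hP'c, hPε, coeff_add, coeff_C_mul, hHc1, h.coeff_one]
    field_simp
    ring
  · apply DifferentiableOn.div_const
    have h1 : DifferentiableOn ℂ (fun w : ℂ => W (s * w)) (ball 0 1) :=
      hWd.comp (by fun_prop) hmaps
    exact hkd.comp h1 fun w hw => (hW _ (hmaps w hw)).1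
  · simp only [mul_zero, hW0, hk0, zero_div]
  · intro w hw
    obtain ⟨h1, h2⟩ := hW _ (hmaps w hw)
    rw [hP', eval_mul, eval_C, eval_comp, eval_mul, eval_C, eval_X, mul_div_cancel₀ _ hsc]
    have h3 : Pε.eval (k (W (s * w))) = s * w := by
      have h4 : Pε.eval (k (W (s * w))) = W (s * w) + e (W (s * w)) := by
        rw [he]
        ring
      rw [h4, h2]
    rw [h3]
    field_simp
  · rw [hP'c, hPε, coeff_add, coeff_C_mul, hHc]
    have h1 : (s : ℂ)⁻¹ * ((P.coeff n + (ε : ℂ) * (P.coeff n * n)) * (s : ℂ) ^ n) =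
        P.coeff n * (((1 + n * ε) * s ^ (n - 1) : ℝ) : ℂ) := by
      obtain ⟨m, rfl⟩ : ∃ m, n = m + 1 := ⟨n - 1, by omega⟩
      rw [Nat.add_sub_cancel, pow_succ]
      push_cast
      field_simp
    rw [h1, norm_mul, Complex.norm_real, Real.norm_eq_abs]
    have h2 : 1 < (1 + n * ε) * s ^ (n - 1) := final_ineq hn2 hτ0 hτn hτ1 hslow
    have h3 : 0 < ‖P.coeff n‖ := norm_pos_iff.mpr ha
    rw [abs_of_pos (by linarith)]
    exact lt_mul_of_one_lt_right h3 h2

/-- If every critical point is in the closure of the image of the inverse, the comparison theorem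
applies. -/
theorem KK.good (h : KK n P g)
    (hcl : ∀ c, P.derivative.eval c = 0 → c ∈ closure (g '' ball 0 1)) : Good P g := by
  have hseq : ∀ c, P.derivative.eval c = 0 → ∃ w : ℕ → ℂ, (∀ j, w j ∈ ball (0 : ℂ) 1) ∧
      Tendsto w atTop (𝓝 (P.eval c)) ∧ Tendsto (fun j => g (w j)) atTop (𝓝 c) := by
    intro c hc
    obtain ⟨x, hx, hlim⟩ := mem_closure_iff_seq_limit.mp (hcl c hc)
    choose w hw hwx using hx
    refine ⟨w, hw, ?_, ?_⟩
    · have h1 : Tendsto (fun j => P.eval (x j)) atTop (𝓝 (P.eval c)) :=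
        (P.continuous.tendsto c).comp hlim
      refine h1.congr fun j => ?_
      rw [← hwx j, h.lift _ (hw j)]
    · exact hlim.congr fun j => (hwx j).symm
  have hnorm : ∀ c, P.derivative.eval c = 0 → ‖P.eval c‖ = 1 := by
    intro c hc
    obtain ⟨w, hw, h1, h2⟩ := hseq c hc
    have hle : ‖P.eval c‖ ≤ 1 := by
      refine le_of_tendsto h1.norm (Eventually.of_forall fun j => ?_)
      exact (mem_ball_zero_iff.mp (hw j)).le
    rcases hle.eq_or_lt with h3 | h3
    · exact h3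
    · exfalso
      have hmem : P.eval c ∈ ball (0 : ℂ) 1 := mem_ball_zero_iff.mpr h3
      have hcont : ContinuousAt g (P.eval c) := (h.hasDerivAt hmem).continuousAt
      have h4 : g (P.eval c) = c := tendsto_nhds_unique (hcont.tendsto.comp h1) h2
      have h5 := h.mul_deriv hmem
      rw [h4, hc, zero_mul] at h5
      exact zero_ne_one h5
  refine ⟨h.eval_zero, h.deriv_zero, h.diff.continuousOn, h.g_zero, h.lift, hnorm, ?_⟩
  intro c hc
  obtain ⟨w, hw, h1, h2⟩ := hseq c hc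
  have hmem : P.eval c ∈ closure (ball (0 : ℂ) 1) :=
    mem_closure_of_tendsto h1 (Eventually.of_forall hw)
  obtain ⟨y, -, hy⟩ := exists_tendsto_lift_convex h.natDegree_pos (convex_ball (0 : ℂ) 1) hmem
    h.diff.continuousOn h.lift
  have h3 : Tendsto w atTop (𝓝[ball 0 1] (P.eval c)) :=
    tendsto_nhdsWithin_iff.mpr ⟨h1, Eventually.of_forall hw⟩
  have h4 : y = c := tendsto_nhds_unique (hy.comp h3) h2
  rw [← h4]
  rw [h4]
  rw [h4] at hy
  exact hy

/-- The coefficient bound for all polynomials with an inverse on the unit disc. -/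
theorem KK.coeff_le_aa {N : ℕ} (hN : 0 < N) {P : ℂ[X]} {g : ℂ → ℂ} (h : KK (N + 1) P g) :
    ‖P.coeff (N + 1)‖ ≤ aa N := by
  obtain ⟨P₀, g₀, h₀, hmax⟩ := exists_max (n := N + 1) (by omega)
  refine (hmax P g h).trans ?_
  by_cases ha : P₀.coeff (N + 1) = 0
  · rw [ha, norm_zero]
    exact (aa_pos hN).le
  have hgood : Good P₀ g₀ := by
    apply h₀.good
    intro c hc
    by_contra hcon
    obtain ⟨P', g', hP', hlt⟩ := h₀.variation ha hc hcon
    exact absurd (hmax P' g' hP') (not_le.mpr hlt)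
  have hdeg : P₀.natDegree = N + 1 := le_antisymm h₀.deg (le_natDegree_of_ne_zero ha)
  have h1 := hgood.leadingCoeff_le hN hdeg
  rwa [leadingCoeff, hdeg] at h1

end Pool.Agent.Hhelper90.BiUniv
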